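import Pool.Agent.Run7.h504.Eq

set_option autoImplicit false

/-! The equation `a p = b q + c` for random constants `c`: all coefficients and all lengths at the same time. -/

namespace Pool.Agent.Run7.h504.Eq

open Finset Filter
open Pool.Agent.H373R2.T7
open Pool.Agent.H807R2.Dav
open Pool.Agent.Run7.h504.Pair
open Pool.Agent.Y820.LF (nuF singF AdmF cntF)
open Pool.Agent.Results.MP_bf63dc_nt.BoundedlyManyPowers (Cf Hf)

/-- the conclusion for all coefficients and all lengths -/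
def Good (ε : ℝ) (A U N c : ℕ) : Prop :=
  ∀ j a b u v : ℕ, (j : ℝ) ≤ Real.log N ^ A → 1 ≤ a → 1 ≤ b → a * b ≤ j → 1 ≤ c → Nat.Coprime a b →
    1 ≤ v → v ≤ a → a * u = b * v + c → AdmF (Cf a b) (Hf u v) → Concl ε U N (N / j) a b c u v

/-- the error along one equation -/
noncomputable def err (z a b c X : ℕ) : ℝ :=
  |cor (fun n => ArithmeticFunction.vonMangoldt n) (fun n => ArithmeticFunction.vonMangoldt n) a b c X -
    cor (lamz z) (lamz z) a b c X|

open Classical in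
/-- all coefficients and all lengths at the same time -/
theorem union (A B U V B0 : ℕ) (hV : V = 4 * A + 2 * U + 4) (ε : ℝ) (hε : 0 < ε) :
    ∃ E N₀ : ℕ, ∀ N, N₀ ≤ N → ∀ (Ω : Finset ℕ) (p : ℕ → ℝ) (s : ℕ → ℕ), (∀ m ∈ Ω, 0 ≤ p m) → (∀ m ∈ Ω, s m ≤ B * N) →
    (∀ z : ℕ, Real.log N ^ B0 ≤ z → (z : ℝ) ≤ Real.log N ^ E → ∀ a b X : ℕ, 1 ≤ a → 1 ≤ b → b * X ≤ N →
      ∑ m ∈ Ω, p m * err z a b (s m) X ≤ N / Real.log N ^ V) →
    ∑ m ∈ Ω, (if ¬ Good ε A U N (s m) then p m else 0) ≤ 1 / Real.log N ^ U := by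
  obtain ⟨E1, hE1⟩ : ∃ E1, E1 = B0 + (U + A + 9) := ⟨_, rfl⟩
  obtain ⟨n1, h1⟩ := Pool.Agent.N699.ST.size_x A
  obtain ⟨n2, h2⟩ := det_one A B U ε hε E1 (by omega)
  obtain ⟨n3, h3⟩ := ev_L' 16
  refine ⟨E1 + 1, n1 + n2 + n3 + 4, fun N hN Ω p s hp hs hmom => ?_⟩
  have a3 := h3 N (by omega)
  have hN0 : (0 : ℝ) < N := by exact_mod_cast (by omega : 0 < N)
  obtain ⟨L, hL⟩ : ∃ L : ℝ, L = Real.log (N : ℝ) := ⟨_, rfl⟩
  rw [← hL] at a3
  have hL1 : 1 ≤ L := by linarith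
  have hL0 : 0 < L := by linarith
  obtain ⟨z, hz⟩ : ∃ z, z = ⌈L ^ E1⌉₊ := ⟨_, rfl⟩
  have hz1 : L ^ E1 ≤ z := by rw [hz]; exact Nat.le_ceil _
  have hz2 : (z : ℝ) ≤ L ^ (E1 + 1) := by
    have q1 : (z : ℝ) < L ^ E1 + 1 := by rw [hz]; exact Nat.ceil_lt_add_one (by positivity)
    have q2 : 1 ≤ L ^ E1 := one_le_pow₀ hL1
    rw [pow_succ]
    nlinarith
  have hz3 : L ^ B0 ≤ z := (pow_le_pow_right₀ hL1 (by omega)).trans hz1
  obtain ⟨J, hJ⟩ : ∃ J, J = ⌊L ^ A⌋₊ := ⟨_, rfl⟩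
  have hJr : (J : ℝ) ≤ L ^ A := by rw [hJ]; exact Nat.floor_le (by positivity)
  obtain ⟨Pr, hPr⟩ : ∃ Pr : Finset (ℕ × ℕ × ℕ), Pr = (Icc 1 J) ×ˢ ((Icc 1 J) ×ˢ (Icc 1 J)) := ⟨_, rfl⟩
  have hPrc : (Pr.card : ℝ) ≤ L ^ (3 * A) := by
    rw [hPr, card_product, card_product, Nat.card_Icc, Nat.add_sub_cancel]
    push_cast
    calc (J : ℝ) * ((J : ℝ) * J) = (J : ℝ) ^ 3 := by ring
      _ ≤ (L ^ A) ^ 3 := pow_le_pow_left₀ (Nat.cast_nonneg _) hJr _
      _ = _ := by rw [← pow_mul, mul_comm]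
  -- the members for which one of the errors is large
  have hpt : ∀ m ∈ Ω, (if ¬ Good ε A U N (s m) then p m else 0) ≤
      ∑ g ∈ Pr, (if g.2.1 * g.2.2 ≤ g.1 then p m * err z g.2.1 g.2.2 (s m) (g.2.1 * (N / g.1)) else 0) *
        (8 * L ^ (U + A + 3) / N) := by
    intro m hm
    have hnn : ∀ g ∈ Pr, 0 ≤ (if g.2.1 * g.2.2 ≤ g.1 then p m * err z g.2.1 g.2.2 (s m) (g.2.1 * (N / g.1)) else 0) *
        (8 * L ^ (U + A + 3) / N) := by
      intro g _
      apply mul_nonneg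
      · split_ifs
        · exact mul_nonneg (hp m hm) (abs_nonneg _)
        · exact le_rfl
      · positivity
    by_cases hG : Good ε A U N (s m)
    · rw [if_neg (not_not.2 hG)]
      exact sum_nonneg hnn
    · rw [if_pos hG]
      unfold Good at hG
      push Not at hG
      obtain ⟨j, a, b, u, v, hj2, ha, hb, habj, hc1, hab, hv1, hva, huv, hadm, hcon⟩ := hG
      rw [← hL] at hj2
      have hj1 : 1 ≤ j := le_trans (Nat.mul_pos ha hb) habj
      have hjJ : j ≤ J := by rw [hJ]; exact Nat.le_floor hj2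
      have haj : a ≤ j := le_trans (Nat.le_mul_of_pos_right a hb) habj
      have hbj : b ≤ j := le_trans (Nat.le_mul_of_pos_left b ha) habj
      have hmem : (j, a, b) ∈ Pr := by
        rw [hPr, mem_product, mem_product]
        exact ⟨mem_Icc.2 ⟨hj1, hjJ⟩, mem_Icc.2 ⟨ha, haj.trans hjJ⟩, mem_Icc.2 ⟨hb, hbj.trans hjJ⟩⟩
      have hs1 := single_le_sum hnn hmem
      refine le_trans ?_ hs1
      show p m ≤ (if a * b ≤ j then p m * err z a b (s m) (a * (N / j)) else 0) * (8 * L ^ (U + A + 3) / N)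
      rw [if_pos habj]
      obtain ⟨hx1, hx2, hx3⟩ := h1 N (by omega) j hj1 (by rw [← hL]; exact hj2)
      rw [← hL] at hx1
      have hlarge : (1 / 8) * (((N / j : ℕ) : ℝ) / L ^ (U + 2)) ≤ err z a b (s m) (a * (N / j)) := by
        by_contra hc
        push Not at hc
        apply hcon
        apply h2 N (by omega) z (by rw [← hL]; exact hz1) (by rw [← hL]; exact hz2) j a b (s m) u v ha hb habj (by rw [← hL]; exact hj2)
          hc1 (hs m hm) hab hv1 hva huv hadm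
        rw [← hL]
        exact hc.le
      have h9 : 1 ≤ err z a b (s m) (a * (N / j)) * (8 * L ^ (U + A + 3) / N) := by
        have h10 : (1 : ℝ) ≤ (1 / 8) * (((N / j : ℕ) : ℝ) / L ^ (U + 2)) * (8 * L ^ (U + A + 3) / N) := by
          have e : (1 / 8) * (((N / j : ℕ) : ℝ) / L ^ (U + 2)) * (8 * L ^ (U + A + 3) / N) = (((N / j : ℕ) : ℝ) * L ^ (A + 1)) / N := by
            rw [show U + A + 3 = (U + 2) + (A + 1) by ring, pow_add L (U + 2) (A + 1)]
            field_simp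
          rw [e, le_div_iff₀ hN0, one_mul]
          exact hx1
        exact h10.trans (mul_le_mul_of_nonneg_right hlarge (by positivity))
      have h10 := mul_le_mul_of_nonneg_left h9 (hp m hm)
      linarith
  refine (sum_le_sum hpt).trans ?_
  rw [sum_comm]
  have hone : ∀ g ∈ Pr, ∑ m ∈ Ω, (if g.2.1 * g.2.2 ≤ g.1 then p m * err z g.2.1 g.2.2 (s m) (g.2.1 * (N / g.1)) else 0) *
        (8 * L ^ (U + A + 3) / N) ≤ 8 * L ^ (U + A + 3) / L ^ V := by
    intro g hg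
    rw [← sum_mul]
    rw [hPr, mem_product, mem_product, mem_Icc, mem_Icc, mem_Icc] at hg
    by_cases hc : g.2.1 * g.2.2 ≤ g.1
    · simp only [hc, if_true]
      have h4 := hmom z (by rw [← hL]; exact hz3) (by rw [← hL]; exact hz2) g.2.1 g.2.2 (g.2.1 * (N / g.1)) hg.2.1.1 hg.2.2.1 (by
        calc g.2.2 * (g.2.1 * (N / g.1)) = (g.2.1 * g.2.2) * (N / g.1) := by ring
          _ ≤ g.1 * (N / g.1) := Nat.mul_le_mul_right _ hc
          _ ≤ N := Nat.mul_div_le N g.1)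
      rw [← hL] at h4
      refine (mul_le_mul_of_nonneg_right h4 (by positivity)).trans (le_of_eq ?_)
      field_simp
    · simp only [hc, if_false, sum_const_zero, zero_mul]
      positivity
  refine (sum_le_sum hone).trans ?_
  rw [sum_const, nsmul_eq_mul, ← hL]
  calc (Pr.card : ℝ) * (8 * L ^ (U + A + 3) / L ^ V) ≤ L ^ (3 * A) * (L * L ^ (U + A + 3) / L ^ V) := by
        apply mul_le_mul hPrc _ (by positivity) (by positivity)
        apply div_le_div_of_nonneg_right _ (by positivity)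
        apply mul_le_mul_of_nonneg_right _ (by positivity)
        linarith
    _ = L ^ (3 * A + (U + A + 4)) / L ^ V := by
        rw [pow_add L (3 * A) (U + A + 4), show U + A + 4 = (U + A + 3) + 1 by ring, pow_succ L (U + A + 3)]
        ring
    _ ≤ 1 / L ^ U := by
        rw [div_le_div_iff₀ (by positivity) (by positivity), one_mul, ← pow_add]
        apply pow_le_pow_right₀ hL1
        rw [hV]
        omega

open Classical in
/-- constants from families of nearly minimal energy -/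
theorem core (h B C U A : ℕ) (ε : ℝ) (hε : 0 < ε) :
    ∃ N₀ : ℕ, ∀ N, N₀ ≤ N → ∀ (x : ℕ) (s : ℕ → ℕ), (∀ m ∈ Icc 1 x, s m ≤ B * N) →
    (energy h x (fun m => (s m : ℤ)) : ℝ) * N ≤ Real.log N ^ C * (x : ℝ) ^ (2 * h) →
    (((Icc 1 x).filter fun m => ¬ Good ε A U N (s m)).card : ℝ) ≤ x / Real.log N ^ U := by
  obtain ⟨V, hV⟩ : ∃ V, V = 4 * A + 2 * U + 4 := ⟨_, rfl⟩
  obtain ⟨B0, h0⟩ := pair_moment h B C V
  obtain ⟨E, n1, h1⟩ := union A B U V B0 hV ε hε
  obtain ⟨n2, h2⟩ := h0 E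
  refine ⟨n1 + n2 + 3, fun N hN x s hs hE => ?_⟩
  rcases Nat.eq_zero_or_pos x with hx | hx
  · rw [hx]; simp
  have hx0 : (0 : ℝ) < x := by exact_mod_cast hx
  have h3 := h1 N (by omega) (Icc 1 x) (fun _ => 1 / (x : ℝ)) s (fun _ _ => by positivity) hs (fun z hz1 hz2 a b X ha hb hX => by
    have h4 := h2 N (by omega) x s hs hE z hz1 hz2 a b X ha hb hX
    rw [← mul_sum]
    have h5 : ∑ m ∈ Icc 1 x, err z a b (s m) X ≤ N * x / Real.log N ^ V := h4
    calc 1 / (x : ℝ) * ∑ m ∈ Icc 1 x, err z a b (s m) X ≤ 1 / (x : ℝ) * (N * x / Real.log N ^ V) :=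
          mul_le_mul_of_nonneg_left h5 (by positivity)
      _ = _ := by field_simp)
  rw [← sum_filter, sum_const, nsmul_eq_mul] at h3
  calc (((Icc 1 x).filter fun m => ¬ Good ε A U N (s m)).card : ℝ) =
        ((((Icc 1 x).filter fun m => ¬ Good ε A U N (s m)).card : ℝ) * (1 / x)) * x := by field_simp
    _ ≤ (1 / Real.log N ^ U) * x := mul_le_mul_of_nonneg_right h3 hx0.le
    _ = _ := by ring

end Pool.Agent.Run7.h504.Eq
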