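import Pool.Agent.R501.CP2
import Pool.Agent.Run7.h223.LE1

/-!
# Two-sided sums of the Liouville function along linear forms, constant terms from families of small energy
-/

set_option autoImplicit false

namespace Pool.Agent.Run7.h504.CH

open Finset
open Pool.Agent.R501.CP (Good2 good2_of Chowla tuples)
open Pool.Agent.R459.Fams (count count_eq count_mono count_union)
open Pool.Agent.R459.Shift (Good Weights lam lam_exI)
open Pool.Agent.H373R2.T7 (energy exI liR liR_norm sup_liou ev_L' ev_log')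

lemma energy_affine (p x : ℕ) (s : ℕ → ℤ) (c : ℤ) : energy p x (fun m => -s m + c) = energy p x s := by
  unfold energy
  congr 1
  apply filter_congr
  intro q _
  have e1 : ∀ v : Fin p → ℕ, ∑ i, (-s (v i) + c) = -∑ i, s (v i) + p * c := by
    intro v
    rw [sum_add_distrib, sum_neg_distrib, sum_const, card_univ, Fintype.card_fin, nsmul_eq_mul]
  simp only [e1]
  constructor
  · intro h; linarith
  · intro h; rw [h]

lemma good_of {B V N k : ℕ} {α : ℕ} {G : ℕ → ℂ} {h : ℤ} {e : ℝ} (he : e ≤ N / (k : ℝ) ^ V)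
    (h1 : ∀ X : ℕ, α * X ≤ B * N → ‖∑ n ∈ Icc 1 X, G n * exI liR (((α * n : ℕ) : ℤ) + h)‖ ≤ e) :
    Good lam B V N k (fun _ : Fin 1 => α) (fun _ => G) h := by
  intro l X hX
  refine le_trans (le_of_eq ?_) ((h1 X hX).trans he)
  congr 1
  apply sum_congr rfl
  intro n _
  rw [lam_exI]
  congr 2

open Classical in
/-- one family, two-sided sums, `k` the integer part of `log N` -/
theorem fam_good2 (p B C T V : ℕ) : ∃ N₀ : ℕ, ∀ N : ℕ, N₀ ≤ N → ∀ k : ℕ, k = ⌊Real.log N⌋₊ →
    ∀ (x : ℕ) (s : ℕ → ℤ), (∀ m ∈ Icc 1 x, |s m| ≤ B * N) →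
    (energy p x s : ℝ) * N ≤ Real.log N ^ C * (x : ℝ) ^ (2 * p) →
    ∀ α : ℕ, 1 ≤ α → ∀ (M : ℕ) (g : Fin M → ℕ → ℂ), Weights T k (fun _ : Fin M => α) g →
      count (Icc 1 x) (fun m => ¬ Good2 B V N k (fun _ : Fin M => α) g (s m)) ≤ x / (k : ℝ) ^ V := by
  obtain ⟨N1, h1⟩ := Run7.h223.LE.one_shift liR liR_norm sup_liou p (3 * B) C T (V + T + 2)
  obtain ⟨N2, h2⟩ := ev_L' 3
  refine ⟨N1 + N2 + 1, fun N hN k hk x s hs he α hα M g hg => ?_⟩
  have hL3 := h2 N (by omega)
  have hk3 : 3 ≤ k := by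
    rw [hk]
    exact Nat.le_floor (by exact_mod_cast hL3)
  have hkL : (k : ℝ) ≤ Real.log N := by
    rw [hk]
    exact Nat.floor_le (by linarith)
  have hk0 : (0 : ℝ) < k := by exact_mod_cast (by omega : 0 < k)
  have hk3r : (3 : ℝ) ≤ k := by exact_mod_cast hk3
  have hkn : (1 : ℝ) ≤ k := by linarith
  obtain ⟨hM, -, hgb⟩ := hg
  have hN0 : (0 : ℝ) ≤ N := Nat.cast_nonneg _
  have hx0 : (0 : ℝ) ≤ x := Nat.cast_nonneg _
  -- one weight
  have hone : ∀ (s' : ℕ → ℤ), (∀ m ∈ Icc 1 x, |s' m| ≤ (3 * B : ℕ) * N) →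
      (energy p x s' : ℝ) * N ≤ Real.log N ^ C * (x : ℝ) ^ (2 * p) → ∀ G : ℕ → ℂ, (∀ n, ‖G n‖ ≤ (k : ℝ) ^ T) →
      count (Icc 1 x) (fun m => ¬ Good lam (3 * B) (V + 1) N k (fun _ : Fin 1 => α) (fun _ => G) (s' m)) ≤
        x / (k : ℝ) ^ (V + T + 2) := by
    intro s' hs' he' G hG
    have h3 := h1 N (by omega) x s' (by
      intro m hm
      have := hs' m hm
      exact_mod_cast this) he' α hα G (fun n _ _ => (hG n).trans (pow_le_pow_left₀ hk0.le hkL _))
    have h4 : (x : ℝ) / Real.log N ^ (V + T + 2) ≤ x / (k : ℝ) ^ (V + T + 2) :=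
      div_le_div_of_nonneg_left hx0 (by positivity) (pow_le_pow_left₀ hk0.le hkL _)
    refine le_trans ?_ (h3.trans h4)
    rw [count_eq]
    apply Nat.cast_le.2
    apply card_le_card
    intro m hm
    rw [mem_filter] at hm ⊢
    refine ⟨hm.1, fun hcon => hm.2 (good_of (e := N / Real.log N ^ (V + T + 2)) ?_ hcon)⟩
    calc (N : ℝ) / Real.log N ^ (V + T + 2) ≤ N / (k : ℝ) ^ (V + T + 2) :=
          div_le_div_of_nonneg_left hN0 (by positivity) (pow_le_pow_left₀ hk0.le hkL _)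
      _ ≤ N / (k : ℝ) ^ (V + 1) :=
          div_le_div_of_nonneg_left hN0 (by positivity) (pow_le_pow_right₀ hkn (by omega))
  -- the reflected family
  have hs3 : ∀ m ∈ Icc 1 x, |s m| ≤ (3 * B : ℕ) * N := by
    intro m hm
    refine (hs m hm).trans ?_
    have : (0 : ℤ) ≤ B * N := by positivity
    push_cast
    linarith
  have hrefl : α ≤ B * N → ∀ m ∈ Icc 1 x, |-s m + (-(α * (B * N / α + 1) : ℕ) : ℤ)| ≤ (3 * B : ℕ) * N := by
    intro hαB m hm
    have e1 : α * (B * N / α + 1) ≤ 2 * (B * N) := by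
      have := Nat.mul_div_le (B * N) α
      rw [mul_add, mul_one]
      omega
    have e2 : ((α * (B * N / α + 1) : ℕ) : ℤ) ≤ 2 * (B * N) := by exact_mod_cast e1
    have e3 : (0 : ℤ) ≤ ((α * (B * N / α + 1) : ℕ) : ℤ) := Int.natCast_nonneg _
    have e4 := abs_le.1 (hs m hm)
    push_cast at e2 e3 ⊢
    rw [abs_le]
    constructor <;> linarith [e4.1, e4.2]
  set E1 : Fin M → ℕ → Prop := fun l m =>
    ¬ Good lam (3 * B) (V + 1) N k (fun _ : Fin 1 => α) (fun _ => g l) (s m) with hE1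
  set E2 : Fin M → ℕ → Prop := fun l m => α ≤ B * N ∧
    ¬ Good lam (3 * B) (V + 1) N k (fun _ : Fin 1 => α) (fun _ n => g l (B * N / α + 1 - n))
      (-s m + (-(α * (B * N / α + 1) : ℕ) : ℤ)) with hE2
  have hc1 : ∀ l, count (Icc 1 x) (E1 l) ≤ x / (k : ℝ) ^ (V + T + 2) := fun l =>
    hone s hs3 he (g l) (fun n => hgb l n)
  have hc2 : ∀ l, count (Icc 1 x) (E2 l) ≤ x / (k : ℝ) ^ (V + T + 2) := by
    intro l
    by_cases hαB : α ≤ B * N
    · refine le_trans (count_mono fun m _ hm => hm.2) (hone _ (hrefl hαB) ?_ _ (fun n => hgb l _))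
      rw [energy_affine]
      exact he
    · have : count (Icc 1 x) (E2 l) ≤ 0 := by
        rw [count_eq, filter_false_of_mem (fun m _ hm => hαB hm.1)]
        simp
      refine this.trans (by positivity)
  have hcov : ∀ m ∈ Icc 1 x, (¬ Good2 B V N k (fun _ : Fin M => α) g (s m)) →
      ∃ q ∈ (univ : Finset (Fin M × Bool)), (fun (q : Fin M × Bool) m => if q.2 then E1 q.1 m else E2 q.1 m) q m := by
    intro m _ hm
    by_contra hcon
    push Not at hcon
    apply hm
    refine good2_of B V N k hk3 (fun _ : Fin M => α) (fun _ => hα) g (s m) ?_ ?_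
    · intro l X hX
      have h5 := hcon (l, true) (mem_univ _)
      simp only [if_true, hE1, not_not] at h5
      exact h5 0 X hX
    · intro l hαB
      have h5 := hcon (l, false) (mem_univ _)
      simp only [Bool.false_eq_true, if_false, hE2, not_and, not_not] at h5
      have h6 := h5 hαB
      rw [← sub_eq_add_neg] at h6
      exact h6
  refine (count_union (Icc 1 x) univ _ (fun (q : Fin M × Bool) m => if q.2 then E1 q.1 m else E2 q.1 m) hcov).trans ?_
  have h6 : ∀ q : Fin M × Bool, count (Icc 1 x) (fun m => if q.2 then E1 q.1 m else E2 q.1 m) ≤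
      x / (k : ℝ) ^ (V + T + 2) := by
    rintro ⟨l, b⟩
    cases b
    · simp only [Bool.false_eq_true, if_false]
      exact hc2 l
    · simp only [if_true]
      exact hc1 l
  refine (sum_le_sum fun q _ => h6 q).trans ?_
  rw [sum_const, card_univ, Fintype.card_prod, Fintype.card_fin, Fintype.card_bool, nsmul_eq_mul]
  push_cast
  calc (M : ℝ) * 2 * (x / (k : ℝ) ^ (V + T + 2)) ≤ (k : ℝ) ^ T * (k : ℝ) ^ 2 * (x / (k : ℝ) ^ (V + T + 2)) := by
        apply mul_le_mul_of_nonneg_right _ (by positivity)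
        apply mul_le_mul hM _ (by norm_num) (by positivity)
        nlinarith
    _ = x / (k : ℝ) ^ V := by
        have : (k : ℝ) ^ (V + T + 2) = (k : ℝ) ^ V * ((k : ℝ) ^ T * (k : ℝ) ^ 2) := by rw [pow_add, pow_add]; ring
        rw [this]
        field_simp

open Classical in
/-- **tuples of families** -/
theorem fam_chowla (p B C κ U : ℕ) : ∃ N₀ : ℕ, ∀ N : ℕ, N₀ ≤ N → ∀ k : ℕ, k = ⌊Real.log N⌋₊ →
    ∀ s L : ℕ, 2 ^ s ≤ k ^ κ → L ≤ k ^ κ →
    ∀ (x : Fin s → ℕ) (a : Fin s → ℕ → ℤ), (∀ i, ∀ m ∈ Icc 1 (x i), |a i m| ≤ B * N) →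
    (∀ i, (energy p (x i) (a i) : ℝ) * N ≤ Real.log N ^ C * (x i : ℝ) ^ (2 * p)) →
    ∀ α : Fin s → ℕ, (∀ i, 1 ≤ α i) → ∀ f : Fin L → Polynomial ℤ,
    count (Fintype.piFinset fun i : Fin s => Icc 1 (x i))
      (fun m => ¬ Chowla B κ U N k f α (fun i => a i (m i))) ≤ (∏ i, (x i : ℝ)) / (k : ℝ) ^ U := by
  obtain ⟨N1, h1⟩ := fam_good2 p B C (4 * κ) (U + κ + 1)
  obtain ⟨N2, h2⟩ := ev_L' 3
  obtain ⟨N3, h3⟩ := ev_log' (U + 1) 1
  refine ⟨N1 + N2 + N3 + 1, fun N hN k hk s L hs hL x a ha he α hα f => ?_⟩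
  have hL3 := h2 N (by omega)
  have hk3 : 3 ≤ k := by
    rw [hk]
    exact Nat.le_floor (by exact_mod_cast hL3)
  have hkL : (k : ℝ) ≤ Real.log N := by
    rw [hk]
    exact Nat.floor_le (by linarith)
  have hk0 : (0 : ℝ) < k := by exact_mod_cast (by omega : 0 < k)
  have hk3r : (3 : ℝ) ≤ k := by exact_mod_cast hk3
  have hNr : (1 : ℝ) ≤ N := by exact_mod_cast (by omega : 1 ≤ N)
  have hkN : k ^ (U + 1) ≤ N := by
    have e1 := h3 N (by omega)
    rw [one_mul] at e1
    have e2 : (k : ℝ) ^ (U + 1) ≤ N := by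
      refine (pow_le_pow_left₀ hk0.le hkL _).trans (e1.trans ?_)
      rw [Real.sqrt_le_left (by linarith)]
      nlinarith
    exact_mod_cast e2
  have h4 := tuples B κ U N k (4 * κ) hk3 hkN rfl hs hL (fun i => Icc 1 (x i)) a f α hα (U + κ) rfl (by
    intro i M g g' hg hg'
    have c1 := h1 N (by omega) k hk (x i) (a i) (ha i) (he i) (α i) (hα i) M g hg
    have c2 := h1 N (by omega) k hk (x i) (fun m => -a i m + 0) (fun m hm => by
      rw [add_zero, abs_neg]
      exact ha i m hm) (by rw [energy_affine]; exact he i) (α i) (hα i) M g' hg'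
    have c3 : count (Icc 1 (x i)) (fun v => ¬ (Good2 B (U + 1) N k (fun _ : Fin M => α i) g (a i v) ∧
        Good2 B (U + 1) N k (fun _ : Fin M => α i) g' (-(a i v)))) ≤
        ∑ b ∈ (univ : Finset Bool), count (Icc 1 (x i)) (fun v => if b = true then
          ¬ Good2 B (U + κ + 1) N k (fun _ : Fin M => α i) g (a i v) else
          ¬ Good2 B (U + κ + 1) N k (fun _ : Fin M => α i) g' (-a i v + 0)) := by
      refine count_union (Icc 1 (x i)) (univ : Finset Bool) _ (fun (b : Bool) v => if b = true then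
          ¬ Good2 B (U + κ + 1) N k (fun _ : Fin M => α i) g (a i v) else
          ¬ Good2 B (U + κ + 1) N k (fun _ : Fin M => α i) g' (-a i v + 0)) ?_
      intro v _ hv
      by_contra hcon
      push Not at hcon
      have d1 := hcon true (mem_univ _)
      have d2 := hcon false (mem_univ _)
      simp only [if_true, not_not] at d1
      simp only [Bool.false_eq_true, if_false, not_not, add_zero] at d2
      have hmono : ∀ (gg : Fin M → ℕ → ℂ) (y : ℤ), Good2 B (U + κ + 1) N k (fun _ : Fin M => α i) gg y →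
          Good2 B (U + 1) N k (fun _ : Fin M => α i) gg y := by
        intro gg y hy l X hX
        refine (hy l X hX).trans ?_
        apply div_le_div_of_nonneg_left (Nat.cast_nonneg _) (by positivity)
        exact pow_le_pow_right₀ (by linarith) (by omega)
      exact hv ⟨hmono g _ d1, hmono g' _ d2⟩
    rw [Fintype.sum_bool] at c3
    simp only [if_true, Bool.false_eq_true, if_false] at c3
    refine c3.trans ((add_le_add c1 c2).trans ?_)
    rw [Nat.card_Icc, Nat.add_sub_cancel, ← add_div, div_le_div_iff₀ (by positivity) (by positivity)]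
    have e5 : ((x i : ℝ) + x i) * (k : ℝ) ^ (U + κ) ≤ x i * k * (k : ℝ) ^ (U + κ) := by
      apply mul_le_mul_of_nonneg_right _ (by positivity)
      have : (0 : ℝ) ≤ x i := Nat.cast_nonneg _
      nlinarith
    refine e5.trans (le_of_eq ?_)
    rw [pow_succ]
    ring)
  rw [Fintype.card_piFinset] at h4
  simp only [Nat.card_Icc, Nat.add_sub_cancel] at h4
  push_cast at h4
  exact h4

end Pool.Agent.Run7.h504.CH
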