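import Pool.Agent.Run7.h504.GenE
import Pool.Agent.H373R2.T7.SupE2

set_option autoImplicit false

/-! The von Mangoldt function minus its model, dilated and cut off: the Fourier transform is small. -/

namespace Pool.Agent.Run7.h504.Dil

open Finset Pool.Agent.H373R2.T7
open Pool.Agent.H807R2.Dav

/-- the dilated difference, with a cutoff -/
noncomputable def fd (z a X n : ℕ) : ℝ :=
  if a ∣ n ∧ n ≤ a * X then ArithmeticFunction.vonMangoldt (n / a) - lamz z (n / a) else 0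

lemma fd_mul (z a X q : ℕ) (ha : 1 ≤ a) (hq : q ≤ X) :
    fd z a X (a * q) = ArithmeticFunction.vonMangoldt q - lamz z q := by
  unfold fd
  rw [if_pos ⟨dvd_mul_right _ _, Nat.mul_le_mul_left _ hq⟩, Nat.mul_div_cancel_left _ (by omega)]

/-- the reduction to the undilated sum -/
lemma fd_sum (z a X H : ℕ) (ha : 1 ≤ a) (α : ℝ) :
    ∑ n ∈ Icc 1 H, (fd z a X n : ℂ) * ee ((n : ℝ) * α) =
      ∑ q ∈ Icc 1 (min X (H / a)), ((ArithmeticFunction.vonMangoldt q - lamz z q : ℝ) : ℂ) * ee ((q : ℝ) * (a * α)) := by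
  symm
  apply sum_of_injOn (fun q => a * q)
  · intro q _ q' _ h
    exact Nat.eq_of_mul_eq_mul_left ha h
  · intro q hq
    rw [mem_coe, mem_Icc, le_min_iff] at hq
    rw [mem_coe, mem_Icc]
    refine ⟨Nat.mul_pos ha hq.1, ?_⟩
    have h1 := Nat.mul_le_mul_left a hq.2.2
    exact h1.trans (Nat.mul_div_le H a)
  · intro n hn hn'
    have h0 : fd z a X n = 0 := by
      unfold fd
      rw [if_neg]
      rintro ⟨⟨q, rfl⟩, h2⟩
      apply hn'
      rw [mem_Icc] at hn
      have h3 : q ≤ X := Nat.le_of_mul_le_mul_left h2 ha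
      have h4 : q ≤ H / a := by
        rw [Nat.le_div_iff_mul_le ha, mul_comm]
        exact hn.2
      have h5 : 1 ≤ q := by
        by_contra hcon
        have : q = 0 := by omega
        rw [this, mul_zero] at hn
        omega
      exact ⟨q, by rw [mem_coe, mem_Icc]; exact ⟨h5, le_min h3 h4⟩, rfl⟩
    rw [h0]
    simp
  · intro q hq
    rw [mem_Icc, le_min_iff] at hq
    rw [fd_mul z a X q ha hq.2.1]
    congr 2
    push_cast
    ring

/-- the Fourier transform is small -/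
theorem sup_dil (U B : ℕ) : ∃ B0 : ℕ, ∀ E : ℕ, ∃ N0 : ℕ, ∀ N : ℕ, N0 ≤ N → ∀ z : ℕ, Real.log N ^ B0 ≤ z →
    (z : ℝ) ≤ Real.log N ^ E → ∀ a X H : ℕ, 1 ≤ a → H ≤ B * N → ∀ α : ℝ,
    ‖∑ n ∈ Icc 1 H, (fd z a X n : ℂ) * ee ((n : ℝ) * α)‖ ≤ N / Real.log N ^ U := by
  obtain ⟨B1, hsup⟩ := sup_diff (U + 1)
  refine ⟨B1 + 1, fun E => ?_⟩
  obtain ⟨m1, h1⟩ := hsup (E + 1)
  obtain ⟨m2, h2⟩ := Vz_inv_small E
  obtain ⟨m3, h3⟩ := ev_L' (2 ^ B1 + 2 * 2 ^ E + B * 2 ^ (U + 1) + Real.log ((B : ℝ) + 1) + 2)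
  obtain ⟨m4, h4⟩ := ev_log' (U + 1) 2
  refine ⟨m1 ^ 2 + m2 + m3 + m4 + 3, fun N hN z hz1 hz2 a X H ha hH α => ?_⟩
  have hN3 : 3 ≤ N := by omega
  have hNr : (3 : ℝ) ≤ N := by exact_mod_cast hN3
  have hN0 : (0 : ℝ) < N := by linarith
  have hL := h3 N (by omega)
  have hlog := h4 N (by omega)
  obtain ⟨L, hLd⟩ : ∃ L : ℝ, L = Real.log N := ⟨_, rfl⟩
  rw [← hLd] at hL hlog hz1 hz2 ⊢
  have q1 : (0 : ℝ) < 2 ^ B1 := by positivity
  have q2 : (0 : ℝ) < 2 ^ E := by positivity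
  have q3 : (0 : ℝ) ≤ B * 2 ^ (U + 1) := by positivity
  have q4 : 0 ≤ Real.log ((B : ℝ) + 1) := Real.log_nonneg (by
    have : (0 : ℝ) ≤ B := Nat.cast_nonneg _
    linarith)
  have hL1 : 1 ≤ L := by linarith
  have hL0 : 0 < L := by linarith
  have hz : 1 ≤ z := by
    have : (1 : ℝ) ≤ z := (one_le_pow₀ hL1).trans hz1
    exact_mod_cast this
  rw [fd_sum z a X H ha α]
  obtain ⟨Y, hY⟩ : ∃ Y, Y = min X (H / a) := ⟨_, rfl⟩
  rw [← hY]
  have hYB : Y ≤ B * N := by
    rw [hY]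
    exact (min_le_right _ _).trans ((Nat.div_le_self _ _).trans hH)
  rcases Nat.lt_or_ge N (Y ^ 2) with hc | hc
  · -- the long sum
    have hYs : √(N : ℝ) ≤ Y := by
      rw [Real.sqrt_le_left (Nat.cast_nonneg _)]
      exact_mod_cast hc.le
    have hY0 : (0 : ℝ) < Y := lt_of_lt_of_le (Real.sqrt_pos.2 hN0) hYs
    obtain ⟨l, hl⟩ : ∃ l : ℝ, l = Real.log Y := ⟨_, rfl⟩
    have hl1 : L ≤ 2 * l := by
      have h5 : Real.log (√(N : ℝ)) ≤ l := by rw [hl]; exact Real.log_le_log (Real.sqrt_pos.2 hN0) hYs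
      have h6 : Real.log (√(N : ℝ)) = L / 2 := by rw [Real.log_sqrt hN0.le, hLd]
      linarith
    have hl2 : l ≤ 2 * L := by
      have h5 : (Y : ℝ) ≤ ((B : ℝ) + 1) * N := by
        have : (Y : ℝ) ≤ B * N := by exact_mod_cast hYB
        nlinarith
      have h6 : l ≤ Real.log (((B : ℝ) + 1) * N) := by rw [hl]; exact Real.log_le_log hY0 h5
      rw [Real.log_mul (by positivity) hN0.ne', ← hLd] at h6
      linarith
    have hl0 : 0 < l := by linarith
    have hYm : m1 ≤ Y := by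
      by_contra hcon
      have : Y ^ 2 ≤ m1 ^ 2 := Nat.pow_le_pow_left (by omega) 2
      omega
    have h5 := h1 Y hYm z (by
      rw [← hl]
      calc l ^ B1 ≤ (2 * L) ^ B1 := pow_le_pow_left₀ hl0.le hl2 _
        _ = 2 ^ B1 * L ^ B1 := mul_pow _ _ _
        _ ≤ L * L ^ B1 := mul_le_mul_of_nonneg_right (by linarith) (by positivity)
        _ = L ^ (B1 + 1) := by ring
        _ ≤ z := hz1) (by
      rw [← hl]
      calc (z : ℝ) ≤ L ^ E := hz2
        _ ≤ (2 * l) ^ E := pow_le_pow_left₀ hL0.le hl1 _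
        _ = 2 ^ E * l ^ E := mul_pow _ _ _
        _ ≤ l * l ^ E := mul_le_mul_of_nonneg_right (by linarith) (by positivity)
        _ = l ^ (E + 1) := by ring) (a * α)
    refine h5.trans ?_
    rw [← hl, div_le_div_iff₀ (by positivity) (by positivity)]
    have h6 : (Y : ℝ) ≤ B * N := by exact_mod_cast hYB
    have h7 : L ^ (U + 1) ≤ 2 ^ (U + 1) * l ^ (U + 1) := by
      rw [← mul_pow]
      exact pow_le_pow_left₀ hL0.le hl1 _
    have h8 : (Y : ℝ) * L ^ U * L ≤ N * l ^ (U + 1) * L := by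
      calc (Y : ℝ) * L ^ U * L = Y * L ^ (U + 1) := by ring
        _ ≤ (B * N) * (2 ^ (U + 1) * l ^ (U + 1)) := mul_le_mul h6 h7 (by positivity) (by positivity)
        _ = (B * 2 ^ (U + 1)) * (N * l ^ (U + 1)) := by ring
        _ ≤ L * (N * l ^ (U + 1)) := mul_le_mul_of_nonneg_right (by linarith) (by positivity)
        _ = _ := by ring
    exact le_of_mul_le_mul_right h8 hL0
  · -- the short sum
    have hYs : (Y : ℝ) ≤ √(N : ℝ) := by
      apply Real.le_sqrt_of_sq_le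
      exact_mod_cast hc
    have hYN : Y ≤ N := by nlinarith
    have hVinv := h2 N (by omega) z hz (by rw [← hLd]; exact hz2)
    rw [← hLd] at hVinv
    have h5 : ∀ q ∈ Icc 1 Y, ‖((ArithmeticFunction.vonMangoldt q - lamz z q : ℝ) : ℂ) * ee ((q : ℝ) * (a * α))‖ ≤ 2 * L := by
      intro q hq
      rw [mem_Icc] at hq
      rw [norm_mul, norm_ee, mul_one, Complex.norm_real, Real.norm_eq_abs]
      have h6 : ArithmeticFunction.vonMangoldt q ≤ L := by
        refine ArithmeticFunction.vonMangoldt_le_log.trans ?_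
        rw [hLd]
        exact Real.log_le_log (by exact_mod_cast hq.1) (by exact_mod_cast hq.2.trans hYN)
      have h7 : (0 : ℝ) ≤ ArithmeticFunction.vonMangoldt q := ArithmeticFunction.vonMangoldt_nonneg
      have h8 := lamz_nonneg z q
      have h9 : lamz z q ≤ L := by
        unfold lamz
        split_ifs
        · exact hVinv
        · exact hL0.le
      rw [abs_le]
      constructor <;> linarith
    refine (norm_sum_le _ _).trans ((sum_le_sum h5).trans ?_)
    rw [sum_const, Nat.card_Icc, Nat.add_sub_cancel, nsmul_eq_mul, le_div_iff₀ (by positivity)]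
    have h6 : √(N : ℝ) * √(N : ℝ) = N := Real.mul_self_sqrt hN0.le
    calc (Y : ℝ) * (2 * L) * L ^ U = Y * (2 * L ^ (U + 1)) := by ring
      _ ≤ √(N : ℝ) * √(N : ℝ) := mul_le_mul hYs hlog (by positivity) (Real.sqrt_nonneg _)
      _ = N := h6

/-- the values are bounded -/
lemma fd_abs (E B : ℕ) : ∃ N0 : ℕ, ∀ N : ℕ, N0 ≤ N → ∀ z : ℕ, 1 ≤ z → (z : ℝ) ≤ Real.log N ^ E →
    ∀ a X n : ℕ, n ≤ B * N → |fd z a X n| ≤ Real.log N ^ 2 := by
  obtain ⟨m2, h2⟩ := Vz_inv_small E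
  obtain ⟨m3, h3⟩ := ev_L' (Real.log ((B : ℝ) + 1) + 4)
  refine ⟨m2 + m3 + 3, fun N hN z hz hz2 a X n hn => ?_⟩
  have hN3 : 3 ≤ N := by omega
  have hNr : (3 : ℝ) ≤ N := by exact_mod_cast hN3
  have hN0 : (0 : ℝ) < N := by linarith
  have hL := h3 N (by omega)
  have hVinv := h2 N (by omega) z hz hz2
  obtain ⟨L, hLd⟩ : ∃ L : ℝ, L = Real.log N := ⟨_, rfl⟩
  rw [← hLd] at hL hVinv ⊢
  have q4 : 0 ≤ Real.log ((B : ℝ) + 1) := Real.log_nonneg (by
    have : (0 : ℝ) ≤ B := Nat.cast_nonneg _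
    linarith)
  have hL0 : 0 < L := by linarith
  unfold fd
  split_ifs with hc
  · have h6 : ArithmeticFunction.vonMangoldt (n / a) ≤ 2 * L := by
      rcases Nat.eq_zero_or_pos (n / a) with h0 | h0
      · rw [h0]
        simp
        exact hL0.le
      refine ArithmeticFunction.vonMangoldt_le_log.trans ?_
      have h7 : ((n / a : ℕ) : ℝ) ≤ ((B : ℝ) + 1) * N := by
        have h8 : n / a ≤ B * N := (Nat.div_le_self _ _).trans hn
        have : ((n / a : ℕ) : ℝ) ≤ B * N := by exact_mod_cast h8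
        nlinarith
      have h9 : Real.log ((n / a : ℕ) : ℝ) ≤ Real.log (((B : ℝ) + 1) * N) := Real.log_le_log (by exact_mod_cast h0) h7
      rw [Real.log_mul (by positivity) hN0.ne', ← hLd] at h9
      linarith
    have h7 : (0 : ℝ) ≤ ArithmeticFunction.vonMangoldt (n / a) := ArithmeticFunction.vonMangoldt_nonneg
    have h8 := lamz_nonneg z (n / a)
    have h9 : lamz z (n / a) ≤ L := by
      unfold lamz
      split_ifs
      · exact hVinv
      · exact hL0.le
    rw [abs_le]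
    constructor <;> nlinarith
  · rw [abs_zero]
    positivity

end Pool.Agent.Run7.h504.Dil
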