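import Pool.Agent.Run7.h504.Pair
import Pool.Agent.N699.ST.Asm
import Pool.Agent.Results.MP_bf63dc_nt.BoundedlyManyPowers

set_option autoImplicit false

/-! The equation `a p = b q + c`: the deterministic part. -/

namespace Pool.Agent.Run7.h504.Eq

open Finset Filter
open Pool.Agent.H373R2.T7
open Pool.Agent.H807R2.Dav
open Pool.Agent.Run7.h504.Pair
open Pool.Agent.Y820.LF (nuF singF AdmF cntF)
open Pool.Agent.Results.MP_bf63dc_nt.BoundedlyManyPowers (Cf Hf)

/-- the correlation along the solutions -/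
lemma cor_lin (f g : ℕ → ℝ) (a b c u v T : ℕ) (ha : 1 ≤ a) (hab : Nat.Coprime a b) (hv1 : 1 ≤ v) (hva : v ≤ a)
    (h : a * u = b * v + c) : cor f g a b c (a * T) = ∑ t ∈ range T, f (v + a * t) * g (u + b * t) := by
  unfold cor
  symm
  apply sum_of_injOn (fun t => v + a * t)
  · intro t _ t' _ h'
    have h1 : v + a * t = v + a * t' := h'
    exact Nat.eq_of_mul_eq_mul_left ha (by omega)
  · intro t ht
    rw [mem_coe, mem_range] at ht
    rw [mem_coe, mem_Icc]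
    have h1 : a * (t + 1) ≤ a * T := Nat.mul_le_mul_left _ ht
    have h2 : a * (t + 1) = a * t + a := by ring
    show 1 ≤ v + a * t ∧ v + a * t ≤ a * T
    omega
  · intro q hq hq'
    rw [if_neg]
    intro hd
    apply hq'
    rw [mem_Icc] at hq
    have h1 : b * q + c ≡ b * v + c [MOD a] := by
      have e1 := (Nat.modEq_zero_iff_dvd.2 hd)
      have e2 : b * v + c ≡ 0 [MOD a] := Nat.modEq_zero_iff_dvd.2 ⟨u, h.symm⟩
      exact e1.trans e2.symm
    have h2 : b * q ≡ b * v [MOD a] := Nat.ModEq.add_right_cancel' c h1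
    have h3 : q ≡ v [MOD a] := Nat.ModEq.cancel_left_of_coprime hab h2
    have h4 : v ≤ q := by
      by_contra hcon
      have h5 : a ∣ v - q := (Nat.modEq_iff_dvd' (by omega)).1 h3
      have h6 := Nat.le_of_dvd (by omega) h5
      omega
    obtain ⟨t, ht⟩ := (Nat.modEq_iff_dvd' h4).1 h3.symm
    refine ⟨t, ?_, ?_⟩
    · rw [mem_coe, mem_range]
      by_contra hcon
      have h5 : a * T ≤ a * t := Nat.mul_le_mul_left _ (by omega)
      omega
    · show v + a * t = q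
      omega
  · intro t _
    have e1 : b * (v + a * t) + c = a * (u + b * t) := by
      have : a * (u + b * t) = a * u + a * b * t := by ring
      rw [this, h]
      ring
    show _ = if a ∣ b * (v + a * t) + c then f (v + a * t) * g ((b * (v + a * t) + c) / a) else 0
    rw [e1, if_pos (dvd_mul_right _ _), Nat.mul_div_cancel_left _ (by omega)]

/-- moving the window by one -/
lemma shift_one (g : ℕ → ℝ) (T : ℕ) : ∑ t ∈ range T, g t + g T = ∑ t ∈ Icc 1 T, g t + g 0 := by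
  induction T with
  | zero => simp
  | succ T ih =>
    rw [sum_range_succ, ih, sum_Icc_succ_top (by omega)]
    ring

lemma prod_lamI (a b u v t : ℕ) (hu : 1 ≤ u) (hv : 1 ≤ v) :
    ∏ i, lamI (Cf a b i * (t : ℤ) + Hf u v i) = ArithmeticFunction.vonMangoldt (v + a * t) * ArithmeticFunction.vonMangoldt (u + b * t) := by
  rw [Fin.prod_univ_two, mul_comm]
  have e0 : lamI (Cf a b 0 * (t : ℤ) + Hf u v 0) = ArithmeticFunction.vonMangoldt (u + b * t) := by
    have e : Cf a b 0 * (t : ℤ) + Hf u v 0 = ((u + b * t : ℕ) : ℤ) := by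
      unfold Cf Hf
      rw [Fin.cons_zero, Fin.cons_zero]
      push_cast
      ring
    rw [e]
    unfold lamI
    rw [if_pos (by exact_mod_cast (by omega : 1 ≤ u + b * t)), Int.toNat_natCast]
  have e1 : lamI (Cf a b 1 * (t : ℤ) + Hf u v 1) = ArithmeticFunction.vonMangoldt (v + a * t) := by
    have e : Cf a b 1 * (t : ℤ) + Hf u v 1 = ((v + a * t : ℕ) : ℤ) := by
      have e1 : Cf a b 1 = a := rfl
      have e2 : Hf u v 1 = v := rfl
      rw [e1, e2]
      push_cast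
      ring
    rw [e]
    unfold lamI
    rw [if_pos (by exact_mod_cast (by omega : 1 ≤ v + a * t)), Int.toNat_natCast]
  rw [e0, e1]

lemma prod_lamzI (z a b u v t : ℕ) (hu : 1 ≤ u) (hv : 1 ≤ v) :
    ∏ i, lamzI z (Cf a b i * (t : ℤ) + Hf u v i) = lamz z (v + a * t) * lamz z (u + b * t) := by
  rw [Fin.prod_univ_two, mul_comm]
  have e0 : lamzI z (Cf a b 0 * (t : ℤ) + Hf u v 0) = lamz z (u + b * t) := by
    have e : Cf a b 0 * (t : ℤ) + Hf u v 0 = ((u + b * t : ℕ) : ℤ) := by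
      unfold Cf Hf
      rw [Fin.cons_zero, Fin.cons_zero]
      push_cast
      ring
    rw [e]
    unfold lamzI
    rw [if_pos (by exact_mod_cast (by omega : 1 ≤ u + b * t)), Int.toNat_natCast]
  have e1 : lamzI z (Cf a b 1 * (t : ℤ) + Hf u v 1) = lamz z (v + a * t) := by
    have e : Cf a b 1 * (t : ℤ) + Hf u v 1 = ((v + a * t : ℕ) : ℤ) := by
      have e1 : Cf a b 1 = a := rfl
      have e2 : Hf u v 1 = v := rfl
      rw [e1, e2]
      push_cast
      ring
    rw [e]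
    unfold lamzI
    rw [if_pos (by exact_mod_cast (by omega : 1 ≤ v + a * t)), Int.toNat_natCast]
  rw [e0, e1]

/-- the number of the solutions with `t < T` -/
noncomputable def num (a b u v T : ℕ) : ℝ :=
  (((range T).filter fun t => (v + a * t).Prime ∧ (u + b * t).Prime).card : ℝ)

lemma num_eq (a b u v T : ℕ) :
    |num a b u v T - (cntF (Cf a b) (Hf u v) T : ℝ)| ≤ 1 := by
  obtain ⟨g, hg⟩ : ∃ g : ℕ → ℝ, g = fun t => if (v + a * t).Prime ∧ (u + b * t).Prime then (1 : ℝ) else 0 := ⟨_, rfl⟩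
  have h1 : num a b u v T = ∑ t ∈ range T, g t := by
    unfold num
    rw [card_filter, hg]
    push_cast
    rfl
  have h2 : (cntF (Cf a b) (Hf u v) T : ℝ) = ∑ t ∈ Icc 1 T, g t := by
    unfold cntF
    rw [card_filter, hg]
    push_cast
    apply sum_congr rfl
    intro t _
    have e : (∀ i, (Cf a b i * (t : ℤ) + Hf u v i).toNat.Prime) ↔ ((v + a * t).Prime ∧ (u + b * t).Prime) := by
      rw [Fin.forall_fin_two]
      have e0 : Cf a b 0 * (t : ℤ) + Hf u v 0 = ((u + b * t : ℕ) : ℤ) := by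
        unfold Cf Hf
        rw [Fin.cons_zero, Fin.cons_zero]
        push_cast
        ring
      have e1 : Cf a b 1 * (t : ℤ) + Hf u v 1 = ((v + a * t : ℕ) : ℤ) := by
        have e1 : Cf a b 1 = a := rfl
        have e2 : Hf u v 1 = v := rfl
        rw [e1, e2]
        push_cast
        ring
      rw [e0, e1, Int.toNat_natCast, Int.toNat_natCast]
      exact and_comm
    by_cases hc : (v + a * t).Prime ∧ (u + b * t).Prime
    · rw [if_pos hc, if_pos (e.2 hc)]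
    · rw [if_neg hc, if_neg (fun h => hc (e.1 h))]
  have h3 := shift_one g T
  have hg0 : ∀ t, 0 ≤ g t ∧ g t ≤ 1 := by
    intro t
    rw [hg]
    simp only
    split_ifs <;> norm_num
  rw [h1, h2]
  have e : ∑ t ∈ range T, g t - ∑ t ∈ Icc 1 T, g t = g 0 - g T := by linarith
  rw [e, abs_le]
  have h4 := hg0 0
  have h5 := hg0 T
  constructor <;> linarith [h4.1, h4.2, h5.1, h5.2]

/-- the conclusion for one equation -/
def Concl (ε : ℝ) (U N T a b c u v : ℕ) : Prop :=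
  ∃ S : ℝ, 0 < S ∧ Tendsto (singF (Cf a b) (Hf u v)) atTop (nhds S) ∧
    |cor (fun n => ArithmeticFunction.vonMangoldt n) (fun n => ArithmeticFunction.vonMangoldt n) a b c (a * T) - S * T| ≤
      T / Real.log N ^ U ∧
    |num a b u v T - S * (T / Real.log N ^ 2)| ≤ ε * (S * (T / Real.log N ^ 2))

/-- the deterministic part -/
theorem det_one (A B U : ℕ) (ε : ℝ) (hε : 0 < ε) (E1 : ℕ) (hE1 : U + A + 9 ≤ E1) :
    ∃ n0 : ℕ, ∀ N : ℕ, n0 ≤ N → ∀ z : ℕ, Real.log N ^ E1 ≤ z → (z : ℝ) ≤ Real.log N ^ (E1 + 1) →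
    ∀ j a b c u v : ℕ, 1 ≤ a → 1 ≤ b → a * b ≤ j → (j : ℝ) ≤ Real.log N ^ A → 1 ≤ c → c ≤ B * N → Nat.Coprime a b →
    1 ≤ v → v ≤ a → a * u = b * v + c → AdmF (Cf a b) (Hf u v) →
    |cor (fun n => ArithmeticFunction.vonMangoldt n) (fun n => ArithmeticFunction.vonMangoldt n) a b c (a * (N / j)) -
      cor (lamz z) (lamz z) a b c (a * (N / j))| ≤ (1 / 8) * (((N / j : ℕ) : ℝ) / Real.log N ^ (U + 2)) →
    Concl ε U N (N / j) a b c u v := by
  obtain ⟨c0, hc0def⟩ : ∃ c0 : ℝ, c0 = (1 / (3 * ((2 : ℕ) : ℝ))) ^ (3 * 2) * Real.exp (-(2 * ((2 : ℕ) : ℝ) ^ 2)) := ⟨_, rfl⟩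
  have hc0 : 0 < c0 := by rw [hc0def]; positivity
  obtain ⟨n1, h1⟩ := Pool.Agent.N699.ST.size_x A
  obtain ⟨n2, h2⟩ := Pool.Agent.N699.ST.det_core 2 (A + 1) (B + 1) (U + 1) (by norm_num) (ε / 2) (by positivity) E1 (by omega) (by omega)
  obtain ⟨n3, h3⟩ := Pool.Agent.Y820.LF.t_main0 2 (E1 + 2) (U + 3) (by norm_num)
  obtain ⟨n4, h4⟩ := ev_L' (2 ^ (E1 + 2) + 2 ^ (U + 6) + Real.log ((B : ℝ) + 3) + 16)
  obtain ⟨n5, h5⟩ := ev_log' (U + 4) 80
  obtain ⟨n6, h6⟩ := ev_log' 2 (2 / (c0 * ε))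
  obtain ⟨n7, h7⟩ := ev_log' A 1
  obtain ⟨n8, h8⟩ := Vz_inv_small (E1 + 1)
  refine ⟨n1 + n2 + n3 ^ 2 + n4 + n5 + n6 + n7 + n8 + 4, fun N hN z hz1 hz2 j a b c u v ha hb habj hj2 hc1 hcB hab hv1 hva huv hadm hD => ?_⟩
  have hj1 : 1 ≤ j := le_trans (Nat.mul_pos ha hb) habj
  obtain ⟨hx1, hx2, hx3⟩ := h1 N (by omega) j hj1 hj2
  have a2 := h2 N (by omega) z hz1 hz2 (N / j) hx1
  have a4 := h4 N (by omega)
  have a5 := h5 N (by omega)
  have a6 := h6 N (by omega)
  have a7 := h7 N (by omega)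
  obtain ⟨T, hT⟩ : ∃ T, T = N / j := ⟨_, rfl⟩
  rw [← hT] at hx1 hx2 hx3 a2 hD ⊢
  have hNr : (4 : ℝ) ≤ N := by exact_mod_cast (by omega : 4 ≤ N)
  have hN0 : (0 : ℝ) < N := by linarith
  have hsq : √(N : ℝ) * √(N : ℝ) = N := Real.mul_self_sqrt (by linarith)
  have hs1 : 1 ≤ √(N : ℝ) := by
    rw [Real.one_le_sqrt]
    linarith
  have hT0 : (0 : ℝ) < T := by linarith
  have hTn : 1 ≤ T := by exact_mod_cast hT0
  have hTn3 : n3 ≤ T := by
    have h5 : (n3 : ℝ) ≤ √(N : ℝ) := by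
      apply Real.le_sqrt_of_sq_le
      exact_mod_cast (by omega : n3 ^ 2 ≤ N)
    exact_mod_cast h5.trans hx2
  obtain ⟨L, hL⟩ : ∃ L : ℝ, L = Real.log (N : ℝ) := ⟨_, rfl⟩
  obtain ⟨l, hl⟩ : ∃ l : ℝ, l = Real.log (T : ℝ) := ⟨_, rfl⟩
  have hlL : L ≤ 2 * l := by
    have h5 : Real.log (√(N : ℝ)) ≤ l := by rw [hl]; exact Real.log_le_log (by linarith) hx2
    have h6 : Real.log (√(N : ℝ)) = L / 2 := by rw [Real.log_sqrt hN0.le, hL]
    linarith
  have hz0 : 1 ≤ z := by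
    have hL1 : 1 ≤ Real.log N := by
      rw [Real.le_log_iff_exp_le hN0]
      linarith [Real.exp_one_lt_d9]
    have : (1 : ℝ) ≤ z := (one_le_pow₀ hL1).trans hz1
    exact_mod_cast this
  have hVinv := h8 N (by omega) z hz0 hz2
  rw [← hL] at a4 a5 a6 a7 hz2 hD hVinv hj2
  have hp1 : (0 : ℝ) < 2 ^ (U + 6) := by positivity
  have hp2 : (0 : ℝ) < 2 ^ (E1 + 2) := by positivity
  have hp3 : 0 ≤ Real.log ((B : ℝ) + 3) := Real.log_nonneg (by
    have : (0 : ℝ) ≤ B := Nat.cast_nonneg _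
    linarith)
  have hL16 : 16 ≤ L := by linarith
  have hL0 : 0 < L := by linarith
  have hl0 : 0 < l := by linarith
  -- sizes
  have hbj : b ≤ j := le_trans (Nat.le_mul_of_pos_left b ha) habj
  have haj : a ≤ j := le_trans (Nat.le_mul_of_pos_right a hb) habj
  have hjN : j ≤ N := by
    have h9 : (j : ℝ) ≤ N := by
      rw [one_mul] at a7
      nlinarith
    exact_mod_cast h9
  have habN : a * b ≤ N := habj.trans hjN
  have haN : a ≤ N := haj.trans hjN
  have hbvN : b * v ≤ N := by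
    have h9 : b * v ≤ b * a := Nat.mul_le_mul_left _ hva
    have h10 : b * a = a * b := mul_comm _ _
    omega
  have huB : u ≤ (B + 1) * N := by
    have h9 : u ≤ a * u := Nat.le_mul_of_pos_left u ha
    have h10 : (B + 1) * N = B * N + N := by ring
    omega
  have hu1 : 1 ≤ u := by
    by_contra hcon
    have : u = 0 := by omega
    rw [this, mul_zero] at huv
    omega
  have hbT : b * T ≤ N := (Nat.mul_le_mul_right T hbj).trans hx3
  have haT : a * T ≤ N := (Nat.mul_le_mul_right T haj).trans hx3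
  -- the bounds of the terms at the ends
  have hΛ : ∀ n ≤ (B + 3) * N, 0 ≤ ArithmeticFunction.vonMangoldt n ∧ ArithmeticFunction.vonMangoldt n ≤ 2 * L := by
    intro n hn
    refine ⟨ArithmeticFunction.vonMangoldt_nonneg, ?_⟩
    rcases Nat.eq_zero_or_pos n with h0 | h0
    · rw [h0]
      simp
      exact hL0.le
    · refine ArithmeticFunction.vonMangoldt_le_log.trans ?_
      have h9 : (n : ℝ) ≤ ((B : ℝ) + 3) * N := by exact_mod_cast hn
      have h10 := Real.log_le_log (by exact_mod_cast h0) h9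
      rw [Real.log_mul (by positivity) hN0.ne', ← hL] at h10
      linarith
  have hlz : ∀ n, 0 ≤ lamz z n ∧ lamz z n ≤ L := by
    intro n
    refine ⟨lamz_nonneg z n, ?_⟩
    unfold lamz
    split_ifs
    · exact hVinv
    · exact hL0.le
  obtain ⟨gL, hgL⟩ : ∃ gL : ℕ → ℝ, gL = fun t => ArithmeticFunction.vonMangoldt (v + a * t) * ArithmeticFunction.vonMangoldt (u + b * t) := ⟨_, rfl⟩
  obtain ⟨gz, hgz⟩ : ∃ gz : ℕ → ℝ, gz = fun t => lamz z (v + a * t) * lamz z (u + b * t) := ⟨_, rfl⟩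
  have hgLb : ∀ t ≤ T, 0 ≤ gL t ∧ gL t ≤ 4 * L ^ 2 := by
    intro t ht
    have e1 : v + a * t ≤ (B + 3) * N := by
      have h9 : a * t ≤ a * T := Nat.mul_le_mul_left _ ht
      have h10 : (B + 3) * N = B * N + 3 * N := by ring
      omega
    have e2 : u + b * t ≤ (B + 3) * N := by
      have h9 : b * t ≤ b * T := Nat.mul_le_mul_left _ ht
      have h10 : (B + 3) * N = B * N + 3 * N := by ring
      have h11 : (B + 1) * N = B * N + N := by ring
      omega
    obtain ⟨q1, q2⟩ := hΛ _ e1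
    obtain ⟨q3, q4⟩ := hΛ _ e2
    rw [hgL]
    refine ⟨mul_nonneg q1 q3, ?_⟩
    calc ArithmeticFunction.vonMangoldt (v + a * t) * ArithmeticFunction.vonMangoldt (u + b * t) ≤ (2 * L) * (2 * L) :=
          mul_le_mul q2 q4 q3 (by positivity)
      _ = _ := by ring
  have hgzb : ∀ t, 0 ≤ gz t ∧ gz t ≤ L ^ 2 := by
    intro t
    obtain ⟨q1, q2⟩ := hlz (v + a * t)
    obtain ⟨q3, q4⟩ := hlz (u + b * t)
    rw [hgz]
    refine ⟨mul_nonneg q1 q3, ?_⟩
    calc lamz z (v + a * t) * lamz z (u + b * t) ≤ L * L := mul_le_mul q2 q4 q3 hL0.le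
      _ = _ := by ring
  obtain ⟨c1, hc1def⟩ : ∃ c1 : ℝ, c1 = cor (fun n => ArithmeticFunction.vonMangoldt n) (fun n => ArithmeticFunction.vonMangoldt n) a b c (a * T) := ⟨_, rfl⟩
  obtain ⟨c2, hc2def⟩ : ∃ c2 : ℝ, c2 = cor (lamz z) (lamz z) a b c (a * T) := ⟨_, rfl⟩
  have k1 : c1 = ∑ t ∈ range T, gL t := by
    rw [hc1def, hgL]
    exact cor_lin _ _ a b c u v T ha hab hv1 hva huv
  have k2 : c2 = ∑ t ∈ range T, gz t := by
    rw [hc2def, hgz]
    exact cor_lin _ _ a b c u v T ha hab hv1 hva huv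
  obtain ⟨s1, hs1def⟩ : ∃ s1 : ℝ, s1 = ∑ t ∈ Icc 1 T, gL t := ⟨_, rfl⟩
  obtain ⟨s2, hs2def⟩ : ∃ s2 : ℝ, s2 = ∑ t ∈ Icc 1 T, gz t := ⟨_, rfl⟩
  have k3 := shift_one gL T
  have k4 := shift_one gz T
  rw [← k1, ← hs1def] at k3
  rw [← k2, ← hs2def] at k4
  have g1 := hgLb 0 (by omega)
  have g2 := hgLb T le_rfl
  have g3 := hgzb 0
  have g4 := hgzb T
  rw [← hc1def, ← hc2def] at hD
  have k5 : s1 = ∑ t ∈ Icc 1 T, ∏ i, lamI (Cf a b i * (t : ℤ) + Hf u v i) := by
    rw [hs1def]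
    apply sum_congr rfl
    intro t _
    rw [prod_lamI a b u v t hu1 hv1, hgL]
  have k6 : s2 = ∑ t ∈ Icc 1 T, ∏ i, lamzI z (Cf a b i * (t : ℤ) + Hf u v i) := by
    rw [hs2def]
    apply sum_congr rfl
    intro t _
    rw [prod_lamzI z a b u v t hu1 hv1, hgz]
  -- the model
  have hzx : (z : ℝ) ≤ l ^ (E1 + 2) := by
    refine hz2.trans ?_
    calc L ^ (E1 + 1) ≤ (2 * l) ^ (E1 + 1) := pow_le_pow_left₀ hL0.le hlL _
      _ = 2 ^ (E1 + 1) * l ^ (E1 + 1) := mul_pow _ _ _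
      _ ≤ l * l ^ (E1 + 1) := by
          apply mul_le_mul_of_nonneg_right _ (by positivity)
          have : (2 : ℝ) ^ (E1 + 2) = 2 * 2 ^ (E1 + 1) := by ring
          linarith
      _ = _ := by ring
  have hmod := h3 T hTn3 z hz0 (by rw [← hl]; exact hzx) (Cf a b) (Hf u v) (by
    intro i
    revert i
    rw [Fin.forall_fin_two]
    constructor
    · show 1 ≤ (b : ℤ) + (u : ℤ) ∧ 1 ≤ (b : ℤ) * T + (u : ℤ)
      exact ⟨by exact_mod_cast (by omega : 1 ≤ b + u), by exact_mod_cast (by omega : 1 ≤ b * T + u)⟩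
    · show 1 ≤ (a : ℤ) + (v : ℤ) ∧ 1 ≤ (a : ℤ) * T + (v : ℤ)
      exact ⟨by exact_mod_cast (by omega : 1 ≤ a + v), by exact_mod_cast (by omega : 1 ≤ a * T + v)⟩) hadm
  rw [← hl, ← k6] at hmod
  have herr : (T : ℝ) / l ^ (U + 3) ≤ (1 / 8) * (T / L ^ (U + 2)) := by
    rw [div_le_iff₀ (by positivity)]
    have h5 : L ^ (U + 3) ≤ 2 ^ (U + 3) * l ^ (U + 3) := by
      rw [← mul_pow]
      exact pow_le_pow_left₀ hL0.le hlL _
    have h7 : L ^ (U + 3) = L * L ^ (U + 2) := by ring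
    have h8 : 1 / 8 * ((T : ℝ) / L ^ (U + 2)) * l ^ (U + 3) = T * (1 / 8 * (l ^ (U + 3) / L ^ (U + 2))) := by ring
    rw [h8]
    apply le_mul_of_one_le_right hT0.le
    have h9 : 8 ≤ l ^ (U + 3) / L ^ (U + 2) := by
      rw [le_div_iff₀ (by positivity)]
      have h6 : (2 : ℝ) ^ (U + 6) = 8 * 2 ^ (U + 3) := by ring
      have h10 : 8 * L ^ (U + 2) * 2 ^ (U + 3) ≤ l ^ (U + 3) * 2 ^ (U + 3) := by
        calc 8 * L ^ (U + 2) * 2 ^ (U + 3) = 2 ^ (U + 6) * L ^ (U + 2) := by rw [h6]; ring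
          _ ≤ L * L ^ (U + 2) := by
              apply mul_le_mul_of_nonneg_right _ (by positivity)
              linarith
          _ = L ^ (U + 3) := h7.symm
          _ ≤ 2 ^ (U + 3) * l ^ (U + 3) := h5
          _ = _ := by ring
      exact le_of_mul_le_mul_right h10 (by positivity)
    linarith
  -- the ends
  have hend : 10 * L ^ 2 ≤ (1 / 8) * (T / L ^ (U + 2)) := by
    have e : (1 / 8) * ((T : ℝ) / L ^ (U + 2)) = T / (8 * L ^ (U + 2)) := by
      field_simp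
    rw [e, le_div_iff₀ (by positivity)]
    calc 10 * L ^ 2 * (8 * L ^ (U + 2)) = 80 * L ^ (U + 4) := by ring
      _ ≤ √(N : ℝ) := a5
      _ ≤ T := hx2
  have hmain : |s1 - singF (Cf a b) (Hf u v) z * T| ≤ T / L ^ (U + 1 + 1) := by
    have e : U + 1 + 1 = U + 2 := by ring
    rw [e]
    obtain ⟨d1, d2⟩ := abs_le.1 hD
    obtain ⟨m1, m2⟩ := abs_le.1 (hmod.trans herr)
    have hq : 0 ≤ (T : ℝ) / L ^ (U + 2) := by positivity
    rw [abs_le]
    constructor <;> linarith [g1.1, g1.2, g2.1, g2.2, g3.1, g3.2, g4.1, g4.2]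
  rw [k5, hL] at hmain
  obtain ⟨S, hS0, hS, hS1, hS2⟩ := a2 (Cf a b) (Hf u v) (by
    rw [Fin.forall_fin_two]
    constructor
    · show 1 ≤ (b : ℤ) ∧ (b : ℤ) * T ≤ N
      exact ⟨by exact_mod_cast hb, by exact_mod_cast hbT⟩
    · show 1 ≤ (a : ℤ) ∧ (a : ℤ) * T ≤ N
      exact ⟨by exact_mod_cast ha, by exact_mod_cast haT⟩) (by
    rw [Fin.forall_fin_two]
    constructor
    · show 0 ≤ (u : ℤ) ∧ (u : ℤ) ≤ ((B + 1 : ℕ) : ℤ) * N
      exact ⟨by positivity, by exact_mod_cast huB⟩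
    · show 0 ≤ (v : ℤ) ∧ (v : ℤ) ≤ ((B + 1 : ℕ) : ℤ) * N
      refine ⟨by positivity, ?_⟩
      have h9 : (B + 1) * N = B * N + N := by ring
      exact_mod_cast (by omega : v ≤ (B + 1) * N)) (by
    have hne : (b : ℤ) * v ≠ a * u := by
      have h9 : b * v ≠ a * u := by omega
      exact_mod_cast h9
    rw [Fin.forall_fin_two]
    constructor
    · rw [Fin.forall_fin_two]
      constructor
      · intro h9
        exact absurd rfl h9
      · intro _
        exact hne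
    · rw [Fin.forall_fin_two]
      constructor
      · intro _
        exact hne.symm
      · intro h9
        exact absurd rfl h9) hadm hmain
  rw [← k5, ← hL] at hS1
  rw [← hL] at hS2
  -- the lower bound for the singular series
  have hlow : ∀ z', c0 ≤ singF (Cf a b) (Hf u v) z' := fun z' => by
    rw [hc0def]
    exact local_low 2 (by norm_num) (nuF (Cf a b) (Hf u v)) z'
      (fun p hp => Pool.Agent.Y820.LF.L.nuF_le (Cf a b) (Hf u v) hadm p (mem_pz.1 hp).2)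
      (fun p hp => hadm p (mem_pz.1 hp).2)
  have hcS : c0 ≤ S := ge_of_tendsto' hS hlow
  have hbig : 1 ≤ (ε / 2) * (S * (T / L ^ 2)) := by
    have h9 : 2 / (c0 * ε) * L ^ 2 ≤ T := a6.trans hx2
    have h10 : 1 ≤ ε / 2 * (c0 * (T / L ^ 2)) := by
      have e : ε / 2 * (c0 * ((T : ℝ) / L ^ 2)) = (c0 * ε * T) / (2 * L ^ 2) := by field_simp
      rw [e, le_div_iff₀ (by positivity), one_mul]
      have h11 : (c0 * ε) * (2 / (c0 * ε) * L ^ 2) ≤ (c0 * ε) * T := mul_le_mul_of_nonneg_left h9 (by positivity)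
      have h12 : (c0 * ε) * (2 / (c0 * ε) * L ^ 2) = 2 * L ^ 2 := by field_simp
      linarith
    refine h10.trans ?_
    apply mul_le_mul_of_nonneg_left _ (by positivity)
    exact mul_le_mul_of_nonneg_right hcS (by positivity)
  refine ⟨S, hS0, hS, ?_, ?_⟩
  · rw [← hc1def, ← hL]
    obtain ⟨m1, m2⟩ := abs_le.1 hS1
    have hq : (T : ℝ) / L ^ (U + 2) ≤ T / L ^ U := by
      apply div_le_div_of_nonneg_left hT0.le (by positivity)
      exact pow_le_pow_right₀ (by linarith) (by omega)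
    have hq2 : (T : ℝ) / L ^ (U + 1) ≤ (1 / 16) * (T / L ^ U) := by
      rw [pow_succ]
      have e : (T : ℝ) / (L ^ U * L) = (1 / L) * (T / L ^ U) := by field_simp
      rw [e]
      apply mul_le_mul_of_nonneg_right _ (by positivity)
      exact one_div_le_one_div_of_le (by norm_num) hL16
    have hq3 : 0 ≤ (T : ℝ) / L ^ U := by positivity
    rw [abs_le]
    constructor <;> linarith [g1.1, g1.2, g2.1, g2.2]
  · rw [← hL]
    have h9 := num_eq a b u v T
    obtain ⟨m1, m2⟩ := abs_le.1 h9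
    obtain ⟨m3, m4⟩ := abs_le.1 hS2
    rw [abs_le]
    constructor <;> linarith

end Pool.Agent.Run7.h504.Eq
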