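import Pool.Agent.N699.ST.Tra
import Pool.Agent.H560R3.GB.Tup2

set_option autoImplicit false

/-! The one shift estimate for the law of a random member of a family of nearly minimal additive energy. -/

namespace Pool.Agent.Run7.h504.Fam
open Finset
open Pool.Agent.H807R2.Dav
open Pool.Agent.H373R2.T7

/-- the law of a random member of a family of nearly minimal additive energy -/
def Law (h B C N : ℕ) (Ω : Finset ℕ) (p : ℕ → ℝ) : Prop :=
  ∃ (x : ℕ) (s : ℕ → ℕ), 1 ≤ x ∧ (∀ m ∈ Icc 1 x, s m ≤ B * N) ∧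
    (energy h x (fun m => (s m : ℤ)) : ℝ) * N ≤ Real.log N ^ C * (x : ℝ) ^ (2 * h) ∧
    Ω = (Icc 1 x).image s ∧ p = fun v => (((Icc 1 x).filter fun m => s m = v).card : ℝ) / x

/-- the sums over the law are averages over the family -/
lemma law_sum (x : ℕ) (s : ℕ → ℕ) (F : ℕ → ℝ) :
    ∑ v ∈ (Icc 1 x).image s, ((((Icc 1 x).filter fun m => s m = v).card : ℝ) / x) * F v =
      (∑ m ∈ Icc 1 x, F (s m)) / x := by
  classical
  rw [sum_div]
  rw [← sum_fiberwise_of_maps_to (s := Icc 1 x) (t := (Icc 1 x).image s) (g := s) (fun m hm => mem_image_of_mem s hm)]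
  apply sum_congr rfl
  intro v _
  have h1 : ∀ m ∈ (Icc 1 x).filter (fun m => s m = v), F (s m) / x = F v / x := by
    intro m hm
    rw [(mem_filter.1 hm).2]
  rw [sum_congr rfl h1, sum_const, nsmul_eq_mul]
  ring

/-- the products over several laws -/
lemma law_pi {k : ℕ} (x : Fin k → ℕ) (s : Fin k → ℕ → ℕ) (F : (Fin k → ℕ) → ℝ) :
    ∑ v ∈ Fintype.piFinset (fun i => (Icc 1 (x i)).image (s i)),
      (∏ i, ((((Icc 1 (x i)).filter fun m => s i m = v i).card : ℝ) / x i)) * F v =
      (∑ m ∈ Fintype.piFinset (fun i => Icc 1 (x i)), F (fun i => s i (m i))) / ∏ i, (x i : ℝ) := by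
  classical
  rw [sum_div]
  rw [← sum_fiberwise_of_maps_to (s := Fintype.piFinset (fun i => Icc 1 (x i)))
    (t := Fintype.piFinset (fun i => (Icc 1 (x i)).image (s i))) (g := fun m i => s i (m i))
    (fun m hm => by
      rw [Fintype.mem_piFinset] at hm ⊢
      intro i
      exact mem_image_of_mem (s i) (hm i))]
  apply sum_congr rfl
  intro v _
  have h1 : ∀ m ∈ (Fintype.piFinset (fun i => Icc 1 (x i))).filter (fun m => (fun i => s i (m i)) = v),
      F (fun i => s i (m i)) / ∏ i, (x i : ℝ) = F v / ∏ i, (x i : ℝ) := by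
    intro m hm
    rw [(mem_filter.1 hm).2]
  rw [sum_congr rfl h1, sum_const, nsmul_eq_mul]
  have h2 : (Fintype.piFinset (fun i => Icc 1 (x i))).filter (fun m => (fun i => s i (m i)) = v) =
      Fintype.piFinset (fun i => (Icc 1 (x i)).filter fun m => s i m = v i) := by
    ext m
    rw [mem_filter, Fintype.mem_piFinset, Fintype.mem_piFinset]
    constructor
    · rintro ⟨h3, h4⟩ i
      exact mem_filter.2 ⟨h3 i, congrFun h4 i⟩
    · intro h3
      exact ⟨fun i => (mem_filter.1 (h3 i)).1, funext fun i => (mem_filter.1 (h3 i)).2⟩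
  rw [h2, Fintype.card_piFinset, prod_div_distrib]
  push_cast
  ring

/-- the one shift estimate -/
theorem fam_one (h B C : ℕ) (hh : 1 ≤ h) (U : ℕ) : Pool.Agent.N469.PT.OneLaw (Law h B C) 1 0 U := by
  classical
  obtain ⟨B0, hB0⟩ := Pool.Agent.H560R3.GB.lam_e h (B + 1) C U
  refine ⟨B + 1, B0, fun E => ?_⟩
  obtain ⟨n1, h1⟩ := hB0 E
  obtain ⟨n2, h2⟩ := ev_log' (C + 2 * h * U) 1
  refine ⟨n1 + n2 + 3, fun N hN Ω p hL cc hcc => ?_⟩
  have hcc0 : cc = 0 := by omega
  subst hcc0
  obtain ⟨x, s, hx, hs, hE, rfl, rfl⟩ := hL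
  have hx0 : (0 : ℝ) < x := by exact_mod_cast hx
  have hN0 : (0 : ℝ) < N := by exact_mod_cast (by omega : 0 < N)
  have hL1 : 1 ≤ Real.log N := by
    rw [Real.le_log_iff_exp_le hN0]
    have : (3 : ℝ) ≤ N := by exact_mod_cast (by omega : 3 ≤ N)
    linarith [Real.exp_one_lt_d9]
  have hL0 : 0 < Real.log N := by linarith
  refine ⟨fun v _ => by positivity, ?_, ?_, ?_, ?_⟩
  · have h3 := law_sum x s (fun _ => 1)
    simp only [mul_one, sum_const, Nat.card_Icc, Nat.add_sub_cancel, nsmul_eq_mul] at h3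
    rw [h3, div_self hx0.ne']
  · intro v _
    show (((Icc 1 x).filter fun m => s m = v).card : ℝ) / x ≤ 1 / Real.log N ^ U
    have h3 := Pool.Agent.H560R3.GB.mult_le h x s (v : ℤ)
    have h4 : (Icc 1 x).filter (fun m => (s m : ℤ) = (v : ℤ)) = (Icc 1 x).filter fun m => s m = v := by
      apply filter_congr
      intro m _
      exact Nat.cast_inj
    rw [h4] at h3
    have h5 := h2 N (by omega)
    rw [div_le_div_iff₀ hx0 (by positivity), one_mul]
    have h6 : ((((Icc 1 x).filter fun m => s m = v).card : ℝ) * Real.log N ^ U) ^ (2 * h) ≤ (x : ℝ) ^ (2 * h) := by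
      rw [mul_pow, ← pow_mul]
      have h7 : (((Icc 1 x).filter fun m => s m = v).card : ℝ) ^ (2 * h) * N ≤ Real.log N ^ C * (x : ℝ) ^ (2 * h) :=
        (mul_le_mul_of_nonneg_right h3 hN0.le).trans hE
      have h8 : Real.log N ^ C * Real.log N ^ (U * (2 * h)) ≤ N := by
        rw [← pow_add]
        have e : C + U * (2 * h) = C + 2 * h * U := by ring
        rw [e]
        have h9 : Real.sqrt (N : ℝ) ≤ N := by
          rw [Real.sqrt_le_left hN0.le]
          have : (1 : ℝ) ≤ N := by exact_mod_cast (by omega : 1 ≤ N)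
          nlinarith
        linarith
      have h9 : (((Icc 1 x).filter fun m => s m = v).card : ℝ) ^ (2 * h) * Real.log N ^ (U * (2 * h)) * N ≤ (x : ℝ) ^ (2 * h) * N := by
        calc (((Icc 1 x).filter fun m => s m = v).card : ℝ) ^ (2 * h) * Real.log N ^ (U * (2 * h)) * N =
            ((((Icc 1 x).filter fun m => s m = v).card : ℝ) ^ (2 * h) * N) * Real.log N ^ (U * (2 * h)) := by ring
          _ ≤ (Real.log N ^ C * (x : ℝ) ^ (2 * h)) * Real.log N ^ (U * (2 * h)) := mul_le_mul_of_nonneg_right h7 (by positivity)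
          _ = (Real.log N ^ C * Real.log N ^ (U * (2 * h))) * (x : ℝ) ^ (2 * h) := by ring
          _ ≤ N * (x : ℝ) ^ (2 * h) := mul_le_mul_of_nonneg_right h8 (by positivity)
          _ = _ := by ring
      exact le_of_mul_le_mul_right h9 hN0
    exact (pow_le_pow_iff_left₀ (by positivity) hx0.le (by omega)).1 h6
  · intro v hv
    obtain ⟨m, hm, rfl⟩ := mem_image.1 hv
    have := hs m hm
    rw [zero_add, one_mul]
    exact this.trans (Nat.mul_le_mul_right _ (by omega))
  · intro z hz1 hz2 Kc hKc G hG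
    have h3 := law_sum x s (fun v => |∑ n ∈ Icc 1 N, G n * (lamI ((n : ℤ) + ((0 + 1 * v : ℕ) : ℤ)) - lamzI z ((n : ℤ) + ((0 + 1 * v : ℕ) : ℤ)))|)
    refine (le_of_eq h3).trans ?_
    have h4 := Pool.Agent.H560R3.GB.l1_real N x (fun n m => lamI ((n : ℤ) + ((0 + 1 * s m : ℕ) : ℤ)) - lamzI z ((n : ℤ) + ((0 + 1 * s m : ℕ) : ℤ)))
      (N * x / Real.log N ^ U) Kc hKc (fun G' hG' => by
        have h5 := h1 N (by omega) x (fun m => (s m : ℤ)) (fun m hm => by
          rw [abs_of_nonneg (by positivity)]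
          have := (hs m hm).trans (Nat.mul_le_mul_right N (by omega : B ≤ B + 1))
          exact_mod_cast this) hE N (Nat.le_mul_of_pos_left _ (by omega)) z hz1 hz2 G' hG'
        refine le_trans (le_of_eq ?_) h5
        simp only [zero_add, one_mul]) G hG
    rw [div_le_iff₀ hx0]
    refine h4.trans (le_of_eq ?_)
    ring

end Pool.Agent.Run7.h504.Fam
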