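import Pool.Agent.H373R2.T7.BilE
import Pool.Agent.H373R2.T7.BilLam

set_option autoImplicit false

/-! First moments of correlations with arbitrary coefficients over a family of nearly minimal additive energy: an
arbitrary function with a small Fourier transform. The proof is that of `Pool.Agent.H560R3.GB.lam_e`. -/

namespace Pool.Agent.Run7.h504.GenE

open Finset Pool.Agent.H373R2.T7
open Pool.Agent.H807R2.Dav

set_option maxHeartbeats 1000000 in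
/-- the first moment over a family of shifts of nearly minimal energy -/
theorem gen_e (p B C U W : ℕ) :
    ∃ U' N0 : ℕ, ∀ N : ℕ, N0 ≤ N → ∀ (x : ℕ) (s : ℕ → ℤ),
    (∀ m ∈ Icc 1 x, |s m| ≤ B * N) →
    (energy p x s : ℝ) * N ≤ Real.log N ^ C * (x : ℝ) ^ (2 * p) →
    ∀ A : ℕ, A ≤ B * N → ∀ F : ℕ → ℂ,
    (∀ n ∈ Icc 1 (2 * ((B + 1) * N)), ‖F n‖ ≤ Real.log N ^ W) →
    (∀ α : ℝ, ‖∑ n ∈ Icc 1 (2 * ((B + 1) * N)), F n * ee ((n : ℝ) * α)‖ ≤ N / Real.log N ^ U') →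
    ∀ G : ℕ → ℂ, (∀ a, ‖G a‖ ≤ 1) →
    ∑ m ∈ Icc 1 x, ‖∑ a ∈ Icc 1 A, G a * fz F (2 * ((B + 1) * N)) (a + s m)‖ ≤ N * x / Real.log N ^ U := by
  obtain ⟨U', hU'⟩ : ∃ U', U' = C + 2 * p * (U + W + 1) + U + 1 := ⟨_, rfl⟩
  obtain ⟨m3, h3⟩ := ev_L' ((4 * p + 7) * (B + 1) + 1)
  refine ⟨U', max m3 3, fun N hN x s hs hE A hA fΛ hfb hsup1 G hG => ?_⟩
  have hL := h3 N (le_trans (le_max_left _ _) hN)
  have hN3 : 3 ≤ N := le_trans (le_max_right _ _) hN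
  have hNr : (3 : ℝ) ≤ N := by exact_mod_cast hN3
  have hN0 : (0 : ℝ) < N := by linarith
  obtain ⟨L, hLd⟩ : ∃ L : ℝ, L = Real.log N := ⟨_, rfl⟩
  rw [← hLd] at hL hE hfb hsup1 ⊢
  have hK0 : (0 : ℝ) ≤ (4 * p + 7) * (B + 1) := by positivity
  have hLge1 : 1 ≤ L := by linarith
  have hL0 : 0 < L := by linarith
  rcases Nat.eq_zero_or_pos x with hx | hx
  · rw [hx]; simp
  have hx0 : (0 : ℝ) < x := by exact_mod_cast hx
  obtain ⟨B1, hB1⟩ : ∃ B1 : ℕ, B1 = B + 1 := ⟨_, rfl⟩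
  have hB1pos : 1 ≤ B1 := by omega
  obtain ⟨H, hH⟩ : ∃ H : ℕ, H = 2 * (B1 * N) := ⟨_, rfl⟩
  obtain ⟨M, hM⟩ : ∃ M : ℕ, M = (4 * p + 5) * (B1 * N) := ⟨_, rfl⟩
  rw [← hB1, ← hH] at hfb hsup1 ⊢
  have hBN : B * N ≤ B1 * N := Nat.mul_le_mul_right _ (by omega)
  have hB1N : 1 ≤ B1 * N := Nat.mul_pos hB1pos (by omega)
  have hH1 : 1 ≤ H := by omega
  have hM5 : 5 * (B1 * N) ≤ M := by
    rw [hM]; exact Nat.mul_le_mul_right _ (by omega)
  have hM1 : 1 ≤ M := by omega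
  have hHM : H ≤ M := by omega
  have hHr : (H : ℝ) = 2 * (B1 * N) := by rw [hH]; push_cast; ring
  have hMr : (M : ℝ) = (4 * p + 5) * (B1 * N) := by rw [hM]; push_cast; ring
  have hcond : ∀ a ∈ Icc 1 A, ∀ m ∈ Icc 1 x, ∀ n ∈ Icc 1 H, |(a : ℤ) + s m - n| < M := by
    intro a ha m hm n hn
    have h4 := abs_le.1 (hs m hm)
    rw [mem_Icc] at ha hn
    have h5 : (a : ℤ) ≤ B * N := by exact_mod_cast ha.2.trans hA
    have h6 : (n : ℤ) ≤ 2 * (B1 * N) := by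
      have := hn.2
      rw [hH] at this
      exact_mod_cast this
    have h7 : (5 : ℤ) * (B1 * N) ≤ M := by exact_mod_cast hM5
    have h8 : (B : ℤ) * N ≤ B1 * N := by exact_mod_cast hBN
    have h9 : (1 : ℤ) ≤ B1 * N := by exact_mod_cast hB1N
    have h10 : (0 : ℤ) ≤ a := by positivity
    have h11 : (0 : ℤ) ≤ n := by positivity
    rw [abs_lt]
    constructor <;> linarith [h4.1, h4.2]
  have hAM : A ≤ M := hA.trans (by omega)
  have hmomE := moment_energy p x s M (B * N) hM1 (fun m hm => by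
    have := hs m hm
    push_cast
    exact this) (by
    have h4 : 2 * p * (B * N) ≤ 2 * p * (B1 * N) := Nat.mul_le_mul_left _ hBN
    have h5 : 2 * p * (B1 * N) < (4 * p + 5) * (B1 * N) := Nat.mul_lt_mul_of_pos_right (by omega) hB1N
    omega)
  obtain ⟨C0, hC0⟩ : ∃ C0 : ℝ, C0 = (4 * p + 5) * B1 * L ^ C := ⟨_, rfl⟩
  have hmom : ∑ t ∈ range M, (‖∑ m ∈ Icc 1 x, ee ((t : ℝ) * ((s m : ℝ) / M))‖ / x) ^ (2 * p) ≤ C0 := by
    have h2 : ∑ t ∈ range M, (‖∑ m ∈ Icc 1 x, ee ((t : ℝ) * ((s m : ℝ) / M))‖ / x) ^ (2 * p) =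
        (M * energy p x s) / (x : ℝ) ^ (2 * p) := by
      rw [← hmomE, sum_div]
      exact sum_congr rfl fun t _ => div_pow _ _ _
    rw [h2, div_le_iff₀ (by positivity), hMr]
    calc (4 * (p : ℝ) + 5) * (B1 * N) * energy p x s = (4 * p + 5) * B1 * (energy p x s * N) := by ring
      _ ≤ (4 * p + 5) * B1 * (L ^ C * (x : ℝ) ^ (2 * p)) := mul_le_mul_of_nonneg_left hE (by positivity)
      _ = _ := by rw [hC0]; ring
  have hfs : ∑ n ∈ Icc 1 H, ‖fΛ n‖ ^ 2 ≤ H * (L ^ W) ^ 2 := by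
    have h4 : ∀ n ∈ Icc 1 H, ‖fΛ n‖ ^ 2 ≤ (L ^ W) ^ 2 := by
      intro n hn
      exact pow_le_pow_left₀ (norm_nonneg _) (hfb n hn) _
    refine (sum_le_sum h4).trans ?_
    rw [sum_const, Nat.card_Icc, nsmul_eq_mul]
    simp
  have hη : 0 < 1 / L ^ (U + W + 1) := by positivity
  obtain ⟨S, hS⟩ : ∃ S : ℕ → ℂ, S = fun m => ∑ a ∈ Icc 1 A, G a * fz fΛ H (a + s m) := ⟨_, rfl⟩
  obtain ⟨c, hc⟩ : ∃ c : ℕ → ℂ, c = fun m => (starRingEnd ℂ) (S m) / ‖S m‖ := ⟨_, rfl⟩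
  have hc1 : ∀ m, ‖c m‖ ≤ 1 := by
    intro m
    rw [hc]
    simp only [norm_div, RCLike.norm_conj, Complex.norm_real, norm_norm]
    exact div_self_le_one _
  have key := bil_main A H x M hM1 fΛ G c s (N / L ^ U') (1 / L ^ (U + W + 1)) p C0
    (H * (L ^ W) ^ 2) hcond hAM hHM hx hsup1 hG hc1 hmom hfs hη
  have heq : ∑ a ∈ Icc 1 A, ∑ m ∈ Icc 1 x, G a * c m * fz fΛ H (a + s m) =
      ((∑ m ∈ Icc 1 x, ‖S m‖ : ℝ) : ℂ) := by
    rw [sum_comm]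
    push_cast
    apply sum_congr rfl
    intro m _
    have e1 : ∑ a ∈ Icc 1 A, G a * c m * fz fΛ H (a + s m) = c m * S m := by
      rw [hS, mul_sum]
      apply sum_congr rfl
      intro a _
      ring
    rw [e1, hc]
    simp only
    by_cases h0 : ‖S m‖ = 0
    · rw [norm_eq_zero.1 h0]; simp
    · have h0' : ((‖S m‖ : ℝ) : ℂ) ≠ 0 := by exact_mod_cast h0
      rw [div_mul_eq_mul_div, mul_comm, Complex.mul_conj', pow_two]
      field_simp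
  rw [heq, Complex.norm_real, Real.norm_of_nonneg (sum_nonneg fun _ _ => norm_nonneg _), hS] at key
  refine key.trans ?_
  have hAr : (A : ℝ) ≤ B1 * N := by exact_mod_cast hA.trans hBN
  have hB1r : (1 : ℝ) ≤ B1 := by exact_mod_cast hB1pos
  have hA0 : (0 : ℝ) ≤ A := Nat.cast_nonneg _
  have t1 : C0 / (1 / L ^ (U + W + 1)) ^ (2 * p) * (N / L ^ U') * A * x / M ≤
      ((4 * p + 5) * B1 / L) * (N * x / L ^ U) := by
    have h4 : C0 / (1 / L ^ (U + W + 1)) ^ (2 * p) * (N / L ^ U') = (4 * p + 5) * B1 * N / L ^ (U + 1) := by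
      rw [div_pow, one_pow, ← pow_mul, hU', hC0]
      have e : L ^ (C + 2 * p * (U + W + 1) + U + 1) = L ^ C * L ^ ((U + W + 1) * (2 * p)) * L ^ (U + 1) := by
        rw [← pow_add, ← pow_add]; congr 1; ring
      rw [e]
      field_simp
    rw [h4]
    have hAM' : (A : ℝ) ≤ M := by exact_mod_cast hAM
    have hM0 : (0 : ℝ) < M := by exact_mod_cast hM1
    have h5 : (4 * (p : ℝ) + 5) * B1 * N / L ^ (U + 1) * A * x / M ≤ (4 * p + 5) * B1 * N / L ^ (U + 1) * x := by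
      rw [div_le_iff₀ hM0]
      have h6 : 0 ≤ (4 * (p : ℝ) + 5) * B1 * N / L ^ (U + 1) * x := by positivity
      calc (4 * (p : ℝ) + 5) * B1 * N / L ^ (U + 1) * A * x = ((4 * (p : ℝ) + 5) * B1 * N / L ^ (U + 1) * x) * A := by ring
        _ ≤ _ := mul_le_mul_of_nonneg_left hAM' h6
    refine h5.trans (le_of_eq ?_)
    rw [pow_succ]
    field_simp
  have t2 : 1 / L ^ (U + W + 1) * x * Real.sqrt (H * (L ^ W) ^ 2 * A) ≤ (2 * B1 / L) * (N * x / L ^ U) := by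
    have h4 : Real.sqrt (H * (L ^ W) ^ 2 * A) ≤ 2 * (B1 * N) * L ^ W := by
      rw [Real.sqrt_le_left (by positivity), hHr]
      have h5 : 2 * ((B1 : ℝ) * N) * (L ^ W) ^ 2 * A ≤ 2 * (B1 * N) * (L ^ W) ^ 2 * (B1 * N) := mul_le_mul_of_nonneg_left hAr (by positivity)
      refine h5.trans ?_
      have h7 : 0 ≤ ((B1 : ℝ) * N) * (B1 * N) * (L ^ W) ^ 2 := by positivity
      nlinarith
    calc 1 / L ^ (U + W + 1) * x * Real.sqrt (H * (L ^ W) ^ 2 * A) ≤ 1 / L ^ (U + W + 1) * x * (2 * (B1 * N) * L ^ W) :=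
          mul_le_mul_of_nonneg_left h4 (by positivity)
      _ = _ := by rw [show U + W + 1 = W + U + 1 by ring, pow_succ, pow_add]; field_simp
  have hKr : ((4 * p + 7) * (B + 1) : ℝ) = (4 * p + 5) * B1 + 2 * B1 := by rw [hB1]; push_cast; ring
  calc C0 / (1 / L ^ (U + W + 1)) ^ (2 * p) * (N / L ^ U') * A * x / M + 1 / L ^ (U + W + 1) * x * Real.sqrt (H * (L ^ W) ^ 2 * A) ≤
        ((4 * p + 5) * B1 / L) * (N * x / L ^ U) + (2 * B1 / L) * (N * x / L ^ U) := add_le_add t1 t2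
    _ = (((4 * p + 7) * (B + 1)) / L) * (N * x / L ^ U) := by rw [hKr]; ring
    _ ≤ 1 * (N * x / L ^ U) := by
        apply mul_le_mul_of_nonneg_right _ (by positivity)
        rw [div_le_one hL0]
        linarith
    _ = _ := one_mul _

/-- extension by zero, real values -/
def fr (F : ℕ → ℝ) (H : ℕ) (k : ℤ) : ℝ := if 1 ≤ k ∧ k ≤ H then F k.toNat else 0

/-- the real version -/
theorem gen_real (p B C U W : ℕ) :
    ∃ U' N0 : ℕ, ∀ N : ℕ, N0 ≤ N → ∀ (x : ℕ) (s : ℕ → ℤ),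
    (∀ m ∈ Icc 1 x, |s m| ≤ B * N) →
    (energy p x s : ℝ) * N ≤ Real.log N ^ C * (x : ℝ) ^ (2 * p) →
    ∀ A : ℕ, A ≤ B * N → ∀ F : ℕ → ℝ,
    (∀ n ∈ Icc 1 (2 * ((B + 1) * N)), |F n| ≤ Real.log N ^ W) →
    (∀ α : ℝ, ‖∑ n ∈ Icc 1 (2 * ((B + 1) * N)), (F n : ℂ) * ee ((n : ℝ) * α)‖ ≤ N / Real.log N ^ U') →
    ∀ K : ℝ, 0 < K → ∀ G : ℕ → ℝ, (∀ a ∈ Icc 1 A, |G a| ≤ K) →
    ∑ m ∈ Icc 1 x, |∑ a ∈ Icc 1 A, G a * fr F (2 * ((B + 1) * N)) (a + s m)| ≤ K * (N * x / Real.log N ^ U) := by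
  obtain ⟨U', N0, h⟩ := gen_e p B C U W
  refine ⟨U', N0, fun N hN x s hs hE A hA F hF1 hF2 K hK G hG => ?_⟩
  have h1 := h N hN x s hs hE A hA (fun n => (F n : ℂ)) (fun n hn => by
    rw [Complex.norm_real, Real.norm_eq_abs]
    exact hF1 n hn) hF2 (fun a => if a ∈ Icc 1 A then ((G a / K : ℝ) : ℂ) else 0) (fun a => by
    split_ifs with ha
    · rw [Complex.norm_real, Real.norm_eq_abs, abs_div, abs_of_pos hK, div_le_one hK]
      exact hG a ha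
    · simp)
  have h2 : ∀ m ∈ Icc 1 x, ‖∑ a ∈ Icc 1 A, (if a ∈ Icc 1 A then ((G a / K : ℝ) : ℂ) else 0) * fz (fun n => (F n : ℂ)) (2 * ((B + 1) * N)) (a + s m)‖ =
      |∑ a ∈ Icc 1 A, G a * fr F (2 * ((B + 1) * N)) (a + s m)| / K := by
    intro m _
    have h3 : ∑ a ∈ Icc 1 A, (if a ∈ Icc 1 A then ((G a / K : ℝ) : ℂ) else 0) * fz (fun n => (F n : ℂ)) (2 * ((B + 1) * N)) (a + s m) =
        (((∑ a ∈ Icc 1 A, G a * fr F (2 * ((B + 1) * N)) (a + s m)) / K : ℝ) : ℂ) := by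
      rw [sum_div]
      push_cast
      apply sum_congr rfl
      intro a ha
      rw [if_pos ha]
      unfold fz fr
      split_ifs
      · ring
      · simp
    rw [h3, Complex.norm_real, Real.norm_eq_abs, abs_div, abs_of_pos hK]
  rw [sum_congr rfl h2, ← sum_div, div_le_iff₀ hK] at h1
  linarith

end Pool.Agent.Run7.h504.GenE
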