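import Pool.Agent.Run7.h504.OmInd

/-!
# `Ω (n + t m)` is independent of arbitrary sets for most members of a family of small energy
-/

set_option autoImplicit false

namespace Pool.Agent.Run7.h504.OM

open Finset Polynomial
open Pool.Agent.TH823.OP (ind ind_bd fam fam_sh df big_count om_count J_exists card_close allJ)
open Pool.Agent.TH823.KB (Gf Gf_bd Gf_lip gam gam_bd p1 pn avg_close Icc_Ioc p1_shift p1_sum pair_small small_power
  power_beats p1_le p1_nonneg)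
open Pool.Agent.TH823.PS (NE GoodF PolyG)
open Pool.Agent.TH823.EL (scale_root)
open Pool.Agent.H373R2.T7 (energy exI)
open ArithmeticFunction (cardFactors)
open scoped ComplexConjugate

open Classical in
/-- the number of the `n ≤ N` in `T` with `Ω (n + h) ∈ S` -/
noncomputable def cT (N h : ℕ) (S T : Set ℕ) : ℝ :=
  (((Icc 1 N).filter fun n => cardFactors (n + h) ∈ S ∧ n ∈ T).card : ℝ)

lemma cT_sum (N h : ℕ) (S T : Set ℕ) :
    (cT N h S T : ℂ) = ∑ n ∈ Ioc 0 N, ind T n * ind S (cardFactors (n + h)) := by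
  classical
  unfold cT ind
  rw [card_filter, Icc_Ioc]
  push_cast
  apply sum_congr rfl
  intro n _
  by_cases h1 : cardFactors (n + h) ∈ S <;> by_cases h2 : n ∈ T <;> simp [h1, h2]

lemma cT_univ (N : ℕ) (T : Set ℕ) : (cT N 0 Set.univ T : ℂ) = ∑ n ∈ Ioc 0 N, ind T n := by
  rw [cT_sum]
  apply sum_congr rfl
  intro n _
  have : ind (Set.univ : Set ℕ) (cardFactors (n + 0)) = 1 := by
    unfold ind
    rw [if_pos (Set.mem_univ _)]
  rw [this, mul_one]

lemma cT_close (N h : ℕ) (S S' T : Set ℕ) (b : ℕ → Prop) [DecidablePred b]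
    (hyp : ∀ n ∈ Icc 1 N, ¬ b n → (cardFactors (n + h) ∈ S ↔ cardFactors (n + h) ∈ S')) :
    |cT N h S T - cT N h S' T| ≤ (((Icc 1 N).filter b).card : ℝ) := by
  classical
  have h1 := card_close (Icc 1 N) (fun n => cardFactors (n + h) ∈ S ∧ n ∈ T)
    (fun n => cardFactors (n + h) ∈ S' ∧ n ∈ T) b (fun n hn hb => by rw [hyp n hn hb])
  unfold cT
  refine le_trans (le_of_eq ?_) h1
  congr!

lemma p1_cT (N h : ℕ) (S : Set ℕ) : p1 N h S = cT N h S Set.univ := by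
  have h1 : (p1 N h S : ℂ) = (cT N h S Set.univ : ℂ) := by
    rw [p1_sum, cT_sum, Icc_Ioc]
    apply sum_congr rfl
    intro n _
    have : ind (Set.univ : Set ℕ) n = 1 := by
      unfold ind
      rw [if_pos (Set.mem_univ _)]
    rw [this, one_mul]
  exact_mod_cast h1

lemma cT_le (N h : ℕ) (S T : Set ℕ) : 0 ≤ cT N h S T ∧ cT N h S T ≤ N := by
  classical
  unfold cT
  refine ⟨Nat.cast_nonneg _, ?_⟩
  refine le_trans (Nat.cast_le.2 (card_filter_le _ _)) ?_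
  rw [Nat.card_Icc, Nat.add_sub_cancel]

/-- the correlations of the half differences -/
lemma df_sum {N s h : ℕ} (S : Set ℕ) (c : ℕ → ℂ) :
    ∑ n ∈ Ioc 0 N, c n * (ind {l | l + s ∈ S} (cardFactors (n + h)) - ind S (cardFactors (n + h))) =
      2 * ∑ n ∈ Icc 1 N, c n * exI (df s (fam S) 0) ((1 : ℕ) * n + (h : ℤ)) := by
  rw [mul_sum, Icc_Ioc]
  apply sum_congr rfl
  intro n hn
  rw [mem_Ioc] at hn
  have e1 : ((1 : ℕ) * n + (h : ℤ) : ℤ) = ((n + h : ℕ) : ℤ) := by push_cast; ring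
  unfold exI
  rw [e1, if_pos (by exact_mod_cast (by omega : 1 ≤ n + h)), Int.toNat_natCast]
  unfold df fam
  rw [zero_add, add_zero]
  have e2 : ind {l | l + s ∈ S} (cardFactors (n + h)) = ind S (cardFactors (n + h) + s) := rfl
  rw [e2]
  ring

/-- near invariance at the shift `0` -/
lemma base_inv {N s B : ℕ} {ε' δ0 : ℝ} (hB : 1 ≤ B) (hN : 2 ≤ N) (hδ0 : 0 < δ0) (S : Set ℕ)
    (hsp : 2 * ((N : ℝ) ^ (1 - δ0) + 1) ≤ ε' * N)
    (h : PolyG (df s (fam S) 0) B 1 (X : ℤ[X]) (ε' / 2) δ0 N) :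
    |p1 N 0 {l | l + s ∈ S} - p1 N 0 S| ≤ 2 * ε' * N := by
  classical
  have hNr : (1 : ℝ) < N := by exact_mod_cast (by omega : 1 < N)
  have hN0 : (0 : ℝ) < N := by linarith
  set x' : ℕ := ⌈(N : ℝ) ^ (1 - δ0)⌉₊ with hx'
  have hx'1 : (N : ℝ) ^ (1 - δ0) ≤ x' := Nat.le_ceil _
  have hx'2 : (x' : ℝ) < (N : ℝ) ^ (1 - δ0) + 1 := Nat.ceil_lt_add_one (by positivity)
  have hx'0 : 0 < x' := Nat.ceil_pos.2 (by positivity)
  have hx'N : x' ≤ N := by
    rw [hx', Nat.ceil_le]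
    calc (N : ℝ) ^ (1 - δ0) ≤ (N : ℝ) ^ (1 : ℝ) := Real.rpow_le_rpow_of_exponent_le hNr.le (by linarith)
      _ = N := Real.rpow_one _
  have h1 := h x' (by rw [natDegree_X, pow_one]; exact hx'N.trans (Nat.le_mul_of_pos_left N (by omega)))
    (by rw [natDegree_X, pow_one]; exact hx'1) 0 (by rw [abs_zero]; positivity) (fun _ => 1) (fun _ _ => 1)
    (fun _ => le_rfl) (fun _ => by
      simp only [norm_one, one_pow, sum_const, Nat.card_Icc, nsmul_eq_mul, mul_one, Nat.div_one, Nat.add_sub_cancel]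
      push_cast
      exact le_rfl)
  obtain ⟨m, hm1, hm2⟩ : ∃ m ∈ Icc 1 x', ∀ l : Fin 1, ∀ X' : ℕ, 1 * X' ≤ B * N →
      ‖∑ n ∈ Icc 1 X', (1 : ℂ) * exI (df s (fam S) 0) ((1 : ℕ) * n + (0 + (X : ℤ[X]).eval (m : ℤ)))‖ ≤
        ε' / 2 * N := by
    by_contra hcon
    have hall : ∀ m ∈ Icc 1 x', ¬ ∀ l : Fin 1, ∀ X' : ℕ, 1 * X' ≤ B * N →
      ‖∑ n ∈ Icc 1 X', (1 : ℂ) * exI (df s (fam S) 0) ((1 : ℕ) * n + (0 + (X : ℤ[X]).eval (m : ℤ)))‖ ≤
        ε' / 2 * N := fun m hm hinv => hcon ⟨m, hm, hinv⟩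
    rw [filter_true_of_mem hall, Nat.card_Icc, Nat.add_sub_cancel] at h1
    have e1 : (0 : ℝ) < x' := by exact_mod_cast hx'0
    have e2 : (N : ℝ) ^ (-δ0) < 1 := Real.rpow_lt_one_of_one_lt_of_neg hNr (by linarith)
    have e3 := mul_lt_mul_of_pos_left e2 e1
    linarith
  have h2 := hm2 0 N (by rw [one_mul]; exact Nat.le_mul_of_pos_left N (by omega))
  rw [eval_X, zero_add] at h2
  have h3 := df_sum (N := N) (s := s) (h := m) S (fun _ => 1)
  beta_reduce at h3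
  have h4 : ∑ n ∈ Ioc 0 N, (1 : ℂ) * (ind {l | l + s ∈ S} (cardFactors (n + m)) - ind S (cardFactors (n + m))) =
      ((p1 N m {l | l + s ∈ S} - p1 N m S : ℝ) : ℂ) := by
    push_cast
    rw [p1_sum, p1_sum, Icc_Ioc, ← sum_sub_distrib]
    apply sum_congr rfl
    intro n _
    rw [one_mul]
  rw [h4] at h3
  have h5 := congrArg norm h3
  rw [Complex.norm_real, Real.norm_eq_abs, norm_mul, Complex.norm_ofNat] at h5
  have h6 : |p1 N m {l | l + s ∈ S} - p1 N m S| ≤ ε' * N := by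
    rw [h5]
    refine le_trans (mul_le_mul_of_nonneg_left h2 zero_le_two) (le_of_eq ?_)
    ring
  have e3 := p1_shift N m {l | l + s ∈ S}
  have e4 := p1_shift N m S
  have e5 : (m : ℝ) ≤ x' := by exact_mod_cast (mem_Icc.1 hm1).2
  rw [abs_le] at *
  constructor <;> linarith [h6.1, h6.2, e3.1, e3.2, e4.1, e4.2]

open Classical in
/-- the exceptional members for the near invariance -/
lemma fam_inv {N s B p : ℕ} {ε' δ0 : ℝ} (hB : 1 ≤ B) (S T : Set ℕ)
    (h : GoodF (df s (fam S) 0) B 1 p (ε' / 2) δ0 N) {x : ℕ} {t : ℕ → ℕ}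
    (ht : ∀ m ∈ Icc 1 x, t m ≤ B * N)
    (he : (energy p x (fun m => (t m : ℤ)) : ℝ) * N ≤ (N : ℝ) ^ δ0 * (x : ℝ) ^ (2 * p)) :
    (((Icc 1 x).filter fun m => ε' * N < ‖∑ n ∈ Ioc 0 N, ind T n *
      (ind {l | l + s ∈ S} (cardFactors (n + t m)) - ind S (cardFactors (n + t m)))‖).card : ℝ) ≤
      x * (N : ℝ) ^ (-δ0) := by
  have h1 := h x (fun m => (t m : ℤ)) (fun m hm => by
    rw [Nat.abs_cast]
    exact_mod_cast ht m hm) he (fun _ => 1) (fun _ => fun n => ind T n) (fun _ => le_rfl) (fun _ => by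
      refine (sum_le_sum fun n _ => pow_le_one₀ (norm_nonneg _) (ind_bd T n)).trans ?_
      rw [sum_const, Nat.card_Icc, nsmul_eq_mul, mul_one, Nat.add_sub_cancel, Nat.div_one]
      push_cast
      exact le_rfl)
  refine le_trans (Nat.cast_le.2 (card_le_card ?_)) h1
  intro m hm
  rw [mem_filter] at hm ⊢
  refine ⟨hm.1, fun hcon => ?_⟩
  have h2 := hcon 0 N (by rw [one_mul]; exact Nat.le_mul_of_pos_left N (by omega))
  have h3 := hm.2
  have h4 := df_sum (N := N) (s := s) (h := t m) S (fun n => ind T n)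
  beta_reduce at h4
  rw [h4, norm_mul, Complex.norm_ofNat] at h3
  refine absurd h3 (not_lt.2 (le_trans (mul_le_mul_of_nonneg_left h2 zero_le_two) (le_of_eq ?_)))
  ring

end Pool.Agent.Run7.h504.OM
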