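import Pool.Agent.TH823.KB.Full2
import Pool.Agent.TH823.KB.Prod3

/-!
# `Ω (n + h)` and arbitrary sets: from near invariance and near orthogonality to independence
-/

set_option autoImplicit false

namespace Pool.Agent.Run7.h504.OM

open Finset
open Pool.Agent.TH823.OP (ind ind_bd fam fam_sh df)
open Pool.Agent.TH823.KB (Gf Gf_bd Gf_lip gam gam_bd p1 pn avg_close Icc_Ioc p1_shift p1_sum)
open Pool.Agent.H373R2.T7 (energy exI)
open ArithmeticFunction (cardFactors)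
open scoped ComplexConjugate

/-- the number of the `n ≤ N` in `T` with `Ω (n + h) ∈ S` -/
noncomputable def cs (N h : ℕ) (S T : Set ℕ) : ℂ := ∑ n ∈ Ioc 0 N, ind T n * ind S (cardFactors (n + h))

/-- one shift of the set, `j` times -/
lemma shifts {N s h : ℕ} {e : ℝ} (c : ℕ → ℂ) (F : Set ℕ) (M : ℕ)
    (hinv : ∀ j < M, ‖∑ n ∈ Ioc 0 N, c n * (ind {l | l + s * (j + 1) ∈ F} (cardFactors (n + h)) -
      ind {l | l + s * j ∈ F} (cardFactors (n + h)))‖ ≤ e) :
    ∀ j ≤ M, ‖∑ n ∈ Ioc 0 N, c n * (ind {l | l + s * j ∈ F} (cardFactors (n + h)) -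
      ind F (cardFactors (n + h)))‖ ≤ j * e := by
  intro j
  induction j with
  | zero =>
    intro _
    have h1 : ∀ n, ind {l | l + s * 0 ∈ F} (cardFactors (n + h)) = ind F (cardFactors (n + h)) := by
      intro n
      congr 1
    have h2 : ∑ n ∈ Ioc 0 N, c n * (ind {l | l + s * 0 ∈ F} (cardFactors (n + h)) -
      ind F (cardFactors (n + h))) = 0 := by
      apply sum_eq_zero
      intro n _
      rw [h1, sub_self, mul_zero]
    rw [h2, norm_zero]
    simp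
  | succ j ih =>
    intro hj
    have h1 := ih (by omega)
    have h2 := hinv j (by omega)
    have h3 : ∑ n ∈ Ioc 0 N, c n * (ind {l | l + s * (j + 1) ∈ F} (cardFactors (n + h)) -
        ind F (cardFactors (n + h))) =
        ∑ n ∈ Ioc 0 N, c n * (ind {l | l + s * (j + 1) ∈ F} (cardFactors (n + h)) -
          ind {l | l + s * j ∈ F} (cardFactors (n + h))) +
        ∑ n ∈ Ioc 0 N, c n * (ind {l | l + s * j ∈ F} (cardFactors (n + h)) - ind F (cardFactors (n + h))) := by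
      rw [← sum_add_distrib]
      apply sum_congr rfl
      intro n _
      ring
    rw [h3]
    refine (norm_add_le _ _).trans ((add_le_add h2 h1).trans (le_of_eq ?_))
    push_cast
    ring

/-- from the smooth function to the indicator function -/
lemma indep_c {N M s h : ℕ} {ε' e2 : ℝ} (hN : 1 ≤ N) (hM : 1 ≤ M) (hε' : 0 ≤ ε') (c : ℕ → ℂ)
    (hc : ∀ n, ‖c n‖ ≤ 1) (F : Set ℕ)
    (hinv : ∀ j < M, ‖∑ n ∈ Ioc 0 N, c n * (ind {l | l + s * (j + 1) ∈ F} (cardFactors (n + h)) -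
      ind {l | l + s * j ∈ F} (cardFactors (n + h)))‖ ≤ ε' * N)
    (h1 : ∀ S, |p1 N 0 {l | l + s ∈ S} - p1 N 0 S| ≤ 2 * ε' * N)
    (hdec : ‖∑ n ∈ Ioc 0 N, c n * (Gf M s F (cardFactors (n + h)) - gam N (Gf M s F))‖ ≤ e2 * N) :
    ‖∑ n ∈ Ioc 0 N, c n * ind F (cardFactors (n + h)) - ((p1 N 0 F / N : ℝ) : ℂ) * ∑ n ∈ Ioc 0 N, c n‖ ≤
      (3 * M * ε' + e2) * N := by
  have hNr : (0 : ℝ) < N := by exact_mod_cast hN
  have hMr : (0 : ℝ) < M := by exact_mod_cast hM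
  have hMc : (M : ℂ) ≠ 0 := by exact_mod_cast hMr.ne'
  set γ := gam N (Gf M s F) with hγ
  set a := ∑ n ∈ Ioc 0 N, c n * ind F (cardFactors (n + h)) with ha
  set t := ∑ n ∈ Ioc 0 N, c n with ht
  have ht1 : ‖t‖ ≤ N := by
    refine (norm_sum_le _ _).trans ((sum_le_sum fun n _ => hc n).trans ?_)
    rw [sum_const, Nat.card_Ioc, nsmul_eq_mul, mul_one]
    simp
  -- step A
  have hA : ‖∑ n ∈ Ioc 0 N, c n * Gf M s F (cardFactors (n + h)) - a‖ ≤ M * ε' * N := by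
    have hsh := shifts c F M hinv
    have e1 : ∑ n ∈ Ioc 0 N, c n * Gf M s F (cardFactors (n + h)) - a =
        (∑ j ∈ range M, ∑ n ∈ Ioc 0 N, c n * (ind {l | l + s * j ∈ F} (cardFactors (n + h)) -
          ind F (cardFactors (n + h)))) / M := by
      rw [eq_div_iff hMc, ha, sub_mul, sum_mul, sum_mul, ← sum_sub_distrib, sum_comm]
      apply sum_congr rfl
      intro n _
      unfold Gf
      rw [← mul_sum, sum_sub_distrib, sum_const, card_range, nsmul_eq_mul, mul_assoc, div_mul_cancel₀ _ hMc]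
      have e2 : ∑ m ∈ range M, ind F (cardFactors (n + h) + s * m) =
          ∑ j ∈ range M, ind {l | l + s * j ∈ F} (cardFactors (n + h)) := rfl
      rw [e2]
      ring
    rw [e1, norm_div, Complex.norm_natCast, div_le_iff₀ hMr]
    have e3 : ∀ j ∈ range M, ‖∑ n ∈ Ioc 0 N, c n * (ind {l | l + s * j ∈ F} (cardFactors (n + h)) -
          ind F (cardFactors (n + h)))‖ ≤ M * ε' * N := by
      intro j hj
      rw [mem_range] at hj
      refine (hsh j hj.le).trans ?_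
      rw [mul_assoc]
      apply mul_le_mul_of_nonneg_right _ (by positivity)
      exact_mod_cast hj.le
    refine (norm_sum_le _ _).trans ((sum_le_sum e3).trans (le_of_eq ?_))
    rw [sum_const, card_range, nsmul_eq_mul]
    ring
  -- step C
  have hC : ‖γ - ((p1 N 0 F / N : ℝ) : ℂ)‖ ≤ 2 * M * ε' := by
    have h2 := avg_close (N := N) (s := s) hM (fun _ : Fin 1 => 0) (e := 2 * ε' * N) (by positivity) (fun i S => by
      have e1 : Function.update S i {l | l + s ∈ S i} = fun _ => {l | l + s ∈ S 0} := by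
        funext j
        rw [Subsingleton.elim j i, Function.update_self, Subsingleton.elim i 0]
      have e2 : S = fun _ => S 0 := by
        funext j
        rw [Subsingleton.elim j 0]
      rw [e1, e2]
      exact h1 (S 0)) (fun _ => F)
    have e3 : ∀ n : ℕ, ∏ _j : Fin 1, Gf M s F (cardFactors (n + 0)) = Gf M s F (cardFactors n) := by
      intro n
      simp
    simp only [e3] at h2
    rw [hγ]
    unfold gam
    push_cast
    rw [← sub_div, norm_div, Complex.norm_natCast, div_le_iff₀ hNr, ← Icc_Ioc]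
    refine h2.trans (le_of_eq ?_)
    push_cast
    ring
  -- step B
  have hB : ‖∑ n ∈ Ioc 0 N, c n * Gf M s F (cardFactors (n + h)) - γ * t‖ ≤ e2 * N := by
    refine le_trans (le_of_eq ?_) hdec
    rw [ht, mul_sum, ← sum_sub_distrib]
    congr 1
    apply sum_congr rfl
    intro n _
    ring
  have hD : ‖γ * t - ((p1 N 0 F / N : ℝ) : ℂ) * t‖ ≤ 2 * M * ε' * N := by
    rw [← sub_mul, norm_mul]
    exact mul_le_mul hC ht1 (norm_nonneg _) (by positivity)
  set X1 := ∑ n ∈ Ioc 0 N, c n * Gf M s F (cardFactors (n + h))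
  have e1 : a - ((p1 N 0 F / N : ℝ) : ℂ) * t =
      -(X1 - a) + (X1 - γ * t) + (γ * t - ((p1 N 0 F / N : ℝ) : ℂ) * t) := by ring
  rw [e1]
  refine (norm_add_le _ _).trans ?_
  have e2 := norm_add_le (-(X1 - a)) (X1 - γ * t)
  rw [norm_neg] at e2
  linarith

/-- the multiplicity of a value of a family of small energy -/
lemma mult_le {p x N : ℕ} (hp : 1 ≤ p) (hN : 1 ≤ N) {t : ℕ → ℕ} {δ : ℝ} (hδ : δ ≤ 1 / 2)
    (he : (energy p x (fun m => (t m : ℤ)) : ℝ) * N ≤ (N : ℝ) ^ δ * (x : ℝ) ^ (2 * p)) (h : ℕ) :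
    (((Icc 1 x).filter fun m => t m = h).card : ℝ) ≤ x * (N : ℝ) ^ (-(1 / (4 * p)) : ℝ) := by
  classical
  have hNr : (1 : ℝ) ≤ N := by exact_mod_cast hN
  have hN0 : (0 : ℝ) < N := by linarith
  set W := (Icc 1 x).filter fun m => t m = h with hW
  have h1 : W.card ^ (2 * p) ≤ energy p x (fun m => (t m : ℤ)) := by
    have h2 : (Fintype.piFinset fun _ : Fin p => W) ×ˢ (Fintype.piFinset fun _ : Fin p => W) ⊆
        ((Fintype.piFinset fun _ : Fin p => Icc 1 x) ×ˢ (Fintype.piFinset fun _ : Fin p => Icc 1 x)).filter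
          (fun q => ∑ i, ((t (q.1 i) : ℕ) : ℤ) = ∑ i, ((t (q.2 i) : ℕ) : ℤ)) := by
      intro q hq
      rw [mem_product, Fintype.mem_piFinset, Fintype.mem_piFinset] at hq
      rw [mem_filter, mem_product, Fintype.mem_piFinset, Fintype.mem_piFinset]
      refine ⟨⟨fun i => (mem_filter.1 (hq.1 i)).1, fun i => (mem_filter.1 (hq.2 i)).1⟩, ?_⟩
      apply sum_congr rfl
      intro i _
      rw [(mem_filter.1 (hq.1 i)).2, (mem_filter.1 (hq.2 i)).2]
    have h3 := card_le_card h2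
    rw [card_product, Fintype.card_piFinset_const] at h3
    unfold energy
    refine le_trans (le_of_eq ?_) h3
    rw [two_mul, pow_add]
  have h2 : (W.card : ℝ) ^ (2 * p) * N ≤ (N : ℝ) ^ δ * (x : ℝ) ^ (2 * p) := by
    refine le_trans ?_ he
    apply mul_le_mul_of_nonneg_right _ hN0.le
    exact_mod_cast h1
  have hp0 : (0 : ℝ) < p := by exact_mod_cast hp
  have h3 : (W.card * (N : ℝ) ^ (1 / (4 * p) : ℝ)) ^ (2 * p) ≤ (x : ℝ) ^ (2 * p) := by
    have e1 : ((N : ℝ) ^ (1 / (4 * p) : ℝ)) ^ (2 * p) = (N : ℝ) ^ (1 / 2 : ℝ) := by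
      rw [← Real.rpow_natCast, ← Real.rpow_mul hN0.le]
      congr 1
      push_cast
      field_simp
      norm_num
    rw [mul_pow, e1]
    have e2 : (N : ℝ) ^ (1 / 2 : ℝ) * (N : ℝ) ^ δ ≤ N := by
      rw [← Real.rpow_add hN0]
      calc (N : ℝ) ^ (1 / 2 + δ) ≤ (N : ℝ) ^ (1 : ℝ) := Real.rpow_le_rpow_of_exponent_le hNr (by linarith)
        _ = N := Real.rpow_one _
    have e3 : 0 < (N : ℝ) ^ δ := by positivity
    have e4 : ((W.card : ℝ) ^ (2 * p) * (N : ℝ) ^ (1 / 2 : ℝ)) * (N : ℝ) ^ δ ≤ (x : ℝ) ^ (2 * p) * (N : ℝ) ^ δ := by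
      calc ((W.card : ℝ) ^ (2 * p) * (N : ℝ) ^ (1 / 2 : ℝ)) * (N : ℝ) ^ δ =
          (W.card : ℝ) ^ (2 * p) * ((N : ℝ) ^ (1 / 2 : ℝ) * (N : ℝ) ^ δ) := by ring
        _ ≤ (W.card : ℝ) ^ (2 * p) * N := mul_le_mul_of_nonneg_left e2 (by positivity)
        _ ≤ (N : ℝ) ^ δ * (x : ℝ) ^ (2 * p) := h2
        _ = _ := by ring
    exact le_of_mul_le_mul_right e4 e3
  have h4 : W.card * (N : ℝ) ^ (1 / (4 * p) : ℝ) ≤ x := le_of_pow_le_pow_left₀ (by omega) (Nat.cast_nonneg _) h3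
  rw [Real.rpow_neg hN0.le, ← div_eq_mul_inv, le_div_iff₀ (by positivity)]
  exact h4

open Classical in
/-- few members of a family of small energy are correlated with a given sequence -/
lemma dual_fam {A N M s p x : ℕ} {e2 δ1 δ : ℝ} (hp : 1 ≤ p) (hN : 1 ≤ N) (hM : 1 ≤ M) (hs : 1 ≤ s) (he2 : 0 < e2)
    (hMδ : 1 / (M : ℝ) ≤ δ1) (hδ : δ ≤ 1 / 2)
    (hpair : ∀ G : ℕ → ℂ, (∀ l, ‖G l‖ ≤ 1) → (∀ a b, ‖G a - G b‖ ≤ δ1 * |(a : ℝ) - b|) → ∀ h h' : ℕ, h ≤ A * N →
      h' ≤ A * N → h ≠ h' → ‖∑ n ∈ Ioc 0 N, (G (cardFactors (n + h)) - gam N G) *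
        conj (G (cardFactors (n + h')) - gam N G)‖ ≤ 3 * (e2 ^ 2 / 12) * N)
    {t : ℕ → ℕ} (ht : ∀ m ∈ Icc 1 x, t m ≤ A * N)
    (he : (energy p x (fun m => (t m : ℤ)) : ℝ) * N ≤ (N : ℝ) ^ δ * (x : ℝ) ^ (2 * p))
    (c : ℕ → ℂ) (hc : ∀ n, ‖c n‖ ≤ 1) (S : Set ℕ) :
    (((Icc 1 x).filter fun m => e2 * N < ‖∑ n ∈ Ioc 0 N, c n * (Gf M s {l | l / s ∈ S} (cardFactors (n + t m)) -
      gam N (Gf M s {l | l / s ∈ S}))‖).card : ℝ) ≤ x * (6 / e2 ^ 2 * (N : ℝ) ^ (-(1 / (4 * p)) : ℝ)) := by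
  set G : ℕ → ℂ := Gf M s {l | l / s ∈ S} with hG
  have hGb : ∀ l, ‖G l‖ ≤ 1 := fun l => Gf_bd hM _ _
  have hGL : ∀ a b, ‖G a - G b‖ ≤ δ1 * |(a : ℝ) - b| := fun a b =>
    (Gf_lip hM hs S a b).trans (mul_le_mul_of_nonneg_right hMδ (abs_nonneg _))
  set W := (Icc 1 x).filter fun m => e2 * N < ‖∑ n ∈ Ioc 0 N, c n * (G (cardFactors (n + t m)) - gam N G)‖ with hW
  set H := W.image t with hH
  have h2 := Pool.Agent.TH823.KB.dual_count (ε := e2) (e := 3 * (e2 ^ 2 / 12)) hN he2 (by positivity) (by linarith)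
      c hc (fun m n => G (cardFactors (n + m)) - gam N G) (fun m n =>
        (norm_sub_le _ _).trans ((add_le_add (hGb _) (gam_bd hN hGb)).trans (by norm_num))) H (by
        intro h hh h' hh' hne
        rw [hH, mem_image] at hh hh'
        obtain ⟨m, hm, rfl⟩ := hh
        obtain ⟨m', hm', rfl⟩ := hh'
        exact hpair G hGb hGL _ _ (ht m (mem_filter.1 hm).1) (ht m' (mem_filter.1 hm').1) hne) (by
        intro h hh
        rw [hH, mem_image] at hh
        obtain ⟨m, hm, rfl⟩ := hh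
        exact (mem_filter.1 hm).2)
  have h3 : (W.card : ℝ) ≤ ∑ h ∈ H, (((Icc 1 x).filter fun m => t m = h).card : ℝ) := by
    have h4 : W ⊆ H.biUnion fun h => (Icc 1 x).filter fun m => t m = h := by
      intro m hm
      rw [mem_biUnion]
      exact ⟨t m, mem_image_of_mem t hm, mem_filter.2 ⟨(mem_filter.1 hm).1, rfl⟩⟩
    exact_mod_cast (card_le_card h4).trans card_biUnion_le
  have h5 : ∑ h ∈ H, (((Icc 1 x).filter fun m => t m = h).card : ℝ) ≤
      ∑ _h ∈ H, x * (N : ℝ) ^ (-(1 / (4 * p)) : ℝ) := sum_le_sum fun h _ => mult_le hp hN hδ he h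
  rw [sum_const, nsmul_eq_mul] at h5
  refine h3.trans (h5.trans ?_)
  have hpos : 0 ≤ x * (N : ℝ) ^ (-(1 / (4 * p)) : ℝ) :=
    mul_nonneg (Nat.cast_nonneg _) (Real.rpow_nonneg (Nat.cast_nonneg _) _)
  refine (mul_le_mul_of_nonneg_right h2 hpos).trans (le_of_eq ?_)
  ring

end Pool.Agent.Run7.h504.OM
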