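import Pool.Agent.Run7.h504.OmFam

/-!
# `Ω (n + t m)` is independent of arbitrary sets: the main theorem for one coordinate
-/

set_option autoImplicit false

namespace Pool.Agent.Run7.h504.OM

open Finset Polynomial
open Pool.Agent.TH823.OP (ind ind_bd fam fam_sh df big_count om_count J_exists card_close allJ)
open Pool.Agent.TH823.KB (Gf Gf_bd Gf_lip gam gam_bd p1 pn avg_close Icc_Ioc p1_shift p1_sum pair_small small_power
  power_beats p1_le p1_nonneg)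
open Pool.Agent.TH823.PS (NE GoodF PolyG)
open Pool.Agent.TH823.EL (scale_root)
open Pool.Agent.H373R2.T7 (energy exI)
open ArithmeticFunction (cardFactors)
open scoped ComplexConjugate

open Classical in
/-- one finite set and one set `T` -/
def Fine (N M s h : ℕ) (ε' e2 : ℝ) (S0 T : Set ℕ) : Prop :=
  (∀ j < M, ‖∑ n ∈ Ioc 0 N, ind T n * (ind {l | l + s * (j + 1) ∈ {l | l / s ∈ S0}} (cardFactors (n + h)) -
      ind {l | l + s * j ∈ {l | l / s ∈ S0}} (cardFactors (n + h)))‖ ≤ ε' * N) ∧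
    ‖∑ n ∈ Ioc 0 N, ind T n * (Gf M s {l | l / s ∈ S0} (cardFactors (n + h)) - gam N (Gf M s {l | l / s ∈ S0}))‖ ≤
      e2 * N

lemma of_fine {N M s h : ℕ} {ε' e2 : ℝ} (hN : 1 ≤ N) (hM : 1 ≤ M) (hε' : 0 ≤ ε') {S0 T : Set ℕ}
    (hf : Fine N M s h ε' e2 S0 T) (h1 : ∀ S, |p1 N 0 {l | l + s ∈ S} - p1 N 0 S| ≤ 2 * ε' * N) :
    |cT N h {l | l / s ∈ S0} T - (p1 N 0 {l | l / s ∈ S0} / N) * cT N 0 Set.univ T| ≤ (3 * M * ε' + e2) * N := by
  have h2 := indep_c hN hM hε' (fun n => ind T n) (fun n => ind_bd T n) {l | l / s ∈ S0} hf.1 h1 hf.2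
  rw [← cT_sum, ← cT_univ] at h2
  rw [← Real.norm_eq_abs, ← Complex.norm_real]
  push_cast at h2 ⊢
  exact h2

lemma big1 {C : ℝ} (hom : ∀ M J : ℕ, 3 ≤ M →
    (((Icc 1 M).filter fun m => J < cardFactors m).card : ℝ) * (J + 1) ≤ 2 * M * (Real.log (Real.log M) + C))
    {A N J : ℕ} (hC : 0 < C) (hA : A + 1 ≤ N) (hN : 3 ≤ N) (hll : 1 ≤ Real.log (Real.log N)) {ε : ℝ}
    (hJ : 16 * ((A : ℝ) + 1) * (2 + C) * ((0 : ℕ) + 1) / ε * Real.log (Real.log N) ≤ J) (hε : 0 < ε)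
    (h : ℕ) (hh : h ≤ A * N) :
    (((Icc 1 N).filter fun n => J < cardFactors (n + h)).card : ℝ) ≤ ε / 8 * N := by
  classical
  have h3 := big_count (k := 0) hom hC hA hN hll (J := J) (ε := ε) hJ hε (fun _ => h) (fun _ => hh)
  refine le_trans (Nat.cast_le.2 (card_le_card ?_)) h3
  intro n hn
  rw [mem_filter] at hn ⊢
  exact ⟨hn.1, 0, hn.2⟩

open Classical in
/-- **one coordinate** -/
theorem one_coord (E01 A p : ℕ) (hp : 1 ≤ p) {ε : ℝ} (hε : 0 < ε) : ∃ E D : ℕ, E01 < E ∧ 6 * E + 2 ≤ D ∧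
    ∃ δ : ℝ, 0 < δ ∧ ∃ N₀ : ℕ, ∀ N : ℕ, N₀ ≤ N → ∀ s : ℕ, s = 1 ∧ NE 6 E ⌊(N : ℝ) ^ (1 / (2 * D : ℝ))⌋₊ ∨ s = 2 →
    ∀ (x : ℕ) (t : ℕ → ℕ), (∀ m ∈ Icc 1 x, t m ≤ A * N) →
    (energy p x (fun m => (t m : ℤ)) : ℝ) * N ≤ (N : ℝ) ^ δ * (x : ℝ) ^ (2 * p) →
    ∀ 𝒯 : Finset (Set ℕ), (𝒯.card : ℝ) ≤ (N : ℝ) ^ δ →
    (((Icc 1 x).filter fun m => ¬ ∀ T ∈ 𝒯, ∀ S : Set ℕ,
      |cT N (t m) {l | l / s ∈ S} T / N - (p1 N 0 {l | l / s ∈ S} / N) * (cT N 0 Set.univ T / N)| ≤ ε).card : ℝ) ≤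
      x * (N : ℝ) ^ (-δ) := by
  have hp0 : (0 : ℝ) < p := by exact_mod_cast hp
  have hp1 : (1 : ℝ) ≤ p := by exact_mod_cast hp
  set e2 : ℝ := ε / 4 with he2
  have he20 : 0 < e2 := by positivity
  obtain ⟨δ1, hδ1, N1, hpair⟩ := pair_small A (e := e2 ^ 2 / 12) (by positivity)
  obtain ⟨M, hM⟩ := exists_nat_ge (1 / δ1)
  have hM0 : (0 : ℝ) < M := lt_of_lt_of_le (by positivity) hM
  have hM1 : 1 ≤ M := by exact_mod_cast (Nat.pos_of_ne_zero (by rintro rfl; simp at hM0) : 0 < M)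
  have hMr1 : (1 : ℝ) ≤ M := by exact_mod_cast hM1
  have hMδ : 1 / (M : ℝ) ≤ δ1 := by
    rw [div_le_iff₀ hδ1] at hM
    rw [div_le_iff₀ hM0]
    linarith
  set ε' : ℝ := ε / (24 * M) with hε'
  have hε'0 : 0 < ε' := by positivity
  have hsmall : 3 * M * ε' = ε / 8 := by
    rw [hε']
    field_simp
    norm_num
  obtain ⟨E, D, hE, hD, δ0, hδ0, Q0, hQ03, hQ0⟩ := allJ E01 (A + 1) 1 p (P := fun _ : Unit => (X : ℤ[X]))
    (fun _ => by rw [natDegree_X]) (ε := ε' / 2) (by positivity)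
  obtain ⟨N2, hN2⟩ := scale_root D (by omega) Q0
  obtain ⟨N3, hN3⟩ := small_power δ0 hδ0 ε' hε'0
  obtain ⟨C, hC, hom⟩ := om_count
  set Kc : ℝ := 16 * ((A : ℝ) + 1) * (2 + C) * ((0 : ℕ) + 1) / ε with hKc
  set d : ℝ := min δ0 (1 / (4 * p)) with hd
  have hd0 : 0 < d := by positivity
  have hdδ : d ≤ δ0 := min_le_left _ _
  have hdp : d ≤ 1 / (4 * p) := min_le_right _ _
  have hd4 : d ≤ 1 / 4 := by
    refine hdp.trans ?_
    apply one_div_le_one_div_of_le (by norm_num)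
    linarith
  obtain ⟨N4, hN4⟩ := J_exists Kc (d / 4) (by positivity) (by positivity) 0
  obtain ⟨N5, hN5⟩ := power_beats (M + 6 / e2 ^ 2) (d / 4) (by positivity)
  refine ⟨E, D, hE, hD, d / 4, by positivity, N1 + N2 + N3 + N4 + N5 + A + 3,
    fun N hN s hs x t ht he 𝒯 h𝒯 => ?_⟩
  have hs1 : 1 ≤ s := by rcases hs with ⟨rfl, _⟩ | rfl <;> omega
  have hN1 : 1 ≤ N := by omega
  have hNr : (1 : ℝ) < N := by exact_mod_cast (by omega : 1 < N)
  have hN0 : (0 : ℝ) < N := by linarith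
  obtain ⟨J, hll, hJ, hcount⟩ := hN4 N (by omega)
  obtain ⟨g1, g2, g3⟩ := hN2 N (by omega)
  set Q := ⌊(N : ℝ) ^ (1 / (2 * D : ℝ))⌋₊ with hQ
  have hall : ∀ S : Set ℕ, GoodF (df s (fam S) 0) (A + 1) 1 p (ε' / 2) δ0 N ∧
      PolyG (df s (fam S) 0) (A + 1) 1 (X : ℤ[X]) (ε' / 2) δ0 N := fun S => by
    have h1 := hQ0 Q (by omega) s hs (fam S) (fam_sh S _ _) N g2 g3
    exact ⟨h1.1, h1.2 ()⟩
  have h1 : ∀ S, |p1 N 0 {l | l + s ∈ S} - p1 N 0 S| ≤ 2 * ε' * N := fun S =>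
    base_inv (by omega) (by omega) hδ0 S (hN3 N (by omega)) (hall S).2
  have he0 : (energy p x (fun m => (t m : ℤ)) : ℝ) * N ≤ (N : ℝ) ^ δ0 * (x : ℝ) ^ (2 * p) := he.trans
    (mul_le_mul_of_nonneg_right (Real.rpow_le_rpow_of_exponent_le hNr.le (by linarith)) (by positivity))
  -- the exceptional sets
  set US : Finset (Finset ℕ) := (range (J + 1)).powerset with hUS
  set bad : Finset ℕ × Set ℕ → Finset ℕ := fun q => (Icc 1 x).filter fun m =>
    ¬ Fine N M s (t m) ε' e2 (q.1 : Set ℕ) q.2 with hbad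
  have hbadc : ∀ q, ((bad q).card : ℝ) ≤ (M + 6 / e2 ^ 2) * (x * (N : ℝ) ^ (-d)) := by
    intro q
    set F : Set ℕ := {l | l / s ∈ (q.1 : Set ℕ)} with hF
    have hsub : bad q ⊆ ((range M).biUnion fun j => (Icc 1 x).filter fun m => ε' * N < ‖∑ n ∈ Ioc 0 N, ind q.2 n *
        (ind {l | l + s ∈ {l | l + s * j ∈ F}} (cardFactors (n + t m)) -
          ind {l | l + s * j ∈ F} (cardFactors (n + t m)))‖) ∪
        (Icc 1 x).filter fun m => e2 * N < ‖∑ n ∈ Ioc 0 N, ind q.2 n * (Gf M s F (cardFactors (n + t m)) -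
          gam N (Gf M s F))‖ := by
      intro m hm
      rw [hbad, mem_filter] at hm
      obtain ⟨hm1, hm2⟩ := hm
      rw [mem_union, mem_biUnion]
      by_contra hcon
      rw [not_or] at hcon
      obtain ⟨c1, c2⟩ := hcon
      apply hm2
      refine ⟨fun j hj => ?_, ?_⟩
      · by_contra h3
        push Not at h3
        refine c1 ⟨j, mem_range.2 hj, mem_filter.2 ⟨hm1, ?_⟩⟩
        have e1 : {l | l + s ∈ {l | l + s * j ∈ F}} = {l | l + s * (j + 1) ∈ F} := by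
          ext l
          change l + s + s * j ∈ F ↔ l + s * (j + 1) ∈ F
          have : l + s + s * j = l + s * (j + 1) := by ring
          rw [this]
        rw [e1]
        exact h3
      · by_contra h3
        push Not at h3
        exact c2 (mem_filter.2 ⟨hm1, h3⟩)
    have k1 : ∀ j ∈ range M, (((Icc 1 x).filter fun m => ε' * N < ‖∑ n ∈ Ioc 0 N, ind q.2 n *
        (ind {l | l + s ∈ {l | l + s * j ∈ F}} (cardFactors (n + t m)) -
          ind {l | l + s * j ∈ F} (cardFactors (n + t m)))‖).card : ℝ) ≤ x * (N : ℝ) ^ (-d) := by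
      intro j _
      refine (fam_inv (by omega) {l | l + s * j ∈ F} q.2 (hall _).1
        (fun m hm => (ht m hm).trans (Nat.mul_le_mul_right N (by omega))) he0).trans ?_
      exact mul_le_mul_of_nonneg_left (Real.rpow_le_rpow_of_exponent_le hNr.le (by linarith)) (Nat.cast_nonneg _)
    have k2 := dual_fam (δ := d / 4) hp hN1 hM1 hs1 he20 hMδ (by linarith) (hpair N (by omega)) ht he
      (fun n => ind q.2 n) (fun n => ind_bd _ n) (q.1 : Set ℕ)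
    have k3 : x * (6 / e2 ^ 2 * (N : ℝ) ^ (-(1 / (4 * p)) : ℝ)) ≤ 6 / e2 ^ 2 * (x * (N : ℝ) ^ (-d)) := by
      have h2 : (N : ℝ) ^ (-(1 / (4 * p)) : ℝ) ≤ (N : ℝ) ^ (-d) :=
        Real.rpow_le_rpow_of_exponent_le hNr.le (by linarith)
      calc x * (6 / e2 ^ 2 * (N : ℝ) ^ (-(1 / (4 * p)) : ℝ)) =
          6 / e2 ^ 2 * (x * (N : ℝ) ^ (-(1 / (4 * p)) : ℝ)) := by ring
        _ ≤ _ := by gcongr
    have k4 : ((((range M).biUnion fun j => (Icc 1 x).filter fun m => ε' * N < ‖∑ n ∈ Ioc 0 N, ind q.2 n *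
        (ind {l | l + s ∈ {l | l + s * j ∈ F}} (cardFactors (n + t m)) -
          ind {l | l + s * j ∈ F} (cardFactors (n + t m)))‖).card : ℕ) : ℝ) ≤ M * (x * (N : ℝ) ^ (-d)) := by
      calc _ ≤ ∑ j ∈ range M, (((Icc 1 x).filter fun m => ε' * N < ‖∑ n ∈ Ioc 0 N, ind q.2 n *
            (ind {l | l + s ∈ {l | l + s * j ∈ F}} (cardFactors (n + t m)) -
              ind {l | l + s * j ∈ F} (cardFactors (n + t m)))‖).card : ℝ) := by
            exact_mod_cast card_biUnion_le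
        _ ≤ ∑ j ∈ range M, x * (N : ℝ) ^ (-d) := sum_le_sum k1
        _ = _ := by rw [sum_const, card_range, nsmul_eq_mul]
    have k5 : ((bad q).card : ℝ) ≤ _ := Nat.cast_le.2 ((card_le_card hsub).trans (card_union_le _ _))
    push_cast at k5
    refine k5.trans ?_
    rw [add_mul]
    exact add_le_add k4 (k2.trans k3)
  have hsub : ((Icc 1 x).filter fun m => ¬ ∀ T ∈ 𝒯, ∀ S : Set ℕ,
      |cT N (t m) {l | l / s ∈ S} T / N - (p1 N 0 {l | l / s ∈ S} / N) * (cT N 0 Set.univ T / N)| ≤ ε) ⊆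
      (US ×ˢ 𝒯).biUnion bad := by
    intro m hm
    rw [mem_filter] at hm
    obtain ⟨hm1, hm2⟩ := hm
    by_contra hcon
    rw [mem_biUnion] at hcon
    apply hm2
    intro T hT S
    set S0 : Finset ℕ := (range (J + 1)).filter (· ∈ S) with hS0
    have hfine : Fine N M s (t m) ε' e2 (S0 : Set ℕ) T := by
      by_contra h3
      exact hcon ⟨(S0, T), mem_product.2 ⟨mem_powerset.2 (filter_subset _ _), hT⟩, mem_filter.2 ⟨hm1, h3⟩⟩
    have h3 := of_fine hN1 hM1 hε'0.le hfine h1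
    rw [hsmall] at h3
    have hSS : ∀ l, l ≤ J → (l ∈ {l | l / s ∈ S} ↔ l ∈ {l | l / s ∈ (S0 : Set ℕ)}) := by
      intro l hl
      change l / s ∈ S ↔ l / s ∈ (S0 : Set ℕ)
      rw [mem_coe, hS0, mem_filter, mem_range]
      have := Nat.div_le_self l s
      exact ⟨fun h => ⟨by omega, h⟩, fun h => h.2⟩
    have h4 : |cT N (t m) {l | l / s ∈ S} T - cT N (t m) {l | l / s ∈ (S0 : Set ℕ)} T| ≤ ε / 8 * N := by
      refine (cT_close N (t m) _ _ T (fun n => J < cardFactors (n + t m)) ?_).trans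
        (big1 hom hC (by omega : A + 1 ≤ N) (by omega) hll hJ hε (t m) (ht m hm1))
      intro n _ hn
      exact hSS _ (by omega)
    have h5 : |p1 N 0 {l | l / s ∈ S} - p1 N 0 {l | l / s ∈ (S0 : Set ℕ)}| ≤ ε / 8 * N := by
      rw [p1_cT, p1_cT]
      refine (cT_close N 0 _ _ Set.univ (fun n => J < cardFactors (n + 0)) ?_).trans
        (big1 hom hC (by omega : A + 1 ≤ N) (by omega) hll hJ hε 0 (Nat.zero_le _))
      intro n _ hn
      exact hSS _ (by omega)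
    set u := cT N 0 Set.univ T with hu
    have hu1 := cT_le N 0 Set.univ T
    rw [← hu] at hu1
    have e1 : cT N (t m) {l | l / s ∈ S} T / N - (p1 N 0 {l | l / s ∈ S} / N) * (u / N) =
        (cT N (t m) {l | l / s ∈ S} T - (p1 N 0 {l | l / s ∈ S} / N) * u) / N := by ring
    rw [e1, abs_div, abs_of_pos hN0, div_le_iff₀ hN0]
    have e2' : cT N (t m) {l | l / s ∈ S} T - (p1 N 0 {l | l / s ∈ S} / N) * u =
        (cT N (t m) {l | l / s ∈ S} T - cT N (t m) {l | l / s ∈ (S0 : Set ℕ)} T) +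
        (cT N (t m) {l | l / s ∈ (S0 : Set ℕ)} T - (p1 N 0 {l | l / s ∈ (S0 : Set ℕ)} / N) * u) -
        (p1 N 0 {l | l / s ∈ S} - p1 N 0 {l | l / s ∈ (S0 : Set ℕ)}) * (u / N) := by ring
    have h6 : |(p1 N 0 {l | l / s ∈ S} - p1 N 0 {l | l / s ∈ (S0 : Set ℕ)}) * (u / N)| ≤ ε / 8 * N := by
      rw [abs_mul]
      have h7 : |u / N| ≤ 1 := by
        rw [abs_of_nonneg (div_nonneg hu1.1 hN0.le), div_le_one hN0]
        exact hu1.2
      calc _ ≤ (ε / 8 * N) * 1 := mul_le_mul h5 h7 (abs_nonneg _) (by positivity)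
        _ = _ := mul_one _
    rw [e2']
    refine (abs_sub _ _).trans ?_
    have h8 := abs_add_le (cT N (t m) {l | l / s ∈ S} T - cT N (t m) {l | l / s ∈ (S0 : Set ℕ)} T)
      (cT N (t m) {l | l / s ∈ (S0 : Set ℕ)} T - (p1 N 0 {l | l / s ∈ (S0 : Set ℕ)} / N) * u)
    have h9 : 0 ≤ ε * N := by positivity
    rw [he2] at h3
    linarith
  have hcard : (((US ×ˢ 𝒯).card : ℕ) : ℝ) ≤ (N : ℝ) ^ (d / 4) * (N : ℝ) ^ (d / 4) := by
    rw [card_product, hUS, card_powerset, card_range]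
    push_cast
    apply mul_le_mul _ h𝒯 (Nat.cast_nonneg _) (by positivity)
    refine le_trans ?_ hcount
    rw [pow_zero, Nat.cast_zero, zero_add, one_mul]
    exact pow_le_pow_right₀ (by norm_num) (by omega)
  have hpos : 0 ≤ x * (N : ℝ) ^ (-d) := by positivity
  calc _ ≤ (((US ×ˢ 𝒯).biUnion bad).card : ℝ) := Nat.cast_le.2 (card_le_card hsub)
    _ ≤ ∑ q ∈ US ×ˢ 𝒯, ((bad q).card : ℝ) := by exact_mod_cast card_biUnion_le
    _ ≤ ∑ q ∈ US ×ˢ 𝒯, (M + 6 / e2 ^ 2) * (x * (N : ℝ) ^ (-d)) := sum_le_sum fun q _ => hbadc q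
    _ = ((US ×ˢ 𝒯).card : ℝ) * ((M + 6 / e2 ^ 2) * (x * (N : ℝ) ^ (-d))) := by rw [sum_const, nsmul_eq_mul]
    _ ≤ ((N : ℝ) ^ (d / 4) * (N : ℝ) ^ (d / 4)) * ((N : ℝ) ^ (d / 4) * (x * (N : ℝ) ^ (-d))) := by
        apply mul_le_mul hcard _ (by positivity) (by positivity)
        exact mul_le_mul_of_nonneg_right (hN5 N (by omega)) hpos
    _ = x * ((N : ℝ) ^ (d / 4) * (N : ℝ) ^ (d / 4) * (N : ℝ) ^ (d / 4) * (N : ℝ) ^ (-d)) := by ring
    _ = x * (N : ℝ) ^ (-(d / 4)) := by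
        rw [← Real.rpow_add hN0, ← Real.rpow_add hN0, ← Real.rpow_add hN0]
        congr 2
        ring

end Pool.Agent.Run7.h504.OM
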