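import Pool.Agent.Run7.h504.OmMain

/-!
# `Ω (n + t i (m i))`: tuples of members of families of small energy
-/

set_option autoImplicit false

namespace Pool.Agent.Run7.h504.OM

open Finset
open Pool.Agent.TH823.OP (cn ind ind_bd big_count om_count J_exists card_close)
open Pool.Agent.TH823.KB (p1 p1_le p1_nonneg power_beats)
open Pool.Agent.TH823.PS (NE)
open Pool.Agent.H373R2.T7 (energy)
open ArithmeticFunction (cardFactors)

lemma cn_cT {k : ℕ} (N : ℕ) (h : Fin (k + 1) → ℕ) (i : Fin (k + 1)) (S : Set ℕ) (T : Set (Fin k → ℕ)) :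
    cn N h i S T = cT N (h i) S {n | (fun j => cardFactors (n + h (i.succAbove j))) ∈ T} := by
  unfold cn cT
  rfl

lemma cT_close' (N h : ℕ) (S T T' : Set ℕ) (b : ℕ → Prop) [DecidablePred b]
    (hyp : ∀ n ∈ Icc 1 N, ¬ b n → (n ∈ T ↔ n ∈ T')) :
    |cT N h S T - cT N h S T'| ≤ (((Icc 1 N).filter b).card : ℝ) := by
  classical
  have h1 := card_close (Icc 1 N) (fun n => cardFactors (n + h) ∈ S ∧ n ∈ T)
    (fun n => cardFactors (n + h) ∈ S ∧ n ∈ T') b (fun n hn hb => by rw [hyp n hn hb])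
  unfold cT
  refine le_trans (le_of_eq ?_) h1
  congr!

lemma cT_zero (N h : ℕ) (T : Set ℕ) : cT N h Set.univ T = cT N 0 Set.univ T := by
  classical
  have h1 : ∀ n, (cardFactors (n + h) ∈ (Set.univ : Set ℕ) ∧ n ∈ T) ↔
      (cardFactors (n + 0) ∈ (Set.univ : Set ℕ) ∧ n ∈ T) := fun n =>
    ⟨fun g => ⟨Set.mem_univ _, g.2⟩, fun g => ⟨Set.mem_univ _, g.2⟩⟩
  unfold cT
  congr 2

open Classical in
/-- from one coordinate to tuples -/
theorem tuples {A p k s N J : ℕ} {ε ε1 δ : ℝ} (hN : 1 ≤ N)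
    (hone : ∀ (x : ℕ) (t : ℕ → ℕ), (∀ m ∈ Icc 1 x, t m ≤ A * N) →
      (energy p x (fun m => (t m : ℤ)) : ℝ) * N ≤ (N : ℝ) ^ δ * (x : ℝ) ^ (2 * p) →
      ∀ 𝒯 : Finset (Set ℕ), (𝒯.card : ℝ) ≤ (N : ℝ) ^ δ →
      (((Icc 1 x).filter fun m => ¬ ∀ T ∈ 𝒯, ∀ S : Set ℕ,
        |cT N (t m) {l | l / s ∈ S} T / N - (p1 N 0 {l | l / s ∈ S} / N) * (cT N 0 Set.univ T / N)| ≤ ε1).card : ℝ) ≤
        x * (N : ℝ) ^ (-δ))
    (hbig : ∀ h : Fin (k + 1) → ℕ, (∀ i, h i ≤ A * N) →
      (((Icc 1 N).filter fun n => ∃ j, J < cardFactors (n + h j)).card : ℝ) ≤ ε / 8 * N)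
    (hJ : (2 : ℝ) ^ ((J + 1) ^ k) ≤ (N : ℝ) ^ δ)
    (x : Fin (k + 1) → ℕ) (t : Fin (k + 1) → ℕ → ℕ) (ht : ∀ i, ∀ m ∈ Icc 1 (x i), t i m ≤ A * N)
    (he : ∀ i, (energy p (x i) (fun m => (t i m : ℤ)) : ℝ) * N ≤ (N : ℝ) ^ δ * (x i : ℝ) ^ (2 * p)) :
    (((Fintype.piFinset fun i => Icc 1 (x i)).filter fun m => ¬ ∀ (i : Fin (k + 1)) (S : Set ℕ) (T : Set (Fin k → ℕ)),
      |cn N (fun i => t i (m i)) i {l | l / s ∈ S} T / N -
        (p1 N 0 {l | l / s ∈ S} / N) * (cn N (fun i => t i (m i)) i Set.univ T / N)| ≤ ε1 + ε / 4).card : ℝ) ≤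
      ((k : ℝ) + 1) * ((∏ i, (x i : ℝ)) * (N : ℝ) ^ (-δ)) := by
  have hN0 : (0 : ℝ) < N := by exact_mod_cast hN
  set P : Fin (k + 1) → (Fin (k + 1) → ℕ) → Prop := fun i m => ∀ (S : Set ℕ) (T : Set (Fin k → ℕ)),
    |cn N (fun i => t i (m i)) i {l | l / s ∈ S} T / N -
        (p1 N 0 {l | l / s ∈ S} / N) * (cn N (fun i => t i (m i)) i Set.univ T / N)| ≤ ε1 + ε / 4 with hP
  have hi : ∀ i, (((Fintype.piFinset fun i => Icc 1 (x i)).filter fun m => ¬ P i m).card : ℝ) ≤
      (∏ i, (x i : ℝ)) * (N : ℝ) ^ (-δ) := by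
    intro i
    have h1 := Pool.Agent.TH823.PS.tuple_count' i (fun i => Icc 1 (x i)) (fun m => ¬ P i m)
      (T := (N : ℝ) ^ (-δ)) (by
      intro b hb
      set vec : ℕ → Fin k → ℕ := fun n j => cardFactors (n + t (i.succAbove j) (b j)) with hvec
      set 𝒯 : Finset (Set ℕ) := ((Fintype.piFinset fun _ : Fin k => range (J + 1)).powerset).image
        fun T0 => {n | vec n ∈ T0} with h𝒯
      have hc : (𝒯.card : ℝ) ≤ (N : ℝ) ^ δ := by
        refine le_trans ?_ hJ
        have h2 : 𝒯.card ≤ 2 ^ ((J + 1) ^ k) := by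
          refine card_image_le.trans (le_of_eq ?_)
          rw [card_powerset, Fintype.card_piFinset, prod_const, card_range, card_univ, Fintype.card_fin]
        exact_mod_cast h2
      have h2 := hone (x i) (t i) (ht i) (he i) 𝒯 hc
      rw [Nat.card_Icc, Nat.add_sub_cancel]
      refine le_trans (Nat.cast_le.2 (card_le_card ?_)) h2
      intro m hm
      rw [mem_filter] at hm ⊢
      refine ⟨hm.1, fun hcon => hm.2 fun S T => ?_⟩
      set m' : Fin (k + 1) → ℕ := i.insertNth m b with hm'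
      have em : m' i = m := by rw [hm', Fin.insertNth_apply_same]
      have eb : ∀ j, m' (i.succAbove j) = b j := fun j => by rw [hm', Fin.insertNth_apply_succAbove]
      set h : Fin (k + 1) → ℕ := fun i => t i (m' i) with hh
      have hhi : h i = t i m := by rw [hh]; simp only; rw [em]
      have hhA : ∀ j, h j ≤ A * N := by
        intro j
        rcases Fin.eq_self_or_eq_succAbove i j with rfl | ⟨j', rfl⟩
        · rw [hhi]
          exact ht _ m hm.1
        · rw [hh]
          simp only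
          rw [eb]
          exact ht _ _ (hb j')
      set T0 : Finset (Fin k → ℕ) := (Fintype.piFinset fun _ : Fin k => range (J + 1)).filter (· ∈ T) with hT0
      set T1 : Set ℕ := {n | vec n ∈ T0} with hT1
      have h3 := hcon T1 (mem_image.2 ⟨T0, mem_powerset.2 (filter_subset _ _), rfl⟩) S
      have hv : ∀ n, (fun j => cardFactors (n + h (i.succAbove j))) = vec n := by
        intro n
        funext j
        rw [hh, hvec]
        simp only
        rw [eb]
      have hTT : ∀ n ∈ Icc 1 N, ¬ (∃ j, J < cardFactors (n + h j)) →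
          (n ∈ {n | (fun j => cardFactors (n + h (i.succAbove j))) ∈ T} ↔ n ∈ T1) := by
        intro n _ hn
        push Not at hn
        change (fun j => cardFactors (n + h (i.succAbove j))) ∈ T ↔ vec n ∈ T0
        rw [hv n, hT0, mem_filter, Fintype.mem_piFinset]
        constructor
        · intro h4
          refine ⟨fun j => ?_, h4⟩
          rw [mem_range]
          have h5 := hn (i.succAbove j)
          have h6 := congrFun (hv n) j
          omega
        · exact fun h => h.2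
      have h4 : ∀ S' : Set ℕ, |cn N h i S' T - cT N (t i m) S' T1| ≤ ε / 8 * N := by
        intro S'
        rw [cn_cT, hhi]
        exact (cT_close' N (t i m) S' _ T1 (fun n => ∃ j, J < cardFactors (n + h j)) hTT).trans (hbig h hhA)
      have h5 := h4 {l | l / s ∈ S}
      have h6 := h4 Set.univ
      rw [cT_zero] at h6
      set q := p1 N 0 {l | l / s ∈ S} / N with hq
      have hq0 : 0 ≤ q := div_nonneg (p1_nonneg _ _ _) hN0.le
      have hq1 : q ≤ 1 := by rw [hq, div_le_one hN0]; exact p1_le _ _ _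
      have e1 : cn N h i {l | l / s ∈ S} T / N - q * (cn N h i Set.univ T / N) =
          (cT N (t i m) {l | l / s ∈ S} T1 / N - q * (cT N 0 Set.univ T1 / N)) +
          ((cn N h i {l | l / s ∈ S} T - cT N (t i m) {l | l / s ∈ S} T1) / N) -
          q * ((cn N h i Set.univ T - cT N 0 Set.univ T1) / N) := by ring
      have e2 : |(cn N h i {l | l / s ∈ S} T - cT N (t i m) {l | l / s ∈ S} T1) / N| ≤ ε / 8 := by
        rw [abs_div, abs_of_pos hN0, div_le_iff₀ hN0]
        exact h5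
      have e3 : |q * ((cn N h i Set.univ T - cT N 0 Set.univ T1) / N)| ≤ ε / 8 := by
        rw [abs_mul, abs_of_nonneg hq0, abs_div, abs_of_pos hN0]
        have e4 : |cn N h i Set.univ T - cT N 0 Set.univ T1| / N ≤ ε / 8 := by
          rw [div_le_iff₀ hN0]
          exact h6
        calc q * (|cn N h i Set.univ T - cT N 0 Set.univ T1| / N) ≤ 1 * (ε / 8) :=
              mul_le_mul hq1 e4 (by positivity) zero_le_one
          _ = ε / 8 := one_mul _
      change |cn N h i {l | l / s ∈ S} T / N - q * (cn N h i Set.univ T / N)| ≤ ε1 + ε / 4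
      rw [e1]
      refine (abs_sub _ _).trans ?_
      have e5 := abs_add_le (cT N (t i m) {l | l / s ∈ S} T1 / N - q * (cT N 0 Set.univ T1 / N))
        ((cn N h i {l | l / s ∈ S} T - cT N (t i m) {l | l / s ∈ S} T1) / N)
      linarith)
    simpa only [Nat.card_Icc, Nat.add_sub_cancel] using h1
  have hsub : ((Fintype.piFinset fun i => Icc 1 (x i)).filter fun m => ¬ ∀ (i : Fin (k + 1)) (S : Set ℕ)
      (T : Set (Fin k → ℕ)), |cn N (fun i => t i (m i)) i {l | l / s ∈ S} T / N -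
        (p1 N 0 {l | l / s ∈ S} / N) * (cn N (fun i => t i (m i)) i Set.univ T / N)| ≤ ε1 + ε / 4) ⊆
      (univ : Finset (Fin (k + 1))).biUnion fun i =>
        (Fintype.piFinset fun i => Icc 1 (x i)).filter fun m => ¬ P i m := by
    intro m hm
    rw [mem_filter] at hm
    obtain ⟨hm1, hm2⟩ := hm
    push Not at hm2
    obtain ⟨i, S, T, h1⟩ := hm2
    rw [mem_biUnion]
    refine ⟨i, mem_univ i, mem_filter.2 ⟨hm1, fun hcon => ?_⟩⟩
    have := hcon S T
    linarith
  calc _ ≤ ((((univ : Finset (Fin (k + 1))).biUnion fun i =>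
        (Fintype.piFinset fun i => Icc 1 (x i)).filter fun m => ¬ P i m).card : ℕ) : ℝ) :=
        Nat.cast_le.2 (card_le_card hsub)
    _ ≤ ∑ i : Fin (k + 1), (((Fintype.piFinset fun i => Icc 1 (x i)).filter fun m => ¬ P i m).card : ℝ) := by
        exact_mod_cast card_biUnion_le
    _ ≤ ∑ _i : Fin (k + 1), (∏ i, (x i : ℝ)) * (N : ℝ) ^ (-δ) := sum_le_sum fun i _ => hi i
    _ = _ := by
        rw [sum_const, card_univ, Fintype.card_fin, nsmul_eq_mul]
        push_cast
        ring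

end Pool.Agent.Run7.h504.OM
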