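import Pool.Agent.Run7.h504.Dil

set_option autoImplicit false

/-! The correlations `∑ Λ(q) Λ((b q + c) / a)` for constants `c` from a family of nearly minimal additive energy. -/

namespace Pool.Agent.Run7.h504.Pair

open Finset Pool.Agent.H373R2.T7
open Pool.Agent.H807R2.Dav
open Pool.Agent.Run7.h504.GenE Pool.Agent.Run7.h504.Dil

/-- the correlation of two functions along `a p = b q + c`, `q ≤ X` -/
noncomputable def cor (f g : ℕ → ℝ) (a b c X : ℕ) : ℝ :=
  ∑ q ∈ Icc 1 X, if a ∣ b * q + c then f q * g ((b * q + c) / a) else 0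

/-- the first replacement as a sum with arbitrary coefficients -/
lemma first_eq (z a b c X M H : ℕ) (hb : 1 ≤ b) (hbX : b * X ≤ M) (hH : M + c ≤ H) (f : ℕ → ℝ) :
    cor f (fun n => ArithmeticFunction.vonMangoldt n - lamz z n) a b c X =
      ∑ m ∈ Icc 1 M, (if b ∣ m ∧ m ≤ b * X then f (m / b) else 0) * fr (fd z a H) H ((m : ℤ) + ((c : ℕ) : ℤ)) := by
  unfold cor
  apply sum_of_injOn (fun q => b * q)
  · intro q _ q' _ h
    exact Nat.eq_of_mul_eq_mul_left hb h
  · intro q hq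
    rw [mem_coe, mem_Icc] at hq
    rw [mem_coe, mem_Icc]
    exact ⟨Nat.mul_pos hb hq.1, (Nat.mul_le_mul_left b hq.2).trans hbX⟩
  · intro m hm hm'
    rw [if_neg, zero_mul]
    rintro ⟨⟨q, rfl⟩, h2⟩
    apply hm'
    rw [mem_Icc] at hm
    have h3 : q ≤ X := Nat.le_of_mul_le_mul_left h2 hb
    have h5 : 1 ≤ q := by
      by_contra hcon
      have : q = 0 := by omega
      rw [this, mul_zero] at hm
      omega
    exact ⟨q, by rw [mem_coe, mem_Icc]; exact ⟨h5, h3⟩, rfl⟩
  · intro q hq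
    rw [mem_Icc] at hq
    have h1 : b * q ≤ b * X := Nat.mul_le_mul_left _ hq.2
    have h2 : 1 ≤ b * q := Nat.mul_pos hb hq.1
    have e0 : (if b ∣ b * q ∧ b * q ≤ b * X then f (b * q / b) else 0) = f q := by
      rw [if_pos ⟨dvd_mul_right _ _, h1⟩, Nat.mul_div_cancel_left _ (by omega)]
    have e : ((b * q : ℕ) : ℤ) + ((c : ℕ) : ℤ) = ((b * q + c : ℕ) : ℤ) := by push_cast; ring
    have e1 : fr (fd z a H) H (((b * q : ℕ) : ℤ) + ((c : ℕ) : ℤ)) = fd z a H (b * q + c) := by
      rw [e]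
      unfold fr
      rw [if_pos ⟨by exact_mod_cast (by omega : 1 ≤ b * q + c), by exact_mod_cast (by omega : b * q + c ≤ H)⟩, Int.toNat_natCast]
    show _ = (if b ∣ b * q ∧ b * q ≤ b * X then f (b * q / b) else 0) * fr (fd z a H) H (((b * q : ℕ) : ℤ) + ((c : ℕ) : ℤ))
    rw [e0, e1]
    unfold fd
    by_cases h3 : a ∣ b * q + c
    · have h4 : b * q + c ≤ a * H := by
        rcases Nat.eq_zero_or_pos a with ha | ha
        · rw [ha, zero_dvd_iff] at h3
          omega
        · have := Nat.le_mul_of_pos_left H ha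
          omega
      rw [if_pos h3, if_pos ⟨h3, h4⟩]
    · rw [if_neg h3, if_neg (fun h => h3 h.1), mul_zero]

/-- the second replacement as a sum with arbitrary coefficients -/
lemma second_eq (z a b c X M H : ℕ) (hb : 1 ≤ b) (hM : b * X + c ≤ M) (hH : b * X ≤ H) (g : ℕ → ℝ) :
    cor (fun n => ArithmeticFunction.vonMangoldt n - lamz z n) g a b c X =
      ∑ n ∈ Icc 1 M, (if a ∣ n then g (n / a) else 0) * fr (fd z b X) H ((n : ℤ) + (-((c : ℕ) : ℤ))) := by
  unfold cor
  apply sum_of_injOn (fun q => b * q + c)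
  · intro q _ q' _ h
    have h' : b * q + c = b * q' + c := h
    exact Nat.eq_of_mul_eq_mul_left hb (by omega)
  · intro q hq
    rw [mem_coe, mem_Icc] at hq
    rw [mem_coe, mem_Icc]
    have h1 : b * q ≤ b * X := Nat.mul_le_mul_left _ hq.2
    have h2 : 1 ≤ b * q := Nat.mul_pos hb hq.1
    show 1 ≤ b * q + c ∧ b * q + c ≤ M
    exact ⟨by omega, by omega⟩
  · intro n hn hn'
    have h0 : fr (fd z b X) H ((n : ℤ) + (-((c : ℕ) : ℤ))) = 0 := by
      unfold fr
      by_cases h1 : 1 ≤ (n : ℤ) + (-((c : ℕ) : ℤ)) ∧ (n : ℤ) + (-((c : ℕ) : ℤ)) ≤ H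
      · rw [if_pos h1]
        obtain ⟨k, hk⟩ : ∃ k : ℕ, n = k + c := ⟨n - c, by omega⟩
        have e : (n : ℤ) + (-((c : ℕ) : ℤ)) = (k : ℤ) := by rw [hk]; push_cast; ring
        rw [e, Int.toNat_natCast]
        unfold fd
        rw [if_neg]
        rintro ⟨⟨q, rfl⟩, h2⟩
        apply hn'
        have h3 : q ≤ X := Nat.le_of_mul_le_mul_left h2 hb
        have h5 : 1 ≤ q := by
          by_contra hcon
          have : q = 0 := by omega
          rw [e, this, mul_zero] at h1
          omega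
        exact ⟨q, by rw [mem_coe, mem_Icc]; exact ⟨h5, h3⟩, hk.symm⟩
      · rw [if_neg h1]
    rw [h0, mul_zero]
  · intro q hq
    rw [mem_Icc] at hq
    have h1 : b * q ≤ b * X := Nat.mul_le_mul_left _ hq.2
    have h2 : 1 ≤ b * q := Nat.mul_pos hb hq.1
    have e : ((b * q + c : ℕ) : ℤ) + (-((c : ℕ) : ℤ)) = ((b * q : ℕ) : ℤ) := by push_cast; ring
    have e1 : fr (fd z b X) H (((b * q + c : ℕ) : ℤ) + (-((c : ℕ) : ℤ))) = ArithmeticFunction.vonMangoldt q - lamz z q := by
      rw [e]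
      unfold fr
      rw [if_pos ⟨by exact_mod_cast h2, by exact_mod_cast (by omega : b * q ≤ H)⟩, Int.toNat_natCast, fd_mul z b X q hb hq.2]
    show _ = (if a ∣ b * q + c then g ((b * q + c) / a) else 0) * fr (fd z b X) H (((b * q + c : ℕ) : ℤ) + (-((c : ℕ) : ℤ)))
    rw [e1]
    by_cases h3 : a ∣ b * q + c
    · rw [if_pos h3, if_pos h3, mul_comm]
    · rw [if_neg h3, if_neg h3, zero_mul]

lemma cor_sub (f g f' g' : ℕ → ℝ) (a b c X : ℕ) :
    cor f g a b c X - cor f' g' a b c X =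
      cor f (fun n => g n - g' n) a b c X + cor (fun n => f n - f' n) g' a b c X := by
  unfold cor
  rw [← sum_sub_distrib, ← sum_add_distrib]
  apply sum_congr rfl
  intro q _
  split_ifs
  · ring
  · ring

/-- the energy of the negative family -/
lemma energy_neg (h x : ℕ) (s : ℕ → ℤ) : energy h x (fun m => - s m) = energy h x s := by
  unfold energy
  congr 1
  apply filter_congr
  intro q _
  simp only [sum_neg_distrib, neg_inj]

/-- the first moment of the error along `a p = b q + c`, for a family of constants -/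
theorem pair_moment (h B C U : ℕ) : ∃ B0 : ℕ, ∀ E : ℕ, ∃ N0 : ℕ, ∀ N : ℕ, N0 ≤ N → ∀ (x : ℕ) (s : ℕ → ℕ),
    (∀ m ∈ Icc 1 x, s m ≤ B * N) →
    (energy h x (fun m => (s m : ℤ)) : ℝ) * N ≤ Real.log N ^ C * (x : ℝ) ^ (2 * h) →
    ∀ z : ℕ, Real.log N ^ B0 ≤ z → (z : ℝ) ≤ Real.log N ^ E → ∀ a b X : ℕ, 1 ≤ a → 1 ≤ b → b * X ≤ N →
    ∑ m ∈ Icc 1 x, |cor (fun n => ArithmeticFunction.vonMangoldt n) (fun n => ArithmeticFunction.vonMangoldt n) a b (s m) X -
      cor (lamz z) (lamz z) a b (s m) X| ≤ N * x / Real.log N ^ U := by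
  obtain ⟨U1, n1, h1⟩ := gen_real h (B + 1) C (U + 2) 2
  obtain ⟨B0, h2⟩ := sup_dil U1 (2 * (B + 2))
  refine ⟨B0, fun E => ?_⟩
  obtain ⟨n2, h2'⟩ := h2 E
  obtain ⟨n3, h3⟩ := fd_abs E (2 * (B + 2))
  obtain ⟨n4, h4⟩ := Vz_inv_small E
  obtain ⟨n5, h5⟩ := ev_L' 2
  refine ⟨n1 + n2 + n3 + n4 + n5 + 3, fun N hN x s hs hE z hz1 hz2 a b X ha hb hX => ?_⟩
  have hN3 : 3 ≤ N := by omega
  have hNr : (3 : ℝ) ≤ N := by exact_mod_cast hN3
  have hN0 : (0 : ℝ) < N := by linarith
  have hL := h5 N (by omega)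
  have hL0 : 0 < Real.log N := by linarith
  have hz : 1 ≤ z := by
    have : (1 : ℝ) ≤ z := (one_le_pow₀ (by linarith)).trans hz1
    exact_mod_cast this
  have hVinv := h4 N (by omega) z hz hz2
  obtain ⟨H, hH⟩ : ∃ H, H = 2 * ((B + 1 + 1) * N) := ⟨_, rfl⟩
  have hHB : H = 2 * (B + 2) * N := by rw [hH]; ring
  have hXN : X ≤ N := (Nat.le_mul_of_pos_left X hb).trans hX
  -- the bounds of the two functions
  have hlz : ∀ n, |lamz z n| ≤ Real.log N := by
    intro n
    rw [abs_of_nonneg (lamz_nonneg z n)]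
    unfold lamz
    split_ifs
    · exact hVinv
    · exact hL0.le
  have hΛ : ∀ n ≤ N, |ArithmeticFunction.vonMangoldt n| ≤ Real.log N := by
    intro n hn
    rw [abs_of_nonneg ArithmeticFunction.vonMangoldt_nonneg]
    rcases Nat.eq_zero_or_pos n with h0 | h0
    · rw [h0]
      simp
      exact hL0.le
    · exact ArithmeticFunction.vonMangoldt_le_log.trans (Real.log_le_log (by exact_mod_cast h0) (by exact_mod_cast hn))
  -- the two moments
  have hsB : ∀ m ∈ Icc 1 x, |((s m : ℕ) : ℤ)| ≤ ((B + 1 : ℕ) : ℤ) * N := by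
    intro m hm
    rw [abs_of_nonneg (by positivity)]
    have := (hs m hm).trans (Nat.mul_le_mul_right N (by omega : B ≤ B + 1))
    exact_mod_cast this
  have hA1 : (B + 1) * N ≤ (B + 1) * N := le_rfl
  have m1 := h1 N (by omega) x (fun m => (s m : ℤ)) hsB hE ((B + 1) * N) hA1 (fd z a H)
    (fun n hn => h3 N (by omega) z hz hz2 a H n (by
      rw [mem_Icc] at hn
      rw [← hHB, hH]
      exact hn.2))
    (fun α => h2' N (by omega) z hz1 hz2 a H _ ha (by rw [← hH, hHB]) α)
    (Real.log N) hL0 (fun m => if b ∣ m ∧ m ≤ b * X then ArithmeticFunction.vonMangoldt (m / b) else 0) (by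
      intro m _
      split_ifs with hc
      · apply hΛ
        exact (Nat.div_le_self m b).trans (hc.2.trans hX)
      · rw [abs_zero]
        exact hL0.le)
  have m2 := h1 N (by omega) x (fun m => -(s m : ℤ)) (fun m hm => by
      rw [abs_neg]
      exact hsB m hm) (by rw [energy_neg]; exact hE) ((B + 1) * N) hA1 (fd z b X)
    (fun n hn => h3 N (by omega) z hz hz2 b X n (by
      rw [mem_Icc] at hn
      rw [← hHB, hH]
      exact hn.2))
    (fun α => h2' N (by omega) z hz1 hz2 b X _ hb (by rw [← hH, hHB]) α)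
    (Real.log N) hL0 (fun n => if a ∣ n then lamz z (n / a) else 0) (by
      intro m _
      split_ifs with hc
      · exact hlz _
      · rw [abs_zero]
        exact hL0.le)
  rw [← hH] at m1 m2
  have hsplit : ∀ m ∈ Icc 1 x, |cor (fun n => ArithmeticFunction.vonMangoldt n) (fun n => ArithmeticFunction.vonMangoldt n) a b (s m) X -
      cor (lamz z) (lamz z) a b (s m) X| ≤
      |∑ k ∈ Icc 1 ((B + 1) * N), (if b ∣ k ∧ k ≤ b * X then ArithmeticFunction.vonMangoldt (k / b) else 0) * fr (fd z a H) H ((k : ℤ) + ((s m : ℕ) : ℤ))| +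
      |∑ n ∈ Icc 1 ((B + 1) * N), (if a ∣ n then lamz z (n / a) else 0) * fr (fd z b X) H ((n : ℤ) + (-((s m : ℕ) : ℤ)))| := by
    intro m hm
    have hsm := hs m hm
    have e0 : (B + 1) * N = B * N + N := by ring
    have e1 : H = (B + 1) * N + (B + 1) * N + (N + N) := by rw [hH]; ring
    rw [cor_sub, first_eq z a b (s m) X ((B + 1) * N) H hb (by omega) (by omega), second_eq z a b (s m) X ((B + 1) * N) H hb (by omega) (by omega)]
    exact abs_add_le _ _
  refine (sum_le_sum hsplit).trans ?_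
  rw [sum_add_distrib]
  refine (add_le_add m1 m2).trans ?_
  rw [← mul_add, pow_add]
  have e : Real.log N * (N * x / (Real.log N ^ U * Real.log N ^ 2) + N * x / (Real.log N ^ U * Real.log N ^ 2)) =
      (2 / Real.log N) * (N * x / Real.log N ^ U) := by
    field_simp
    ring
  rw [e]
  calc 2 / Real.log N * (N * x / Real.log N ^ U) ≤ 1 * (N * x / Real.log N ^ U) := by
        apply mul_le_mul_of_nonneg_right _ (by positivity)
        rw [div_le_one hL0]
        exact hL
    _ = _ := one_mul _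

end Pool.Agent.Run7.h504.Pair
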