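import Pool.Agent.Results.MP_4a7640_nt.AperiodicClusters
import Pool.Agent.Run7.h504.RM10

set_option autoImplicit false

/-!
# Blocks with short parameters for aperiodic functions with values 1 and -1
-/

open Finset

namespace Pool.Agent.Run7.h504.RM

open Pool.Agent.Results.MP_a001d7_nt.JointClusters (IsMult FarFromTwists FiniteNonPretentious)
open Pool.Agent.Results.MP_4a7640_nt.AperiodicClusters (IsMultSign Aperiodic Good cluster)
open Pool.Agent.H807R2.Dav (ee norm_ee)
open Pool.Agent.H373R2.T7 (exI energy)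

lemma cluster_double {κ r : ℕ} (a : Fin κ → ℤ) (L : Fin κ → Fin r → ℤ) (lg : Finset (Fin r)) (i₀ : Fin κ)
    (ha : ∀ i, a i ≠ 0) :
    cluster (a2 a) (L2 a L) (insert (Fin.last r) (lg.map Fin.castSuccEmb)) univ (Fin.castAdd κ i₀) =
      (cluster a L lg univ i₀).map (Fin.castAddEmb κ) := by
  classical
  ext i
  unfold cluster
  rw [mem_filter, mem_map]
  constructor
  · rintro ⟨_, h⟩
    induction i using Fin.addCases with
    | left j =>
      refine ⟨j, ?_, rfl⟩
      rw [mem_filter]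
      refine ⟨mem_univ _, fun t ht => ?_⟩
      have := h t.castSucc (mem_insert_of_mem (mem_map.2 ⟨t, ht, rfl⟩))
      unfold a2 L2 at this
      simpa only [Fin.addCases_left, Fin.snoc_castSucc] using this
    | right j =>
      exfalso
      have := h (Fin.last r) (mem_insert_self _ _)
      unfold a2 L2 at this
      simp only [Fin.addCases_left, Fin.addCases_right, Fin.snoc_last, mul_zero] at this
      rcases mul_eq_zero.1 this with h' | h'
      · exact ha j h'
      · exact ha i₀ h'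
  · rintro ⟨j, hj, rfl⟩
    rw [mem_filter] at hj
    refine ⟨mem_univ _, fun t ht => ?_⟩
    rw [mem_insert] at ht
    rcases ht with rfl | ht
    · unfold a2 L2
      simp only [Fin.castAddEmb_apply, Fin.addCases_left, Fin.snoc_last]
      ring
    · obtain ⟨t', ht', rfl⟩ := mem_map.1 ht
      have := hj.2 t' ht'
      unfold a2 L2
      simpa only [Fin.castAddEmb_apply, Fin.castSuccEmb_apply, Fin.addCases_left, Fin.snoc_castSucc] using this

lemma good_double {κ r : ℕ} (a : Fin κ → ℤ) (L : Fin κ → Fin r → ℤ) (lg : Finset (Fin r)) (ha : ∀ i, a i ≠ 0)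
    (h : Good a L lg univ) : Good (a2 a) (L2 a L) (insert (Fin.last r) (lg.map Fin.castSuccEmb)) univ := by
  classical
  obtain ⟨i₀, _, h⟩ := h
  refine ⟨Fin.castAdd κ i₀, mem_univ _, ?_⟩
  rw [cluster_double a L lg i₀ ha]
  rcases h with h | ⟨i₁, hi₁, w, v, h1, h2⟩
  · left
    rwa [card_map]
  · right
    have hval : ∀ i, a2 a (Fin.castAdd κ i) * w + ∑ t, L2 a L (Fin.castAdd κ i) t * (Fin.snoc v 0 : Fin (r + 1) → ℤ) t =
        a i * w + ∑ t, L i t * v t := by
      intro i
      unfold a2 L2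
      simp only [Fin.addCases_left]
      rw [Fin.sum_univ_castSucc]
      simp only [Fin.snoc_castSucc, Fin.snoc_last, mul_zero, add_zero]
    refine ⟨Fin.castAdd κ i₁, mem_map.2 ⟨i₁, hi₁, rfl⟩, w, Fin.snoc v 0, ?_, ?_⟩
    · rw [hval]
      exact h1
    · intro i hi hne
      obtain ⟨j, hj, rfl⟩ := mem_map.1 hi
      rw [Fin.castAddEmb_apply, hval]
      exact h2 j hj (fun h' => hne (by rw [h', Fin.castAddEmb_apply]))

/-- small exponential sums for most values of the parameters, from the doubled system -/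
theorem supD_double {κ r : ℕ} (a : Fin κ → ℤ) (L : Fin κ → Fin r → ℤ) (lg : Finset (Fin r))
    (f : Fin κ → ℕ → ℂ) (hf : ∀ j n, ‖f j n‖ ≤ 1)
    (hcor : ∀ (R : ℕ) (ε : ℝ), 0 < ε → ∃ K : ℕ, ∀ (D : Fin (r + 1) → ℕ) (x : ℕ), K ≤ x → (∀ j, K ≤ D j) →
      (∀ j, D j ≤ R * x) → (∀ j ∈ insert (Fin.last r) (lg.map Fin.castSuccEmb), x ≤ R * D j) →
      ∑ d ∈ Fintype.piFinset (fun j => Icc (1 : ℤ) (D j)),
        ‖∑ n ∈ Icc (1 : ℤ) x, ∏ i, f2 f i (a2 a i * n + ∑ j, L2 a L i j * d j).natAbs‖ ≤ ε * (x * ∏ j, (D j : ℝ))) :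
    SupD lg (blk a L f) := by
  classical
  intro R ε₀ hε₀
  set ε : ℝ := min ε₀ 1 with hε
  have hε0 : 0 < ε := by positivity
  have hε1 : ε ≤ 1 := min_le_right _ _
  set η : ℝ := ε ^ 4 / 288 with hη
  have hη0 : 0 < η := by positivity
  obtain ⟨K, hK⟩ := hcor (R + 1) (ε * η) (by positivity)
  obtain ⟨M, hM⟩ := exists_nat_ge (144 / ε ^ 4)
  refine ⟨K + M + 1, fun N D hN hD => ?_⟩
  have hD' : ∀ t, (Fin.snoc D N : Fin (r + 1) → ℕ) t = if h : (t : ℕ) < r then D ⟨t, h⟩ else N := by
    intro t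
    rfl
  have hN0 : (0 : ℝ) < N := by exact_mod_cast (by omega : 0 < N)
  have h1 := hK (Fin.snoc D N) N (by omega) (by
      intro t
      induction t using Fin.lastCases with
      | last => rw [Fin.snoc_last]; omega
      | cast t => rw [Fin.snoc_castSucc]; have := hD.1 t; omega) (by
      intro t
      induction t using Fin.lastCases with
      | last => rw [Fin.snoc_last]; exact Nat.le_mul_of_pos_left _ (by omega)
      | cast t =>
        rw [Fin.snoc_castSucc]
        exact (hD.2.1 t).trans (Nat.mul_le_mul_right _ (by omega))) (by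
      intro t ht
      rw [mem_insert] at ht
      rcases ht with rfl | ht
      · rw [Fin.snoc_last]; exact Nat.le_mul_of_pos_left _ (by omega)
      · obtain ⟨t', ht', rfl⟩ := mem_map.1 ht
        rw [Fin.castSuccEmb_apply, Fin.snoc_castSucc]
        exact (hD.2.2 t' ht').trans (Nat.mul_le_mul_right _ (by omega)))
  -- the sum over the box and the shifts
  set g : (Fin r → ℤ) → ℝ := fun d => ∑ l ∈ Icc 1 N, ‖∑ n ∈ Icc 1 N, blk a L f d (n + l) *
    (starRingEnd ℂ) (blk a L f d n)‖ with hg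
  have h2 : ∑ d ∈ box D, g d ≤ ε * η * (N * (N * ∏ j, (D j : ℝ))) := by
    have hprod : ∏ t, (((Fin.snoc D N : Fin (r + 1) → ℕ) t : ℕ) : ℝ) = N * ∏ j, (D j : ℝ) := by
      rw [Fin.prod_univ_castSucc]
      simp only [Fin.snoc_castSucc, Fin.snoc_last]
      ring
    rw [hprod] at h1
    refine le_trans ?_ h1
    have e1 : ∑ d ∈ box D, g d = ∑ q ∈ box D ×ˢ Icc 1 N, ‖∑ n ∈ Icc 1 N, blk a L f q.1 (n + q.2) *
        (starRingEnd ℂ) (blk a L f q.1 n)‖ := by
      rw [sum_product]
    rw [e1]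
    set φ : (Fin r → ℤ) × ℕ → Fin (r + 1) → ℤ := fun q => Fin.snoc q.1 (q.2 : ℤ) with hφ
    have hinj : Set.InjOn φ (box D ×ˢ Icc 1 N : Finset ((Fin r → ℤ) × ℕ)) := by
      rintro ⟨d, l⟩ _ ⟨d', l'⟩ _ h
      simp only [hφ] at h
      have h3 := Fin.snoc_injective2 h
      simp only [Nat.cast_inj] at h3
      rw [h3.1, h3.2]
    have e2 : ∀ q ∈ box D ×ˢ Icc 1 N, ‖∑ n ∈ Icc 1 N, blk a L f q.1 (n + q.2) * (starRingEnd ℂ) (blk a L f q.1 n)‖ =
        ‖∑ n ∈ Icc (1 : ℤ) N, ∏ i, f2 f i (a2 a i * n + ∑ t, L2 a L i t * φ q t).natAbs‖ := by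
      rintro ⟨d, l⟩ _
      rw [sum_intIcc]
      congr 1
      apply sum_congr rfl
      intro n _
      exact (double a L f d l n).symm
    rw [sum_congr rfl e2]
    rw [← sum_image (f := fun e : Fin (r + 1) → ℤ =>
      ‖∑ n ∈ Icc (1 : ℤ) N, ∏ i, f2 f i (a2 a i * n + ∑ t, L2 a L i t * e t).natAbs‖) hinj]
    apply sum_le_sum_of_subset_of_nonneg
    · intro e he
      obtain ⟨⟨d, l⟩, hq, rfl⟩ := mem_image.1 he
      rw [mem_product] at hq
      unfold box at hq
      rw [Fintype.mem_piFinset] at hq ⊢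
      intro t
      simp only [hφ]
      induction t using Fin.lastCases with
      | last =>
        rw [Fin.snoc_last, Fin.snoc_last]
        have := mem_Icc.1 hq.2
        rw [mem_Icc]
        constructor
        · exact_mod_cast this.1
        · exact_mod_cast this.2
      | cast t =>
        rw [Fin.snoc_castSucc, Fin.snoc_castSucc]
        exact hq.1 t
    · intro _ _ _
      exact norm_nonneg _
  have hc0 : 0 < η * (N : ℝ) ^ 2 := by positivity
  have h3 := ct_markov (box D) g (fun d _ => sum_nonneg fun _ _ => norm_nonneg _) (c := η * (N : ℝ) ^ 2)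
  have h4 : (η * (N : ℝ) ^ 2) * ct (box D) (fun d => η * (N : ℝ) ^ 2 < g d) ≤
      (η * (N : ℝ) ^ 2) * (ε * ∏ j, (D j : ℝ)) := by
    refine (h3.trans h2).trans (le_of_eq ?_)
    ring
  have h5 := le_of_mul_le_mul_left h4 hc0
  have hprod0 : 0 ≤ ∏ j, (D j : ℝ) := prod_nonneg fun _ _ => Nat.cast_nonneg _
  refine le_trans ?_ (h5.trans (mul_le_mul_of_nonneg_right (min_le_left _ _) hprod0))
  apply ct_mono
  intro d _ hd
  by_contra hcon
  rw [not_lt] at hcon
  apply hd
  intro α
  have h6 := sup_of_cor hε0 hε1 (blk_le a L hf d) (L := N) (hM.trans (by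
    exact_mod_cast (by omega : M ≤ N))) (by
      rw [← hη]
      exact hcon) α
  exact h6.trans (mul_le_mul_of_nonneg_right (min_le_left _ _) hN0.le)

/-- small exponential sums for most values of the parameters, for aperiodic functions with values 1 and -1 -/
theorem supD_good {κ r : ℕ} (a : Fin κ → ℤ) (L : Fin κ → Fin r → ℤ) (lg : Finset (Fin r)) (ha : ∀ i, a i ≠ 0)
    (hg : Good a L lg univ) (f : ℕ → ℝ) (hf : IsMultSign f) (hap : Aperiodic f) :
    SupD lg (blk a L (fun _ n => ((f n : ℝ) : ℂ))) := by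
  classical
  have hf1 : ∀ n, ‖((f n : ℝ) : ℂ)‖ ≤ 1 := by
    intro n
    rw [Complex.norm_real]
    rcases hf.1 n with h | h <;> rw [h] <;> simp
  refine supD_double a L lg _ (fun _ n => hf1 n) fun R ε hε => ?_
  obtain ⟨K, hK⟩ := (Pool.Agent.Results.MP_4a7640_nt.AperiodicClusters.result f hf hap).1 (r + 1) (κ + κ) (a2 a) (L2 a L)
    (insert (Fin.last r) (lg.map Fin.castSuccEmb)) (by
      intro i
      unfold a2
      induction i using Fin.addCases with
      | left j => simpa only [Fin.addCases_left] using ha j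
      | right j => simpa only [Fin.addCases_right] using ha j) (good_double a L lg ha hg) R ε hε
  refine ⟨K, fun D x hx hD hDx hlg => ?_⟩
  refine le_trans (le_of_eq (sum_congr rfl fun d _ => ?_)) (hK D x hx hD hDx hlg)
  rw [← Real.norm_eq_abs, ← Complex.norm_real]
  congr 1
  push_cast
  apply sum_congr rfl
  intro n _
  apply prod_congr rfl
  intro i _
  unfold f2
  induction i using Fin.addCases with
  | left j => simp only [Fin.addCases_left]
  | right j => simp only [Fin.addCases_right, Complex.conj_ofReal]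

end Pool.Agent.Run7.h504.RM
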