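import Pool.Agent.Run7.h504.RM11

set_option autoImplicit false

/-!
# Sums over almost all short intervals from short correlations
-/

open Finset

namespace Pool.Agent.Run7.h504.RM

open Pool.Agent.H807R2.Dav (ee norm_ee)

lemma shift_one (y : ℕ → ℂ) (H u : ℕ) :
    ∑ h ∈ Icc 1 H, y (h + u) - ∑ h ∈ Icc 1 H, y (h + (u + 1)) = y (1 + u) - y (H + 1 + u) := by
  induction H with
  | zero => simp
  | succ H ih =>
    rw [sum_Icc_succ_top (by omega), sum_Icc_succ_top (by omega)]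
    have e1 : y (H + 1 + (u + 1)) = y (H + 1 + 1 + u) := by congr 1; omega
    rw [e1]
    linear_combination ih

lemma shift_le {y : ℕ → ℂ} (hy : ∀ n, ‖y n‖ ≤ 1) (H u : ℕ) :
    ‖∑ h ∈ Icc 1 H, y h - ∑ h ∈ Icc 1 H, y (h + u)‖ ≤ 2 * u := by
  induction u with
  | zero => simp
  | succ u ih =>
    have e1 : ∑ h ∈ Icc 1 H, y h - ∑ h ∈ Icc 1 H, y (h + (u + 1)) =
        (∑ h ∈ Icc 1 H, y h - ∑ h ∈ Icc 1 H, y (h + u)) + (y (1 + u) - y (H + 1 + u)) := by
      rw [← shift_one]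
      ring
    rw [e1]
    refine (norm_add_le _ _).trans ?_
    have := norm_sub_le (y (1 + u)) (y (H + 1 + u))
    have := hy (1 + u)
    have := hy (H + 1 + u)
    push_cast
    linarith

/-- sums of a function of the distance -/
lemma dist_sum (f : ℕ → ℝ) (hf : ∀ d, 0 ≤ f d) (H u : ℕ) (hu : u ∈ Icc 1 H) :
    ∑ v ∈ Icc 1 H, f ((u - v) + (v - u)) ≤ f 0 + 2 * ∑ d ∈ Icc 1 H, f d := by
  classical
  rw [mem_Icc] at hu
  have h1 : Icc 1 H = ((Icc 1 H).filter (fun v => v < u) ∪ (Icc 1 H).filter (fun v => u < v)) ∪ {u} := by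
    ext v
    simp only [mem_union, mem_filter, mem_Icc, mem_singleton]
    omega
  have hd1 : Disjoint ((Icc 1 H).filter (fun v => v < u) ∪ (Icc 1 H).filter (fun v => u < v)) {u} := by
    rw [disjoint_left]
    intro v h2 h3
    rw [mem_singleton] at h3
    simp only [mem_union, mem_filter] at h2
    omega
  have hd2 : Disjoint ((Icc 1 H).filter (fun v => v < u)) ((Icc 1 H).filter (fun v => u < v)) := by
    rw [disjoint_left]
    intro v h2 h3
    rw [mem_filter] at h2 h3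
    omega
  have h2 : ∑ v ∈ Icc 1 H, f ((u - v) + (v - u)) = ∑ v ∈ (Icc 1 H).filter (fun v => v < u), f ((u - v) + (v - u)) +
      ∑ v ∈ (Icc 1 H).filter (fun v => u < v), f ((u - v) + (v - u)) + f 0 := by
    conv_lhs => rw [h1]
    rw [sum_union hd1, sum_union hd2, sum_singleton]
    congr 2
    omega
  have h3 : ∑ v ∈ (Icc 1 H).filter (fun v => v < u), f ((u - v) + (v - u)) ≤ ∑ d ∈ Icc 1 H, f d := by
    have hinj : Set.InjOn (fun v => (u - v) + (v - u)) ((Icc 1 H).filter (fun v => v < u)) := by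
      intro v hv v' hv' h
      rw [mem_coe, mem_filter] at hv hv'
      simp only at h
      omega
    rw [← sum_image (f := f) hinj]
    apply sum_le_sum_of_subset_of_nonneg
    · intro d hd
      obtain ⟨v, hv, rfl⟩ := mem_image.1 hd
      rw [mem_filter, mem_Icc] at hv
      rw [mem_Icc]
      omega
    · intro d _ _
      exact hf d
  have h4 : ∑ v ∈ (Icc 1 H).filter (fun v => u < v), f ((u - v) + (v - u)) ≤ ∑ d ∈ Icc 1 H, f d := by
    have hinj : Set.InjOn (fun v => (u - v) + (v - u)) ((Icc 1 H).filter (fun v => u < v)) := by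
      intro v hv v' hv' h
      rw [mem_coe, mem_filter] at hv hv'
      simp only at h
      omega
    rw [← sum_image (f := f) hinj]
    apply sum_le_sum_of_subset_of_nonneg
    · intro d hd
      obtain ⟨v, hv, rfl⟩ := mem_image.1 hd
      rw [mem_filter, mem_Icc] at hv
      rw [mem_Icc]
      omega
    · intro d _ _
      exact hf d
  rw [h2]
  linarith

/-- the mean square over short intervals -/
lemma sq_short {G : ℕ → ℂ} (hG : ∀ n, ‖G n‖ ≤ 1) {c : ℝ} (hc : 0 < c) {H M : ℕ} (hH : 1 ≤ c * H) (hM : (H : ℝ) ≤ c * M)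
    (hcor : ct (Icc 1 H) (fun d => ¬ ‖∑ n ∈ Icc 1 M, G n * (starRingEnd ℂ) (G (n + d))‖ ≤ c * M) ≤ c * H) (θ : ℝ) :
    ∑ n ∈ Icc 1 M, ‖∑ u ∈ Icc 1 H, G (n + u) * ee ((u : ℝ) * θ)‖ ^ 2 ≤ 7 * c * (H : ℝ) ^ 2 * M := by
  classical
  set C : ℕ → ℝ := fun d => ‖∑ n ∈ Icc 1 M, G n * (starRingEnd ℂ) (G (n + d))‖ with hC
  have hM0 : (0 : ℝ) ≤ M := Nat.cast_nonneg _
  have hH0 : (0 : ℝ) ≤ H := Nat.cast_nonneg _
  have hCM : ∀ d, C d ≤ M := by
    intro d
    simp only [hC]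
    refine (norm_sum_le _ _).trans ((sum_le_sum (g := fun _ => (1 : ℝ)) fun n _ => ?_).trans (le_of_eq (by simp)))
    rw [norm_mul, RCLike.norm_conj]
    exact mul_le_one₀ (hG _) (norm_nonneg _) (hG _)
  have hC0 : ∀ d, 0 ≤ C d := fun d => norm_nonneg _
  -- the sum of the correlations
  have h1 : ∑ d ∈ Icc 1 H, C d ≤ 2 * c * H * M := by
    have e1 : ∀ d ∈ Icc 1 H, C d ≤ c * M + M * (if ¬ C d ≤ c * M then 1 else 0) := by
      intro d _
      by_cases h : C d ≤ c * M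
      · rw [if_neg (by simpa using h)]
        linarith
      · rw [if_pos h]
        have := hCM d
        have : 0 ≤ c * M := by positivity
        linarith
    refine (sum_le_sum e1).trans ?_
    rw [sum_add_distrib, sum_const, nsmul_eq_mul, Nat.card_Icc, Nat.add_sub_cancel, ← mul_sum]
    have e2 : ∑ d ∈ Icc 1 H, (if ¬ C d ≤ c * M then (1 : ℝ) else 0) = ct (Icc 1 H) (fun d => ¬ C d ≤ c * M) := by
      rw [ct_eq, card_filter]
      push_cast
      rfl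
    rw [e2]
    have := mul_le_mul_of_nonneg_left hcor hM0
    have e3 : (H : ℝ) * (c * M) + M * (c * H) = 2 * c * H * M := by ring
    simp only [hC] at *
    linarith
  -- correlations at two shifts
  have h2 : ∀ u ∈ Icc 1 H, ∀ v ∈ Icc 1 H,
      ‖∑ n ∈ Icc 1 M, G (n + u) * (starRingEnd ℂ) (G (n + v))‖ ≤ C ((u - v) + (v - u)) + 2 * H := by
    have key : ∀ u d : ℕ, u ≤ H → ‖∑ n ∈ Icc 1 M, G (n + u) * (starRingEnd ℂ) (G (n + (u + d)))‖ ≤ C d + 2 * H := by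
      intro u d hu
      have e1 := shift_le (y := fun n => G n * (starRingEnd ℂ) (G (n + d))) (fun n => by
        rw [norm_mul, RCLike.norm_conj]
        exact mul_le_one₀ (hG _) (norm_nonneg _) (hG _)) M u
      have e2 : ∑ n ∈ Icc 1 M, G (n + u) * (starRingEnd ℂ) (G (n + (u + d))) =
          ∑ n ∈ Icc 1 M, G n * (starRingEnd ℂ) (G (n + d)) -
          (∑ n ∈ Icc 1 M, G n * (starRingEnd ℂ) (G (n + d)) -
            ∑ n ∈ Icc 1 M, (fun n => G n * (starRingEnd ℂ) (G (n + d))) (n + u)) := by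
        rw [sub_sub_cancel]
        apply sum_congr rfl
        intro n _
        simp only
        rw [add_assoc]
      rw [e2]
      refine (norm_sub_le _ _).trans ?_
      have e3 : (u : ℝ) ≤ H := by exact_mod_cast hu
      have e4 : C d = ‖∑ n ∈ Icc 1 M, G n * (starRingEnd ℂ) (G (n + d))‖ := rfl
      rw [← e4]
      linarith
    intro u hu v hv
    rw [mem_Icc] at hu hv
    rcases le_total u v with h | h
    · have e1 := key u (v - u) hu.2
      have e2 : u + (v - u) = v := by omega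
      rw [e2] at e1
      have e3 : (u - v) + (v - u) = v - u := by omega
      rw [e3]
      exact e1
    · have e1 := key v (u - v) hv.2
      have e2 : v + (u - v) = u := by omega
      rw [e2] at e1
      have e3 : (u - v) + (v - u) = u - v := by omega
      rw [e3]
      refine le_trans (le_of_eq ?_) e1
      rw [← RCLike.norm_conj, map_sum]
      congr 1
      apply sum_congr rfl
      intro n _
      rw [map_mul, starRingEnd_self_apply, mul_comm]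
  -- expand the square
  have h3 : ((∑ n ∈ Icc 1 M, ‖∑ u ∈ Icc 1 H, G (n + u) * ee ((u : ℝ) * θ)‖ ^ 2 : ℝ) : ℂ) =
      ∑ u ∈ Icc 1 H, ∑ v ∈ Icc 1 H, (ee ((u : ℝ) * θ) * (starRingEnd ℂ) (ee ((v : ℝ) * θ))) *
        ∑ n ∈ Icc 1 M, G (n + u) * (starRingEnd ℂ) (G (n + v)) := by
    push_cast
    have e1 : ∀ n, ((‖∑ u ∈ Icc 1 H, G (n + u) * ee ((u : ℝ) * θ)‖ : ℂ)) ^ 2 =
        ∑ u ∈ Icc 1 H, ∑ v ∈ Icc 1 H, (G (n + u) * ee ((u : ℝ) * θ)) *
          (starRingEnd ℂ) (G (n + v) * ee ((v : ℝ) * θ)) := by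
      intro n
      rw [← Complex.mul_conj', map_sum, sum_mul_sum]
    rw [sum_congr rfl fun n _ => e1 n, sum_comm]
    apply sum_congr rfl
    intro u _
    rw [sum_comm]
    apply sum_congr rfl
    intro v _
    rw [mul_sum]
    apply sum_congr rfl
    intro n _
    rw [map_mul]
    ring
  have h4 : ∑ n ∈ Icc 1 M, ‖∑ u ∈ Icc 1 H, G (n + u) * ee ((u : ℝ) * θ)‖ ^ 2 ≤
      ∑ u ∈ Icc 1 H, ∑ v ∈ Icc 1 H, (C ((u - v) + (v - u)) + 2 * H) := by
    have e1 : ∑ n ∈ Icc 1 M, ‖∑ u ∈ Icc 1 H, G (n + u) * ee ((u : ℝ) * θ)‖ ^ 2 =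
        ‖((∑ n ∈ Icc 1 M, ‖∑ u ∈ Icc 1 H, G (n + u) * ee ((u : ℝ) * θ)‖ ^ 2 : ℝ) : ℂ)‖ := by
      rw [Complex.norm_real, Real.norm_of_nonneg (sum_nonneg fun _ _ => by positivity)]
    rw [e1, h3]
    refine (norm_sum_le _ _).trans (sum_le_sum fun u hu => (norm_sum_le _ _).trans (sum_le_sum fun v hv => ?_))
    rw [norm_mul, norm_mul, RCLike.norm_conj, norm_ee, norm_ee, one_mul, one_mul]
    exact h2 u hu v hv
  refine h4.trans ?_
  have h5 : ∀ u ∈ Icc 1 H, ∑ v ∈ Icc 1 H, (C ((u - v) + (v - u)) + 2 * H) ≤ M + 4 * c * H * M + 2 * (H : ℝ) ^ 2 := by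
    intro u hu
    rw [sum_add_distrib, sum_const, nsmul_eq_mul, Nat.card_Icc, Nat.add_sub_cancel]
    have e1 := dist_sum C hC0 H u hu
    have e2 := hCM 0
    have e3 : (H : ℝ) * (2 * H) = 2 * (H : ℝ) ^ 2 := by ring
    linarith
  refine (sum_le_sum h5).trans ?_
  rw [sum_const, nsmul_eq_mul, Nat.card_Icc, Nat.add_sub_cancel]
  have e1 : (H : ℝ) * M ≤ c * H * H * M := by
    have := mul_le_mul_of_nonneg_right hH (mul_nonneg hH0 hM0)
    linarith
  have e2 : (H : ℝ) ^ 2 * H ≤ (H : ℝ) ^ 2 * (c * M) := mul_le_mul_of_nonneg_left hM (by positivity)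
  nlinarith

/-- sums over almost all short intervals -/
theorem short_of_cor {G : ℕ → ℂ} (hG : ∀ n, ‖G n‖ ≤ 1) {ε : ℝ} (hε : 0 < ε) {H₁ N H : ℕ}
    (hH₁ : 1 ≤ ε ^ 2 / 63 * H₁) (hN : (H₁ : ℝ) ≤ ε ^ 2 / 63 * (2 * N : ℕ))
    (hcor : ct (Icc 1 H₁) (fun d => ¬ ‖∑ n ∈ Icc 1 (2 * N), G n * (starRingEnd ℂ) (G (n + d))‖ ≤ ε ^ 2 / 63 * (2 * N : ℕ)) ≤
      ε ^ 2 / 63 * H₁) (hH : 6 * H₁ ≤ ε * H) (hHN : H ≤ N) (θ : ℝ) :
    ∑ n ∈ Icc 1 N, ‖∑ h ∈ Icc 1 H, G (n + h) * ee ((h : ℝ) * θ)‖ ≤ ε * H * N := by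
  classical
  have hH₁0 : (0 : ℝ) < H₁ := by
    rcases Nat.eq_zero_or_pos H₁ with h | h
    · rw [h] at hH₁; norm_num at hH₁
    · exact_mod_cast h
  have hN0 : (0 : ℝ) ≤ N := Nat.cast_nonneg _
  have hHr : (0 : ℝ) ≤ H := Nat.cast_nonneg _
  set S : ℕ → ℝ := fun n => ‖∑ u ∈ Icc 1 H₁, G (n + u) * ee ((u : ℝ) * θ)‖ with hS
  have h1 := sq_short hG (c := ε ^ 2 / 63) (by positivity) hH₁ hN hcor θ
  have h2 : ∑ n ∈ Icc 1 (2 * N), S n ≤ ε / 3 * H₁ * (2 * N : ℕ) := by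
    have e2 : (∑ n ∈ Icc 1 (2 * N), S n) ^ 2 ≤ (2 * N : ℕ) * ∑ n ∈ Icc 1 (2 * N), S n ^ 2 := by
      have := sq_sum_le_card_mul_sum_sq (s := Icc 1 (2 * N)) (f := S)
      rwa [Nat.card_Icc, Nat.add_sub_cancel] at this
    have e3 : (∑ n ∈ Icc 1 (2 * N), S n) ^ 2 ≤ (ε / 3 * H₁ * (2 * N : ℕ)) ^ 2 := by
      refine e2.trans ?_
      have := mul_le_mul_of_nonneg_left h1 (Nat.cast_nonneg (α := ℝ) (2 * N))
      refine this.trans (le_of_eq ?_)
      ring
    exact le_of_sq_le_sq e3 (by positivity)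
  have h3 : ∀ n, (H₁ : ℝ) * ‖∑ h ∈ Icc 1 H, G (n + h) * ee ((h : ℝ) * θ)‖ ≤ ∑ h ∈ Icc 1 H, S (n + h) + 2 * (H₁ : ℝ) ^ 2 := by
    intro n
    set y : ℕ → ℂ := fun h => G (n + h) * ee ((h : ℝ) * θ) with hy
    have hy1 : ∀ h, ‖y h‖ ≤ 1 := by
      intro h
      simp only [hy]
      rw [norm_mul, norm_ee, mul_one]
      exact hG _
    have e1 : (H₁ : ℂ) * ∑ h ∈ Icc 1 H, y h = ∑ u ∈ Icc 1 H₁, ∑ h ∈ Icc 1 H, y (h + u) +
        ∑ u ∈ Icc 1 H₁, (∑ h ∈ Icc 1 H, y h - ∑ h ∈ Icc 1 H, y (h + u)) := by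
      rw [← sum_add_distrib]
      simp
    have e2 : (H₁ : ℝ) * ‖∑ h ∈ Icc 1 H, y h‖ = ‖(H₁ : ℂ) * ∑ h ∈ Icc 1 H, y h‖ := by
      rw [norm_mul, Complex.norm_natCast]
    rw [e2, e1]
    refine (norm_add_le _ _).trans (add_le_add ?_ ?_)
    · rw [sum_comm]
      refine (norm_sum_le _ _).trans (sum_le_sum fun h _ => le_of_eq ?_)
      have e3 : ∑ u ∈ Icc 1 H₁, y (h + u) = ee ((h : ℝ) * θ) * ∑ u ∈ Icc 1 H₁, G (n + h + u) * ee ((u : ℝ) * θ) := by
        rw [mul_sum]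
        apply sum_congr rfl
        intro u _
        simp only [hy]
        have e4 : (((h + u : ℕ) : ℝ)) * θ = (h : ℝ) * θ + (u : ℝ) * θ := by push_cast; ring
        rw [e4, Pool.Agent.H807R2.Dav.ee_add, add_assoc]
        ring
      rw [e3, norm_mul, norm_ee, one_mul]
    · refine (norm_sum_le _ _).trans ?_
      have e3 : ∀ u ∈ Icc 1 H₁, ‖∑ h ∈ Icc 1 H, y h - ∑ h ∈ Icc 1 H, y (h + u)‖ ≤ 2 * (H₁ : ℝ) := by
        intro u hu
        have := (mem_Icc.1 hu).2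
        have h5 : (u : ℝ) ≤ H₁ := by exact_mod_cast this
        have := shift_le hy1 H u
        linarith
      refine (sum_le_sum e3).trans (le_of_eq ?_)
      rw [sum_const, nsmul_eq_mul, Nat.card_Icc, Nat.add_sub_cancel]
      ring
  have h4 : (H₁ : ℝ) * ∑ n ∈ Icc 1 N, ‖∑ h ∈ Icc 1 H, G (n + h) * ee ((h : ℝ) * θ)‖ ≤
      H₁ * (ε * H * N) := by
    rw [mul_sum]
    refine (sum_le_sum fun n _ => h3 n).trans ?_
    rw [sum_add_distrib, sum_comm, sum_const, nsmul_eq_mul, Nat.card_Icc, Nat.add_sub_cancel]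
    have e1 : ∀ h ∈ Icc 1 H, ∑ n ∈ Icc 1 N, S (n + h) ≤ ε / 3 * H₁ * (2 * N : ℕ) := by
      intro h hh
      rw [mem_Icc] at hh
      refine le_trans ?_ h2
      have hinj : Set.InjOn (fun n => n + h) (Icc 1 N : Finset ℕ) := fun a _ b _ hab => by
        simp only at hab
        omega
      rw [← sum_image (f := S) hinj]
      apply sum_le_sum_of_subset_of_nonneg
      · intro j hj
        obtain ⟨n, hn, rfl⟩ := mem_image.1 hj
        rw [mem_Icc] at hn ⊢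
        omega
      · intro _ _ _
        exact norm_nonneg _
    have e2 := sum_le_sum e1
    rw [sum_const, nsmul_eq_mul, Nat.card_Icc, Nat.add_sub_cancel] at e2
    have e3 : (N : ℝ) * (2 * (H₁ : ℝ) ^ 2) ≤ H₁ * (ε / 3 * H * N) := by
      have := mul_le_mul_of_nonneg_left hH (mul_nonneg hN0 hH₁0.le)
      nlinarith
    push_cast at e2
    have e4 : (H : ℝ) * (ε / 3 * H₁ * (2 * N)) = H₁ * (ε * H * N) - H₁ * (ε / 3 * H * N) := by ring
    linarith
  exact le_of_mul_le_mul_left h4 hH₁0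

end Pool.Agent.Run7.h504.RM
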