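import Pool.Agent.Run7.h504.RM12

set_option autoImplicit false

/-!
# Products with displaced functions in almost all short intervals
-/

open Finset

namespace Pool.Agent.Run7.h504.RM

open Pool.Agent.Results.MP_4a7640_nt.AperiodicClusters (IsMultSign Aperiodic Good cluster)
open Pool.Agent.H807R2.Dav (ee norm_ee)
open Pool.Agent.H373R2.T7 (exI energy)

/-- the function is real with values 1 and -1, multiplicative and aperiodic -/
def RealAp (f : ℕ → ℂ) : Prop := ∃ g : ℕ → ℝ, IsMultSign g ∧ Aperiodic g ∧ ∀ n, f n = ((g n : ℝ) : ℂ)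

lemma univ_one : (univ : Finset (Finset (Fin 1))) = {∅, {0}} := by decide

lemma prod_one (φ : Finset (Fin 1) → ℂ) : ∏ ω : Finset (Fin 1), φ ω = φ ∅ * φ {0} := by
  rw [univ_one, prod_pair (by decide)]

lemma cube_one (G : ℕ → ℂ) (d : Fin 1 → ℕ) (n : ℕ) : cube G d n = G n * (starRingEnd ℂ) (G (n + d 0)) := by
  unfold cube
  rw [prod_one]
  simp [cj]

lemma cubeF_one (α : ℕ) (g : ℕ → ℂ) (h : Fin 1 → ℤ) (n : ℕ) :
    cubeF α g h n = g n * (starRingEnd ℂ) (g ((n : ℤ) + α * h 0).natAbs) := by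
  unfold cubeF
  rw [prod_one]
  simp [cj]

lemma cube_prod {s k : ℕ} (f : Fin k → ℕ → ℂ) (α : Fin k → ℕ) (c : Fin k → ℤ) (w : ℕ → ℂ) (I : Finset (Fin k))
    (d : Fin s → ℕ) (n : ℕ) :
    cube (fun n => w n * ∏ j ∈ I, exI (f j) (α j * n + c j)) d n =
      cube w (fun t => (((d t : ℕ) : ℤ)).toNat) n *
        ∏ j ∈ I, exI (cubeF (α j) (f j) (fun t => ((d t : ℕ) : ℤ))) (α j * n + c j) := by
  have e1 : ∀ j, exI (cubeF (α j) (f j) (fun t => ((d t : ℕ) : ℤ))) (α j * n + c j) =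
      ∏ ω : Finset (Fin s), cj ω.card (exI (f j) (α j * ((n + ∑ t ∈ ω, d t : ℕ) : ℤ) + c j)) := by
    intro j
    rw [exI_cubeF (α j) (f j) _ (fun t => by positivity)]
    apply prod_congr rfl
    intro ω _
    congr 2
    push_cast
    ring
  rw [prod_congr rfl fun j _ => e1 j, prod_comm]
  unfold cube
  rw [← prod_mul_distrib]
  apply prod_congr rfl
  intro ω _
  simp only [Int.toNat_natCast]
  rw [cj_mul, cj_prod]

/-- two values of one aperiodic function at a short distance -/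
theorem supD_cube1 (α : ℕ) (hα : 1 ≤ α) (f : ℕ → ℂ) (hf : RealAp f) : SupD (∅ : Finset (Fin 1)) (cubeF α f) := by
  classical
  obtain ⟨g, hg, hap, hfg⟩ := hf
  set a : Fin 2 → ℤ := fun _ => 1 with ha
  set L : Fin 2 → Fin 1 → ℤ := fun j _ => if j = 0 then 0 else (α : ℤ) with hL
  have hα0 : (α : ℤ) ≠ 0 := by exact_mod_cast (by omega : α ≠ 0)
  have hgood : Good a L ∅ univ := by
    refine ⟨0, mem_univ _, Or.inr ⟨1, ?_, 0, fun _ => 1, ?_, ?_⟩⟩
    · unfold Pool.Agent.Results.MP_4a7640_nt.AperiodicClusters.cluster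
      simp
    · simp [hL]
      omega
    · intro i _ hi
      have hi0 : i = 0 := by
        fin_cases i
        · rfl
        · exact absurd rfl hi
      rw [hi0]
      simp [hL]
  have h1 := supD_good a L ∅ (fun _ => by simp [ha]) hgood g hg hap
  have h2 : blk a L (fun _ n => ((g n : ℝ) : ℂ)) = cubeF α f := by
    funext d n
    rw [cubeF_one]
    unfold blk
    rw [Fin.prod_univ_two, hfg, hfg, Complex.conj_ofReal]
    simp [ha, hL]
  rw [h2] at h1
  exact h1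

/-- **Displaced products in almost all short intervals.** -/
theorem tupS (h B W k : ℕ) (hh : 1 ≤ h) (K ε : ℝ) (hε : 0 < ε)
    (f : Fin k → ℕ → ℂ) (hf : ∀ i n, ‖f i n‖ ≤ 1) (α : Fin k → ℕ)
    (Ap : Finset (Fin k)) (hAp : ∀ i ∈ Ap, 1 ≤ α i ∧ α i ≤ B ∧ SupD (∅ : Finset (Fin 1)) (cubeF (α i) (f i))) :
    ∃ N₀ : ℕ, ∀ N : ℕ, N₀ ≤ N → ∀ (x : Fin k → ℕ) (b : Fin k → ℕ → ℤ),
      (∀ i ∈ Ap, (∀ m ∈ Icc 1 (x i), |b i m| ≤ B * N) ∧
        (energy h (x i) (b i) : ℝ) * N ≤ K * (x i : ℝ) ^ (2 * h)) →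
      ∀ w : Fin W → ℕ → ℂ, (∀ l n, ‖w l n‖ ≤ 1) →
      ct (Fintype.piFinset fun i => Icc 1 (x i)) (fun m => ¬ ∀ l, ∀ I : Finset (Fin k), (∃ i ∈ I, i ∈ Ap) →
        ∀ H : ℕ, N₀ ≤ H → H ≤ N → ∀ θ : ℝ,
          ∑ n ∈ Icc 1 N, ‖∑ t ∈ Icc 1 H, (w l (n + t) * ∏ j ∈ I, exI (f j) (α j * ((n + t : ℕ) : ℤ) + b j (m j))) *
            ee ((t : ℝ) * θ)‖ ≤ ε * H * N) ≤
        ε * ∏ i, (x i : ℝ) := by
  classical
  set c : ℝ := ε ^ 2 / 63 with hc
  have hc0 : 0 < c := by positivity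
  set ε' : ℝ := min ε c with hε'
  have hε'0 : 0 < ε' := by positivity
  obtain ⟨N₁, h1⟩ := tupD 1 ∅ h (2 * B) W k 1 hh K ε' hε'0 (fun i => cubeF (α i) (f i))
    (fun i => cubeF_le (α i) (hf i)) Ap (fun i hi => (hAp i hi).2.2)
  obtain ⟨T, hT⟩ := exists_nat_ge (1 / c)
  set H₁ : ℕ := N₁ + T + 1 with hH₁
  have hH₁0 : (0 : ℝ) < H₁ := by exact_mod_cast (by omega : 0 < H₁)
  have hcH : 1 ≤ c * H₁ := by
    have e1 : (T : ℝ) ≤ H₁ := by exact_mod_cast (by omega : T ≤ H₁)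
    have e2 : 1 / c ≤ H₁ := hT.trans e1
    rw [div_le_iff₀ hc0] at e2
    linarith
  obtain ⟨U, hU⟩ := exists_nat_ge (H₁ / c)
  obtain ⟨V, hV⟩ := exists_nat_ge (6 * H₁ / ε)
  refine ⟨H₁ + U + V, fun N hN x b hb w hw => ?_⟩
  have hN1 : N₁ ≤ N := by omega
  have hcN : (H₁ : ℝ) ≤ c * (2 * N : ℕ) := by
    have e1 : (U : ℝ) ≤ N := by exact_mod_cast (by omega : U ≤ N)
    have e2 : H₁ / c ≤ (N : ℝ) := hU.trans e1
    rw [div_le_iff₀ hc0] at e2
    have : (0 : ℝ) ≤ N := Nat.cast_nonneg _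
    push_cast
    nlinarith
  have h2 := h1 N (fun _ => H₁) hN1 ⟨fun _ => (by show N₁ ≤ H₁; omega), fun _ => (by show H₁ ≤ 1 * N; omega),
    fun j hj => absurd hj (notMem_empty j)⟩ x b
    (fun i hi => ⟨fun m hm => (by
      have e1 := (hb i hi).1 m hm
      refine e1.trans ?_
      have : (0 : ℤ) ≤ B * N := by positivity
      push_cast
      linarith), (hb i hi).2⟩) α (fun i hi => (hAp i hi).1)
    (fun l d n => cube (w l) (fun t => (d t).toNat) n) (fun l d n => cube_le (hw l) _ _)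
  have hX : 0 ≤ ∏ i, (x i : ℝ) := prod_nonneg fun _ _ => Nat.cast_nonneg _
  refine le_trans ?_ (h2.trans (mul_le_mul_of_nonneg_right (min_le_left _ _) hX))
  apply ct_mono
  intro m _ hm
  by_contra hcon
  rw [not_lt] at hcon
  apply hm
  rintro l I ⟨i, hiI, hiA⟩ H hH1 hH2 θ
  set G : ℕ → ℂ := fun n => w l n * ∏ j ∈ I, exI (f j) (α j * n + b j (m j)) with hG
  have hG1 : ∀ n, ‖G n‖ ≤ 1 := by
    intro n
    simp only [hG]
    rw [norm_mul, norm_prod]
    exact mul_le_one₀ (hw _ _) (prod_nonneg fun _ _ => norm_nonneg _)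
      (prod_le_one (fun _ _ => norm_nonneg _) fun j _ => exI_le (hf j) _)
  set bad : (Fin 1 → ℤ) → Prop := fun d => ¬ ∀ l, ∀ I : Finset (Fin k), ∀ i ∈ I, i ∈ Ap →
          ∀ X : ℕ, α i * X ≤ (2 * B) * N →
            ‖∑ n ∈ Icc 1 X, cube (w l) (fun t => (d t).toNat) n *
              ∏ j ∈ I, exI (cubeF (α j) (f j) d) (α j * n + b j (m j))‖ ≤ ε' * N with hbad
  have hcorr : ct (Icc 1 H₁) (fun d => ¬ ‖∑ n ∈ Icc 1 (2 * N), G n * (starRingEnd ℂ) (G (n + d))‖ ≤ c * (2 * N : ℕ)) ≤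
      c * H₁ := by
    have e0 : ct (box (fun _ : Fin 1 => H₁)) bad ≤ c * H₁ := by
      refine hcon.trans ?_
      rw [Fin.prod_univ_one]
      exact mul_le_mul_of_nonneg_right (min_le_right _ _) hH₁0.le
    refine le_trans ?_ e0
    rw [ct_eq, ct_eq]
    norm_cast
    refine card_le_card_of_injOn (fun d : ℕ => (fun _ : Fin 1 => (d : ℤ))) ?_ ?_
    · intro d hd
      rw [mem_coe, mem_filter] at hd
      rw [mem_coe, mem_filter]
      refine ⟨?_, ?_⟩
      · unfold box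
        rw [Fintype.mem_piFinset]
        intro t
        have := mem_Icc.1 hd.1
        rw [mem_Icc]
        constructor
        · show (1 : ℤ) ≤ (d : ℤ)
          exact_mod_cast this.1
        · show (d : ℤ) ≤ (H₁ : ℤ)
          exact_mod_cast this.2
      · intro hgood
        apply hd.2
        have e1 := hgood l I i hiI hiA (2 * N) (by
          have := Nat.mul_le_mul_right N (Nat.mul_le_mul_left 2 (hAp i hiA).2.1)
          calc α i * (2 * N) = 2 * α i * N := by ring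
            _ ≤ 2 * B * N := this)
        have e2 : ∑ n ∈ Icc 1 (2 * N), G n * (starRingEnd ℂ) (G (n + d)) =
            ∑ n ∈ Icc 1 (2 * N), cube (w l) (fun t => (((fun _ : Fin 1 => (d : ℤ)) t)).toNat) n *
              ∏ j ∈ I, exI (cubeF (α j) (f j) (fun _ : Fin 1 => (d : ℤ))) (α j * n + b j (m j)) := by
          apply sum_congr rfl
          intro n _
          have e3 := cube_prod f α (fun j => b j (m j)) (w l) I (fun _ : Fin 1 => d) n
          rw [cube_one] at e3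
          exact e3
        rw [e2]
        refine e1.trans ?_
        have e4 : (0 : ℝ) ≤ N := Nat.cast_nonneg _
        have e5 : ε' ≤ c := min_le_right _ _
        push_cast
        nlinarith
    · intro d _ d' _ hdd
      have := congrFun hdd 0
      simp only at this
      exact_mod_cast this
  have hHe : 6 * (H₁ : ℝ) ≤ ε * H := by
    have e1 : (V : ℝ) ≤ H := by exact_mod_cast (by omega : V ≤ H)
    have e2 : 6 * H₁ / ε ≤ (H : ℝ) := hV.trans e1
    rw [div_le_iff₀ hε] at e2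
    linarith
  exact short_of_cor hG1 hε hcH hcN hcorr hHe hH2 θ

end Pool.Agent.Run7.h504.RM
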