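import Pool.Agent.Run7.h504.RM13
import Pool.Agent.H373R2.T7.SupLiou

set_option autoImplicit false

/-!
# Aperiodic functions times the indicator function of the squarefree integers
-/

open Finset

namespace Pool.Agent.Run7.h504.RM

open Pool.Agent.H807R2.Dav (ee norm_ee)
open Pool.Agent.H373R2.T7 (orth)

/-- the exponential sums do not grow when the sum is restricted to a residue class -/
lemma div_sup {F : ℕ → ℂ} {N : ℕ} {E : ℝ} (h : ∀ θ : ℝ, ‖∑ n ∈ Icc 1 N, F n * ee ((n : ℝ) * θ)‖ ≤ E) (q : ℕ) (hq : 1 ≤ q)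
    (c : ℤ) (θ : ℝ) : ‖∑ n ∈ Icc 1 N, (if (q : ℤ) ∣ (n : ℤ) + c then F n else 0) * ee ((n : ℝ) * θ)‖ ≤ E := by
  have hq0 : (0 : ℝ) < q := by exact_mod_cast hq
  have e1 : (q : ℂ) * ∑ n ∈ Icc 1 N, (if (q : ℤ) ∣ (n : ℤ) + c then F n else 0) * ee ((n : ℝ) * θ) =
      ∑ t ∈ range q, ee ((t : ℝ) * ((c : ℝ) / q)) * ∑ n ∈ Icc 1 N, F n * ee ((n : ℝ) * (θ + (t : ℝ) / q)) := by
    have e2 : ∀ n ∈ Icc 1 N, (q : ℂ) * ((if (q : ℤ) ∣ (n : ℤ) + c then F n else 0) * ee ((n : ℝ) * θ)) =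
        ∑ t ∈ range q, ee ((t : ℝ) * ((c : ℝ) / q)) * (F n * ee ((n : ℝ) * (θ + (t : ℝ) / q))) := by
      intro n _
      have e3 : ∀ t ∈ range q, ee ((t : ℝ) * ((c : ℝ) / q)) * (F n * ee ((n : ℝ) * (θ + (t : ℝ) / q))) =
          (F n * ee ((n : ℝ) * θ)) * ee ((t : ℝ) * ((((n : ℤ) + c : ℤ) : ℝ) / q)) := by
        intro t _
        have e4 : (n : ℝ) * (θ + (t : ℝ) / q) = (n : ℝ) * θ + (n : ℝ) * ((t : ℝ) / q) := by ring
        have e5 : (t : ℝ) * ((((n : ℤ) + c : ℤ) : ℝ) / q) = (n : ℝ) * ((t : ℝ) / q) + (t : ℝ) * ((c : ℝ) / q) := by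
          push_cast
          ring
        rw [e4, e5, Pool.Agent.H807R2.Dav.ee_add, Pool.Agent.H807R2.Dav.ee_add]
        ring
      rw [sum_congr rfl e3, ← mul_sum, orth q hq]
      split_ifs
      · ring
      · ring
    rw [mul_sum, sum_congr rfl e2, sum_comm]
    apply sum_congr rfl
    intro t _
    rw [mul_sum]
  have e2 : (q : ℝ) * ‖∑ n ∈ Icc 1 N, (if (q : ℤ) ∣ (n : ℤ) + c then F n else 0) * ee ((n : ℝ) * θ)‖ ≤ q * E := by
    rw [← Complex.norm_natCast q, ← norm_mul, e1]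
    refine (norm_sum_le _ _).trans ?_
    have e3 : ∀ t ∈ range q, ‖ee ((t : ℝ) * ((c : ℝ) / q)) * ∑ n ∈ Icc 1 N, F n * ee ((n : ℝ) * (θ + (t : ℝ) / q))‖ ≤ E := by
      intro t _
      rw [norm_mul, norm_ee, one_mul]
      exact h _
    refine (sum_le_sum e3).trans (le_of_eq ?_)
    rw [sum_const, card_range, nsmul_eq_mul, Complex.norm_natCast]
  exact le_of_mul_le_mul_left e2 hq0

/-- the exponential sums with products of conditions of divisibility -/
lemma mul_sup {ι : Type} (S : Finset ι) (q : ι → ℕ) (c : ι → ℤ) (hq : ∀ i ∈ S, 1 ≤ q i) {F : ℕ → ℂ} {N : ℕ} {E : ℝ}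
    (h : ∀ θ : ℝ, ‖∑ n ∈ Icc 1 N, F n * ee ((n : ℝ) * θ)‖ ≤ E) :
    ∀ θ : ℝ, ‖∑ n ∈ Icc 1 N, (F n * ∏ i ∈ S, (if (q i : ℤ) ∣ (n : ℤ) + c i then (0 : ℂ) else 1)) * ee ((n : ℝ) * θ)‖ ≤
      2 ^ S.card * E := by
  classical
  induction S using Finset.induction_on with
  | empty =>
    intro θ
    simpa using h θ
  | insert i S hi ih =>
    intro θ
    have ih' := ih (fun j hj => hq j (mem_insert_of_mem hj))
    set F' : ℕ → ℂ := fun n => F n * ∏ i ∈ S, (if (q i : ℤ) ∣ (n : ℤ) + c i then (0 : ℂ) else 1) with hF'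
    have e1 := div_sup (F := F') (N := N) ih' (q i) (hq i (mem_insert_self _ _)) (c i) θ
    have e2 := ih' θ
    have e3 : ∑ n ∈ Icc 1 N, (F n * ∏ j ∈ insert i S, (if (q j : ℤ) ∣ (n : ℤ) + c j then (0 : ℂ) else 1)) * ee ((n : ℝ) * θ) =
        ∑ n ∈ Icc 1 N, F' n * ee ((n : ℝ) * θ) -
          ∑ n ∈ Icc 1 N, (if (q i : ℤ) ∣ (n : ℤ) + c i then F' n else 0) * ee ((n : ℝ) * θ) := by
      rw [← sum_sub_distrib]
      apply sum_congr rfl
      intro n _
      rw [prod_insert hi]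
      simp only [hF']
      split_ifs
      · ring
      · ring
    rw [e3, card_insert_of_notMem hi]
    refine (norm_sub_le _ _).trans ?_
    rw [pow_succ]
    linarith

open Classical in
/-- few integers are divisible by the square of a large integer -/
lemma card_sq_dvd (E X : ℕ) (hE : 1 ≤ E) :
    (((Icc 1 X).filter (fun z => ∃ e : ℕ, E < e ∧ e ^ 2 ∣ z)).card : ℝ) ≤ X / E := by
  classical
  have hE0 : (0 : ℝ) < E := by exact_mod_cast hE
  rcases Nat.lt_or_ge X E with hX | hX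
  · have : (Icc 1 X).filter (fun z => ∃ e : ℕ, E < e ∧ e ^ 2 ∣ z) = ∅ := by
      rw [filter_eq_empty_iff]
      rintro z hz ⟨e, he, hd⟩
      rw [mem_Icc] at hz
      have h1 := Nat.le_of_dvd (by omega) hd
      nlinarith
    rw [this, card_empty, Nat.cast_zero]
    positivity
  · have h1 : (Icc 1 X).filter (fun z => ∃ e : ℕ, E < e ∧ e ^ 2 ∣ z) ⊆
        (Ioc E X).biUnion (fun e => (Ioc 0 X).filter (fun z => e ^ 2 ∣ z)) := by
      intro z hz
      rw [mem_filter, mem_Icc] at hz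
      obtain ⟨⟨hz1, hz2⟩, e, he, hd⟩ := hz
      rw [mem_biUnion]
      have h2 := Nat.le_of_dvd (by omega) hd
      refine ⟨e, mem_Ioc.2 ⟨he, ?_⟩, mem_filter.2 ⟨mem_Ioc.2 ⟨by omega, hz2⟩, hd⟩⟩
      nlinarith
    have h2 : (((Icc 1 X).filter (fun z => ∃ e : ℕ, E < e ∧ e ^ 2 ∣ z)).card : ℝ) ≤ ∑ e ∈ Ioc E X, (X : ℝ) * ((e : ℝ) ^ 2)⁻¹ := by
      have h3 : ((Icc 1 X).filter (fun z => ∃ e : ℕ, E < e ∧ e ^ 2 ∣ z)).card ≤ ∑ e ∈ Ioc E X, X / e ^ 2 := by
        refine (card_le_card h1).trans (card_biUnion_le.trans (sum_le_sum fun e _ => ?_))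
        rw [Nat.Ioc_filter_dvd_card_eq_div]
      have h4 : (((Icc 1 X).filter (fun z => ∃ e : ℕ, E < e ∧ e ^ 2 ∣ z)).card : ℝ) ≤ ∑ e ∈ Ioc E X, ((X / e ^ 2 : ℕ) : ℝ) := by
        exact_mod_cast h3
      refine h4.trans (sum_le_sum fun e _ => ?_)
      refine Nat.cast_div_le.trans (le_of_eq ?_)
      push_cast
      rw [div_eq_mul_inv]
    refine h2.trans ?_
    rw [← mul_sum]
    have h3 := sum_Ioc_inv_sq_le_sub (α := ℝ) (k := E) (n := X) (by omega) hX
    have h4 : (0 : ℝ) ≤ (X : ℝ)⁻¹ := by positivity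
    rw [div_eq_mul_inv]
    exact mul_le_mul_of_nonneg_left (by linarith) (Nat.cast_nonneg _)

/-- the condition that no `p ^ 2` with `p ≤ E` divides `z` -/
noncomputable def sqf (E : ℕ) (z : ℤ) : ℂ := ∏ p ∈ (Icc 1 E).filter Nat.Prime, (if ((p ^ 2 : ℕ) : ℤ) ∣ z then (0 : ℂ) else 1)

lemma sqf_le (E : ℕ) (z : ℤ) : ‖sqf E z‖ ≤ 1 := by
  unfold sqf
  rw [norm_prod]
  apply prod_le_one (fun _ _ => norm_nonneg _)
  intro p _
  split_ifs <;> simp

/-- squarefree integers -/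
lemma sqf_eq (E : ℕ) (z : ℕ) (hz : 1 ≤ z) (h : ¬ ∃ e : ℕ, E < e ∧ e ^ 2 ∣ z) :
    sqf E z = if Squarefree z then 1 else 0 := by
  classical
  unfold sqf
  by_cases hs : Squarefree z
  · rw [if_pos hs]
    apply prod_eq_one
    intro p hp
    rw [mem_filter] at hp
    rw [if_neg]
    intro hd
    have h1 : p ^ 2 ∣ z := by exact_mod_cast hd
    rw [sq] at h1
    have := Nat.isUnit_iff.1 (hs p h1)
    exact hp.2.one_lt.ne' this
  · rw [if_neg hs]
    have h1 : ∃ p : ℕ, p.Prime ∧ p * p ∣ z := by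
      by_contra hcon
      push Not at hcon
      exact hs (Nat.squarefree_iff_prime_squarefree.2 hcon)
    obtain ⟨p, hp, hd⟩ := h1
    have hpE : p ≤ E := by
      by_contra hcon
      exact h ⟨p, by omega, by rwa [sq]⟩
    apply prod_eq_zero (i := p) (mem_filter.2 ⟨mem_Icc.2 ⟨hp.one_lt.le, hpE⟩, hp⟩)
    rw [if_pos]
    rw [sq]
    exact_mod_cast hd

/-- two values of an aperiodic function times the indicator function of the squarefree integers -/
theorem supD_sqf (α : ℕ) (f : ℕ → ℂ) (hf : ∀ n, ‖f n‖ ≤ 1) (hs : SupD (∅ : Finset (Fin 1)) (cubeF α f)) :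
    SupD (∅ : Finset (Fin 1)) (cubeF α (fun n => if Squarefree n then f n else 0)) := by
  classical
  intro R ε hε
  obtain ⟨E, hE⟩ := exists_nat_ge (4 * (2 + α * R) / ε)
  set E₁ : ℕ := E + 1 with hE₁
  have hE₁0 : (0 : ℝ) < E₁ := by positivity
  have hEε : (2 + α * R) / E₁ ≤ ε / 4 := by
    rw [div_le_iff₀ hE₁0]
    rw [div_le_iff₀ hε] at hE
    have : (E : ℝ) ≤ E₁ := by exact_mod_cast (by omega : E ≤ E₁)
    nlinarith
  set P := (Icc 1 E₁).filter Nat.Prime with hP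
  set κ : ℝ := 2 ^ P.card * 2 ^ P.card with hκ
  have hκ0 : 0 < κ := by positivity
  obtain ⟨N₀, h0⟩ := hs R (min ε (ε / (2 * κ))) (by positivity)
  refine ⟨N₀, fun N D hN hD => ?_⟩
  have hPD : (0 : ℝ) ≤ ∏ j, (D j : ℝ) := prod_nonneg fun _ _ => Nat.cast_nonneg _
  refine le_trans ?_ ((h0 N D hN hD).trans (mul_le_mul_of_nonneg_right (min_le_left _ _) hPD))
  apply ct_mono
  intro d hd hm hcon
  apply hm
  intro θ
  have hN0 : (0 : ℝ) ≤ N := Nat.cast_nonneg _
  -- the parameter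
  have hd0 := hd
  unfold box at hd0
  rw [Fintype.mem_piFinset] at hd0
  have hd1 := mem_Icc.1 (hd0 0)
  have hdR : d 0 ≤ R * N := hd1.2.trans (by exact_mod_cast hD.2.1 0)
  obtain ⟨δ, hδ⟩ : ∃ δ : ℕ, d 0 = δ := ⟨(d 0).toNat, by omega⟩
  have hδR : δ ≤ R * N := by
    rw [hδ] at hdR
    exact_mod_cast hdR
  -- the exponential sums with truncated conditions
  have h1 : ∀ θ : ℝ, ‖∑ n ∈ Icc 1 N, cubeF α f d n * ee ((n : ℝ) * θ)‖ ≤ ε / (2 * κ) * N := fun θ =>
    (hcon θ).trans (mul_le_mul_of_nonneg_right (min_le_right _ _) hN0)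
  have hPq : ∀ p ∈ P, 1 ≤ p ^ 2 := fun p hp => Nat.one_le_pow _ _ ((mem_filter.1 hp).2.pos)
  have h2 := mul_sup P (fun p => p ^ 2) (fun _ => 0) hPq h1
  have h3 := mul_sup P (fun p => p ^ 2) (fun _ => (α : ℤ) * δ) hPq h2 θ
  have h4 : 2 ^ P.card * (2 ^ P.card * (ε / (2 * κ) * N)) = ε / 2 * N := by
    have : 2 ^ P.card * (2 ^ P.card * (ε / (2 * κ) * N)) = κ * (ε / (2 * κ)) * N := by rw [hκ]; ring
    rw [this]
    field_simp
  rw [h4] at h3
  -- the difference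
  have hval : ∀ n : ℕ, cubeF α (fun n => if Squarefree n then f n else 0) d n =
      (if Squarefree n then f n else 0) * (starRingEnd ℂ) (if Squarefree (n + α * δ) then f (n + α * δ) else 0) := by
    intro n
    rw [cubeF_one, hδ]
    have e1 : ((n : ℤ) + α * (δ : ℤ)).natAbs = n + α * δ := by
      have : (n : ℤ) + α * (δ : ℤ) = ((n + α * δ : ℕ) : ℤ) := by push_cast; ring
      rw [this, Int.natAbs_natCast]
    rw [e1]
  have hval' : ∀ n : ℕ, cubeF α f d n = f n * (starRingEnd ℂ) (f (n + α * δ)) := by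
    intro n
    rw [cubeF_one, hδ]
    have e1 : ((n : ℤ) + α * (δ : ℤ)).natAbs = n + α * δ := by
      have : (n : ℤ) + α * (δ : ℤ) = ((n + α * δ : ℕ) : ℤ) := by push_cast; ring
      rw [this, Int.natAbs_natCast]
    rw [e1]
  set bad : ℕ → Prop := fun z => ∃ e : ℕ, E₁ < e ∧ e ^ 2 ∣ z with hbad
  have hpt : ∀ n ∈ Icc 1 N, ‖cubeF α (fun n => if Squarefree n then f n else 0) d n * ee ((n : ℝ) * θ) -
      (cubeF α f d n * (∏ p ∈ P, (if ((p ^ 2 : ℕ) : ℤ) ∣ (n : ℤ) + 0 then (0 : ℂ) else 1)) *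
        (∏ p ∈ P, (if ((p ^ 2 : ℕ) : ℤ) ∣ (n : ℤ) + (α : ℤ) * δ then (0 : ℂ) else 1))) * ee ((n : ℝ) * θ)‖ ≤
      2 * ((if bad n then 1 else 0) + (if bad (n + α * δ) then 1 else 0)) := by
    intro n hn
    rw [mem_Icc] at hn
    have e1 : ∏ p ∈ P, (if ((p ^ 2 : ℕ) : ℤ) ∣ (n : ℤ) + 0 then (0 : ℂ) else 1) = sqf E₁ n := by
      unfold sqf
      simp only [add_zero]
      rfl
    have e2 : ∏ p ∈ P, (if ((p ^ 2 : ℕ) : ℤ) ∣ (n : ℤ) + (α : ℤ) * δ then (0 : ℂ) else 1) = sqf E₁ ((n + α * δ : ℕ) : ℤ) := by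
      unfold sqf
      push_cast
      rfl
    rw [e1, e2, ← sub_mul, norm_mul, norm_ee, mul_one, hval, hval']
    by_cases hb : bad n ∨ bad (n + α * δ)
    · have e3 : ‖(if Squarefree n then f n else 0) * (starRingEnd ℂ) (if Squarefree (n + α * δ) then f (n + α * δ) else 0)‖ ≤ 1 := by
        rw [norm_mul, RCLike.norm_conj]
        apply mul_le_one₀ _ (norm_nonneg _) _
        · split_ifs
          · exact hf _
          · simp
        · split_ifs
          · exact hf _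
          · simp
      have e4 : ‖f n * (starRingEnd ℂ) (f (n + α * δ)) * sqf E₁ n * sqf E₁ ((n + α * δ : ℕ) : ℤ)‖ ≤ 1 := by
        rw [norm_mul, norm_mul, norm_mul, RCLike.norm_conj]
        exact mul_le_one₀ (mul_le_one₀ (mul_le_one₀ (hf _) (norm_nonneg _) (hf _)) (norm_nonneg _) (sqf_le _ _))
          (norm_nonneg _) (sqf_le _ _)
      refine (norm_sub_le _ _).trans ?_
      have e5 : (0 : ℝ) ≤ (if bad (n + α * δ) then 1 else 0) := by split_ifs <;> norm_num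
      have e6 : (0 : ℝ) ≤ (if bad n then 1 else 0) := by split_ifs <;> norm_num
      rcases hb with hb | hb
      · rw [if_pos hb]
        linarith
      · rw [if_pos hb]
        linarith
    · push Not at hb
      rw [if_neg hb.1, if_neg hb.2, sqf_eq E₁ n hn.1 hb.1, sqf_eq E₁ (n + α * δ) (by omega) hb.2]
      have e3 : (if Squarefree n then f n else 0) * (starRingEnd ℂ) (if Squarefree (n + α * δ) then f (n + α * δ) else 0) -
          f n * (starRingEnd ℂ) (f (n + α * δ)) * (if Squarefree n then 1 else 0) * (if Squarefree (n + α * δ) then 1 else 0) = 0 := by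
        split_ifs <;> simp
      rw [e3, norm_zero]
      norm_num
  have hc1 : ∑ n ∈ Icc 1 N, (if bad n then (1 : ℝ) else 0) ≤ N / E₁ := by
    have e1 : ∑ n ∈ Icc 1 N, (if bad n then (1 : ℝ) else 0) = (((Icc 1 N).filter bad).card : ℝ) := by
      rw [card_filter]
      push_cast
      rfl
    rw [e1]
    exact card_sq_dvd E₁ N (by omega)
  have hc2 : ∑ n ∈ Icc 1 N, (if bad (n + α * δ) then (1 : ℝ) else 0) ≤ (1 + α * R) * N / E₁ := by
    have e1 : ∑ n ∈ Icc 1 N, (if bad (n + α * δ) then (1 : ℝ) else 0) ≤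
        (((Icc 1 (N + α * δ)).filter bad).card : ℝ) := by
      have e2 : (((Icc 1 (N + α * δ)).filter bad).card : ℝ) = ∑ z ∈ Icc 1 (N + α * δ), (if bad z then (1 : ℝ) else 0) := by
        rw [card_filter]
        push_cast
        rfl
      rw [e2]
      have hinj : Set.InjOn (fun n => n + α * δ) (Icc 1 N : Finset ℕ) := fun a _ b _ hab => by
        simp only at hab
        omega
      rw [← sum_image (f := fun z => if bad z then (1 : ℝ) else 0) hinj]
      apply sum_le_sum_of_subset_of_nonneg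
      · intro z hz
        obtain ⟨n, hn, rfl⟩ := mem_image.1 hz
        rw [mem_Icc] at hn ⊢
        omega
      · intro _ _ _
        split_ifs <;> norm_num
    refine e1.trans ((card_sq_dvd E₁ (N + α * δ) (by omega)).trans ?_)
    apply div_le_div_of_nonneg_right _ hE₁0.le
    push_cast
    have e3 : (δ : ℝ) ≤ R * N := by exact_mod_cast hδR
    have e4 : (0 : ℝ) ≤ α := Nat.cast_nonneg _
    nlinarith
  have hfin : ∑ n ∈ Icc 1 N, cubeF α (fun n => if Squarefree n then f n else 0) d n * ee ((n : ℝ) * θ) =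
      ∑ n ∈ Icc 1 N, (cubeF α (fun n => if Squarefree n then f n else 0) d n * ee ((n : ℝ) * θ) -
        (cubeF α f d n * (∏ p ∈ P, (if ((p ^ 2 : ℕ) : ℤ) ∣ (n : ℤ) + 0 then (0 : ℂ) else 1)) *
        (∏ p ∈ P, (if ((p ^ 2 : ℕ) : ℤ) ∣ (n : ℤ) + (α : ℤ) * δ then (0 : ℂ) else 1))) * ee ((n : ℝ) * θ)) +
      ∑ n ∈ Icc 1 N, (cubeF α f d n * (∏ p ∈ P, (if ((p ^ 2 : ℕ) : ℤ) ∣ (n : ℤ) + 0 then (0 : ℂ) else 1)) *
        (∏ p ∈ P, (if ((p ^ 2 : ℕ) : ℤ) ∣ (n : ℤ) + (α : ℤ) * δ then (0 : ℂ) else 1))) * ee ((n : ℝ) * θ) := by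
    rw [← sum_add_distrib]
    apply sum_congr rfl
    intro n _
    ring
  rw [hfin]
  refine (norm_add_le _ _).trans ?_
  have hd2 := (norm_sum_le (Icc 1 N) (fun n => cubeF α (fun n => if Squarefree n then f n else 0) d n * ee ((n : ℝ) * θ) -
        (cubeF α f d n * (∏ p ∈ P, (if ((p ^ 2 : ℕ) : ℤ) ∣ (n : ℤ) + 0 then (0 : ℂ) else 1)) *
        (∏ p ∈ P, (if ((p ^ 2 : ℕ) : ℤ) ∣ (n : ℤ) + (α : ℤ) * δ then (0 : ℂ) else 1))) * ee ((n : ℝ) * θ))).trans
      (sum_le_sum hpt)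
  rw [← mul_sum, sum_add_distrib] at hd2
  have e9 : (N : ℝ) / E₁ + (1 + α * R) * N / E₁ = (2 + α * R) / E₁ * N := by ring
  have e10 := mul_le_mul_of_nonneg_right hEε hN0
  linarith

/-- the function of Liouville as a real function -/
lemma lam_sign : Pool.Agent.Results.MP_4a7640_nt.AperiodicClusters.IsMultSign
      (fun n => (-1 : ℝ) ^ (ArithmeticFunction.cardFactors n)) ∧
    Pool.Agent.Results.MP_4a7640_nt.AperiodicClusters.Aperiodic
      (fun n => (-1 : ℝ) ^ (ArithmeticFunction.cardFactors n)) := by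
  refine ⟨⟨fun n => ?_, fun m n h => ?_⟩, ?_⟩
  · exact neg_one_pow_eq_or ℝ _
  · rcases Nat.eq_zero_or_pos m with rfl | hm
    · rw [Nat.coprime_zero_left] at h
      subst h
      simp
    · rcases Nat.eq_zero_or_pos n with rfl | hn
      · rw [Nat.coprime_zero_right] at h
        subst h
        simp
      · simp only [ArithmeticFunction.cardFactors_mul (by omega : m ≠ 0) (by omega : n ≠ 0), pow_add]
  · have h1 := (nonPret_neg_one (g := fun n => (((-1 : ℝ) ^ (ArithmeticFunction.cardFactors n) : ℝ) : ℂ)) (fun p hp => by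
      simp only [ArithmeticFunction.cardFactors_apply_prime hp, pow_one]
      norm_num)).2
    exact h1

lemma mu_sqf (n : ℕ) : ((ArithmeticFunction.moebius n : ℤ) : ℂ) =
    if Squarefree n then (((-1 : ℝ) ^ (ArithmeticFunction.cardFactors n) : ℝ) : ℂ) else 0 := by
  split_ifs with h
  · rw [ArithmeticFunction.moebius_apply_of_squarefree h]
    push_cast
    rfl
  · rw [ArithmeticFunction.moebius_eq_zero_of_not_squarefree h]
    simp

end Pool.Agent.Run7.h504.RM
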