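import Pool.Agent.Run7.h504.RM14
import Pool.Agent.Run7.h504.RM5

set_option autoImplicit false

/-!
# Local patterns at displaced places
-/

open Finset

namespace Pool.Agent.Run7.h504.RM

open Pool.Agent.Results.MP_4a7640_nt.AperiodicClusters (IsMultSign Aperiodic Good cluster)
open Pool.Agent.H373R2.T7 (exI energy)

/-- the indicator of a pattern of signs -/
lemma pat_indι {ι : Type} (S : Finset ι) (e σ : ι → ℝ) (he : ∀ i, e i = 1 ∨ e i = -1)
    (hσ : ∀ i, σ i = 1 ∨ σ i = -1) [Decidable (∀ i ∈ S, e i = σ i)] :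
    (if ∀ i ∈ S, e i = σ i then (1 : ℝ) else 0) * 2 ^ S.card = ∏ i ∈ S, (1 + σ i * e i) := by
  split_ifs with h
  · rw [one_mul]
    symm
    rw [← prod_const]
    apply prod_congr rfl
    intro i hi
    rw [h i hi]
    rcases hσ i with h' | h' <;> rw [h'] <;> norm_num
  · rw [zero_mul]
    push Not at h
    obtain ⟨i, hi, hne⟩ := h
    symm
    apply prod_eq_zero hi
    rcases hσ i with h' | h'
    · rcases he i with h'' | h''
      · exact absurd (h''.trans h'.symm) hne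
      · rw [h', h'']; norm_num
    · rcases he i with h'' | h''
      · rw [h', h'']; norm_num
      · exact absurd (h''.trans h'.symm) hne

/-- patterns of signs from correlations -/
lemma patternι {ι : Type} [Fintype ι] [DecidableEq ι] (Ap : Finset ι) (e : ι → ℕ → ℝ) (A : Set ℕ) (Y X : ℕ) (hYX : Y ≤ X)
    (hpm : ∀ i, ∀ n ∈ Ioc Y X, e i n = 1 ∨ e i n = -1) (E : ℝ) (hE : 0 ≤ E)
    (h : ∀ I : Finset ι, (∃ i ∈ I, i ∈ Ap) → ∀ Z : ℕ, Z ≤ X →
      |∑ n ∈ Icc 1 Z, A.indicator 1 n * ∏ i ∈ I, e i n| ≤ E)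
    (σ : ι → ℝ) (hσ : ∀ i, σ i = 1 ∨ σ i = -1) :
    |ct (Ioc Y X) (fun n => n ∈ A ∧ ∀ i, e i n = σ i) -
      ct (Ioc Y X) (fun n => n ∈ A ∧ ∀ i, i ∉ Ap → e i n = σ i) / 2 ^ Ap.card| ≤ 2 * E := by
  classical
  have c1 : ct (Ioc Y X) (fun n => n ∈ A ∧ ∀ i, e i n = σ i) * 2 ^ Fintype.card ι =
      ∑ n ∈ Ioc Y X, A.indicator 1 n * ∏ i ∈ univ, (1 + σ i * e i n) := by
    rw [ct_eq, card_filter]
    push_cast
    rw [sum_mul]
    apply sum_congr rfl
    intro n hn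
    have h1 := pat_indι univ (fun i => e i n) σ (fun i => hpm i n hn) hσ
    rw [card_univ] at h1
    rw [← h1]
    by_cases hA : n ∈ A
    · simp [hA, Set.indicator_of_mem]
    · simp [hA]
  have c2 : ct (Ioc Y X) (fun n => n ∈ A ∧ ∀ i, i ∉ Ap → e i n = σ i) * 2 ^ (univ \ Ap).card =
      ∑ n ∈ Ioc Y X, A.indicator 1 n * ∏ i ∈ univ \ Ap, (1 + σ i * e i n) := by
    rw [ct_eq, card_filter]
    push_cast
    rw [sum_mul]
    apply sum_congr rfl
    intro n hn
    have h1 := pat_indι (univ \ Ap) (fun i => e i n) σ (fun i => hpm i n hn) hσ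
    rw [← h1]
    by_cases hA : n ∈ A
    · simp [hA, Set.indicator_of_mem]
    · simp [hA]
  have hk : (univ \ Ap).card + Ap.card = Fintype.card ι := by
    rw [card_sdiff_add_card_eq_card (subset_univ Ap), card_univ]
  have h2k : (0 : ℝ) < 2 ^ Fintype.card ι := by positivity
  -- the difference
  have c3 : (ct (Ioc Y X) (fun n => n ∈ A ∧ ∀ i, e i n = σ i) -
      ct (Ioc Y X) (fun n => n ∈ A ∧ ∀ i, i ∉ Ap → e i n = σ i) / 2 ^ Ap.card) * 2 ^ Fintype.card ι =
      ∑ I ∈ (univ : Finset ι).powerset \ (univ \ Ap).powerset, (∏ i ∈ I, σ i) *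
        ∑ n ∈ Ioc Y X, A.indicator 1 n * ∏ i ∈ I, e i n := by
    have e1 : ct (Ioc Y X) (fun n => n ∈ A ∧ ∀ i, i ∉ Ap → e i n = σ i) / 2 ^ Ap.card * 2 ^ Fintype.card ι =
        ct (Ioc Y X) (fun n => n ∈ A ∧ ∀ i, i ∉ Ap → e i n = σ i) * 2 ^ (univ \ Ap).card := by
      have e3 : (2 : ℝ) ^ Fintype.card ι = 2 ^ (univ \ Ap).card * 2 ^ Ap.card := by rw [← pow_add, hk]
      rw [e3]
      field_simp
    rw [sub_mul, e1, c1, c2, ← sum_sub_distrib]
    have e2 : ∀ n, A.indicator 1 n * ∏ i ∈ univ, (1 + σ i * e i n) - A.indicator 1 n * ∏ i ∈ univ \ Ap, (1 + σ i * e i n) =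
        ∑ I ∈ (univ : Finset ι).powerset \ (univ \ Ap).powerset, (∏ i ∈ I, σ i) *
          (A.indicator (1 : ℕ → ℝ) n * ∏ i ∈ I, e i n) := by
      intro n
      have hsub : (univ \ Ap).powerset ⊆ (univ : Finset ι).powerset := powerset_mono.2 (subset_univ _)
      rw [prod_one_add, prod_one_add, ← mul_sub, ← sum_sdiff hsub, add_sub_cancel_right, mul_sum]
      apply sum_congr rfl
      intro I _
      rw [prod_mul_distrib]
      ring
    rw [sum_congr rfl fun n _ => e2 n, sum_comm]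
    apply sum_congr rfl
    intro I _
    rw [mul_sum]
  have c4 : ∀ I ∈ (univ : Finset ι).powerset \ (univ \ Ap).powerset,
      |(∏ i ∈ I, σ i) * ∑ n ∈ Ioc Y X, A.indicator 1 n * ∏ i ∈ I, e i n| ≤ 2 * E := by
    intro I hI
    rw [mem_sdiff, mem_powerset, mem_powerset] at hI
    have hI' : ∃ i ∈ I, i ∈ Ap := by
      by_contra hcon
      push Not at hcon
      exact hI.2 fun i hi => mem_sdiff.2 ⟨mem_univ _, hcon i hi⟩
    have hs : |∏ i ∈ I, σ i| = 1 := by
      rw [abs_prod]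
      apply prod_eq_one
      intro i _
      rcases hσ i with h' | h' <;> rw [h'] <;> norm_num
    rw [abs_mul, hs, one_mul]
    have e1 : ∑ n ∈ Ioc Y X, A.indicator (1 : ℕ → ℝ) n * ∏ i ∈ I, e i n =
        ∑ n ∈ Icc 1 X, A.indicator 1 n * ∏ i ∈ I, e i n - ∑ n ∈ Icc 1 Y, A.indicator 1 n * ∏ i ∈ I, e i n := by
      have e3 : Icc 1 X = Icc 1 Y ∪ Ioc Y X := by
        ext n; simp only [mem_union, mem_Icc, mem_Ioc]; omega
      rw [e3, sum_union (by
        rw [disjoint_left]; intro n h1 h2; rw [mem_Icc] at h1; rw [mem_Ioc] at h2; omega)]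
      ring
    rw [e1]
    refine (abs_sub _ _).trans ?_
    have := h I hI' X le_rfl
    have := h I hI' Y hYX
    linarith
  have c5 := abs_sum_le_sum_abs (fun I => (∏ i ∈ I, σ i) * ∑ n ∈ Ioc Y X, A.indicator 1 n * ∏ i ∈ I, e i n)
    ((univ : Finset ι).powerset \ (univ \ Ap).powerset)
  have c6 := c5.trans (sum_le_sum c4)
  rw [← c3, abs_mul, abs_of_pos h2k, sum_const, nsmul_eq_mul] at c6
  have c7 : ((((univ : Finset ι).powerset \ (univ \ Ap).powerset).card : ℕ) : ℝ) ≤ 2 ^ Fintype.card ι := by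
    have h1 : ((univ : Finset ι).powerset \ (univ \ Ap).powerset).card ≤ 2 ^ Fintype.card ι := by
      refine (card_le_card sdiff_subset).trans ?_
      rw [card_powerset, card_univ]
    exact_mod_cast h1
  have c8 : |ct (Ioc Y X) (fun n => n ∈ A ∧ ∀ i, e i n = σ i) -
      ct (Ioc Y X) (fun n => n ∈ A ∧ ∀ i, i ∉ Ap → e i n = σ i) / 2 ^ Ap.card| * 2 ^ Fintype.card ι ≤ (2 * E) * 2 ^ Fintype.card ι := by
    refine c6.trans ?_
    rw [mul_comm]
    exact mul_le_mul_of_nonneg_left c7 (by linarith)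
  exact le_of_mul_le_mul_right c8 h2k


lemma ct_exists {β T : Type} [Fintype T] (A : Finset β) (P : T → β → Prop) :
    ct A (fun a => ∃ t, P t a) ≤ ∑ t, ct A (P t) := by
  classical
  simp only [ct_eq]
  have h1 : A.filter (fun a => ∃ t, P t a) ⊆ (univ : Finset T).biUnion (fun t => A.filter (P t)) := by
    intro a ha
    rw [mem_filter] at ha
    obtain ⟨t, ht⟩ := ha.2
    exact mem_biUnion.2 ⟨t, mem_univ _, mem_filter.2 ⟨ha.1, ht⟩⟩
  exact_mod_cast (card_le_card h1).trans card_biUnion_le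

/-- the block of the forms of the set `E` -/
noncomputable def subBlk {κ r : ℕ} (L : Fin κ → Fin r → ℤ) (f : ℕ → ℂ) (E : Finset (Fin κ)) (d : Fin r → ℤ) (n : ℕ) : ℂ :=
  ∏ t ∈ E, f ((n : ℤ) + ∑ j, L t j * d j).natAbs

lemma subBlk_le {κ r : ℕ} (L : Fin κ → Fin r → ℤ) {f : ℕ → ℂ} (hf : ∀ n, ‖f n‖ ≤ 1) (E : Finset (Fin κ)) (d : Fin r → ℤ)
    (n : ℕ) : ‖subBlk L f E d n‖ ≤ 1 := by
  unfold subBlk
  rw [norm_prod]
  exact prod_le_one (fun _ _ => norm_nonneg _) fun j _ => hf _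

theorem supD_sub {κ r : ℕ} (L : Fin κ → Fin r → ℤ) (lg : Finset (Fin r)) (E : Finset (Fin κ))
    (hg : Good (fun _ => 1) L lg E) (f : ℕ → ℝ) (hf : IsMultSign f) (hap : Aperiodic f) :
    SupD lg (subBlk L (fun n => ((f n : ℝ) : ℂ)) E) := by
  classical
  set e : Fin E.card ≃ E := E.equivFin.symm with he
  set L' : Fin E.card → Fin r → ℤ := fun j => L (e j) with hL'
  have hinj : Function.Injective (fun j : Fin E.card => ((e j : E) : Fin κ)) := fun a b h => e.injective (Subtype.ext h)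
  have hcl : ∀ i₀ : E, (cluster (fun _ => 1) L' lg univ (e.symm i₀)).map ⟨fun j => ((e j : E) : Fin κ), hinj⟩ =
      cluster (fun _ => 1) L lg E i₀ := by
    intro i₀
    ext i
    unfold cluster
    rw [mem_map, mem_filter]
    constructor
    · rintro ⟨j, hj, rfl⟩
      rw [mem_filter] at hj
      refine ⟨(e j).2, fun t ht => ?_⟩
      have := hj.2 t ht
      simp only [hL', Equiv.apply_symm_apply] at this
      exact this
    · rintro ⟨hi, h⟩
      refine ⟨e.symm ⟨i, hi⟩, ?_, ?_⟩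
      · rw [mem_filter]
        refine ⟨mem_univ _, fun t ht => ?_⟩
        simp only [hL', Equiv.apply_symm_apply]
        exact h t ht
      · simp
  have hgood : Good (fun _ => 1) L' lg univ := by
    obtain ⟨i₀, hi₀, h⟩ := hg
    refine ⟨e.symm ⟨i₀, hi₀⟩, mem_univ _, ?_⟩
    have hc := hcl ⟨i₀, hi₀⟩
    rcases h with h | ⟨i₁, hi₁, w, v, h1, h2⟩
    · left
      simp only at hc
      rw [← hc, card_map] at h
      exact h
    · right
      simp only at hc
      rw [← hc, mem_map] at hi₁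
      obtain ⟨j₁, hj₁, rfl⟩ := hi₁
      refine ⟨j₁, hj₁, w, v, h1, fun j hj hne => ?_⟩
      refine h2 (e j) ?_ (fun h' => hne (hinj h'))
      rw [← hc]
      exact mem_map.2 ⟨j, hj, rfl⟩
  have h1 := supD_good (fun _ => 1) L' lg (fun _ => by norm_num) hgood f hf hap
  have h2 : blk (fun _ => 1) L' (fun _ n => ((f n : ℝ) : ℂ)) = subBlk L (fun n => ((f n : ℝ) : ℂ)) E := by
    funext d n
    unfold blk subBlk
    simp only [one_mul, hL']
    rw [e.prod_comp (fun x : E => ((f ((n : ℤ) + ∑ t, L x t * d t).natAbs : ℝ) : ℂ))]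
    exact Finset.prod_coe_sort E (fun x => ((f ((n : ℤ) + ∑ t, L x t * d t).natAbs : ℝ) : ℂ))
  rw [h2] at h1
  exact h1

/-- the value of the function at the form -/
noncomputable def pv {κ r : ℕ} (f : ℕ → ℝ) (L : Fin κ → Fin r → ℕ) (d : Fin r → ℤ) (t : Fin κ) (z : ℤ) : ℝ :=
  f (z.toNat + ∑ j, L t j * (d j).toNat)

lemma subBlk_pv {κ r : ℕ} (f : ℕ → ℝ) (L : Fin κ → Fin r → ℕ) (E : Finset (Fin κ)) (d : Fin r → ℤ) (hd : ∀ j, 0 ≤ d j) (z : ℤ)
    (hz : 1 ≤ z) : exI (subBlk (fun t j => (L t j : ℤ)) (fun n => ((f n : ℝ) : ℂ)) E d) z =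
      ((∏ t ∈ E, pv f L d t z : ℝ) : ℂ) := by
  unfold exI
  rw [if_pos hz]
  unfold subBlk pv
  push_cast
  apply prod_congr rfl
  intro t _
  congr 2
  have h1 : ((z.toNat : ℕ) : ℤ) + ∑ j, (L t j : ℤ) * d j = ((z.toNat + ∑ j, L t j * (d j).toNat : ℕ) : ℤ) := by
    push_cast
    congr 1
    apply sum_congr rfl
    intro j _
    rw [Int.toNat_of_nonneg (hd j)]
  rw [h1, Int.natAbs_natCast]

/-- **Local patterns at displaced places.** -/
theorem tupP {κ : ℕ} (r : ℕ) (lg : Finset (Fin r)) (h B W k R : ℕ) (hh : 1 ≤ h) (K ε : ℝ) (hε : 0 < ε)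
    (L : Fin k → Fin κ → Fin r → ℕ) (f : Fin k → ℕ → ℝ) (hf : ∀ i n, f i n = 1 ∨ f i n = -1)
    (Ap : Finset (Fin k)) (hAp : ∀ i ∈ Ap, IsMultSign (f i) ∧ Aperiodic (f i) ∧
      ∀ E : Finset (Fin κ), E.Nonempty → Good (fun _ => 1) (fun t j => (L i t j : ℤ)) lg E) :
    ∃ N₀ : ℕ, ∀ (N : ℕ) (D : Fin r → ℕ), N₀ ≤ N → BoxOk lg R N₀ D N →
      ∀ (x : Fin k → ℕ) (s : Fin k → ℕ → ℤ),
      (∀ i ∈ Ap, (∀ m ∈ Icc 1 (x i), |s i m| ≤ B * N) ∧
        (energy h (x i) (s i) : ℝ) * N ≤ K * (x i : ℝ) ^ (2 * h)) →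
      ∀ α : Fin k → ℕ, (∀ i, 1 ≤ α i) → ∀ A : Fin W → (Fin r → ℤ) → Set ℕ,
      ct (Fintype.piFinset fun i => Icc 1 (x i)) (fun m =>
        ε * ∏ j, (D j : ℝ) < ct (box D) (fun d => ¬ ∀ l, ∀ σ : Fin k → Fin κ → ℝ, (∀ i t, σ i t = 1 ∨ σ i t = -1) →
          ∀ Y X : ℕ, Y ≤ X → (∀ i, α i * X ≤ B * N) → (∀ i, 0 ≤ α i * (Y : ℤ) + s i (m i)) →
          |ct (Ioc Y X) (fun n => n ∈ A l d ∧ ∀ i t, pv (f i) (L i) d t (α i * (n : ℤ) + s i (m i)) = σ i t) -
            ct (Ioc Y X) (fun n => n ∈ A l d ∧ ∀ i, i ∉ Ap → ∀ t,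
              pv (f i) (L i) d t (α i * (n : ℤ) + s i (m i)) = σ i t) / 2 ^ (κ * Ap.card)| ≤ ε * N)) ≤
        ε * ∏ i, (x i : ℝ) := by
  classical
  set T := Fin k → Finset (Fin κ) with hT
  set M : ℕ := Fintype.card T with hM
  set ε' : ℝ := min (ε / 2) (ε / (M + 1)) with hε'
  have hε'0 : 0 < ε' := by positivity
  have hMε : (M : ℝ) * ε' ≤ ε := by
    have h1 : ε' ≤ ε / (M + 1) := min_le_right _ _
    have h2 : (M : ℝ) * ε' ≤ M * (ε / (M + 1)) := mul_le_mul_of_nonneg_left h1 (Nat.cast_nonneg _)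
    refine h2.trans ?_
    rw [mul_div_assoc', div_le_iff₀ (by positivity)]
    nlinarith
  have hfc : ∀ i n, ‖((f i n : ℝ) : ℂ)‖ ≤ 1 := by
    intro i n
    rw [Complex.norm_real]
    rcases hf i n with h | h <;> rw [h] <;> simp
  choose N₁ hN₁ using fun τ : T => tupD r lg h B W k R hh K ε' hε'0
    (fun i => subBlk (fun t j => (L i t j : ℤ)) (fun n => ((f i n : ℝ) : ℂ)) (τ i))
    (fun i => subBlk_le _ (hfc i) (τ i)) (Ap.filter fun i => (τ i).Nonempty) (fun i hi => by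
      rw [mem_filter] at hi
      exact supD_sub _ lg (τ i) ((hAp i hi.1).2.2 _ hi.2) (f i) (hAp i hi.1).1 (hAp i hi.1).2.1)
  refine ⟨∑ τ, N₁ τ, fun N D hN hD x s hs α hα A => ?_⟩
  have hle : ∀ τ, N₁ τ ≤ ∑ τ, N₁ τ := fun τ => single_le_sum (f := N₁) (fun _ _ => Nat.zero_le _) (mem_univ τ)
  set w : Fin W → (Fin r → ℤ) → ℕ → ℂ := fun l d n => (((A l d).indicator (1 : ℕ → ℝ) n : ℝ) : ℂ) with hw
  have hw1 : ∀ l d n, ‖w l d n‖ ≤ 1 := by
    intro l d n
    simp only [hw]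
    rw [Complex.norm_real]
    by_cases hA : n ∈ A l d
    · rw [Set.indicator_of_mem hA]; simp
    · rw [Set.indicator_of_notMem hA]; simp
  set bad : T → (Fin k → ℕ) → (Fin r → ℤ) → Prop := fun τ m d => ¬ ∀ l, ∀ I : Finset (Fin k), ∀ i ∈ I,
    i ∈ Ap.filter (fun i => (τ i).Nonempty) → ∀ X : ℕ, α i * X ≤ B * N →
      ‖∑ n ∈ Icc 1 X, w l d n * ∏ j ∈ I, exI (subBlk (fun t i => (L j t i : ℤ)) (fun n => ((f j n : ℝ) : ℂ)) (τ j) d)
        (α j * n + s j (m j))‖ ≤ ε' * N with hbad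
  have h1 : ∀ τ, ct (Fintype.piFinset fun i => Icc 1 (x i)) (fun m => ε' * ∏ j, (D j : ℝ) < ct (box D) (bad τ m)) ≤
      ε' * ∏ i, (x i : ℝ) := by
    intro τ
    exact hN₁ τ N D ((hle τ).trans hN) ⟨fun j => (hle τ).trans (hD.1 j), hD.2.1, hD.2.2⟩ x s
      (fun i hi => hs i (mem_filter.1 hi).1) α (fun i _ => hα i) w hw1
  have hX : 0 ≤ ∏ i, (x i : ℝ) := prod_nonneg fun _ _ => Nat.cast_nonneg _
  have hPD : (0 : ℝ) ≤ ∏ j, (D j : ℝ) := prod_nonneg fun _ _ => Nat.cast_nonneg _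
  have h2 : ct (Fintype.piFinset fun i => Icc 1 (x i)) (fun m => ∃ τ, ε' * ∏ j, (D j : ℝ) < ct (box D) (bad τ m)) ≤
      ε * ∏ i, (x i : ℝ) := by
    refine (ct_exists _ _).trans ((sum_le_sum fun τ _ => h1 τ).trans ?_)
    rw [sum_const, nsmul_eq_mul, card_univ, ← mul_assoc]
    exact mul_le_mul_of_nonneg_right hMε hX
  refine le_trans ?_ h2
  apply ct_mono
  intro m _ hm
  by_contra hcon
  push Not at hcon
  rw [← not_le] at hm
  apply hm
  have h3 : ct (box D) (fun d => ∃ τ, bad τ m d) ≤ ε * ∏ j, (D j : ℝ) := by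
    refine (ct_exists _ _).trans ((sum_le_sum fun τ _ => hcon τ).trans ?_)
    rw [sum_const, nsmul_eq_mul, card_univ, ← mul_assoc]
    exact mul_le_mul_of_nonneg_right hMε hPD
  refine le_trans ?_ h3
  apply ct_mono
  intro d hd hd'
  by_contra hg
  push Not at hg
  apply hd'
  intro l σ hσ Y X hYX hαX hpos
  have hd0 : ∀ j, 0 ≤ d j := by
    intro j
    unfold box at hd
    rw [Fintype.mem_piFinset] at hd
    have := (mem_Icc.1 (hd j)).1
    omega
  set z : Fin k → ℕ → ℤ := fun i n => α i * (n : ℤ) + s i (m i) with hz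
  have hz1 : ∀ i, ∀ n ∈ Ioc Y X, 1 ≤ z i n := by
    intro i n hn
    have hn1 := (mem_Ioc.1 hn).1
    have h5 : (α i : ℤ) * ((Y : ℤ) + 1) ≤ α i * (n : ℤ) :=
      mul_le_mul_of_nonneg_left (by exact_mod_cast hn1) (by positivity)
    have h6 : (1 : ℤ) ≤ α i := by exact_mod_cast hα i
    have h7 := hpos i
    rw [mul_add, mul_one] at h5
    simp only [hz]
    linarith
  set e : Fin k × Fin κ → ℕ → ℝ := fun p n => if 1 ≤ z p.1 n then pv (f p.1) (L p.1) d p.2 (z p.1 n) else 0 with he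
  have hmain := patternι (Ap ×ˢ (univ : Finset (Fin κ))) e (A l d) Y X hYX (by
    intro p n hn
    simp only [he]
    rw [if_pos (hz1 p.1 n hn)]
    exact hf _ _) (ε' * N) (by positivity) (by
    rintro I ⟨⟨i, t⟩, hiI, hiA⟩ Z hZ
    have hiA' := (mem_product.1 hiA).1
    set τ : T := fun i => univ.filter (fun t => (i, t) ∈ I) with hτ
    set I' : Finset (Fin k) := univ.filter (fun i => (τ i).Nonempty) with hI'
    have hne : (τ i).Nonempty := ⟨t, mem_filter.2 ⟨mem_univ _, hiI⟩⟩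
    have h5 := hg τ
    have h6 := h5 l I' i (mem_filter.2 ⟨mem_univ _, hne⟩) (mem_filter.2 ⟨hiA', hne⟩) Z
      ((Nat.mul_le_mul_left _ hZ).trans (hαX i))
    refine le_trans (le_of_eq ?_) h6
    rw [← Real.norm_eq_abs, ← Complex.norm_real]
    congr 1
    push_cast
    apply sum_congr rfl
    intro n _
    simp only [hw]
    congr 1
    rw [prod_finset_product I I' τ (fun p => by
      simp only [hI', hτ, mem_filter, mem_univ, true_and]
      constructor
      · intro hp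
        exact ⟨⟨p.2, by simpa using hp⟩, by simpa using hp⟩
      · rintro ⟨_, hp⟩
        simpa using hp)]
    apply prod_congr rfl
    intro j hj
    have hjne : (τ j).Nonempty := (mem_filter.1 hj).2
    by_cases h7 : 1 ≤ z j n
    · have h8 := subBlk_pv (f j) (L j) (τ j) d hd0 (z j n) h7
      simp only [hz] at h8
      rw [h8]
      push_cast
      apply prod_congr rfl
      intro t _
      simp only [he]
      rw [if_pos h7]
    · have h8 : exI (subBlk (fun t i => (L j t i : ℤ)) (fun n => ((f j n : ℝ) : ℂ)) (τ j) d)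
          (α j * n + s j (m j)) = 0 := by
        unfold exI
        rw [if_neg h7]
      rw [h8]
      obtain ⟨t, ht⟩ := hjne
      apply prod_eq_zero ht
      simp only [he]
      rw [if_neg h7, Complex.ofReal_zero]) (fun p => σ p.1 p.2) (fun p => hσ _ _)
  have hcard : (Ap ×ˢ (univ : Finset (Fin κ))).card = κ * Ap.card := by
    rw [card_product, card_univ, Fintype.card_fin, mul_comm]
  rw [hcard] at hmain
  have hN0 : (0 : ℝ) ≤ N := Nat.cast_nonneg _
  have e1 : ct (Ioc Y X) (fun n => n ∈ A l d ∧ ∀ i t, pv (f i) (L i) d t (z i n) = σ i t) =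
      ct (Ioc Y X) (fun n => n ∈ A l d ∧ ∀ p : Fin k × Fin κ, e p n = σ p.1 p.2) := by
    apply le_antisymm
    · refine ct_mono fun n hn h' => ⟨h'.1, fun p => ?_⟩
      simp only [he]
      rw [if_pos (hz1 p.1 n hn)]
      exact h'.2 p.1 p.2
    · refine ct_mono fun n hn h' => ⟨h'.1, fun i t => ?_⟩
      have := h'.2 (i, t)
      simp only [he] at this
      rw [if_pos (hz1 i n hn)] at this
      exact this
  have e2 : ct (Ioc Y X) (fun n => n ∈ A l d ∧ ∀ i, i ∉ Ap → ∀ t, pv (f i) (L i) d t (z i n) = σ i t) =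
      ct (Ioc Y X) (fun n => n ∈ A l d ∧ ∀ p : Fin k × Fin κ, p ∉ Ap ×ˢ (univ : Finset (Fin κ)) → e p n = σ p.1 p.2) := by
    apply le_antisymm
    · refine ct_mono fun n hn h' => ⟨h'.1, fun p hp => ?_⟩
      simp only [he]
      rw [if_pos (hz1 p.1 n hn)]
      exact h'.2 p.1 (fun hc => hp (mem_product.2 ⟨hc, mem_univ _⟩)) p.2
    · refine ct_mono fun n hn h' => ⟨h'.1, fun i hi t => ?_⟩
      have := h'.2 (i, t) (fun hc => hi (mem_product.1 hc).1)
      simp only [he] at this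
      rw [if_pos (hz1 i n hn)] at this
      exact this
  rw [e1, e2]
  refine hmain.trans ?_
  have h9 : ε' ≤ ε / 2 := min_le_left _ _
  nlinarith

/-- one long parameter: arithmetic progressions -/
lemma good_progression (J : ℕ) (E : Finset (Fin J)) (hE : E.Nonempty) :
    Good (fun _ => 1) (fun (t : Fin J) (_ : Fin 1) => ((t : ℕ) : ℤ)) univ E := by
  classical
  obtain ⟨i₀, hi₀⟩ := hE
  refine ⟨i₀, hi₀, Or.inl ?_⟩
  have h1 : cluster (fun _ => 1) (fun (t : Fin J) (_ : Fin 1) => ((t : ℕ) : ℤ)) univ E i₀ = {i₀} := by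
    ext i
    unfold cluster
    rw [mem_filter, mem_singleton]
    constructor
    · rintro ⟨_, h⟩
      have := h 0 (mem_univ _)
      simp only [one_mul] at this
      exact Fin.ext (by exact_mod_cast this.symm)
    · rintro rfl
      exact ⟨hi₀, fun _ _ => rfl⟩
  rw [h1]
  simp

/-- independent short parameters -/
lemma good_tuple (r : ℕ) (E : Finset (Fin (r + 1))) (hE : E.Nonempty) :
    Good (fun _ => 1) (fun (t : Fin (r + 1)) (j : Fin r) => (((if t = j.succ then 1 else 0 : ℕ) : ℕ) : ℤ)) ∅ E := by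
  classical
  have hcl : ∀ i₀, cluster (fun _ => 1) (fun (t : Fin (r + 1)) (j : Fin r) => (((if t = j.succ then 1 else 0 : ℕ) : ℕ) : ℤ))
      ∅ E i₀ = E := by
    intro i₀
    unfold cluster
    simp
  by_cases h0 : ∃ j : Fin r, j.succ ∈ E
  · obtain ⟨j, hj⟩ := h0
    refine ⟨j.succ, hj, Or.inr ⟨j.succ, ?_, 0, fun i => if i = j then 1 else 0, ?_, ?_⟩⟩
    · rw [hcl]
      exact hj
    · simp
    · intro i _ hne
      simp only [mul_ite, mul_one, mul_zero, sum_ite_eq', mem_univ, if_true, zero_add]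
      rw [if_neg hne]
      simp
  · push Not at h0
    obtain ⟨i₀, hi₀⟩ := hE
    have hE1 : E = {0} := by
      ext i
      rw [mem_singleton]
      constructor
      · intro hi
        rcases Fin.eq_zero_or_eq_succ i with h | ⟨j, h⟩
        · exact h
        · exact absurd (h ▸ hi) (h0 j)
      · rintro rfl
        rcases Fin.eq_zero_or_eq_succ i₀ with h | ⟨j, h⟩
        · rwa [← h]
        · exact absurd (h ▸ hi₀) (h0 j)
    refine ⟨i₀, hi₀, Or.inl ?_⟩
    rw [hcl, hE1]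
    simp

end Pool.Agent.Run7.h504.RM
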