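import Pool.Agent.Run7.h20.GM.Inv
import Pool.Agent.Run7.h20.GM.Sgn

set_option autoImplicit false

/-!
# The normal law for sums of random signs
-/

namespace Pool.Agent.Run7.h504.RM

open MeasureTheory ProbabilityTheory Filter Topology
open scoped ENNReal
open Pool.Agent.Run7.h20.GM (Phi Sg cnt sg_cos cos_gauss Sg_card inv_unif Phi_nonneg Phi_le_one)

/-- the uniform distribution on a finite family of real numbers -/
noncomputable def empS {ι : Type} (A : Finset ι) (x : ι → ℝ) : Measure ℝ :=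
  ((A.card : ℝ≥0∞)⁻¹) • ∑ n ∈ A, Measure.dirac (x n)

lemma empS_prob {ι : Type} (A : Finset ι) (x : ι → ℝ) (hA : A.Nonempty) : IsProbabilityMeasure (empS A x) := by
  constructor
  unfold empS
  rw [Measure.smul_apply, Measure.finset_sum_apply]
  simp only [measure_univ, Finset.sum_const, nsmul_eq_mul, mul_one, smul_eq_mul]
  apply ENNReal.inv_mul_cancel
  · have := hA.card_pos
    exact_mod_cast this.ne'
  · exact ENNReal.natCast_ne_top _

lemma empS_char {ι : Type} (A : Finset ι) (x : ι → ℝ) (u : ℝ) :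
    charFun (empS A x) u = ((A.card : ℝ) : ℂ)⁻¹ * ∑ n ∈ A, Complex.exp (((u * x n : ℝ) : ℂ) * Complex.I) := by
  rw [charFun_apply_real]
  unfold empS
  rw [integral_smul_measure, integral_finset_sum_measure]
  · rw [ENNReal.toReal_inv, ENNReal.toReal_natCast, Complex.real_smul]
    push_cast
    congr 1
    apply Finset.sum_congr rfl
    intro n _
    rw [integral_dirac]
  · intro n _
    exact integrable_dirac (by simp)

open Classical in
lemma empS_real {ι : Type} (A : Finset ι) (x : ι → ℝ) (t : ℝ) :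
    (empS A x).real (Set.Iic t) = ((A.filter (fun n => x n ≤ t)).card : ℝ) / A.card := by
  unfold empS
  rw [Measure.real, Measure.smul_apply, Measure.finset_sum_apply, smul_eq_mul, ENNReal.toReal_mul, ENNReal.toReal_inv,
    ENNReal.toReal_natCast]
  have h : ∑ n ∈ A, (Measure.dirac (x n)) (Set.Iic t) = ((A.filter (fun n => x n ≤ t)).card : ℝ≥0∞) := by
    rw [Finset.card_eq_sum_ones, Finset.sum_filter]
    push_cast
    apply Finset.sum_congr rfl
    intro n _
    rw [Measure.dirac_apply' _ measurableSet_Iic]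
    simp only [Set.indicator, Set.mem_Iic, Pi.one_apply]
  rw [h, ENNReal.toReal_natCast]
  ring

open Classical in
/-- the proportion of the vectors of signs for which the weighted sum is at most `x` -/
noncomputable def sp {κ : ℕ} (a : Fin κ → ℝ) (x : ℝ) : ℝ :=
  (((Sg κ).filter (fun e => ∑ i, e i * a i ≤ x)).card : ℝ) / 2 ^ κ

lemma sp_nonneg {κ : ℕ} (a : Fin κ → ℝ) (x : ℝ) : 0 ≤ sp a x := by
  unfold sp
  positivity

lemma sp_le_one {κ : ℕ} (a : Fin κ → ℝ) (x : ℝ) : sp a x ≤ 1 := by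
  classical
  unfold sp
  rw [div_le_one (by positivity), ← Sg_card]
  exact_mod_cast Finset.card_filter_le _ _

lemma exp_neg_lip (x y : ℝ) (hx : 0 ≤ x) (hy : 0 ≤ y) : |Real.exp (-x) - Real.exp (-y)| ≤ |x - y| := by
  wlog h : x ≤ y with H
  · rw [abs_sub_comm, abs_sub_comm x y]
    exact H y x hy hx (le_of_not_ge h)
  have h1 : Real.exp (-y) ≤ Real.exp (-x) := Real.exp_le_exp.2 (by linarith)
  rw [abs_of_nonneg (by linarith), abs_of_nonpos (by linarith)]
  have h2 : Real.exp (-y) = Real.exp (-x) * Real.exp (-(y - x)) := by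
    rw [← Real.exp_add]
    congr 1
    ring
  have h3 := Real.add_one_le_exp (-(y - x))
  have h4 : Real.exp (-x) ≤ 1 := Real.exp_le_one_iff.2 (by linarith)
  have h5 := Real.exp_pos (-x)
  rw [h2]
  nlinarith

/-- **the normal law for sums of random signs** -/
theorem sign_law (ε : ℝ) (hε : 0 < ε) : ∃ M₀ δ : ℝ, 1 ≤ M₀ ∧ 0 < δ ∧ ∀ (κ : ℕ) (a : Fin κ → ℝ),
    (∀ i, a i = -1 ∨ a i = 0 ∨ a i = 1) → ∀ v : ℝ, M₀ ≤ v → |(cnt a : ℝ) - v| ≤ δ * v →
    ∀ τ : ℝ, |sp a (τ * √v) - Phi τ| ≤ ε := by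
  classical
  obtain ⟨U, δ₀, hU, hδ₀, h⟩ := inv_unif ε hε
  refine ⟨max 1 (max (U ^ 2) (4 * U ^ 4 / δ₀)), min 1 (δ₀ / (U ^ 2)), le_max_left _ _, by positivity,
    fun κ a ha v hv hcnt τ => ?_⟩
  have hv1 : 1 ≤ v := (le_max_left _ _).trans hv
  have hv2 : U ^ 2 ≤ v := ((le_max_left _ _).trans (le_max_right _ _)).trans hv
  have hv3 : 4 * U ^ 4 / δ₀ ≤ v := ((le_max_right _ _).trans (le_max_right _ _)).trans hv
  have hv0 : 0 < v := by linarith
  have hs0 : 0 < √v := Real.sqrt_pos.2 hv0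
  have hcard : (0 : ℝ) < (Sg κ).card := by rw [Sg_card]; positivity
  have hne : (Sg κ).Nonempty := by
    rw [← Finset.card_pos]
    exact_mod_cast hcard
  have hc2 : (cnt a : ℝ) ≤ 2 * v := by
    have h1 : min 1 (δ₀ / (U ^ 2)) * v ≤ 1 * v := mul_le_mul_of_nonneg_right (min_le_left _ _) hv0.le
    have h2 := (abs_le.1 hcnt).2
    linarith
  have hc0 : (0 : ℝ) ≤ cnt a := Nat.cast_nonneg _
  haveI := empS_prob (Sg κ) (fun e => (∑ i, e i * a i) / √v) hne
  have h2 := h ⟨empS (Sg κ) (fun e => (∑ i, e i * a i) / √v), empS_prob _ _ hne⟩ (fun u hu => by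
    change ‖charFun (empS (Sg κ) (fun e => (∑ i, e i * a i) / √v)) u - _‖ ≤ δ₀
    rw [empS_char]
    have e1 := sg_cos a ha (u / √v)
    have e2 : ∑ e ∈ Sg κ, Complex.exp (((u * ((∑ i, e i * a i) / √v) : ℝ) : ℂ) * Complex.I) =
        2 ^ κ * ((Real.cos (u / √v) ^ cnt a : ℝ) : ℂ) := by
      rw [← e1]
      apply Finset.sum_congr rfl
      intro e _
      congr 3
      ring
    rw [e2, Sg_card]
    push_cast
    rw [← mul_assoc, inv_mul_cancel₀ (pow_ne_zero _ two_ne_zero), one_mul]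
    have e3 : Complex.cos ((u : ℂ) / ((√v : ℝ) : ℂ)) ^ cnt a - Complex.exp (-(u : ℂ) ^ 2 / 2) =
        ((Real.cos (u / √v) ^ cnt a - Real.exp (-(u ^ 2) / 2) : ℝ) : ℂ) := by
      push_cast
      rfl
    rw [e3, Complex.norm_real, Real.norm_eq_abs]
    have hθ2 : (u / √v) ^ 2 = u ^ 2 / v := by rw [div_pow, Real.sq_sqrt hv0.le]
    have hu2 : u ^ 2 ≤ U ^ 2 := by
      rw [← sq_abs u]
      exact pow_le_pow_left₀ (abs_nonneg _) hu 2
    have hθ1 : |u / √v| ≤ 1 := by
      rw [← sq_le_one_iff_abs_le_one, hθ2, div_le_one hv0]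
      linarith
    have e4 := cos_gauss (u / √v) hθ1 (cnt a)
    have e5 : (cnt a : ℝ) * (u / √v) ^ 4 ≤ δ₀ / 2 := by
      have e6 : (u / √v) ^ 4 = (u ^ 2 / v) ^ 2 := by rw [← hθ2]; ring
      rw [e6]
      have e7 : (u ^ 2 / v) ^ 2 ≤ (U ^ 2 / v) ^ 2 := by
        apply pow_le_pow_left₀ (by positivity)
        exact div_le_div_of_nonneg_right hu2 hv0.le
      have e8 : (cnt a : ℝ) * (u ^ 2 / v) ^ 2 ≤ 2 * v * (U ^ 2 / v) ^ 2 :=
        mul_le_mul hc2 e7 (by positivity) (by positivity)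
      refine e8.trans ?_
      have e9 : 2 * v * (U ^ 2 / v) ^ 2 = 2 * U ^ 4 / v := by
        field_simp
      rw [e9, div_le_iff₀ hv0]
      rw [div_le_iff₀ hδ₀] at hv3
      linarith
    have e6 : |Real.exp (-((u / √v) ^ 2 / 2) * cnt a) - Real.exp (-(u ^ 2) / 2)| ≤ δ₀ / 2 := by
      have e7 : -((u / √v) ^ 2 / 2) * (cnt a : ℝ) = -(u ^ 2 / 2 * (cnt a / v)) := by
        rw [hθ2]
        ring
      have e8 : -(u ^ 2) / 2 = -(u ^ 2 / 2) := by ring
      rw [e7, e8]
      refine (exp_neg_lip _ _ (by positivity) (by positivity)).trans ?_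
      have e9 : u ^ 2 / 2 * ((cnt a : ℝ) / v) - u ^ 2 / 2 = u ^ 2 / 2 * (((cnt a : ℝ) - v) / v) := by
        field_simp
      rw [e9, abs_mul, abs_of_nonneg (by positivity : (0 : ℝ) ≤ u ^ 2 / 2), abs_div, abs_of_pos hv0]
      have e10 : |(cnt a : ℝ) - v| / v ≤ δ₀ / U ^ 2 := by
        rw [div_le_iff₀ hv0]
        exact hcnt.trans (mul_le_mul_of_nonneg_right (min_le_right _ _) hv0.le)
      calc u ^ 2 / 2 * (|(cnt a : ℝ) - v| / v) ≤ U ^ 2 / 2 * (δ₀ / U ^ 2) :=
            mul_le_mul (by linarith) e10 (by positivity) (by positivity)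
        _ = δ₀ / 2 := by field_simp
    calc |Real.cos (u / √v) ^ cnt a - Real.exp (-(u ^ 2) / 2)| ≤
          |Real.cos (u / √v) ^ cnt a - Real.exp (-((u / √v) ^ 2 / 2) * cnt a)| +
          |Real.exp (-((u / √v) ^ 2 / 2) * cnt a) - Real.exp (-(u ^ 2) / 2)| := abs_sub_le _ _ _
      _ ≤ δ₀ / 2 + δ₀ / 2 := add_le_add (e4.trans e5) e6
      _ = δ₀ := by ring) τ
  change |(empS (Sg κ) (fun e => (∑ i, e i * a i) / √v)).real (Set.Iic τ) - Phi τ| ≤ ε at h2
  rw [empS_real, Sg_card] at h2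
  have e1 : (Sg κ).filter (fun e => (∑ i, e i * a i) / √v ≤ τ) = (Sg κ).filter (fun e => ∑ i, e i * a i ≤ τ * √v) := by
    apply Finset.filter_congr
    intro e _
    rw [div_le_iff₀ hs0]
  rw [e1] at h2
  unfold sp
  exact h2

/-- products of numbers in the unit interval -/
lemma prod_close {ι : Type} (S : Finset ι) (p q : ι → ℝ) (ε : ℝ) (hp0 : ∀ i ∈ S, 0 ≤ p i) (hp1 : ∀ i ∈ S, p i ≤ 1)
    (hq0 : ∀ i ∈ S, 0 ≤ q i) (hq1 : ∀ i ∈ S, q i ≤ 1) (h : ∀ i ∈ S, |p i - q i| ≤ ε) :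
    |∏ i ∈ S, p i - ∏ i ∈ S, q i| ≤ S.card * ε := by
  classical
  induction S using Finset.induction_on with
  | empty => simp
  | insert i S hi ih =>
    have ih' := ih (fun j hj => hp0 j (Finset.mem_insert_of_mem hj)) (fun j hj => hp1 j (Finset.mem_insert_of_mem hj))
      (fun j hj => hq0 j (Finset.mem_insert_of_mem hj)) (fun j hj => hq1 j (Finset.mem_insert_of_mem hj))
      (fun j hj => h j (Finset.mem_insert_of_mem hj))
    rw [Finset.prod_insert hi, Finset.prod_insert hi, Finset.card_insert_of_notMem hi]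
    have e1 : p i * ∏ j ∈ S, p j - q i * ∏ j ∈ S, q j =
        p i * (∏ j ∈ S, p j - ∏ j ∈ S, q j) + (p i - q i) * ∏ j ∈ S, q j := by ring
    rw [e1]
    refine (abs_add_le _ _).trans ?_
    rw [abs_mul, abs_mul]
    have hq : |∏ j ∈ S, q j| ≤ 1 := by
      rw [abs_of_nonneg (Finset.prod_nonneg fun j hj => hq0 j (Finset.mem_insert_of_mem hj))]
      exact Finset.prod_le_one (fun j hj => hq0 j (Finset.mem_insert_of_mem hj)) fun j hj => hq1 j (Finset.mem_insert_of_mem hj)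
    have hpi : |p i| ≤ 1 := by
      rw [abs_of_nonneg (hp0 i (Finset.mem_insert_self _ _))]
      exact hp1 i (Finset.mem_insert_self _ _)
    have h1 : |p i| * |∏ j ∈ S, p j - ∏ j ∈ S, q j| ≤ 1 * (S.card * ε) :=
      mul_le_mul hpi ih' (abs_nonneg _) (by norm_num)
    have h2 : |p i - q i| * |∏ j ∈ S, q j| ≤ ε * 1 :=
      mul_le_mul (h i (Finset.mem_insert_self _ _)) hq (abs_nonneg _) ((abs_nonneg _).trans (h i (Finset.mem_insert_self _ _)))
    push_cast
    linarith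

end Pool.Agent.Run7.h504.RM
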