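import Pool.Agent.Run7.h504.RM15
import Pool.Agent.Run7.h504.RM16

set_option autoImplicit false

/-!
# The normal law at displaced places: self-normalised sums
-/

open Finset

namespace Pool.Agent.Run7.h504.RM

open Pool.Agent.Results.MP_4a7640_nt.AperiodicClusters (IsMultSign Aperiodic Good cluster)
open Pool.Agent.H373R2.T7 (exI energy)
open Pool.Agent.Run7.h20.GM (Phi Sg cnt Sg_card Phi_nonneg Phi_le_one)

lemma ct_congr {β : Type} {A : Finset β} {P Q : β → Prop} (h : ∀ a ∈ A, (P a ↔ Q a)) : ct A P = ct A Q :=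
  le_antisymm (ct_mono fun a ha => (h a ha).1) (ct_mono fun a ha => (h a ha).2)

lemma ct_fiber {β γ : Type} [DecidableEq γ] (A : Finset β) (S : Finset γ) (g : β → γ) (P : β → Prop) :
    ct A (fun b => P b ∧ g b ∈ S) = ∑ c ∈ S, ct A (fun b => P b ∧ g b = c) := by
  classical
  simp only [ct_eq]
  rw [card_eq_sum_card_fiberwise (s := A.filter (fun b => P b ∧ g b ∈ S)) (t := S) (f := g)
    (fun b hb => (mem_filter.1 hb).2.2)]
  push_cast
  apply sum_congr rfl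
  intro c hc
  congr 2
  ext b
  simp only [mem_filter]
  constructor
  · rintro ⟨⟨h1, h2, _⟩, h3⟩
    exact ⟨h1, h2, h3⟩
  · rintro ⟨h1, h2, h3⟩
    exact ⟨⟨h1, h2, h3 ▸ hc⟩, h3⟩

lemma ct_diff {β : Type} {A : Finset β} {P Q R : β → Prop} (h : ∀ a ∈ A, ¬ R a → (P a ↔ Q a)) :
    |ct A P - ct A Q| ≤ ct A R := by
  classical
  have key : ∀ P Q : β → Prop, (∀ a ∈ A, ¬ R a → (P a → Q a)) → ct A P ≤ ct A Q + ct A R := by
    intro P Q h
    simp only [ct_eq]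
    have : A.filter P ⊆ A.filter Q ∪ A.filter R := by
      intro a ha
      rw [mem_filter] at ha
      rw [mem_union, mem_filter, mem_filter]
      by_cases hR : R a
      · exact Or.inr ⟨ha.1, hR⟩
      · exact Or.inl ⟨ha.1, h a ha.1 hR ha.2⟩
    exact_mod_cast (card_le_card this).trans (card_union_le _ _)
  rw [abs_sub_le_iff]
  constructor
  · have := key P Q (fun a ha hR => (h a ha hR).1)
    linarith
  · have := key Q P (fun a ha hR => (h a ha hR).2)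
    linarith

lemma mem_Sg {κ : ℕ} (e : Fin κ → ℝ) : e ∈ Sg κ ↔ ∀ t, e t = 1 ∨ e t = -1 := by
  unfold Sg
  rw [Fintype.mem_piFinset]
  simp only [mem_insert, mem_singleton]

/-- sums over the patterns -/
lemma pat_sum {k κ : ℕ} (Ap : Finset (Fin k)) (F : ℕ → Fin k → Fin κ → ℝ) (J : Finset ℕ)
    (hpm : ∀ n ∈ J, ∀ i t, F n i t = 1 ∨ F n i t = -1) (P : ℕ → Prop) (E : ℝ) (σ₀ : Fin k → Fin κ → ℝ)
    (hσ₀ : ∀ i t, σ₀ i t = 1 ∨ σ₀ i t = -1)
    (h : ∀ σ : Fin k → Fin κ → ℝ, (∀ i t, σ i t = 1 ∨ σ i t = -1) →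
      |ct J (fun n => P n ∧ ∀ i t, F n i t = σ i t) -
        ct J (fun n => P n ∧ ∀ i, i ∉ Ap → ∀ t, F n i t = σ i t) / 2 ^ (κ * Ap.card)| ≤ E)
    (a : Fin k → Fin κ → ℝ) (x : Fin k → ℝ) :
    |ct J (fun n => P n ∧ (∀ i, i ∉ Ap → ∀ t, F n i t = σ₀ i t) ∧ ∀ i ∈ Ap, ∑ t, F n i t * a i t ≤ x i) -
      (∏ i ∈ Ap, sp (a i) (x i)) * ct J (fun n => P n ∧ ∀ i, i ∉ Ap → ∀ t, F n i t = σ₀ i t)| ≤
      2 ^ (κ * Ap.card) * E := by
  classical
  have hE : 0 ≤ E := (abs_nonneg _).trans (h σ₀ hσ₀)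
  set S : Finset (Fin k → Fin κ → ℝ) := Fintype.piFinset (fun i => if i ∈ Ap then
    (Sg κ).filter (fun e => ∑ t, e t * a i t ≤ x i) else {σ₀ i}) with hS
  have hmem : ∀ ρ : Fin k → Fin κ → ℝ, ρ ∈ S → (∀ i t, ρ i t = 1 ∨ ρ i t = -1) ∧ (∀ i, i ∉ Ap → ρ i = σ₀ i) ∧
      ∀ i ∈ Ap, ∑ t, ρ i t * a i t ≤ x i := by
    intro ρ hρ
    rw [hS, Fintype.mem_piFinset] at hρ
    refine ⟨fun i => ?_, fun i hi => ?_, fun i hi => ?_⟩
    · have := hρ i
      by_cases hi : i ∈ Ap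
      · rw [if_pos hi, mem_filter, mem_Sg] at this
        exact this.1
      · rw [if_neg hi, mem_singleton] at this
        rw [this]
        exact hσ₀ i
    · have := hρ i
      rwa [if_neg hi, mem_singleton] at this
    · have := hρ i
      rw [if_pos hi, mem_filter] at this
      exact this.2
  have hmem' : ∀ n ∈ J, ((∀ i, i ∉ Ap → ∀ t, F n i t = σ₀ i t) ∧ ∀ i ∈ Ap, ∑ t, F n i t * a i t ≤ x i) ↔ F n ∈ S := by
    intro n hn
    constructor
    · rintro ⟨h1, h2⟩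
      rw [hS, Fintype.mem_piFinset]
      intro i
      by_cases hi : i ∈ Ap
      · rw [if_pos hi, mem_filter, mem_Sg]
        exact ⟨hpm n hn i, h2 i hi⟩
      · rw [if_neg hi, mem_singleton]
        exact funext (h1 i hi)
    · intro hF
      obtain ⟨_, h2, h3⟩ := hmem _ hF
      exact ⟨fun i hi t => congrFun (h2 i hi) t, h3⟩
  have e1 : ct J (fun n => P n ∧ (∀ i, i ∉ Ap → ∀ t, F n i t = σ₀ i t) ∧ ∀ i ∈ Ap, ∑ t, F n i t * a i t ≤ x i) =
      ∑ ρ ∈ S, ct J (fun n => P n ∧ ∀ i t, F n i t = ρ i t) := by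
    rw [ct_congr (Q := fun n => P n ∧ F n ∈ S) (fun n hn => by rw [hmem' n hn]), ct_fiber]
    apply sum_congr rfl
    intro ρ _
    apply ct_congr
    intro n _
    constructor
    · rintro ⟨h1, h2⟩
      exact ⟨h1, fun i t => by rw [h2]⟩
    · rintro ⟨h1, h2⟩
      exact ⟨h1, funext fun i => funext fun t => h2 i t⟩
  set T := ct J (fun n => P n ∧ ∀ i, i ∉ Ap → ∀ t, F n i t = σ₀ i t) with hT
  have e2 : ∀ ρ ∈ S, |ct J (fun n => P n ∧ ∀ i t, F n i t = ρ i t) - T / 2 ^ (κ * Ap.card)| ≤ E := by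
    intro ρ hρ
    obtain ⟨h1, h2, _⟩ := hmem ρ hρ
    have h3 := h ρ h1
    have h4 : ct J (fun n => P n ∧ ∀ i, i ∉ Ap → ∀ t, F n i t = ρ i t) = T := by
      apply ct_congr
      intro n _
      apply and_congr_right
      intro _
      apply forall_congr'
      intro i
      apply forall_congr'
      intro hi
      rw [h2 i hi]
    rwa [h4] at h3
  have hcard : (S.card : ℝ) = (∏ i ∈ Ap, sp (a i) (x i)) * 2 ^ (κ * Ap.card) := by
    rw [hS, Fintype.card_piFinset]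
    have h1 : ∀ i : Fin k, (if i ∈ Ap then (Sg κ).filter (fun e => ∑ t, e t * a i t ≤ x i) else {σ₀ i}).card =
        if i ∈ Ap then ((Sg κ).filter (fun e => ∑ t, e t * a i t ≤ x i)).card else 1 := by
      intro i
      split_ifs
      · rfl
      · exact card_singleton _
    rw [prod_congr rfl fun i _ => h1 i, prod_ite_mem, univ_inter]
    push_cast
    rw [pow_mul, ← prod_const, ← prod_mul_distrib]
    apply prod_congr rfl
    intro i _
    unfold sp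
    rw [div_mul_cancel₀ _ (by positivity)]
  have hq1 : ∏ i ∈ Ap, sp (a i) (x i) ≤ 1 := prod_le_one (fun _ _ => sp_nonneg _ _) fun _ _ => sp_le_one _ _
  have e3 : (∏ i ∈ Ap, sp (a i) (x i)) * T = ∑ ρ ∈ S, T / 2 ^ (κ * Ap.card) := by
    rw [sum_const, nsmul_eq_mul, hcard]
    field_simp
  rw [e1, e3, ← sum_sub_distrib]
  refine (abs_sum_le_sum_abs _ _).trans ((sum_le_sum e2).trans ?_)
  rw [sum_const, nsmul_eq_mul, hcard]
  apply mul_le_mul_of_nonneg_right _ hE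
  have : (0 : ℝ) < 2 ^ (κ * Ap.card) := by positivity
  nlinarith

/-- sums over the residue classes -/
lemma classN_sum {k κ : ℕ} (Ap : Finset (Fin k)) (F : ℕ → Fin k → Fin κ → ℝ) (J : Finset ℕ)
    (hpm : ∀ n ∈ J, ∀ i t, F n i t = 1 ∨ F n i t = -1) (P : ℕ → Prop) (E : ℝ) (σ₀ : Fin k → Fin κ → ℝ)
    (hσ₀ : ∀ i t, σ₀ i t = 1 ∨ σ₀ i t = -1) (Q : ℕ) (hQ : 1 ≤ Q)
    (h : ∀ c < Q, ∀ σ : Fin k → Fin κ → ℝ, (∀ i t, σ i t = 1 ∨ σ i t = -1) →
      |ct J (fun n => (P n ∧ n % Q = c) ∧ ∀ i t, F n i t = σ i t) -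
        ct J (fun n => (P n ∧ n % Q = c) ∧ ∀ i, i ∉ Ap → ∀ t, F n i t = σ i t) / 2 ^ (κ * Ap.card)| ≤ E)
    (a : ℕ → Fin k → Fin κ → ℝ) (x : ℕ → Fin k → ℝ) (C : ℕ → Prop) (q η : ℝ) (hη : 0 ≤ η)
    (hq : ∀ c < Q, C c → |∏ i ∈ Ap, sp (a c i) (x c i) - q| ≤ η) :
    |ct J (fun n => P n ∧ (∀ i, i ∉ Ap → ∀ t, F n i t = σ₀ i t) ∧ C (n % Q) ∧
        ∀ i ∈ Ap, ∑ t, F n i t * a (n % Q) i t ≤ x (n % Q) i) -
      q * ct J (fun n => P n ∧ (∀ i, i ∉ Ap → ∀ t, F n i t = σ₀ i t) ∧ C (n % Q))| ≤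
      Q * (2 ^ (κ * Ap.card) * E) + η * J.card := by
  classical
  have hE : 0 ≤ E := (abs_nonneg _).trans (h 0 (by omega) σ₀ hσ₀)
  have hfib : ∀ R : ℕ → Prop, ct J R = ∑ c ∈ range Q, ct J (fun n => R n ∧ n % Q = c) := by
    intro R
    rw [← ct_fiber]
    apply ct_congr
    intro n _
    constructor
    · exact fun hR => ⟨hR, mem_range.2 (Nat.mod_lt _ (by omega))⟩
    · exact fun hR => hR.1
  set T : ℕ → ℝ := fun c => ct J (fun n => (P n ∧ n % Q = c) ∧ ∀ i, i ∉ Ap → ∀ t, F n i t = σ₀ i t) with hT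
  have hT0 : ∀ c, 0 ≤ T c := fun c => ct_nonneg _ _
  have hTs : ∑ c ∈ range Q, T c ≤ J.card := by
    have h1 : ∑ c ∈ range Q, T c ≤ ∑ c ∈ range Q, ct J (fun n => True ∧ n % Q = c) := by
      apply sum_le_sum
      intro c _
      exact ct_mono fun n _ h => ⟨trivial, h.1.2⟩
    refine h1.trans ?_
    rw [← hfib (fun _ => True)]
    exact ct_le _ _
  rw [hfib (fun n => P n ∧ (∀ i, i ∉ Ap → ∀ t, F n i t = σ₀ i t) ∧ C (n % Q) ∧
        ∀ i ∈ Ap, ∑ t, F n i t * a (n % Q) i t ≤ x (n % Q) i),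
    hfib (fun n => P n ∧ (∀ i, i ∉ Ap → ∀ t, F n i t = σ₀ i t) ∧ C (n % Q)), mul_sum, ← sum_sub_distrib]
  refine (abs_sum_le_sum_abs _ _).trans ?_
  have key : ∀ c ∈ range Q, |ct J (fun n => (P n ∧ (∀ i, i ∉ Ap → ∀ t, F n i t = σ₀ i t) ∧ C (n % Q) ∧
        ∀ i ∈ Ap, ∑ t, F n i t * a (n % Q) i t ≤ x (n % Q) i) ∧ n % Q = c) -
      q * ct J (fun n => (P n ∧ (∀ i, i ∉ Ap → ∀ t, F n i t = σ₀ i t) ∧ C (n % Q)) ∧ n % Q = c)| ≤
      2 ^ (κ * Ap.card) * E + η * T c := by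
    intro c hc
    have hc' := mem_range.1 hc
    by_cases hC : C c
    · have e1 : ct J (fun n => (P n ∧ (∀ i, i ∉ Ap → ∀ t, F n i t = σ₀ i t) ∧ C (n % Q) ∧
          ∀ i ∈ Ap, ∑ t, F n i t * a (n % Q) i t ≤ x (n % Q) i) ∧ n % Q = c) =
          ct J (fun n => (P n ∧ n % Q = c) ∧ (∀ i, i ∉ Ap → ∀ t, F n i t = σ₀ i t) ∧
            ∀ i ∈ Ap, ∑ t, F n i t * a c i t ≤ x c i) := by
        apply ct_congr
        intro n _
        constructor
        · rintro ⟨⟨h1, h2, h3, h4⟩, h5⟩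
          rw [h5] at h4
          exact ⟨⟨h1, h5⟩, h2, h4⟩
        · rintro ⟨⟨h1, h5⟩, h2, h4⟩
          refine ⟨⟨h1, h2, ?_, ?_⟩, h5⟩
          · rw [h5]
            exact hC
          · rw [h5]
            exact h4
      have e2 : ct J (fun n => (P n ∧ (∀ i, i ∉ Ap → ∀ t, F n i t = σ₀ i t) ∧ C (n % Q)) ∧ n % Q = c) = T c := by
        apply ct_congr
        intro n _
        constructor
        · rintro ⟨⟨h1, h2, h3⟩, h5⟩
          exact ⟨⟨h1, h5⟩, h2⟩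
        · rintro ⟨⟨h1, h5⟩, h2⟩
          refine ⟨⟨h1, h2, ?_⟩, h5⟩
          rw [h5]
          exact hC
      rw [e1, e2]
      have h1 := pat_sum Ap F J hpm (fun n => P n ∧ n % Q = c) E σ₀ hσ₀ (h c hc') (a c) (x c)
      have h2 := hq c hc' hC
      have e3 : ct J (fun n => (P n ∧ n % Q = c) ∧ (∀ i, i ∉ Ap → ∀ t, F n i t = σ₀ i t) ∧
            ∀ i ∈ Ap, ∑ t, F n i t * a c i t ≤ x c i) - q * T c =
          (ct J (fun n => (P n ∧ n % Q = c) ∧ (∀ i, i ∉ Ap → ∀ t, F n i t = σ₀ i t) ∧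
            ∀ i ∈ Ap, ∑ t, F n i t * a c i t ≤ x c i) - (∏ i ∈ Ap, sp (a c i) (x c i)) * T c) +
          (∏ i ∈ Ap, sp (a c i) (x c i) - q) * T c := by ring
      rw [e3]
      refine (abs_add_le _ _).trans (add_le_add h1 ?_)
      rw [abs_mul, abs_of_nonneg (hT0 c)]
      exact mul_le_mul_of_nonneg_right h2 (hT0 c)
    · have e1 : ct J (fun n => (P n ∧ (∀ i, i ∉ Ap → ∀ t, F n i t = σ₀ i t) ∧ C (n % Q) ∧
          ∀ i ∈ Ap, ∑ t, F n i t * a (n % Q) i t ≤ x (n % Q) i) ∧ n % Q = c) = ct J (fun _ => False) := by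
        apply ct_congr
        intro n _
        constructor
        · rintro ⟨⟨_, _, h3, _⟩, h5⟩
          rw [h5] at h3
          exact hC h3
        · exact False.elim
      have e2 : ct J (fun n => (P n ∧ (∀ i, i ∉ Ap → ∀ t, F n i t = σ₀ i t) ∧ C (n % Q)) ∧ n % Q = c) =
          ct J (fun _ => False) := by
        apply ct_congr
        intro n _
        constructor
        · rintro ⟨⟨_, _, h3⟩, h5⟩
          rw [h5] at h3
          exact hC h3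
        · exact False.elim
      have e3 : ct J (fun _ => False) = 0 := by
        rw [ct_eq, filter_false, card_empty, Nat.cast_zero]
      rw [e1, e2, e3, mul_zero, sub_zero, abs_zero]
      have := hT0 c
      positivity
  refine (sum_le_sum key).trans ?_
  rw [sum_add_distrib, sum_const, nsmul_eq_mul, card_range, ← mul_sum]
  have := mul_le_mul_of_nonneg_left hTs hη
  linarith

end Pool.Agent.Run7.h504.RM
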