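import Pool.Agent.Run7.h504.RM17

set_option autoImplicit false

/-!
# The normal law at displaced places
-/

open Finset

namespace Pool.Agent.Run7.h504.RM

open Pool.Agent.Results.MP_4a7640_nt.AperiodicClusters (IsMultSign Aperiodic Good cluster)
open Pool.Agent.H373R2.T7 (exI energy)
open Pool.Agent.Run7.h20.GM (Phi Sg cnt Sg_card Phi_nonneg Phi_le_one)

/-- the value of the form -/
def ar {κ r : ℕ} (L : Fin κ → Fin r → ℕ) (d : Fin r → ℤ) (t : Fin κ) (z : ℤ) : ℕ :=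
  z.toNat + ∑ j, L t j * (d j).toNat

lemma pv_ar {κ r : ℕ} (f : ℕ → ℝ) (L : Fin κ → Fin r → ℕ) (d : Fin r → ℤ) (t : Fin κ) (z : ℤ) :
    pv f L d t z = f (ar L d t z) := rfl

lemma ar_cast {κ r : ℕ} (L : Fin κ → Fin r → ℕ) (d : Fin r → ℤ) (hd : ∀ j, 0 ≤ d j) (t : Fin κ) (z : ℤ) (hz : 0 ≤ z) :
    ((ar L d t z : ℕ) : ℤ) = z + ∑ j, (L t j : ℤ) * d j := by
  unfold ar
  push_cast
  rw [Int.toNat_of_nonneg hz]
  congr 1
  apply sum_congr rfl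
  intro j _
  rw [Int.toNat_of_nonneg (hd j)]

/-- the sum of the values of `g` over the window -/
noncomputable def Sm {κ r : ℕ} (g : ℕ → ℝ) (L : Fin κ → Fin r → ℕ) (d : Fin r → ℤ) (z : ℤ) : ℝ := ∑ t, g (ar L d t z)

open Classical in
/-- the number of the places of the window where `g` is not zero -/
noncomputable def Qm {κ r : ℕ} (g : ℕ → ℝ) (L : Fin κ → Fin r → ℕ) (d : Fin r → ℤ) (z : ℤ) : ℕ :=
  (univ.filter (fun t => g (ar L d t z) ≠ 0)).card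

open Classical in
/-- the indicator function of the squarefree integers, if `sq` holds, otherwise `1` -/
noncomputable def mk (sq : Prop) (y : ℕ) : ℝ := if sq → Squarefree y then 1 else 0

open Classical in
/-- the same up to `E` -/
noncomputable def mkE (E : ℕ) (sq : Prop) (z : ℤ) : ℝ :=
  if sq → ∀ p : ℕ, p ≤ E → p.Prime → ¬ ((p ^ 2 : ℕ) : ℤ) ∣ z then 1 else 0

lemma mk_eq (E : ℕ) (sq : Prop) (y : ℕ) (h : ¬ ∃ e : ℕ, E < e ∧ e ^ 2 ∣ y) : mk sq y = mkE E sq y := by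
  unfold mk mkE
  congr 1
  apply propext
  apply imp_congr_right
  intro _
  constructor
  · intro hs p _ hp hd
    have h1 : p ^ 2 ∣ y := by exact_mod_cast hd
    rw [pow_two] at h1
    exact hp.one_lt.ne' (Nat.isUnit_iff.1 (hs p h1))
  · intro hs
    rw [Nat.squarefree_iff_prime_squarefree]
    intro p hp hd
    by_cases hpE : p ≤ E
    · exact hs p hpE hp (by rw [pow_two]; exact_mod_cast hd)
    · exact h ⟨p, by omega, by rw [pow_two]; exact hd⟩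

lemma mkE_val (E : ℕ) (sq : Prop) (z : ℤ) : mkE E sq z = -1 ∨ mkE E sq z = 0 ∨ mkE E sq z = 1 := by
  unfold mkE
  split_ifs
  · exact Or.inr (Or.inr rfl)
  · exact Or.inr (Or.inl rfl)

lemma mkE_mod (E Q : ℕ) (hEQ : ∀ p : ℕ, p ≤ E → p.Prime → p ^ 2 ∣ Q) (sq : Prop) (α n : ℕ) (w : ℤ) :
    mkE E sq (α * (n : ℤ) + w) = mkE E sq (α * ((n % Q : ℕ) : ℤ) + w) := by
  unfold mkE
  congr 1
  apply propext
  apply imp_congr_right
  intro _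
  apply forall_congr'
  intro p
  apply forall_congr'
  intro hp
  apply forall_congr'
  intro hp'
  apply not_congr
  have h1 : ((p ^ 2 : ℕ) : ℤ) ∣ (Q : ℤ) := by exact_mod_cast hEQ p hp hp'
  have h2 : (α * (n : ℤ) + w) = (α * ((n % Q : ℕ) : ℤ) + w) + (Q : ℤ) * (α * ((n / Q : ℕ) : ℤ)) := by
    have h3 : (n : ℤ) = ((n % Q : ℕ) : ℤ) + (Q : ℤ) * ((n / Q : ℕ) : ℤ) := by
      exact_mod_cast (Nat.mod_add_div n Q).symm
    linear_combination (α : ℤ) * h3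
  rw [h2]
  exact (dvd_add_left (h1.mul_right _))

/-- the truncated indicator functions on the classes -/
noncomputable def acl {k κ r : ℕ} (E : ℕ) (Sq : Finset (Fin k)) (L : Fin k → Fin κ → Fin r → ℕ) (d : Fin r → ℤ)
    (b : Fin k → ℤ) (α : Fin k → ℕ) (c : ℕ) (i : Fin k) (t : Fin κ) : ℝ :=
  mkE E (i ∈ Sq) (α i * (c : ℤ) + (b i + ∑ j, (L i t j : ℤ) * d j))

/-- the values outside of the exceptional set -/
lemma val_eq {k κ r : ℕ} (E Q : ℕ) (hEQ : ∀ p : ℕ, p ≤ E → p.Prime → p ^ 2 ∣ Q) (Sq : Finset (Fin k))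
    (L : Fin k → Fin κ → Fin r → ℕ) (d : Fin r → ℤ) (hd : ∀ j, 0 ≤ d j) (b : Fin k → ℤ) (α : Fin k → ℕ)
    (f g : Fin k → ℕ → ℝ) (i : Fin k) (hg : ∀ y, g i y = f i y * mk (i ∈ Sq) y) (t : Fin κ) (n : ℕ)
    (hz : 0 ≤ α i * (n : ℤ) + b i) (h : ¬ ∃ e : ℕ, E < e ∧ e ^ 2 ∣ ar (L i) d t (α i * (n : ℤ) + b i)) :
    g i (ar (L i) d t (α i * (n : ℤ) + b i)) = f i (ar (L i) d t (α i * (n : ℤ) + b i)) * acl E Sq L d b α (n % Q) i t := by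
  rw [hg, mk_eq E _ _ h, ar_cast (L i) d hd t _ hz]
  unfold acl
  rw [add_assoc, mkE_mod E Q hEQ]

/-- the sums outside of the exceptional set -/
lemma sum_eq {k κ r : ℕ} (E Q : ℕ) (hEQ : ∀ p : ℕ, p ≤ E → p.Prime → p ^ 2 ∣ Q) (Sq : Finset (Fin k))
    (L : Fin k → Fin κ → Fin r → ℕ) (d : Fin r → ℤ) (hd : ∀ j, 0 ≤ d j) (b : Fin k → ℤ) (α : Fin k → ℕ)
    (f g : Fin k → ℕ → ℝ) (hf : ∀ i n, f i n = 1 ∨ f i n = -1)
    (i : Fin k) (hg : ∀ y, g i y = f i y * mk (i ∈ Sq) y) (n : ℕ)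
    (hz : 0 ≤ α i * (n : ℤ) + b i) (h : ∀ t, ¬ ∃ e : ℕ, E < e ∧ e ^ 2 ∣ ar (L i) d t (α i * (n : ℤ) + b i)) :
    Sm (g i) (L i) d (α i * (n : ℤ) + b i) =
      ∑ t, pv (f i) (L i) d t (α i * (n : ℤ) + b i) * acl E Sq L d b α (n % Q) i t ∧
    Qm (g i) (L i) d (α i * (n : ℤ) + b i) = cnt (acl E Sq L d b α (n % Q) i) := by
  classical
  have h1 := fun t => val_eq E Q hEQ Sq L d hd b α f g i hg t n hz (h t)
  constructor
  · unfold Sm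
    exact sum_congr rfl fun t _ => h1 t
  · unfold Qm cnt
    congr 1
    ext t
    simp only [mem_filter, mem_univ, true_and]
    rw [h1 t]
    have h2 : f i (ar (L i) d t (α i * (n : ℤ) + b i)) ≠ 0 := by
      rcases hf i (ar (L i) d t (α i * (n : ℤ) + b i)) with h3 | h3 <;> rw [h3] <;> norm_num
    constructor
    · exact fun h3 h4 => h3 (by rw [h4, mul_zero])
    · exact fun h3 => mul_ne_zero h2 h3

/-- the exceptional set -/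
def bad {k κ r : ℕ} (E : ℕ) (Ap : Finset (Fin k)) (L : Fin k → Fin κ → Fin r → ℕ) (d : Fin r → ℤ) (b : Fin k → ℤ)
    (α : Fin k → ℕ) (n : ℕ) : Prop :=
  ∃ p : Fin k × Fin κ, p.1 ∈ Ap ∧ ∃ e : ℕ, E < e ∧ e ^ 2 ∣ ar (L p.1) d p.2 (α p.1 * (n : ℤ) + b p.1)

/-- **self-normalised sums, the deterministic part** -/
lemma self_det {k κ r : ℕ} (Ap Sq : Finset (Fin k)) (f g : Fin k → ℕ → ℝ) (hf : ∀ i n, f i n = 1 ∨ f i n = -1)
    (hg : ∀ i ∈ Ap, ∀ y, g i y = f i y * mk (i ∈ Sq) y) (L : Fin k → Fin κ → Fin r → ℕ) (d : Fin r → ℤ)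
    (hd : ∀ j, 0 ≤ d j) (b : Fin k → ℤ) (α : Fin k → ℕ) (A : Set ℕ) (Y X : ℕ)
    (hpos : ∀ i, 0 ≤ α i * (Y : ℤ) + b i) (E Q : ℕ) (hQ : 1 ≤ Q) (hEQ : ∀ p : ℕ, p ≤ E → p.Prime → p ^ 2 ∣ Q)
    (δ : ℝ) (hgood : ∀ c < Q, ∀ σ : Fin k → Fin κ → ℝ, (∀ i t, σ i t = 1 ∨ σ i t = -1) →
      |ct (Ioc Y X) (fun n => (n ∈ A ∧ n % Q = c) ∧ ∀ i t, pv (f i) (L i) d t (α i * (n : ℤ) + b i) = σ i t) -
        ct (Ioc Y X) (fun n => (n ∈ A ∧ n % Q = c) ∧ ∀ i, i ∉ Ap → ∀ t,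
          pv (f i) (L i) d t (α i * (n : ℤ) + b i) = σ i t) / 2 ^ (κ * Ap.card)| ≤ δ)
    (σ₀ : Fin k → Fin κ → ℝ) (hσ₀ : ∀ i t, σ₀ i t = 1 ∨ σ₀ i t = -1)
    (C : ℕ → Prop) (C' : ℕ → Prop) (x : ℕ → Fin k → ℝ) (x' : ℕ → Fin k → ℝ) (q η : ℝ) (hη : 0 ≤ η)
    (hC : ∀ n ∈ Ioc Y X, ¬ bad E Ap L d b α n → (C' n ↔ C (n % Q)))
    (hx : ∀ n ∈ Ioc Y X, ¬ bad E Ap L d b α n → ∀ i ∈ Ap, x' n i = x (n % Q) i) (hq01 : |q| ≤ 1)
    (hq : ∀ c < Q, C c → |∏ i ∈ Ap, sp (acl E Sq L d b α c i) (x c i) - q| ≤ η) :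
    |ct (Ioc Y X) (fun n => n ∈ A ∧ (∀ i, i ∉ Ap → ∀ t, pv (f i) (L i) d t (α i * (n : ℤ) + b i) = σ₀ i t) ∧ C' n ∧
        ∀ i ∈ Ap, Sm (g i) (L i) d (α i * (n : ℤ) + b i) ≤ x' n i) -
      q * ct (Ioc Y X) (fun n => n ∈ A ∧ (∀ i, i ∉ Ap → ∀ t, pv (f i) (L i) d t (α i * (n : ℤ) + b i) = σ₀ i t) ∧ C' n)| ≤
      Q * (2 ^ (κ * Ap.card) * δ) + η * (Ioc Y X).card + 2 * ct (Ioc Y X) (bad E Ap L d b α) := by
  classical
  have hz : ∀ i, ∀ n ∈ Ioc Y X, 0 ≤ α i * (n : ℤ) + b i := by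
    intro i n hn
    have hn1 := (mem_Ioc.1 hn).1
    have h5 : (α i : ℤ) * (Y : ℤ) ≤ α i * (n : ℤ) :=
      mul_le_mul_of_nonneg_left (by exact_mod_cast hn1.le) (by positivity)
    have h7 := hpos i
    linarith
  have h1 := classN_sum Ap (fun n i t => pv (f i) (L i) d t (α i * (n : ℤ) + b i)) (Ioc Y X) (fun n _ i t => hf i _)
    (fun n => n ∈ A) δ σ₀ hσ₀ Q hQ hgood (acl E Sq L d b α) x C q η hη hq
  set R := bad E Ap L d b α with hR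
  have h2 : |ct (Ioc Y X) (fun n => n ∈ A ∧ (∀ i, i ∉ Ap → ∀ t, pv (f i) (L i) d t (α i * (n : ℤ) + b i) = σ₀ i t) ∧ C' n ∧
        ∀ i ∈ Ap, Sm (g i) (L i) d (α i * (n : ℤ) + b i) ≤ x' n i) -
      ct (Ioc Y X) (fun n => n ∈ A ∧ (∀ i, i ∉ Ap → ∀ t, pv (f i) (L i) d t (α i * (n : ℤ) + b i) = σ₀ i t) ∧ C (n % Q) ∧
        ∀ i ∈ Ap, ∑ t, pv (f i) (L i) d t (α i * (n : ℤ) + b i) * acl E Sq L d b α (n % Q) i t ≤ x (n % Q) i)| ≤
      ct (Ioc Y X) R := by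
    apply ct_diff
    intro n hn hRn
    apply and_congr_right
    intro _
    apply and_congr_right
    intro _
    rw [hC n hn hRn]
    apply and_congr_right
    intro _
    apply forall_congr'
    intro i
    apply forall_congr'
    intro hi
    rw [(sum_eq E Q hEQ Sq L d hd b α f g hf i (hg i hi) n (hz i n hn) (fun t ht => hRn ⟨(i, t), hi, ht⟩)).1, hx n hn hRn i hi]
  have h3 : |ct (Ioc Y X) (fun n => n ∈ A ∧ (∀ i, i ∉ Ap → ∀ t, pv (f i) (L i) d t (α i * (n : ℤ) + b i) = σ₀ i t) ∧ C' n) -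
      ct (Ioc Y X) (fun n => n ∈ A ∧ (∀ i, i ∉ Ap → ∀ t, pv (f i) (L i) d t (α i * (n : ℤ) + b i) = σ₀ i t) ∧ C (n % Q))| ≤
      ct (Ioc Y X) R := by
    apply ct_diff
    intro n hn hRn
    rw [hC n hn hRn]
  set u1 := ct (Ioc Y X) (fun n => n ∈ A ∧ (∀ i, i ∉ Ap → ∀ t, pv (f i) (L i) d t (α i * (n : ℤ) + b i) = σ₀ i t) ∧ C' n ∧
        ∀ i ∈ Ap, Sm (g i) (L i) d (α i * (n : ℤ) + b i) ≤ x' n i)
  set u2 := ct (Ioc Y X) (fun n => n ∈ A ∧ (∀ i, i ∉ Ap → ∀ t, pv (f i) (L i) d t (α i * (n : ℤ) + b i) = σ₀ i t) ∧ C (n % Q) ∧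
        ∀ i ∈ Ap, ∑ t, pv (f i) (L i) d t (α i * (n : ℤ) + b i) * acl E Sq L d b α (n % Q) i t ≤ x (n % Q) i)
  set w1 := ct (Ioc Y X) (fun n => n ∈ A ∧ (∀ i, i ∉ Ap → ∀ t, pv (f i) (L i) d t (α i * (n : ℤ) + b i) = σ₀ i t) ∧ C' n)
  set w2 := ct (Ioc Y X) (fun n => n ∈ A ∧ (∀ i, i ∉ Ap → ∀ t, pv (f i) (L i) d t (α i * (n : ℤ) + b i) = σ₀ i t) ∧ C (n % Q))
  have e1 : u1 - q * w1 = (u1 - u2) + (u2 - q * w2) - q * (w1 - w2) := by ring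
  rw [e1]
  have h4 : |q * (w1 - w2)| ≤ ct (Ioc Y X) R := by
    rw [abs_mul]
    calc |q| * |w1 - w2| ≤ 1 * ct (Ioc Y X) R := mul_le_mul hq01 h3 (abs_nonneg _) (by norm_num)
      _ = _ := one_mul _
  refine (abs_sub _ _).trans ?_
  have h5 := abs_add_le (u1 - u2) (u2 - q * w2)
  linarith

/-- the exceptional set is small -/
lemma bad_card {k κ r : ℕ} (E : ℕ) (hE : 1 ≤ E) (Ap : Finset (Fin k)) (L : Fin k → Fin κ → Fin r → ℕ) (d : Fin r → ℤ)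
    (hd : ∀ j, 0 ≤ d j) (b : Fin k → ℤ) (α : Fin k → ℕ) (hα : ∀ i, 1 ≤ α i) (Y X : ℕ)
    (hpos : ∀ i, 0 ≤ α i * (Y : ℤ) + b i) (Z : ℕ)
    (hZ : ∀ i ∈ Ap, ∀ t, (α i * (X : ℤ) + b i) + ∑ j, (L i t j : ℤ) * d j ≤ Z) :
    ct (Ioc Y X) (bad E Ap L d b α) ≤ k * κ * (Z / E) := by
  classical
  have h0 : ∀ p : Fin k × Fin κ, ct (Ioc Y X) (fun n => p.1 ∈ Ap ∧ ∃ e : ℕ, E < e ∧ e ^ 2 ∣
      ar (L p.1) d p.2 (α p.1 * (n : ℤ) + b p.1)) ≤ (Z : ℝ) / E := by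
    rintro ⟨i, t⟩
    simp only
    by_cases hi : i ∈ Ap
    · refine le_trans ?_ (card_sq_dvd E Z hE)
      rw [ct_eq]
      have hz : ∀ n ∈ Ioc Y X, 1 ≤ α i * (n : ℤ) + b i := by
        intro n hn
        have hn1 := (mem_Ioc.1 hn).1
        have h5 : (α i : ℤ) * ((Y : ℤ) + 1) ≤ α i * (n : ℤ) :=
          mul_le_mul_of_nonneg_left (by exact_mod_cast hn1) (by positivity)
        have h6 : (1 : ℤ) ≤ α i := by exact_mod_cast hα i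
        have h7 := hpos i
        rw [mul_add, mul_one] at h5
        linarith
      have hinj : Set.InjOn (fun n : ℕ => ar (L i) d t (α i * (n : ℤ) + b i))
          (((Ioc Y X).filter (fun n => i ∈ Ap ∧ ∃ e : ℕ, E < e ∧ e ^ 2 ∣ ar (L i) d t (α i * (n : ℤ) + b i)) : Finset ℕ) : Set ℕ) := by
        intro n hn n' hn' h
        have hn1 := hz n (mem_filter.1 (mem_coe.1 hn)).1
        have hn1' := hz n' (mem_filter.1 (mem_coe.1 hn')).1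
        simp only at h
        have h2 : ((ar (L i) d t (α i * (n : ℤ) + b i) : ℕ) : ℤ) = ((ar (L i) d t (α i * (n' : ℤ) + b i) : ℕ) : ℤ) := by
          rw [h]
        rw [ar_cast _ d hd t _ (by linarith), ar_cast _ d hd t _ (by linarith)] at h2
        have h6 : (α i : ℤ) ≠ 0 := by
          have := hα i
          exact_mod_cast (by omega : α i ≠ 0)
        have h3 : (α i : ℤ) * n = α i * n' := by linarith
        exact_mod_cast mul_left_cancel₀ h6 h3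
      have h2 := card_le_card_of_injOn (s := (Ioc Y X).filter (fun n : ℕ => i ∈ Ap ∧ ∃ e : ℕ, E < e ∧ e ^ 2 ∣
          ar (L i) d t (α i * (n : ℤ) + b i))) (t := (Icc 1 Z).filter (fun z => ∃ e : ℕ, E < e ∧ e ^ 2 ∣ z))
          (fun n : ℕ => ar (L i) d t (α i * (n : ℤ) + b i)) (fun n hn => by
        rw [mem_coe, mem_filter] at hn
        obtain ⟨hn1, _, hn2⟩ := hn
        rw [mem_coe, mem_filter, mem_Icc]
        have hz1 := hz n hn1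
        have h3 := ar_cast (L i) d hd t _ (by linarith : 0 ≤ α i * (n : ℤ) + b i)
        have h4 : 0 ≤ ∑ j, (L i t j : ℤ) * d j := sum_nonneg fun j _ => mul_nonneg (by positivity) (hd j)
        have h5 : (α i : ℤ) * (n : ℤ) ≤ α i * (X : ℤ) :=
          mul_le_mul_of_nonneg_left (by exact_mod_cast (mem_Ioc.1 hn1).2) (by positivity)
        have h6 := hZ i hi t
        refine ⟨⟨?_, ?_⟩, hn2⟩
        · have : (1 : ℤ) ≤ ((ar (L i) d t (α i * (n : ℤ) + b i) : ℕ) : ℤ) := by rw [h3]; linarith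
          exact_mod_cast this
        · have : ((ar (L i) d t (α i * (n : ℤ) + b i) : ℕ) : ℤ) ≤ (Z : ℤ) := by rw [h3]; linarith
          exact_mod_cast this) hinj
      exact_mod_cast h2
    · have : ct (Ioc Y X) (fun n => i ∈ Ap ∧ ∃ e : ℕ, E < e ∧ e ^ 2 ∣ ar (L i) d t (α i * (n : ℤ) + b i)) = 0 := by
        rw [ct_eq, filter_false_of_mem, card_empty, Nat.cast_zero]
        rintro n _ ⟨h, _⟩
        exact hi h
      rw [this]
      positivity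
  have h1 := ct_exists (Ioc Y X) (fun (p : Fin k × Fin κ) (n : ℕ) => p.1 ∈ Ap ∧ ∃ e : ℕ, E < e ∧ e ^ 2 ∣
      ar (L p.1) d p.2 (α p.1 * (n : ℤ) + b p.1))
  refine h1.trans ((sum_le_sum fun p _ => h0 p).trans (le_of_eq ?_))
  rw [sum_const, card_univ, Fintype.card_prod, Fintype.card_fin, Fintype.card_fin, nsmul_eq_mul]
  push_cast
  ring

end Pool.Agent.Run7.h504.RM
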