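import Pool.Agent.Run7.h504.RM18

set_option autoImplicit false

/-!
# The normal law at displaced places: the first theorem
-/

open Finset

namespace Pool.Agent.Run7.h504.RM

open Pool.Agent.Results.MP_4a7640_nt.AperiodicClusters (IsMultSign Aperiodic Good cluster)
open Pool.Agent.H373R2.T7 (exI energy)
open Pool.Agent.Run7.h20.GM (Phi Sg cnt Sg_card Phi_nonneg Phi_le_one)

/-- patterns in residue classes -/
theorem tupQ {κ : ℕ} (r : ℕ) (lg : Finset (Fin r)) (h B W k R Q : ℕ) (hh : 1 ≤ h) (K ε : ℝ) (hε : 0 < ε)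
    (L : Fin k → Fin κ → Fin r → ℕ) (f : Fin k → ℕ → ℝ) (hf : ∀ i n, f i n = 1 ∨ f i n = -1)
    (Ap : Finset (Fin k)) (hAp : ∀ i ∈ Ap, IsMultSign (f i) ∧ Aperiodic (f i) ∧
      ∀ E : Finset (Fin κ), E.Nonempty → Good (fun _ => 1) (fun t j => (L i t j : ℤ)) lg E) :
    ∃ N₀ : ℕ, ∀ (N : ℕ) (D : Fin r → ℕ), N₀ ≤ N → BoxOk lg R N₀ D N →
      ∀ (x : Fin k → ℕ) (s : Fin k → ℕ → ℤ),
      (∀ i ∈ Ap, (∀ m ∈ Icc 1 (x i), |s i m| ≤ B * N) ∧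
        (energy h (x i) (s i) : ℝ) * N ≤ K * (x i : ℝ) ^ (2 * h)) →
      ∀ α : Fin k → ℕ, (∀ i, 1 ≤ α i) → ∀ A : Fin W → (Fin r → ℤ) → Set ℕ,
      ct (Fintype.piFinset fun i => Icc 1 (x i)) (fun m =>
        ε * ∏ j, (D j : ℝ) < ct (box D) (fun d => ¬ ∀ l, ∀ Y X : ℕ, Y ≤ X → (∀ i, α i * X ≤ B * N) →
          (∀ i, 0 ≤ α i * (Y : ℤ) + s i (m i)) → ∀ c < Q, ∀ σ : Fin k → Fin κ → ℝ, (∀ i t, σ i t = 1 ∨ σ i t = -1) →
          |ct (Ioc Y X) (fun n => (n ∈ A l d ∧ n % Q = c) ∧ ∀ i t, pv (f i) (L i) d t (α i * (n : ℤ) + s i (m i)) = σ i t) -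
            ct (Ioc Y X) (fun n => (n ∈ A l d ∧ n % Q = c) ∧ ∀ i, i ∉ Ap → ∀ t,
              pv (f i) (L i) d t (α i * (n : ℤ) + s i (m i)) = σ i t) / 2 ^ (κ * Ap.card)| ≤ ε * N)) ≤
        ε * ∏ i, (x i : ℝ) := by
  obtain ⟨N₀, h0⟩ := tupP r lg h B (W * Q) k R hh K ε hε L f hf Ap hAp
  refine ⟨N₀, fun N D hN hD x s hs α hα A => ?_⟩
  refine le_trans ?_ (h0 N D hN hD x s hs α hα (fun l d =>
    {n | n ∈ A (finProdFinEquiv.symm l).1 d ∧ n % Q = ((finProdFinEquiv.symm l).2 : ℕ)}))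
  apply ct_mono
  intro m _ hm
  refine lt_of_lt_of_le hm (ct_mono ?_)
  intro d _ hd hcon
  apply hd
  intro l Y X hYX hX hpos c hc σ hσ
  have h1 := hcon (finProdFinEquiv (l, ⟨c, hc⟩)) σ hσ Y X hYX hX hpos
  simp only [Equiv.symm_apply_apply, Set.mem_setOf_eq] at h1
  exact h1

lemma Phi_prod {ι : Type} (S : Finset ι) (τ : ι → ℝ) : |∏ i ∈ S, Phi (τ i)| ≤ 1 := by
  rw [abs_of_nonneg (prod_nonneg fun i _ => Phi_nonneg _)]
  exact prod_le_one (fun i _ => Phi_nonneg _) fun i _ => Phi_le_one _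

/-- the sizes -/
lemma size_le {k κ r : ℕ} (B N R : ℕ) (Ap : Finset (Fin k)) (L : Fin k → Fin κ → Fin r → ℕ) (D : Fin r → ℕ)
    (hD : ∀ j, D j ≤ R * N) (d : Fin r → ℤ) (hd : d ∈ box D) (b : Fin k → ℤ) (hb : ∀ i ∈ Ap, |b i| ≤ B * N)
    (α : Fin k → ℕ) (X : ℕ) (hX : ∀ i, α i * X ≤ B * N) :
    ∀ i ∈ Ap, ∀ t, (α i * (X : ℤ) + b i) + ∑ j, (L i t j : ℤ) * d j ≤
      (((2 * B + R * ∑ i, ∑ t, ∑ j, L i t j) * N : ℕ) : ℤ) := by
  intro i hi t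
  have h1 : (α i : ℤ) * X ≤ B * N := by exact_mod_cast hX i
  have h2 := (abs_le.1 (hb i hi)).2
  unfold box at hd
  rw [Fintype.mem_piFinset] at hd
  have h3 : ∑ j, (L i t j : ℤ) * d j ≤ ∑ j, (L i t j : ℤ) * (R * N : ℤ) := by
    apply sum_le_sum
    intro j _
    apply mul_le_mul_of_nonneg_left _ (by positivity)
    have h4 := (mem_Icc.1 (hd j)).2
    have h5 : ((D j : ℕ) : ℤ) ≤ ((R * N : ℕ) : ℤ) := by exact_mod_cast hD j
    push_cast at h5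
    linarith
  have h4 : ∑ j, (L i t j : ℤ) * (R * N : ℤ) ≤ ((R * (∑ i, ∑ t, ∑ j, L i t j) * N : ℕ) : ℤ) := by
    rw [← sum_mul]
    have h5 : ∑ j, L i t j ≤ ∑ i, ∑ t, ∑ j, L i t j := by
      refine le_trans ?_ (single_le_sum (f := fun i => ∑ t, ∑ j, L i t j) (fun _ _ => Nat.zero_le _) (mem_univ i))
      exact single_le_sum (f := fun t => ∑ j, L i t j) (fun _ _ => Nat.zero_le _) (mem_univ t)
    have h6 : ((∑ j, L i t j : ℕ) : ℤ) ≤ ((∑ i, ∑ t, ∑ j, L i t j : ℕ) : ℤ) := by exact_mod_cast h5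
    push_cast at h6 ⊢
    have h7 : (0 : ℤ) ≤ (R : ℤ) * N := by positivity
    nlinarith [mul_le_mul_of_nonneg_right h6 h7]
  push_cast at h4 ⊢
  linarith

/-- the constants -/
lemma consts (B k κ Λ R E₁ : ℕ) (ε : ℝ) (hε : 0 < ε) : ∃ (E Q : ℕ) (δ : ℝ), (1 ≤ E ∧ E₁ ≤ E) ∧ 1 ≤ Q ∧
    (∀ p : ℕ, p ≤ E → p.Prime → p ^ 2 ∣ Q) ∧ 0 < δ ∧ δ ≤ ε ∧
    (∀ a : ℕ, a ≤ k → ∀ N : ℝ, 0 ≤ N → (Q : ℝ) * (2 ^ (κ * a) * (δ * N)) ≤ ε * N) ∧
    (∀ N : ℕ, 2 * ((k : ℝ) * κ * ((((2 * B + R * Λ) * N : ℕ) : ℝ) / E)) ≤ ε * N) := by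
  obtain ⟨E₀, hE₀, hE₁⟩ : ∃ E₀ : ℕ, 2 * ((k : ℝ) * κ * ((2 * B + R * Λ : ℕ) : ℝ)) / ε ≤ E₀ ∧ E₁ ≤ E₀ := by
    obtain ⟨E₀, hE₀⟩ := exists_nat_ge (2 * ((k : ℝ) * κ * ((2 * B + R * Λ : ℕ) : ℝ)) / ε)
    exact ⟨E₀ + E₁, hE₀.trans (by push_cast; linarith [(Nat.cast_nonneg E₁ : (0 : ℝ) ≤ E₁)]), by omega⟩
  have hQ1 : 1 ≤ ((E₀ + 1).factorial) ^ 2 := Nat.one_le_pow _ _ (Nat.factorial_pos _)
  have hQ0 : (0 : ℝ) < (((E₀ + 1).factorial ^ 2 : ℕ) : ℝ) := by exact_mod_cast hQ1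
  refine ⟨E₀ + 1, (E₀ + 1).factorial ^ 2, min ε (ε / ((((E₀ + 1).factorial ^ 2 : ℕ) : ℝ) * 2 ^ (κ * k))),
    ⟨by omega, by omega⟩, hQ1, ?_, by positivity, min_le_left _ _, ?_, ?_⟩
  · intro p hp hp'
    exact pow_dvd_pow_of_dvd ((Nat.Prime.dvd_factorial hp').2 hp) 2
  · intro a ha N hN
    have h1 : min ε (ε / ((((E₀ + 1).factorial ^ 2 : ℕ) : ℝ) * 2 ^ (κ * k))) ≤
        ε / ((((E₀ + 1).factorial ^ 2 : ℕ) : ℝ) * 2 ^ (κ * k)) := min_le_right _ _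
    have h2 : (2 : ℝ) ^ (κ * a) ≤ 2 ^ (κ * k) := pow_le_pow_right₀ (by norm_num) (Nat.mul_le_mul_left _ ha)
    calc (((E₀ + 1).factorial ^ 2 : ℕ) : ℝ) * (2 ^ (κ * a) * (min ε (ε / ((((E₀ + 1).factorial ^ 2 : ℕ) : ℝ) * 2 ^ (κ * k))) * N))
        ≤ (((E₀ + 1).factorial ^ 2 : ℕ) : ℝ) * (2 ^ (κ * k) * (ε / ((((E₀ + 1).factorial ^ 2 : ℕ) : ℝ) * 2 ^ (κ * k)) * N)) := by
          apply mul_le_mul_of_nonneg_left _ hQ0.le
          exact mul_le_mul h2 (mul_le_mul_of_nonneg_right h1 hN) (by positivity) (by positivity)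
      _ = ε * N := by field_simp
  · intro N
    have hE0 : (0 : ℝ) < ((E₀ + 1 : ℕ) : ℝ) := by positivity
    rw [div_le_iff₀ hε] at hE₀
    have h1 : 2 * ((k : ℝ) * κ * ((((2 * B + R * Λ) * N : ℕ) : ℝ) / ((E₀ + 1 : ℕ) : ℝ))) =
        2 * ((k : ℝ) * κ * ((2 * B + R * Λ : ℕ) : ℝ)) * N / ((E₀ + 1 : ℕ) : ℝ) := by
      push_cast
      ring
    rw [h1, div_le_iff₀ hE0]
    have h2 : ((E₀ : ℕ) : ℝ) ≤ ((E₀ + 1 : ℕ) : ℝ) := by push_cast; linarith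
    have hN : (0 : ℝ) ≤ N := Nat.cast_nonneg _
    calc 2 * ((k : ℝ) * κ * ((2 * B + R * Λ : ℕ) : ℝ)) * N ≤ (E₀ * ε) * N := mul_le_mul_of_nonneg_right hE₀ hN
      _ ≤ (((E₀ + 1 : ℕ) : ℝ) * ε) * N := mul_le_mul_of_nonneg_right (mul_le_mul_of_nonneg_right h2 hε.le) hN
      _ = _ := by ring

/-- **The normal law, self-normalised.** -/
theorem gaussSelf (B k : ℕ) (ε : ℝ) (hε : 0 < ε) : ∃ M₀ : ℕ, ∀ (κ r : ℕ) (lg : Finset (Fin r)) (h W R : ℕ), 1 ≤ h →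
    ∀ (K : ℝ) (L : Fin k → Fin κ → Fin r → ℕ) (f g : Fin k → ℕ → ℝ), (∀ i n, f i n = 1 ∨ f i n = -1) →
    ∀ (Ap Sq : Finset (Fin k)), (∀ i ∈ Ap, IsMultSign (f i) ∧ Aperiodic (f i) ∧
      ∀ E : Finset (Fin κ), E.Nonempty → Good (fun _ => 1) (fun t j => (L i t j : ℤ)) lg E) →
    (∀ i ∈ Ap, ∀ y, g i y = f i y * mk (i ∈ Sq) y) →
    ∃ N₀ : ℕ, ∀ (N : ℕ) (D : Fin r → ℕ), N₀ ≤ N → BoxOk lg R N₀ D N →
      ∀ (x : Fin k → ℕ) (s : Fin k → ℕ → ℤ),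
      (∀ i ∈ Ap, (∀ m ∈ Icc 1 (x i), |s i m| ≤ B * N) ∧
        (energy h (x i) (s i) : ℝ) * N ≤ K * (x i : ℝ) ^ (2 * h)) →
      ∀ α : Fin k → ℕ, (∀ i, 1 ≤ α i) → ∀ A : Fin W → (Fin r → ℤ) → Set ℕ,
      ct (Fintype.piFinset fun i => Icc 1 (x i)) (fun m =>
        ε * ∏ j, (D j : ℝ) < ct (box D) (fun d => ¬ ∀ l, ∀ Y X : ℕ, Y ≤ X → (∀ i, α i * X ≤ B * N) →
          (∀ i, 0 ≤ α i * (Y : ℤ) + s i (m i)) → ∀ σ : Fin k → Fin κ → ℝ, (∀ i t, σ i t = 1 ∨ σ i t = -1) →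
          ∀ τ : Fin k → ℝ,
          |ct (Ioc Y X) (fun n => n ∈ A l d ∧ (∀ i, i ∉ Ap → ∀ t, pv (f i) (L i) d t (α i * (n : ℤ) + s i (m i)) = σ i t) ∧
              (∀ i ∈ Ap, M₀ ≤ Qm (g i) (L i) d (α i * (n : ℤ) + s i (m i))) ∧
              ∀ i ∈ Ap, Sm (g i) (L i) d (α i * (n : ℤ) + s i (m i)) ≤
                τ i * √(Qm (g i) (L i) d (α i * (n : ℤ) + s i (m i)))) -
            (∏ i ∈ Ap, Phi (τ i)) * ct (Ioc Y X) (fun n => n ∈ A l d ∧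
              (∀ i, i ∉ Ap → ∀ t, pv (f i) (L i) d t (α i * (n : ℤ) + s i (m i)) = σ i t) ∧
              (∀ i ∈ Ap, M₀ ≤ Qm (g i) (L i) d (α i * (n : ℤ) + s i (m i))))| ≤ ε * N)) ≤
        ε * ∏ i, (x i : ℝ) := by
  classical
  obtain ⟨M₁, δ₁, hM₁, hδ₁, hsl⟩ := sign_law (ε / (3 * (k + 1) * (B + 1))) (by positivity)
  obtain ⟨M₀, hM₀⟩ := exists_nat_ge M₁
  refine ⟨M₀, fun κ r lg h W R hh K L f g hf Ap Sq hAp hg => ?_⟩
  obtain ⟨E, Q, δ, ⟨hE1, _⟩, hQ1, hEQ, hδ0, hδε, hc1, hc2⟩ := consts B k κ (∑ i, ∑ t, ∑ j, L i t j) R 0 (ε / 3) (by positivity)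
  obtain ⟨N₀, h0⟩ := tupQ r lg h B W k R Q hh K δ hδ0 L f hf Ap hAp
  refine ⟨N₀, fun N D hN hD x s hs α hα A => ?_⟩
  have hX0 : 0 ≤ ∏ i, (x i : ℝ) := prod_nonneg fun _ _ => Nat.cast_nonneg _
  have hPD : (0 : ℝ) ≤ ∏ j, (D j : ℝ) := prod_nonneg fun _ _ => Nat.cast_nonneg _
  have hδε' : δ ≤ ε := by linarith
  refine le_trans ?_ ((h0 N D hN hD x s hs α hα A).trans (mul_le_mul_of_nonneg_right hδε' hX0))
  apply ct_mono
  intro m hm' hm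
  refine lt_of_le_of_lt (mul_le_mul_of_nonneg_right hδε' hPD) (lt_of_lt_of_le hm (ct_mono ?_))
  intro d hdb hd hcon
  apply hd
  intro l Y X hYX hX hpos σ hσ τ
  have hN0 : (0 : ℝ) ≤ N := Nat.cast_nonneg _
  have hd0 : ∀ j, 0 ≤ d j := by
    intro j
    have hdb' := hdb
    unfold box at hdb'
    rw [Fintype.mem_piFinset] at hdb'
    have := (mem_Icc.1 (hdb' j)).1
    omega
  set b : Fin k → ℤ := fun i => s i (m i) with hb
  have hz : ∀ i, ∀ n ∈ Ioc Y X, 0 ≤ α i * (n : ℤ) + b i := by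
    intro i n hn
    have hn1 := (mem_Ioc.1 hn).1
    have h5 : (α i : ℤ) * (Y : ℤ) ≤ α i * (n : ℤ) :=
      mul_le_mul_of_nonneg_left (by exact_mod_cast hn1.le) (by positivity)
    have h7 := hpos i
    simp only [hb]
    linarith
  have hseq : ∀ n ∈ Ioc Y X, ¬ bad E Ap L d b α n → ∀ i ∈ Ap,
      Qm (g i) (L i) d (α i * (n : ℤ) + b i) = cnt (acl E Sq L d b α (n % Q) i) := by
    intro n hn hbad i hi
    exact (sum_eq E Q hEQ Sq L d hd0 b α f g hf i (hg i hi) n (hz i n hn) (fun t ht => hbad ⟨(i, t), hi, ht⟩)).2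
  have hmain := self_det Ap Sq f g hf hg L d hd0 b α (A l d) Y X hpos E Q hQ1 hEQ (δ * N)
    (hcon l Y X hYX hX hpos) σ hσ (fun c => ∀ i ∈ Ap, M₀ ≤ cnt (acl E Sq L d b α c i))
    (fun n => ∀ i ∈ Ap, M₀ ≤ Qm (g i) (L i) d (α i * (n : ℤ) + b i))
    (fun c i => τ i * √(cnt (acl E Sq L d b α c i)))
    (fun n i => τ i * √(Qm (g i) (L i) d (α i * (n : ℤ) + b i))) (∏ i ∈ Ap, Phi (τ i))
    (Ap.card * (ε / (3 * (k + 1) * (B + 1)))) (by positivity)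
    (fun n hn hbad => by
      constructor
      · intro h1 i hi
        rw [← hseq n hn hbad i hi]
        exact h1 i hi
      · intro h1 i hi
        rw [hseq n hn hbad i hi]
        exact h1 i hi)
    (fun n hn hbad i hi => by
      rw [hseq n hn hbad i hi])
    (Phi_prod Ap τ)
    (fun c hc hC => by
      apply prod_close Ap _ _ _ (fun i _ => sp_nonneg _ _) (fun i _ => sp_le_one _ _) (fun i _ => Phi_nonneg _)
        (fun i _ => Phi_le_one _)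
      intro i hi
      have h1 : M₁ ≤ (cnt (acl E Sq L d b α c i) : ℝ) := hM₀.trans (by exact_mod_cast hC i hi)
      refine hsl κ (acl E Sq L d b α c i) (fun t => mkE_val _ _ _) _ h1 ?_ (τ i)
      rw [sub_self, abs_zero]
      positivity)
  refine hmain.trans ?_
  have h1 := hc1 Ap.card (by simpa using card_le_univ Ap) N hN0
  have h2 := bad_card E hE1 Ap L d hd0 b α hα Y X hpos _ (size_le B N R Ap L D (hD.2.1) d hdb b
    (fun i hi => (hs i hi).1 (m i) (by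
      rw [Fintype.mem_piFinset] at hm'
      exact hm' i)) α X hX)
  have h3 := hc2 N
  have h4 : (Ap.card : ℝ) * (ε / (3 * (k + 1) * (B + 1))) * ((Ioc Y X).card : ℝ) ≤ ε / 3 * N := by
    rcases Ap.eq_empty_or_nonempty with hA | ⟨i, hi⟩
    · rw [hA, card_empty, Nat.cast_zero, zero_mul, zero_mul]
      positivity
    · have h5 : ((Ioc Y X).card : ℝ) ≤ B * N := by
        rw [Nat.card_Ioc]
        have h6 : X - Y ≤ B * N := (Nat.sub_le _ _).trans ((Nat.le_mul_of_pos_left X (hα i)).trans (hX i))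
        exact_mod_cast h6
      have h6 : (Ap.card : ℝ) ≤ k := by
        have := card_le_univ Ap
        rw [Fintype.card_fin] at this
        exact_mod_cast this
      have h7 : (Ap.card : ℝ) * (ε / (3 * (k + 1) * (B + 1))) * ((Ioc Y X).card : ℝ) ≤
          k * (ε / (3 * (k + 1) * (B + 1))) * (B * N) := by
        apply mul_le_mul _ h5 (Nat.cast_nonneg _) (by positivity)
        exact mul_le_mul_of_nonneg_right h6 (by positivity)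
      refine h7.trans ?_
      have h8 : (k : ℝ) * (ε / (3 * (k + 1) * (B + 1))) * (B * N) = (k / (k + 1)) * (B / (B + 1)) * (ε / 3 * N) := by
        field_simp
      rw [h8]
      have h9 : (k : ℝ) / (k + 1) ≤ 1 := by rw [div_le_one (by positivity)]; linarith
      have h10 : (B : ℝ) / (B + 1) ≤ 1 := by rw [div_le_one (by positivity)]; linarith
      have h11 : (k : ℝ) / (k + 1) * (B / (B + 1)) ≤ 1 := mul_le_one₀ h9 (by positivity) h10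
      have h12 : 0 ≤ ε / 3 * N := by positivity
      nlinarith
  linarith

end Pool.Agent.Run7.h504.RM
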