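import Pool.Agent.Run7.h504.RM19

set_option autoImplicit false

/-!
# The number of the squarefree places of a window
-/

open Finset

namespace Pool.Agent.Run7.h504.RM

open Pool.Agent.Run7.h20.GM (cnt)

lemma cnt_dvd (e : ℕ) (he : 1 ≤ e) (z : ℤ) (D : ℕ) :
    |(((Icc (1 : ℤ) D).filter (fun x => (e : ℤ) ∣ z + x)).card : ℝ) - D / e| ≤ 1 := by
  have h0 : (0 : ℤ) < e := by exact_mod_cast he
  have h1 : (Icc (1 : ℤ) D).filter (fun x => (e : ℤ) ∣ z + x) = (Ioc (0 : ℤ) D).filter (fun x => x ≡ -z [ZMOD e]) := by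
    ext x
    simp only [mem_filter, mem_Icc, mem_Ioc]
    apply and_congr (by omega)
    rw [Int.modEq_comm, Int.modEq_iff_dvd]
    have : x - -z = z + x := by ring
    rw [this]
  have h2 := Int.Ioc_filter_modEq_card 0 (D : ℤ) h0 (-z)
  rw [← h1] at h2
  have he0 : (0 : ℚ) < (e : ℚ) := by exact_mod_cast he
  set u : ℚ := (((D : ℤ) : ℚ) - ((-z : ℤ) : ℚ)) / ((e : ℤ) : ℚ) with hu
  set w : ℚ := (((0 : ℤ) : ℚ) - ((-z : ℤ) : ℚ)) / ((e : ℤ) : ℚ) with hw
  have huw : u - w = (D : ℚ) / e := by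
    rw [hu, hw]
    push_cast
    ring
  have hD : (0 : ℚ) ≤ (D : ℚ) / e := by positivity
  have hle : ⌊w⌋ ≤ ⌊u⌋ := Int.floor_le_floor (by linarith)
  have h3 : (((Icc (1 : ℤ) D).filter (fun x => (e : ℤ) ∣ z + x)).card : ℤ) = ⌊u⌋ - ⌊w⌋ := by
    rw [h2]
    exact max_eq_left (by linarith)
  have h4 : ((((Icc (1 : ℤ) D).filter (fun x => (e : ℤ) ∣ z + x)).card : ℤ) : ℚ) = ⌊u⌋ - ⌊w⌋ := by
    rw [h3]
    push_cast
    ring
  have h5 := Int.floor_le u
  have h6 := Int.lt_floor_add_one u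
  have h7 := Int.floor_le w
  have h8 := Int.lt_floor_add_one w
  have h9 : |((((Icc (1 : ℤ) D).filter (fun x => (e : ℤ) ∣ z + x)).card : ℤ) : ℚ) - D / e| ≤ 1 := by
    rw [h4, abs_le]
    constructor <;> linarith
  have h10 : ((|((((Icc (1 : ℤ) D).filter (fun x => (e : ℤ) ∣ z + x)).card : ℤ) : ℚ) - D / e| : ℚ) : ℝ) ≤ ((1 : ℚ) : ℝ) := by
    exact_mod_cast h9
  push_cast at h10
  exact h10

lemma cnt_sqf (P : Finset ℕ) (hP : ∀ p ∈ P, p.Prime) : ∀ e : ℕ, 1 ≤ e → (∀ p ∈ P, Nat.Coprime e p) → ∀ (z : ℤ) (D : ℕ),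
    |ct (Icc (1 : ℤ) D) (fun x => (e : ℤ) ∣ z + x ∧ ∀ p ∈ P, ¬ ((p ^ 2 : ℕ) : ℤ) ∣ z + x) -
      D / e * ∏ p ∈ P, (1 - 1 / (p : ℝ) ^ 2)| ≤ 2 ^ P.card := by
  classical
  induction P using Finset.induction_on with
  | empty =>
    intro e he _ z D
    rw [ct_congr (Q := fun x : ℤ => (e : ℤ) ∣ z + x) (fun x _ => by simp), ct_eq]
    simp only [prod_empty, mul_one, card_empty, pow_zero]
    exact cnt_dvd e he z D
  | insert p P hp ih =>
    intro e he hc z D
    have hpp := hP p (mem_insert_self _ _)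
    have ih1 := ih (fun q hq => hP q (mem_insert_of_mem hq)) e he (fun q hq => hc q (mem_insert_of_mem hq)) z D
    have hcop : ∀ q ∈ P, Nat.Coprime (e * p ^ 2) q := by
      intro q hq
      apply Nat.Coprime.mul_left (hc q (mem_insert_of_mem hq))
      apply Nat.Coprime.pow_left
      rw [Nat.coprime_primes hpp (hP q (mem_insert_of_mem hq))]
      rintro rfl
      exact hp hq
    have ih2 := ih (fun q hq => hP q (mem_insert_of_mem hq)) (e * p ^ 2) (Nat.mul_pos he (pow_pos hpp.pos 2)) hcop z D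
    have h1 : ct (Icc (1 : ℤ) D) (fun x => (e : ℤ) ∣ z + x ∧ ∀ q ∈ P, ¬ ((q ^ 2 : ℕ) : ℤ) ∣ z + x) =
        ct (Icc (1 : ℤ) D) (fun x => (e : ℤ) ∣ z + x ∧ ∀ q ∈ insert p P, ¬ ((q ^ 2 : ℕ) : ℤ) ∣ z + x) +
        ct (Icc (1 : ℤ) D) (fun x => ((e * p ^ 2 : ℕ) : ℤ) ∣ z + x ∧ ∀ q ∈ P, ¬ ((q ^ 2 : ℕ) : ℤ) ∣ z + x) := by
      have h3 : ct (Icc (1 : ℤ) D) (fun x => (e : ℤ) ∣ z + x ∧ ∀ q ∈ insert p P, ¬ ((q ^ 2 : ℕ) : ℤ) ∣ z + x) =
          ct (Icc (1 : ℤ) D) (fun x => ((e : ℤ) ∣ z + x ∧ ∀ q ∈ P, ¬ ((q ^ 2 : ℕ) : ℤ) ∣ z + x) ∧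
          ¬ ((p ^ 2 : ℕ) : ℤ) ∣ z + x) := by
        apply ct_congr
        intro x _
        simp only [mem_insert, forall_eq_or_imp]
        tauto
      have h4 : ct (Icc (1 : ℤ) D) (fun x => ((e * p ^ 2 : ℕ) : ℤ) ∣ z + x ∧ ∀ q ∈ P, ¬ ((q ^ 2 : ℕ) : ℤ) ∣ z + x) =
          ct (Icc (1 : ℤ) D) (fun x => ((e : ℤ) ∣ z + x ∧ ∀ q ∈ P, ¬ ((q ^ 2 : ℕ) : ℤ) ∣ z + x) ∧
          ((p ^ 2 : ℕ) : ℤ) ∣ z + x) := by
        apply ct_congr
        intro x _
        have h5 : ((e * p ^ 2 : ℕ) : ℤ) ∣ z + x ↔ (e : ℤ) ∣ z + x ∧ ((p ^ 2 : ℕ) : ℤ) ∣ z + x := by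
          constructor
          · intro h
            constructor
            · exact (Int.natCast_dvd_natCast.2 (Dvd.intro _ rfl)).trans h
            · exact (Int.natCast_dvd_natCast.2 (Dvd.intro_left _ rfl)).trans h
          · rintro ⟨h6, h7⟩
            rw [Nat.cast_mul]
            apply IsCoprime.mul_dvd _ h6 h7
            rw [Nat.isCoprime_iff_coprime]
            exact Nat.Coprime.pow_right 2 (hc p (mem_insert_self _ _))
        rw [h5]
        tauto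
      rw [h3, h4, ct_eq, ct_eq, ct_eq]
      have h2 := card_filter_add_card_filter_not (s := (Icc (1 : ℤ) D).filter
        (fun x => (e : ℤ) ∣ z + x ∧ ∀ q ∈ P, ¬ ((q ^ 2 : ℕ) : ℤ) ∣ z + x)) (fun x => ((p ^ 2 : ℕ) : ℤ) ∣ z + x)
      rw [filter_filter, filter_filter] at h2
      rw [← h2]
      push_cast
      ring
    have h2 : (D : ℝ) / e * ∏ q ∈ insert p P, (1 - 1 / (q : ℝ) ^ 2) =
        (D : ℝ) / e * ∏ q ∈ P, (1 - 1 / (q : ℝ) ^ 2) - (D : ℝ) / ((e * p ^ 2 : ℕ) : ℝ) * ∏ q ∈ P, (1 - 1 / (q : ℝ) ^ 2) := by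
      rw [prod_insert hp]
      have hp0 : (p : ℝ) ≠ 0 := by exact_mod_cast hpp.ne_zero
      have he0 : (e : ℝ) ≠ 0 := by exact_mod_cast (by omega : e ≠ 0)
      push_cast
      field_simp
    rw [h2, card_insert_of_notMem hp, pow_succ]
    have h3 : ∀ c1 c2 c3 t1 t2 y : ℝ, c1 = c2 + c3 → |c1 - t1| ≤ y → |c3 - t2| ≤ y → |c2 - (t1 - t2)| ≤ y * 2 := by
      intro c1 c2 c3 t1 t2 y hc i1 i2
      rw [abs_le] at i1 i2 ⊢
      constructor <;> linarith
    exact h3 _ _ _ _ _ _ h1 ih1 ih2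

/-- the density of the integers without square divisors up to `E` -/
noncomputable def dens (E : ℕ) : ℝ := ∏ p ∈ (range (E + 1)).filter Nat.Prime, (1 - 1 / (p : ℝ) ^ 2)

open Filter Topology in
lemma dens_tendsto : Tendsto dens atTop (𝓝 (6 / Real.pi ^ 2)) := by
  have h1 := riemannZeta_eulerProduct (s := 2) (by norm_num)
  rw [riemannZeta_two] at h1
  have hpi : ((Real.pi : ℂ) ^ 2 / 6) ≠ 0 := by
    have : (Real.pi : ℂ) ≠ 0 := by exact_mod_cast Real.pi_ne_zero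
    exact div_ne_zero (pow_ne_zero _ this) (by norm_num)
  have h2 := h1.inv₀ hpi
  have h3 := h2.comp (tendsto_add_atTop_nat 1)
  have h4 : (fun n : ℕ => (∏ p ∈ Nat.primesBelow n, (1 - (p : ℂ) ^ (-(2 : ℂ)))⁻¹)⁻¹) ∘ (fun a => a + 1) =
      fun E => ((dens E : ℝ) : ℂ) := by
    funext E
    simp only [Function.comp_apply]
    unfold dens
    rw [← prod_inv_distrib]
    push_cast
    apply prod_congr rfl
    intro p _
    rw [inv_inv, Complex.cpow_neg]
    norm_num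
  have h5 : (fun x => (∏ p ∈ Nat.primesBelow x, (1 - (p : ℂ) ^ (-(2 : ℂ)))⁻¹)⁻¹) ∘ (fun a => a + 1) =
      fun E => ((dens E : ℝ) : ℂ) := h4
  have h6 : Tendsto (fun E => ((dens E : ℝ) : ℂ)) atTop (𝓝 (((6 / Real.pi ^ 2 : ℝ)) : ℂ)) := by
    rw [← h5]
    convert h3 using 2
    push_cast
    rw [inv_div]
  have h7 := (Complex.continuous_re.tendsto _).comp h6
  have h8 : (Complex.re ∘ fun E => ((dens E : ℝ) : ℂ)) = dens := by
    funext E
    simp
  rw [h8, Complex.ofReal_re] at h7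
  exact h7

/-- the sum of the indicator function over an interval -/
lemma sum_mkE (E : ℕ) (z : ℤ) (D : ℕ) :
    |∑ x ∈ Icc (1 : ℤ) D, (mkE E True (z + x) - dens E)| ≤ 2 ^ (E + 1) := by
  classical
  have h1 := cnt_sqf ((range (E + 1)).filter Nat.Prime) (fun p hp => (mem_filter.1 hp).2) 1 le_rfl
    (fun p _ => Nat.coprime_one_left _) z D
  have h2 : ∑ x ∈ Icc (1 : ℤ) D, (mkE E True (z + x) - dens E) =
      ct (Icc (1 : ℤ) D) (fun x => ((1 : ℕ) : ℤ) ∣ z + x ∧ ∀ p ∈ (range (E + 1)).filter Nat.Prime,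
        ¬ ((p ^ 2 : ℕ) : ℤ) ∣ z + x) - D / ((1 : ℕ) : ℝ) * ∏ p ∈ (range (E + 1)).filter Nat.Prime, (1 - 1 / (p : ℝ) ^ 2) := by
    rw [sum_sub_distrib, sum_const, Int.card_Icc, nsmul_eq_mul]
    have e1 : ∑ x ∈ Icc (1 : ℤ) D, mkE E True (z + x) = ct (Icc (1 : ℤ) D) (fun x => ((1 : ℕ) : ℤ) ∣ z + x ∧
        ∀ p ∈ (range (E + 1)).filter Nat.Prime, ¬ ((p ^ 2 : ℕ) : ℤ) ∣ z + x) := by
      rw [ct_eq, card_filter]
      push_cast
      apply sum_congr rfl
      intro x _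
      unfold mkE
      congr 1
      apply propext
      simp only [forall_const, one_dvd, true_and, mem_filter, mem_range, and_imp]
      constructor
      · intro h p hp hp'
        have := h p (by omega) hp'
        push_cast at this
        exact this
      · intro h p hp hp'
        have := h p (by omega) hp'
        push_cast
        exact this
    rw [e1]
    unfold dens
    congr 1
    simp
  rw [h2]
  refine h1.trans ?_
  apply pow_le_pow_right₀ (by norm_num)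
  refine (card_filter_le _ _).trans ?_
  rw [card_range]

/-- the second moment over a box -/
lemma sec_mom {κ : ℕ} (D : Fin κ → ℕ) (u : ℤ → ℝ) (hu : ∀ x, |u x| ≤ 1) (ρ : ℝ) (hρ : 0 ≤ ρ)
    (h : ∀ t, |∑ x ∈ Icc (1 : ℤ) (D t), u x| ≤ ρ * D t) :
    ∑ d ∈ box D, (∑ t, u (d t)) ^ 2 ≤ (κ + κ ^ 2 * ρ ^ 2) * ∏ t, (D t : ℝ) := by
  classical
  have hPD : (0 : ℝ) ≤ ∏ j, (D j : ℝ) := prod_nonneg fun _ _ => Nat.cast_nonneg _
  have h1 : ∀ t t' : Fin κ, ∑ d ∈ box D, u (d t) * u (d t') ≤ (if t = t' then 1 else ρ ^ 2) * ∏ t, (D t : ℝ) := by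
    intro t t'
    by_cases htt : t = t'
    · rw [if_pos htt, one_mul, ← card_box, ← htt]
      have : ∀ d ∈ box D, u (d t) * u (d t) ≤ 1 := by
        intro d _
        have := hu (d t)
        rw [← abs_mul_abs_self]
        exact mul_le_one₀ this (abs_nonneg _) this
      refine (sum_le_sum this).trans (le_of_eq ?_)
      rw [sum_const, nsmul_eq_mul, mul_one]
    · rw [if_neg htt]
      set w : Fin κ → ℤ → ℝ := fun j x => if j = t ∨ j = t' then u x else 1 with hw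
      set c : Fin κ → ℝ := fun j => if j = t ∨ j = t' then ρ else 1 with hc
      have e1 : ∀ d : Fin κ → ℤ, u (d t) * u (d t') = ∏ j, w j (d j) := by
        intro d
        symm
        rw [prod_eq_mul t t' htt (fun j _ hj => by
          simp only [hw]
          rw [if_neg]
          tauto) (fun h => absurd (mem_univ _) h) (fun h => absurd (mem_univ _) h)]
        simp [hw]
      have e2 : ∏ j, c j = ρ ^ 2 := by
        rw [prod_eq_mul t t' htt (fun j _ hj => by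
          simp only [hc]
          rw [if_neg]
          tauto) (fun h => absurd (mem_univ _) h) (fun h => absurd (mem_univ _) h)]
        simp only [hc, true_or, or_true, if_true]
        ring
      rw [sum_congr rfl fun d _ => e1 d]
      unfold box
      rw [← prod_univ_sum]
      refine (le_abs_self _).trans ?_
      rw [abs_prod, ← e2, ← prod_mul_distrib]
      apply prod_le_prod (fun _ _ => abs_nonneg _)
      intro j _
      simp only [hw, hc]
      split_ifs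
      · exact h j
      · rw [sum_const, Int.card_Icc, nsmul_eq_mul, mul_one, one_mul]
        simp
  have h2 : ∑ d ∈ box D, (∑ t, u (d t)) ^ 2 = ∑ t, ∑ t', ∑ d ∈ box D, u (d t) * u (d t') := by
    have e1 : ∀ d ∈ box D, (∑ t, u (d t)) ^ 2 = ∑ t, ∑ t', u (d t) * u (d t') := by
      intro d _
      rw [pow_two, sum_mul_sum]
    rw [sum_congr rfl e1, sum_comm]
    apply sum_congr rfl
    intro t _
    rw [sum_comm]
  rw [h2]
  refine (sum_le_sum fun t _ => sum_le_sum fun t' _ => h1 t t').trans ?_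
  simp only [← sum_mul]
  apply mul_le_mul_of_nonneg_right _ hPD
  have h3 : ∀ t : Fin κ, ∑ t' : Fin κ, (if t = t' then (1 : ℝ) else ρ ^ 2) ≤ 1 + κ * ρ ^ 2 := by
    intro t
    have : ∀ t' : Fin κ, (if t = t' then (1 : ℝ) else ρ ^ 2) ≤ (if t = t' then 1 else 0) + ρ ^ 2 := by
      intro t'
      split_ifs
      · nlinarith [sq_nonneg ρ]
      · linarith
    refine (sum_le_sum fun t' _ => this t').trans (le_of_eq ?_)
    rw [sum_add_distrib, sum_ite_eq, if_pos (mem_univ _), sum_const, card_univ, Fintype.card_fin, nsmul_eq_mul]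
  refine (sum_le_sum fun t _ => h3 t).trans (le_of_eq ?_)
  rw [sum_const, card_univ, Fintype.card_fin, nsmul_eq_mul]
  ring

end Pool.Agent.Run7.h504.RM
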