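import Pool.Agent.Run7.h504.RM20

set_option autoImplicit false

/-!
# The normal law at displaced places: the second theorem
-/

open Finset

namespace Pool.Agent.Run7.h504.RM

open Pool.Agent.Results.MP_4a7640_nt.AperiodicClusters (IsMultSign Aperiodic Good cluster)
open Pool.Agent.H373R2.T7 (exI energy)
open Pool.Agent.Run7.h20.GM (Phi Sg cnt Sg_card Phi_nonneg Phi_le_one)

lemma dens_mem (E : ℕ) : 0 ≤ dens E ∧ dens E ≤ 1 := by
  unfold dens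
  have h : ∀ p ∈ (range (E + 1)).filter Nat.Prime, 0 ≤ 1 - 1 / (p : ℝ) ^ 2 ∧ 1 - 1 / (p : ℝ) ^ 2 ≤ 1 := by
    intro p hp
    have hp2 : (1 : ℝ) ≤ p := by exact_mod_cast (mem_filter.1 hp).2.one_lt.le
    have h1 : 0 ≤ 1 / (p : ℝ) ^ 2 := by positivity
    have h2 : 1 / (p : ℝ) ^ 2 ≤ 1 := by
      rw [div_le_one (by positivity)]
      exact one_le_pow₀ hp2
    constructor <;> linarith
  exact ⟨prod_nonneg fun p hp => (h p hp).1, prod_le_one (fun p hp => (h p hp).1) fun p hp => (h p hp).2⟩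

/-- the law of large numbers for the squarefree places -/
lemma lln (ε₂ δ₂ : ℝ) (hε : 0 < ε₂) (hδ : 0 < δ₂) : ∃ κ₀ E₀ : ℕ, ∀ κ : ℕ, κ₀ ≤ κ → ∀ E : ℕ, E₀ ≤ E → ∃ N₀ : ℕ,
    ∀ D : Fin κ → ℕ, (∀ t, N₀ ≤ D t) → ∀ z : ℤ,
      ct (box D) (fun d => δ₂ * κ < |∑ t, mkE E True (z + d t) - κ * (6 / Real.pi ^ 2)|) ≤ ε₂ * ∏ t, (D t : ℝ) := by
  have h1 : ∀ᶠ E in Filter.atTop, |dens E - 6 / Real.pi ^ 2| < δ₂ / 2 := by
    have := dens_tendsto.eventually (Metric.ball_mem_nhds _ (half_pos hδ))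
    filter_upwards [this] with E hE
    rwa [Real.dist_eq] at hE
  obtain ⟨E₀, hE₀⟩ := Filter.eventually_atTop.1 h1
  obtain ⟨κ₀, hκ₀⟩ := exists_nat_ge (8 / (δ₂ ^ 2 * ε₂))
  refine ⟨κ₀ + 1, E₀, fun κ hκ E hE => ?_⟩
  set ρ : ℝ := min 1 (δ₂ ^ 2 * ε₂ / 8) with hρ
  have hρ0 : 0 < ρ := by positivity
  have hρ1 : ρ ^ 2 ≤ δ₂ ^ 2 * ε₂ / 8 := by
    have e1 : ρ ≤ 1 := min_le_left _ _
    have e2 : ρ ≤ δ₂ ^ 2 * ε₂ / 8 := min_le_right _ _
    nlinarith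
  obtain ⟨N₀, hN₀⟩ := exists_nat_ge ((2 : ℝ) ^ (E + 1) / ρ)
  refine ⟨N₀, fun D hD z => ?_⟩
  have hκ1 : (κ₀ : ℝ) + 1 ≤ κ := by exact_mod_cast hκ
  have hκ0 : (0 : ℝ) < κ := by linarith [(Nat.cast_nonneg κ₀ : (0 : ℝ) ≤ κ₀)]
  have hPD : (0 : ℝ) ≤ ∏ j, (D j : ℝ) := prod_nonneg fun _ _ => Nat.cast_nonneg _
  obtain ⟨hd0, hd1⟩ := dens_mem E
  set u : ℤ → ℝ := fun x => mkE E True (z + x) - dens E with hu
  have hu1 : ∀ x, |u x| ≤ 1 := by
    intro x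
    simp only [hu]
    have : mkE E True (z + x) = 0 ∨ mkE E True (z + x) = 1 := by
      unfold mkE
      split_ifs
      · exact Or.inr rfl
      · exact Or.inl rfl
    rw [abs_le]
    rcases this with h | h <;> rw [h] <;> constructor <;> linarith
  have h2 := sec_mom D u hu1 ρ hρ0.le (fun t => by
    refine (sum_mkE E z (D t)).trans ?_
    rw [div_le_iff₀ hρ0] at hN₀
    refine hN₀.trans ?_
    rw [mul_comm]
    apply mul_le_mul_of_nonneg_left _ hρ0.le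
    exact_mod_cast hD t)
  have h3 := ct_markov (box D) (fun d => (∑ t, u (d t)) ^ 2) (fun _ _ => sq_nonneg _) (c := (δ₂ * κ / 2) ^ 2)
  have h4 : ct (box D) (fun d => δ₂ * κ < |∑ t, mkE E True (z + d t) - κ * (6 / Real.pi ^ 2)|) ≤
      ct (box D) (fun d => (δ₂ * κ / 2) ^ 2 < (∑ t, u (d t)) ^ 2) := by
    apply ct_mono
    intro d _ hd
    have e1 : ∑ t, mkE E True (z + d t) - κ * (6 / Real.pi ^ 2) = ∑ t, u (d t) + κ * (dens E - 6 / Real.pi ^ 2) := by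
      simp only [hu]
      rw [sum_sub_distrib, sum_const, card_univ, Fintype.card_fin, nsmul_eq_mul]
      ring
    rw [e1] at hd
    have e2 := abs_add_le (∑ t, u (d t)) (κ * (dens E - 6 / Real.pi ^ 2))
    rw [abs_mul, abs_of_pos hκ0] at e2
    have e3 : (κ : ℝ) * |dens E - 6 / Real.pi ^ 2| ≤ κ * (δ₂ / 2) := mul_le_mul_of_nonneg_left (hE₀ E hE).le hκ0.le
    have e4 : δ₂ * κ / 2 < |∑ t, u (d t)| := by linarith
    rw [← sq_abs (∑ t, u (d t))]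
    exact pow_lt_pow_left₀ e4 (by positivity) (by norm_num)
  refine h4.trans ?_
  have h5 : (0 : ℝ) < (δ₂ * κ / 2) ^ 2 := by positivity
  refine le_of_mul_le_mul_left (h3.trans (h2.trans ?_)) h5
  rw [← mul_assoc]
  apply mul_le_mul_of_nonneg_right _ hPD
  rw [div_le_iff₀ (by positivity)] at hκ₀
  have h6 : (8 : ℝ) ≤ κ * (δ₂ ^ 2 * ε₂) := hκ₀.trans (mul_le_mul_of_nonneg_right (by linarith) (by positivity))
  have h7 : (κ : ℝ) ≤ κ ^ 2 * (δ₂ ^ 2 * ε₂) / 8 := by nlinarith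
  have h8 : (κ : ℝ) ^ 2 * ρ ^ 2 ≤ κ ^ 2 * (δ₂ ^ 2 * ε₂ / 8) := mul_le_mul_of_nonneg_left hρ1 (by positivity)
  have h9 : (δ₂ * κ / 2) ^ 2 * ε₂ = κ ^ 2 * (δ₂ ^ 2 * ε₂) / 4 := by ring
  rw [h9]
  linarith

lemma mod_card (Y X Q : ℕ) (c : ℕ) : ct (Ioc Y X) (fun n => n % Q = c) ≤ (X : ℝ) / Q + 1 := by
  classical
  rw [ct_eq]
  have h1 := card_le_card_of_injOn (s := (Ioc Y X).filter (fun n => n % Q = c)) (t := range (X / Q + 1)) (fun n => n / Q)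
    (fun n hn => by
      rw [mem_coe, mem_filter, mem_Ioc] at hn
      rw [mem_coe, mem_range]
      exact Nat.lt_succ_of_le (Nat.div_le_div_right hn.1.2))
    (fun n hn n' hn' h => by
      rw [mem_coe, mem_filter] at hn hn'
      simp only at h
      rw [← Nat.mod_add_div n Q, ← Nat.mod_add_div n' Q, hn.2, hn'.2, h])
  rw [card_range] at h1
  have h2 : (((Ioc Y X).filter (fun n => n % Q = c)).card : ℝ) ≤ ((X / Q : ℕ) : ℝ) + 1 := by exact_mod_cast h1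
  have h3 : ((X / Q : ℕ) : ℝ) ≤ (X : ℝ) / Q := Nat.cast_div_le
  linarith

lemma cls_rem (Y X Q : ℕ) (hQ : 1 ≤ Q) (C : ℕ → Prop) :
    ct (Ioc Y X) (fun n => ¬ C (n % Q)) ≤ ct (range Q) (fun c => ¬ C c) * ((X : ℝ) / Q + 1) := by
  classical
  have h1 : ct (Ioc Y X) (fun n => ¬ C (n % Q)) = ∑ c ∈ range Q, ct (Ioc Y X) (fun n => ¬ C (n % Q) ∧ n % Q = c) := by
    rw [← ct_fiber]
    apply ct_congr
    intro n _
    constructor
    · exact fun hR => ⟨hR, mem_range.2 (Nat.mod_lt _ (by omega))⟩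
    · exact fun hR => hR.1
  rw [h1, ct_eq (range Q), card_filter]
  push_cast
  rw [sum_mul]
  apply sum_le_sum
  intro c _
  split_ifs with hC
  · rw [zero_mul, ct_eq, filter_false_of_mem, card_empty, Nat.cast_zero]
    rintro n _ ⟨h2, h3⟩
    rw [h3] at h2
    exact h2 hC
  · rw [one_mul]
    exact (ct_mono fun n _ h => h.2).trans (mod_card Y X Q c)

/-- the window of the independent displacements -/
def eL {κ : ℕ} (t j : Fin κ) : ℕ := if t = j then 1 else 0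

lemma good_units {κ : ℕ} (E : Finset (Fin κ)) (hE : E.Nonempty) :
    Good (fun _ => 1) (fun (t : Fin κ) (j : Fin κ) => ((eL t j : ℕ) : ℤ)) ∅ E := by
  classical
  have hcl : ∀ i₀, cluster (fun _ => 1) (fun (t : Fin κ) (j : Fin κ) => ((eL t j : ℕ) : ℤ)) ∅ E i₀ = E := by
    intro i₀
    unfold cluster
    simp
  obtain ⟨i₀, hi₀⟩ := hE
  refine ⟨i₀, hi₀, Or.inr ⟨i₀, ?_, 0, fun i => if i = i₀ then 1 else 0, ?_, ?_⟩⟩
  · rw [hcl]
    exact hi₀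
  · simp [eL]
  · intro i _ hne
    simp [eL, hne]

/-- the variances -/
noncomputable def vv {k : ℕ} (κ : ℕ) (Sq : Finset (Fin k)) (i : Fin k) : ℝ := by
  classical exact if i ∈ Sq then κ / (Real.pi ^ 2 / 6) else κ

/-- the classes with the right number of squarefree places -/
def clsOk {k κ : ℕ} (δ₁ : ℝ) (E : ℕ) (Ap Sq : Finset (Fin k)) (d : Fin κ → ℤ) (b : Fin k → ℤ) (α : Fin k → ℕ) (c : ℕ) : Prop :=
  ∀ i ∈ Ap, |(cnt (acl E Sq (fun _ => eL) d b α c i) : ℝ) - vv κ Sq i| ≤ δ₁ * vv κ Sq i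

lemma vv_pos {k : ℕ} (κ : ℕ) (Sq : Finset (Fin k)) (i : Fin k) : (κ : ℝ) / 2 ≤ vv κ Sq i := by
  unfold vv
  have hκ : (0 : ℝ) ≤ κ := Nat.cast_nonneg _
  split_ifs
  · apply div_le_div_of_nonneg_left hκ
    · have := Real.pi_pos
      positivity
    · have h1 := Real.pi_lt_d2
      have h2 := Real.pi_pos
      nlinarith
  · linarith

lemma acl_units {k κ : ℕ} (E : ℕ) (Sq : Finset (Fin k)) (d : Fin κ → ℤ) (b : Fin k → ℤ) (α : Fin k → ℕ) (c : ℕ) (i : Fin k)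
    (t : Fin κ) : acl E Sq (fun _ => eL) d b α c i t = mkE E (i ∈ Sq) ((α i * (c : ℤ) + b i) + d t) := by
  unfold acl
  congr 1
  have : ∑ j, ((eL t j : ℕ) : ℤ) * d j = d t := by simp [eL]
  rw [this]
  ring

lemma cnt_sum {κ : ℕ} (a : Fin κ → ℝ) (ha : ∀ t, a t = 0 ∨ a t = 1) : (cnt a : ℝ) = ∑ t, a t := by
  classical
  unfold cnt
  rw [card_filter]
  push_cast
  apply sum_congr rfl
  intro t _
  rcases ha t with h | h
  · rw [if_neg (by simp [h]), h]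
  · rw [if_pos (by simp [h]), h]

/-- most classes are good -/
lemma cls_bad (k : ℕ) (ε₂ δ₁ : ℝ) (hε : 0 < ε₂) (hδ : 0 < δ₁) : ∃ κ₀ E₀ : ℕ, ∀ κ : ℕ, κ₀ ≤ κ → ∀ E : ℕ, E₀ ≤ E → ∃ N₀ : ℕ,
    ∀ D : Fin κ → ℕ, (∀ t, N₀ ≤ D t) → ∀ (Ap Sq : Finset (Fin k)) (b : Fin k → ℤ) (α : Fin k → ℕ) (c : ℕ),
      ct (box D) (fun d => ¬ clsOk δ₁ E Ap Sq d b α c) ≤ k * ε₂ * ∏ t, (D t : ℝ) := by
  obtain ⟨κ₀, E₀, h0⟩ := lln ε₂ (δ₁ * (6 / Real.pi ^ 2)) hε (by have := Real.pi_pos; positivity)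
  refine ⟨κ₀, E₀, fun κ hκ E hE => ?_⟩
  obtain ⟨N₀, hN₀⟩ := h0 κ hκ E hE
  refine ⟨N₀, fun D hD Ap Sq b α c => ?_⟩
  have h1 : ct (box D) (fun d => ¬ clsOk δ₁ E Ap Sq d b α c) ≤ ct (box D) (fun d => ∃ i : Fin k,
      δ₁ * (6 / Real.pi ^ 2) * κ < |∑ t, mkE E True ((α i * (c : ℤ) + b i) + d t) - κ * (6 / Real.pi ^ 2)|) := by
    apply ct_mono
    intro d _ hd
    unfold clsOk at hd
    push Not at hd
    obtain ⟨i, _, hi⟩ := hd
    have hval : ∀ t, acl E Sq (fun _ => eL) d b α c i t = 0 ∨ acl E Sq (fun _ => eL) d b α c i t = 1 := by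
      intro t
      rw [acl_units]
      unfold mkE
      split_ifs
      · exact Or.inr rfl
      · exact Or.inl rfl
    rw [cnt_sum _ hval, sum_congr rfl fun t _ => acl_units E Sq d b α c i t] at hi
    by_cases hS : i ∈ Sq
    · refine ⟨i, ?_⟩
      unfold vv at hi
      rw [if_pos hS, eq_true hS] at hi
      have e1 : (κ : ℝ) / (Real.pi ^ 2 / 6) = κ * (6 / Real.pi ^ 2) := by
        have := Real.pi_pos
        field_simp
      rw [e1] at hi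
      linarith
    · exfalso
      unfold vv at hi
      rw [if_neg hS, eq_false hS] at hi
      have e1 : ∑ t : Fin κ, mkE E False ((α i * (c : ℤ) + b i) + d t) = κ := by
        have : ∀ t : Fin κ, mkE E False ((α i * (c : ℤ) + b i) + d t) = 1 := by
          intro t
          unfold mkE
          rw [if_pos (fun h => h.elim)]
        rw [sum_congr rfl fun t _ => this t, sum_const, card_univ, Fintype.card_fin, nsmul_eq_mul, mul_one]
      rw [e1, sub_self, abs_zero] at hi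
      have : 0 ≤ δ₁ * (κ : ℝ) := by positivity
      linarith
  refine h1.trans ((ct_exists _ _).trans ((sum_le_sum fun i _ => hN₀ D hD (α i * (c : ℤ) + b i)).trans (le_of_eq ?_)))
  rw [sum_const, card_univ, Fintype.card_fin, nsmul_eq_mul]
  ring

end Pool.Agent.Run7.h504.RM
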