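import Pool.Agent.Run7.h504.RM21

set_option autoImplicit false

/-!
# The normal law at displaced places: windows of independent displacements
-/

open Finset

namespace Pool.Agent.Run7.h504.RM

open Pool.Agent.Results.MP_4a7640_nt.AperiodicClusters (IsMultSign Aperiodic Good cluster)
open Pool.Agent.H373R2.T7 (exI energy)
open Pool.Agent.Run7.h20.GM (Phi Sg cnt Sg_card Phi_nonneg Phi_le_one)

/-- **The normal law for windows of independent displacements.** -/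
theorem gaussTuple (B k : ℕ) (ε : ℝ) (hε : 0 < ε) : ∃ κ₀ : ℕ, ∀ κ : ℕ, κ₀ ≤ κ → ∀ (h W R : ℕ), 1 ≤ h →
    ∀ (K : ℝ) (f g : Fin k → ℕ → ℝ), (∀ i n, f i n = 1 ∨ f i n = -1) →
    ∀ (Ap Sq : Finset (Fin k)), (∀ i ∈ Ap, IsMultSign (f i) ∧ Aperiodic (f i)) →
    (∀ i ∈ Ap, ∀ y, g i y = f i y * mk (i ∈ Sq) y) →
    ∃ N₀ : ℕ, ∀ (N : ℕ) (D : Fin κ → ℕ), N₀ ≤ N → (∀ j, N₀ ≤ D j) → (∀ j, D j ≤ R * N) →
      ∀ (x : Fin k → ℕ) (s : Fin k → ℕ → ℤ),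
      (∀ i ∈ Ap, (∀ m ∈ Icc 1 (x i), |s i m| ≤ B * N) ∧
        (energy h (x i) (s i) : ℝ) * N ≤ K * (x i : ℝ) ^ (2 * h)) →
      ∀ α : Fin k → ℕ, (∀ i, 1 ≤ α i) → ∀ A : Fin W → (Fin κ → ℤ) → Set ℕ,
      ct (Fintype.piFinset fun i => Icc 1 (x i)) (fun m =>
        ε * ∏ j, (D j : ℝ) < ct (box D) (fun d => ¬ ∀ l, ∀ Y X : ℕ, Y ≤ X → (∀ i, α i * X ≤ B * N) →
          (∀ i, 0 ≤ α i * (Y : ℤ) + s i (m i)) → ∀ σ : Fin k → Fin κ → ℝ, (∀ i t, σ i t = 1 ∨ σ i t = -1) →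
          ∀ τ : Fin k → ℝ,
          |ct (Ioc Y X) (fun n => n ∈ A l d ∧ (∀ i, i ∉ Ap → ∀ t, pv (f i) eL d t (α i * (n : ℤ) + s i (m i)) = σ i t) ∧
              ∀ i ∈ Ap, Sm (g i) eL d (α i * (n : ℤ) + s i (m i)) ≤ τ i * √(vv κ Sq i)) -
            (∏ i ∈ Ap, Phi (τ i)) * ct (Ioc Y X) (fun n => n ∈ A l d ∧
              (∀ i, i ∉ Ap → ∀ t, pv (f i) eL d t (α i * (n : ℤ) + s i (m i)) = σ i t))| ≤ ε * N)) ≤
        ε * ∏ i, (x i : ℝ) := by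
  classical
  obtain ⟨M₁, δ₁, hM₁, hδ₁, hsl⟩ := sign_law (ε / (4 * (k + 1) * (B + 1))) (by positivity)
  obtain ⟨κ₁, E₁, h1⟩ := cls_bad k (ε * (ε / (8 * (B + 1))) / (2 * (k + 1))) δ₁ (by positivity) hδ₁
  obtain ⟨M₂, hM₂⟩ := exists_nat_ge (2 * M₁)
  refine ⟨κ₁ + M₂, fun κ hκ h W R hh K f g hf Ap Sq hAp hg => ?_⟩
  have hκM : 2 * M₁ ≤ κ := hM₂.trans (by exact_mod_cast (by omega : M₂ ≤ κ))
  obtain ⟨E, Q, δ, ⟨hE1, hEE⟩, hQ1, hEQ, hδ0, hδε, hc1, hc2⟩ :=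
    consts B k κ (∑ i : Fin k, ∑ t : Fin κ, ∑ j : Fin κ, eL t j) R E₁ (ε / 4) (by positivity)
  obtain ⟨N₁, hN₁⟩ := h1 κ (by omega) E hEE
  obtain ⟨N₀, h0⟩ := tupQ κ ∅ h B W k R Q hh K δ hδ0 (fun _ => eL) f hf Ap (fun i hi => ⟨(hAp i hi).1, (hAp i hi).2,
    fun E' hE' => good_units E' hE'⟩)
  refine ⟨N₀ + N₁ + Q, fun N D hN hD1 hD2 x s hs α hα A => ?_⟩
  have hX0 : 0 ≤ ∏ i, (x i : ℝ) := prod_nonneg fun _ _ => Nat.cast_nonneg _
  have hPD : (0 : ℝ) ≤ ∏ j, (D j : ℝ) := prod_nonneg fun _ _ => Nat.cast_nonneg _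
  have hN0 : (0 : ℝ) ≤ N := Nat.cast_nonneg _
  have hQ0 : (0 : ℝ) < Q := by exact_mod_cast hQ1
  refine le_trans ?_ ((h0 N D (by omega) ⟨fun j => (by omega : N₀ ≤ N₀ + N₁ + Q).trans (hD1 j), hD2, by simp⟩ x s hs α hα A).trans
    (mul_le_mul_of_nonneg_right (by linarith) hX0))
  apply ct_mono
  intro m hm' hm
  by_contra hcon
  rw [not_lt] at hcon
  rw [← not_le] at hm
  apply hm
  set b : Fin k → ℤ := fun i => s i (m i) with hb
  -- the parameters with many bad classes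
  set ε₃ : ℝ := ε / (8 * (B + 1)) with hε₃
  have hε₃0 : 0 < ε₃ := by positivity
  have hbadd : ct (box D) (fun d => ε₃ * Q < ct (range Q) (fun c => ¬ clsOk δ₁ E Ap Sq d b α c)) ≤ ε / 2 * ∏ j, (D j : ℝ) := by
    have e1 := ct_markov (box D) (fun d => ct (range Q) (fun c => ¬ clsOk δ₁ E Ap Sq d b α c)) (fun _ _ => ct_nonneg _ _)
      (c := ε₃ * Q)
    rw [ct_comm] at e1
    have e2 : ∑ c ∈ range Q, ct (box D) (fun d => ¬ clsOk δ₁ E Ap Sq d b α c) ≤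
        Q * (k * (ε * ε₃ / (2 * (k + 1))) * ∏ j, (D j : ℝ)) := by
      refine (sum_le_sum fun c _ => hN₁ D (fun t => (by omega : N₁ ≤ N₀ + N₁ + Q).trans (hD1 t)) Ap Sq b α c).trans (le_of_eq ?_)
      rw [sum_const, card_range, nsmul_eq_mul]
    have e3 : (Q : ℝ) * (k * (ε * ε₃ / (2 * (k + 1))) * ∏ j, (D j : ℝ)) ≤ (ε₃ * Q) * (ε / 2 * ∏ j, (D j : ℝ)) := by
      have e4 : (Q : ℝ) * (k * (ε * ε₃ / (2 * (k + 1))) * ∏ j, (D j : ℝ)) =
          (k / (k + 1)) * ((ε₃ * Q) * (ε / 2 * ∏ j, (D j : ℝ))) := by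
        field_simp
      rw [e4]
      have e5 : (k : ℝ) / (k + 1) ≤ 1 := by rw [div_le_one (by positivity)]; linarith
      have e6 : 0 ≤ (ε₃ * Q) * (ε / 2 * ∏ j, (D j : ℝ)) := by positivity
      nlinarith
    exact le_of_mul_le_mul_left (e1.trans (e2.trans e3)) (by positivity)
  -- union of the exceptional parameters
  have hun : ct (box D) (fun d => (¬ ∀ l, ∀ Y X : ℕ, Y ≤ X → (∀ i, α i * X ≤ B * N) →
          (∀ i, 0 ≤ α i * (Y : ℤ) + s i (m i)) → ∀ c < Q, ∀ σ : Fin k → Fin κ → ℝ, (∀ i t, σ i t = 1 ∨ σ i t = -1) →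
          |ct (Ioc Y X) (fun n => (n ∈ A l d ∧ n % Q = c) ∧ ∀ i t, pv (f i) eL d t (α i * (n : ℤ) + s i (m i)) = σ i t) -
            ct (Ioc Y X) (fun n => (n ∈ A l d ∧ n % Q = c) ∧ ∀ i, i ∉ Ap → ∀ t,
              pv (f i) eL d t (α i * (n : ℤ) + s i (m i)) = σ i t) / 2 ^ (κ * Ap.card)| ≤ δ * N) ∨
        ε₃ * Q < ct (range Q) (fun c => ¬ clsOk δ₁ E Ap Sq d b α c)) ≤ ε * ∏ j, (D j : ℝ) := by
    have e0 : ∀ P R : (Fin κ → ℤ) → Prop, ct (box D) (fun d => P d ∨ R d) ≤ ct (box D) P + ct (box D) R := by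
      intro P R
      simp only [ct_eq]
      rw [filter_or]
      exact_mod_cast card_union_le _ _
    refine (e0 _ _).trans ((add_le_add hcon hbadd).trans ?_)
    have : δ + ε / 2 ≤ ε := by linarith
    nlinarith
  refine le_trans ?_ hun
  apply ct_mono
  intro d hdb hd
  by_contra hno
  push Not at hno
  obtain ⟨hno1, hno2⟩ := hno
  apply hd
  intro l Y X hYX hX hpos σ hσ τ
  have hd0 : ∀ j, 0 ≤ d j := by
    intro j
    have hdb' := hdb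
    unfold box at hdb'
    rw [Fintype.mem_piFinset] at hdb'
    have := (mem_Icc.1 (hdb' j)).1
    omega
  rcases Ap.eq_empty_or_nonempty with hA | ⟨i₀, hi₀⟩
  · subst hA
    have e1 : ct (Ioc Y X) (fun n => n ∈ A l d ∧ (∀ i, i ∉ (∅ : Finset (Fin k)) → ∀ t,
          pv (f i) eL d t (α i * (n : ℤ) + s i (m i)) = σ i t) ∧
          ∀ i ∈ (∅ : Finset (Fin k)), Sm (g i) eL d (α i * (n : ℤ) + s i (m i)) ≤ τ i * √(vv κ Sq i)) =
        ct (Ioc Y X) (fun n => n ∈ A l d ∧ (∀ i, i ∉ (∅ : Finset (Fin k)) → ∀ t,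
          pv (f i) eL d t (α i * (n : ℤ) + s i (m i)) = σ i t)) := by
      apply ct_congr
      intro n _
      simp
    rw [e1, prod_empty, one_mul, sub_self, abs_zero]
    positivity
  have hXN : (X : ℝ) ≤ B * N := by
    have : X ≤ B * N := (Nat.le_mul_of_pos_left X (hα i₀)).trans (hX i₀)
    exact_mod_cast this
  have hmain := self_det Ap Sq f g hf hg (fun _ => eL) d hd0 b α (A l d) Y X hpos E Q hQ1 hEQ (δ * N)
    (hno1 l Y X hYX hX hpos) σ hσ (clsOk δ₁ E Ap Sq d b α)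
    (fun n => clsOk δ₁ E Ap Sq d b α (n % Q))
    (fun _ i => τ i * √(vv κ Sq i))
    (fun _ i => τ i * √(vv κ Sq i)) (∏ i ∈ Ap, Phi (τ i))
    (Ap.card * (ε / (4 * (k + 1) * (B + 1)))) (by positivity)
    (fun n _ _ => Iff.rfl)
    (fun n _ _ i _ => rfl)
    (Phi_prod Ap τ)
    (fun c _ hC => by
      apply prod_close Ap _ _ _ (fun i _ => sp_nonneg _ _) (fun i _ => sp_le_one _ _) (fun i _ => Phi_nonneg _)
        (fun i _ => Phi_le_one _)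
      intro i hi
      have h5 : M₁ ≤ vv κ Sq i := by
        have := vv_pos κ Sq i
        linarith
      exact hsl κ (acl E Sq (fun _ => eL) d b α c i) (fun t => mkE_val _ _ _) _ h5 (hC i hi) (τ i))
  -- the classes with a wrong number of squarefree places
  have hrem : ct (Ioc Y X) (fun n => ¬ clsOk δ₁ E Ap Sq d b α (n % Q)) ≤ ε / 8 * N := by
    refine (cls_rem Y X Q hQ1 (clsOk δ₁ E Ap Sq d b α)).trans ?_
    have hQN : (Q : ℝ) ≤ N := by exact_mod_cast (by omega : Q ≤ N)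
    calc ct (range Q) (fun c => ¬ clsOk δ₁ E Ap Sq d b α c) * ((X : ℝ) / Q + 1) ≤ (ε₃ * Q) * ((B * N : ℝ) / Q + 1) := by
          apply mul_le_mul hno2 _ (by positivity) (by positivity)
          have := div_le_div_of_nonneg_right hXN hQ0.le
          linarith
      _ = ε₃ * (B * N + Q) := by field_simp
      _ ≤ ε₃ * (B * N + N) := mul_le_mul_of_nonneg_left (by linarith) hε₃0.le
      _ = ε / 8 * N := by rw [hε₃]; field_simp
  have hd1 : |ct (Ioc Y X) (fun n => n ∈ A l d ∧ (∀ i, i ∉ Ap → ∀ t, pv (f i) eL d t (α i * (n : ℤ) + b i) = σ i t) ∧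
              ∀ i ∈ Ap, Sm (g i) eL d (α i * (n : ℤ) + b i) ≤ τ i * √(vv κ Sq i)) -
      ct (Ioc Y X) (fun n => n ∈ A l d ∧ (∀ i, i ∉ Ap → ∀ t, pv (f i) eL d t (α i * (n : ℤ) + b i) = σ i t) ∧
        clsOk δ₁ E Ap Sq d b α (n % Q) ∧ ∀ i ∈ Ap, Sm (g i) eL d (α i * (n : ℤ) + b i) ≤ τ i * √(vv κ Sq i))| ≤
      ct (Ioc Y X) (fun n => ¬ clsOk δ₁ E Ap Sq d b α (n % Q)) := by
    apply ct_diff
    intro n _ hn
    rw [not_not] at hn
    simp only [hn, true_and]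
  have hd2 : |ct (Ioc Y X) (fun n => n ∈ A l d ∧ (∀ i, i ∉ Ap → ∀ t, pv (f i) eL d t (α i * (n : ℤ) + b i) = σ i t)) -
      ct (Ioc Y X) (fun n => n ∈ A l d ∧ (∀ i, i ∉ Ap → ∀ t, pv (f i) eL d t (α i * (n : ℤ) + b i) = σ i t) ∧
        clsOk δ₁ E Ap Sq d b α (n % Q))| ≤
      ct (Ioc Y X) (fun n => ¬ clsOk δ₁ E Ap Sq d b α (n % Q)) := by
    apply ct_diff
    intro n _ hn
    rw [not_not] at hn
    simp only [hn, and_true]
  have h2 := bad_card E hE1 Ap (fun _ => eL) d hd0 b α hα Y X hpos _ (size_le B N R Ap (fun _ => eL) D hD2 d hdb b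
    (fun i hi => (hs i hi).1 (m i) (by
      rw [Fintype.mem_piFinset] at hm'
      exact hm' i)) α X hX)
  have h3 := hc2 N
  have h4 := hc1 Ap.card (by simpa using card_le_univ Ap) N hN0
  have h5 : (Ap.card : ℝ) * (ε / (4 * (k + 1) * (B + 1))) * ((Ioc Y X).card : ℝ) ≤ ε / 4 * N := by
    have h5 : ((Ioc Y X).card : ℝ) ≤ B * N := by
      rw [Nat.card_Ioc]
      exact (by exact_mod_cast Nat.sub_le _ _ : (((X - Y : ℕ)) : ℝ) ≤ X).trans hXN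
    have h6 : (Ap.card : ℝ) ≤ k := by
      have := card_le_univ Ap
      rw [Fintype.card_fin] at this
      exact_mod_cast this
    have h7 : (Ap.card : ℝ) * (ε / (4 * (k + 1) * (B + 1))) * ((Ioc Y X).card : ℝ) ≤
        k * (ε / (4 * (k + 1) * (B + 1))) * (B * N) := by
      apply mul_le_mul _ h5 (Nat.cast_nonneg _) (by positivity)
      exact mul_le_mul_of_nonneg_right h6 (by positivity)
    refine h7.trans ?_
    have h8 : (k : ℝ) * (ε / (4 * (k + 1) * (B + 1))) * (B * N) = (k / (k + 1)) * (B / (B + 1)) * (ε / 4 * N) := by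
      field_simp
    rw [h8]
    have h9 : (k : ℝ) / (k + 1) ≤ 1 := by rw [div_le_one (by positivity)]; linarith
    have h10 : (B : ℝ) / (B + 1) ≤ 1 := by rw [div_le_one (by positivity)]; linarith
    have h11 : (k : ℝ) / (k + 1) * (B / (B + 1)) ≤ 1 := mul_le_one₀ h9 (by positivity) h10
    have h12 : 0 ≤ ε / 4 * N := by positivity
    nlinarith
  set u1 := ct (Ioc Y X) (fun n => n ∈ A l d ∧ (∀ i, i ∉ Ap → ∀ t, pv (f i) eL d t (α i * (n : ℤ) + b i) = σ i t) ∧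
              ∀ i ∈ Ap, Sm (g i) eL d (α i * (n : ℤ) + b i) ≤ τ i * √(vv κ Sq i))
  set u2 := ct (Ioc Y X) (fun n => n ∈ A l d ∧ (∀ i, i ∉ Ap → ∀ t, pv (f i) eL d t (α i * (n : ℤ) + b i) = σ i t) ∧
        clsOk δ₁ E Ap Sq d b α (n % Q) ∧ ∀ i ∈ Ap, Sm (g i) eL d (α i * (n : ℤ) + b i) ≤ τ i * √(vv κ Sq i))
  set w1 := ct (Ioc Y X) (fun n => n ∈ A l d ∧ (∀ i, i ∉ Ap → ∀ t, pv (f i) eL d t (α i * (n : ℤ) + b i) = σ i t))
  set w2 := ct (Ioc Y X) (fun n => n ∈ A l d ∧ (∀ i, i ∉ Ap → ∀ t, pv (f i) eL d t (α i * (n : ℤ) + b i) = σ i t) ∧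
        clsOk δ₁ E Ap Sq d b α (n % Q))
  set q := ∏ i ∈ Ap, Phi (τ i) with hq
  have hq1 : |q| ≤ 1 := Phi_prod Ap τ
  have e1 : u1 - q * w1 = (u1 - u2) + (u2 - q * w2) - q * (w1 - w2) := by ring
  rw [e1]
  have h6 : |q * (w1 - w2)| ≤ ct (Ioc Y X) (fun n => ¬ clsOk δ₁ E Ap Sq d b α (n % Q)) := by
    rw [abs_mul]
    calc |q| * |w1 - w2| ≤ 1 * ct (Ioc Y X) (fun n => ¬ clsOk δ₁ E Ap Sq d b α (n % Q)) :=
          mul_le_mul hq1 hd2 (abs_nonneg _) (by norm_num)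
      _ = _ := one_mul _
  refine (abs_sub _ _).trans ?_
  have h7 := abs_add_le (u1 - u2) (u2 - q * w2)
  linarith

end Pool.Agent.Run7.h504.RM
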