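import Pool.Agent.Run7.h504.Dil
import Pool.Agent.Run7.h504.RM3

set_option autoImplicit false

/-! Von Mangoldt's function along dense sequences of arguments, displaced by the members of thin families. -/

namespace Pool.Agent.Run7.h504.SQ

open Finset Pool.Agent.H373R2.T7
open Pool.Agent.H807R2.Dav
open Pool.Agent.Run7.h504.GenE Pool.Agent.Run7.h504.Dil
open Pool.Agent.Run7.h504.RM (swap)

/-- a family of small additive energy of some order `p ≤ h` -/
def Low (h κ N y : ℕ) (s : ℕ → ℤ) : Prop :=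
  (∀ m ∈ Icc 1 y, |s m| ≤ N) ∧ ∃ p ≤ h, (energy p y s : ℝ) * N ≤ Real.log N ^ κ * (y : ℝ) ^ (2 * p)

/-- summing one coordinate at a time -/
lemma fiber_sum {k : ℕ} (x : Fin k → ℕ) (i : Fin k) (F : (Fin k → ℕ) → ℝ) (c : ℝ)
    (h : ∀ m ∈ Fintype.piFinset fun j => Icc 1 (x j), ∑ v ∈ Icc 1 (x i), F (Function.update m i v) ≤ x i * c) :
    ∑ m ∈ Fintype.piFinset fun j => Icc 1 (x j), F m ≤ c * ∏ j, (x j : ℝ) := by
  classical
  set S := Fintype.piFinset fun j => Icc 1 (x j) with hS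
  have hcard : (S.card : ℝ) = ∏ j, (x j : ℝ) := by
    rw [hS, Fintype.card_piFinset]
    simp
  rcases Nat.eq_zero_or_pos (x i) with h0 | h0
  · have hemp : S = ∅ := by
      apply eq_empty_of_forall_notMem
      intro m hm
      rw [hS, Fintype.mem_piFinset] at hm
      have := mem_Icc.1 (hm i)
      omega
    have hprod : ∏ j, (x j : ℝ) = 0 := prod_eq_zero (mem_univ i) (by rw [h0]; simp)
    rw [hprod, mul_zero, hemp, sum_empty]
  · have hx : (0 : ℝ) < x i := by exact_mod_cast h0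
    have h1 := swap x i F
    rw [sum_product, sum_product, ← hS] at h1
    have h2 : ∑ m ∈ S, ∑ v ∈ Icc 1 (x i), F (Function.update m i v) ≤ ∑ m ∈ S, (x i * c) :=
      sum_le_sum fun m hm => h m hm
    simp only at h1
    rw [h1, sum_const, nsmul_eq_mul, hcard] at h2
    have h3 : ∑ m ∈ S, ∑ _v ∈ Icc 1 (x i), F m = x i * ∑ m ∈ S, F m := by
      rw [mul_sum]
      apply sum_congr rfl
      intro m _
      rw [sum_const, Nat.card_Icc, Nat.add_sub_cancel, nsmul_eq_mul]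
    rw [h3] at h2
    have h4 : (x i : ℝ) * (∑ m ∈ S, F m) ≤ x i * (c * ∏ j, (x j : ℝ)) := by
      refine h2.trans (le_of_eq ?_)
      ring
    exact le_of_mul_le_mul_left h4 hx

/-- one factor -/
theorem one (h κ U : ℕ) : ∃ B0 : ℕ, ∀ E : ℕ, ∃ N0 : ℕ, ∀ N : ℕ, N0 ≤ N → ∀ (y : ℕ) (s : ℕ → ℤ), Low h κ N y s →
    ∀ z : ℕ, Real.log N ^ B0 ≤ z → (z : ℝ) ≤ Real.log N ^ E →
    ∀ (T : Finset ℕ) (u : ℕ → ℕ), Set.InjOn u T → (∀ t ∈ T, 1 ≤ u t ∧ u t ≤ N) →
    ∀ K : ℝ, 0 < K → ∀ θ : ℕ → ℝ, (∀ t ∈ T, |θ t| ≤ K) →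
    ∑ m ∈ Icc 1 y, |∑ t ∈ T, θ t * (lamI ((u t : ℤ) + s m) - lamzI z ((u t : ℤ) + s m))| ≤
      K * (N * y / Real.log N ^ U) := by
  classical
  choose Uf Nf hf using fun p : ℕ => gen_real p 1 κ U 2
  obtain ⟨U1, hU1⟩ : ∃ U1, U1 = (range (h + 1)).sup Uf := ⟨_, rfl⟩
  obtain ⟨N1, hN1⟩ : ∃ N1, N1 = (range (h + 1)).sup Nf := ⟨_, rfl⟩
  obtain ⟨B0, h2⟩ := sup_dil U1 4
  refine ⟨B0, fun E => ?_⟩
  obtain ⟨n2, h2'⟩ := h2 E
  obtain ⟨n3, h3⟩ := fd_abs E 4
  obtain ⟨n5, h5⟩ := ev_L' 2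
  refine ⟨N1 + n2 + n3 + n5 + 3, fun N hN y s hs z hz1 hz2 T u hu huN K hK θ hθ => ?_⟩
  have hL := h5 N (by omega)
  have hL1 : 1 ≤ Real.log N := by linarith
  have hN0 : (0 : ℝ) < N := by exact_mod_cast (by omega : 0 < N)
  have hz : 1 ≤ z := by
    have : (1 : ℝ) ≤ z := (one_le_pow₀ hL1).trans hz1
    exact_mod_cast this
  obtain ⟨hs1, p, hp, hE⟩ := hs
  have hpU : Uf p ≤ U1 := by
    rw [hU1]
    exact le_sup (f := Uf) (mem_range.2 (by omega))
  have hpN : Nf p ≤ N1 := by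
    rw [hN1]
    exact le_sup (f := Nf) (mem_range.2 (by omega))
  obtain ⟨H, hH⟩ : ∃ H, H = 2 * ((1 + 1) * N) := ⟨_, rfl⟩
  have hH4 : H = 4 * N := by rw [hH]; ring
  obtain ⟨G, hG⟩ : ∃ G : ℕ → ℝ, G = fun a => ∑ t ∈ T.filter (fun t => u t = a), θ t := ⟨_, rfl⟩
  have hGK : ∀ a ∈ Icc 1 N, |G a| ≤ K := by
    intro a _
    rw [hG]
    by_cases hex : ∃ t ∈ T, u t = a
    · obtain ⟨t0, ht0, hta⟩ := hex
      have e1 : T.filter (fun t => u t = a) = {t0} := by
        ext t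
        rw [mem_filter, mem_singleton]
        constructor
        · rintro ⟨h1, h2⟩
          exact hu h1 ht0 (h2.trans hta.symm)
        · rintro rfl
          exact ⟨ht0, hta⟩
      show |∑ t ∈ T.filter (fun t => u t = a), θ t| ≤ K
      rw [e1, sum_singleton]
      exact hθ t0 ht0
    · have e1 : T.filter (fun t => u t = a) = ∅ := by
        apply filter_eq_empty_iff.2
        intro t ht h
        exact hex ⟨t, ht, h⟩
      show |∑ t ∈ T.filter (fun t => u t = a), θ t| ≤ K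
      rw [e1, sum_empty, abs_zero]
      exact hK.le
  have m1 := hf p N (by omega) y s (fun m hm => by
      have := hs1 m hm
      push_cast
      rw [one_mul]
      exact this) hE N (by omega) (fd z 1 H)
    (fun n hn => h3 N (by omega) z hz hz2 1 H n (by
      rw [mem_Icc] at hn
      omega))
    (fun α => (h2' N (by omega) z hz1 hz2 1 H _ le_rfl (by rw [← hH, hH4]) α).trans
      (div_le_div_of_nonneg_left hN0.le (by positivity) (pow_le_pow_right₀ hL1 hpU)))
    K hK G hGK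
  refine le_trans (le_of_eq ?_) m1
  apply sum_congr rfl
  intro m hm
  congr 1
  rw [← hH]
  have e2 : ∀ a ∈ Icc 1 N, G a * fr (fd z 1 H) H ((a : ℤ) + s m) =
      ∑ t ∈ T with u t = a, θ t * fr (fd z 1 H) H ((u t : ℤ) + s m) := by
    intro a _
    rw [hG]
    show (∑ t ∈ T.filter (fun t => u t = a), θ t) * _ = _
    rw [sum_mul]
    apply sum_congr rfl
    intro t ht
    rw [(mem_filter.1 ht).2]
  rw [sum_congr rfl e2, sum_fiberwise_of_maps_to (fun t ht => mem_Icc.2 (huN t ht))]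
  apply sum_congr rfl
  intro t ht
  congr 1
  have hk : (u t : ℤ) + s m ≤ H := by
    have q1 := (huN t ht).2
    have q2 := (le_abs_self (s m)).trans (hs1 m hm)
    rw [hH4]
    push_cast
    have q3 : ((u t : ℕ) : ℤ) ≤ N := by exact_mod_cast q1
    linarith
  unfold lamI lamzI fr
  by_cases hk1 : 1 ≤ (u t : ℤ) + s m
  · rw [if_pos hk1, if_pos hk1, if_pos ⟨hk1, hk⟩]
    have := fd_mul z 1 H ((u t : ℤ) + s m).toNat le_rfl (by omega)
    rw [one_mul] at this
    exact this.symm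
  · rw [if_neg hk1, if_neg hk1, if_neg (fun hc => hk1 hc.1), sub_zero]

/-- the two functions are bounded -/
lemma bounds (E : ℕ) : ∃ N0 : ℕ, ∀ N : ℕ, N0 ≤ N → ∀ z : ℕ, 1 ≤ z → (z : ℝ) ≤ Real.log N ^ E →
    ∀ k : ℤ, k ≤ 2 * (N : ℤ) → |lamI k| ≤ Real.log N ^ 2 ∧ |lamzI z k| ≤ Real.log N ^ 2 := by
  obtain ⟨n1, h1⟩ := Vz_inv_small E
  obtain ⟨n2, h2⟩ := ev_L' 2
  refine ⟨n1 + n2 + 3, fun N hN z hz hz2 k hk => ?_⟩
  have hV := h1 N (by omega) z hz hz2
  have hL := h2 N (by omega)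
  have hN3 : (3 : ℝ) ≤ N := by exact_mod_cast (by omega : 3 ≤ N)
  have hLL : Real.log N ≤ Real.log N ^ 2 := by nlinarith
  rw [abs_of_nonneg (lamI_nonneg k), abs_of_nonneg (lamzI_nonneg z k)]
  constructor
  · unfold lamI
    split_ifs with h
    · have h3 : (1 : ℝ) ≤ (k.toNat : ℝ) := by exact_mod_cast (by omega : 1 ≤ k.toNat)
      have h4 : (k.toNat : ℝ) ≤ 2 * N := by exact_mod_cast (by omega : k.toNat ≤ 2 * N)
      refine ArithmeticFunction.vonMangoldt_le_log.trans ?_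
      calc Real.log (k.toNat : ℝ) ≤ Real.log (2 * N) := Real.log_le_log (by linarith) h4
        _ ≤ Real.log (N * N) := Real.log_le_log (by linarith) (by nlinarith)
        _ = 2 * Real.log N := by rw [Real.log_mul (by linarith) (by linarith)]; ring
        _ ≤ _ := by nlinarith
    · positivity
  · unfold lamzI lamz
    split_ifs
    · exact hV.trans hLL
    · positivity
    · positivity

/-- several factors -/
theorem moment (r h κ U : ℕ) : ∃ B0 : ℕ, ∀ E : ℕ, ∃ N0 : ℕ, ∀ N : ℕ, N0 ≤ N →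
    ∀ (y : Fin r → ℕ) (s : Fin r → ℕ → ℤ), (∀ i, Low h κ N (y i) (s i)) →
    ∀ z : ℕ, Real.log N ^ B0 ≤ z → (z : ℝ) ≤ Real.log N ^ E →
    ∀ (T : Finset ℕ) (u : Fin r → ℕ → ℕ), (∀ i, Set.InjOn (u i) T) → (∀ i, ∀ t ∈ T, 1 ≤ u i t ∧ u i t ≤ N) →
    ∀ θ : ℕ → ℝ, (∀ t ∈ T, |θ t| ≤ Real.log N ^ κ) →
    ∑ m ∈ Fintype.piFinset (fun i => Icc 1 (y i)),
      |∑ t ∈ T, θ t * (∏ i, lamI ((u i t : ℤ) + s i (m i)) - ∏ i, lamzI z ((u i t : ℤ) + s i (m i)))| ≤
      N * (∏ i, (y i : ℝ)) / Real.log N ^ U := by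
  classical
  obtain ⟨B0, h1⟩ := one h κ (U + (κ + 2 * r) + 1)
  refine ⟨B0, fun E => ?_⟩
  obtain ⟨n1, h1'⟩ := h1 E
  obtain ⟨n2, h2⟩ := bounds E
  obtain ⟨n3, h3⟩ := ev_L' (r + 1)
  refine ⟨n1 + n2 + n3 + 3, fun N hN y s hs z hz1 hz2 T u hu huN θ hθ => ?_⟩
  have hLr := h3 N (by omega)
  have hr0 : (0 : ℝ) ≤ r := Nat.cast_nonneg r
  have hL1 : 1 ≤ Real.log N := by linarith
  have hL0 : 0 < Real.log N := by linarith
  have hN0 : (0 : ℝ) < N := by exact_mod_cast (by omega : 0 < N)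
  have hz : 1 ≤ z := by
    have : (1 : ℝ) ≤ z := (one_le_pow₀ hL1).trans hz1
    exact_mod_cast this
  obtain ⟨L, hLd⟩ : ∃ L : ℝ, L = Real.log N := ⟨_, rfl⟩
  have hbd : ∀ m ∈ Fintype.piFinset (fun i => Icc 1 (y i)), ∀ j, ∀ t ∈ T,
      |lamI ((u j t : ℤ) + s j (m j))| ≤ Real.log N ^ 2 ∧ |lamzI z ((u j t : ℤ) + s j (m j))| ≤ Real.log N ^ 2 := by
    intro m hm j t ht
    rw [Fintype.mem_piFinset] at hm
    apply h2 N (by omega) z hz hz2
    have q1 := (huN j t ht).2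
    have q2 := (le_abs_self (s j (m j))).trans ((hs j).1 (m j) (hm j))
    have q3 : ((u j t : ℕ) : ℤ) ≤ N := by exact_mod_cast q1
    linarith
  -- the weights of the other factors
  obtain ⟨w, hw⟩ : ∃ w : Fin r → (Fin r → ℕ) → ℕ → ℝ, w = fun i m t =>
    θ t * ((∏ j with j < i, lamzI z ((u j t : ℤ) + s j (m j))) * ∏ j with i < j, lamI ((u j t : ℤ) + s j (m j))) := ⟨_, rfl⟩
  have hw1 : ∀ i, ∀ m ∈ Fintype.piFinset (fun i => Icc 1 (y i)), ∀ t ∈ T, |w i m t| ≤ Real.log N ^ (κ + 2 * r) := by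
    intro i m hm t ht
    rw [hw]
    show |θ t * ((∏ j with j < i, lamzI z ((u j t : ℤ) + s j (m j))) * ∏ j with i < j, lamI ((u j t : ℤ) + s j (m j)))| ≤ _
    rw [abs_mul, abs_mul, abs_prod, abs_prod, pow_add]
    apply mul_le_mul (hθ t ht) _ (by positivity) (by positivity)
    have q1 : ∏ j with j < i, |lamzI z ((u j t : ℤ) + s j (m j))| ≤ (Real.log N ^ 2) ^ (univ.filter (fun j : Fin r => j < i)).card := by
      rw [← prod_const]
      exact prod_le_prod (fun _ _ => abs_nonneg _) fun j _ => (hbd m hm j t ht).2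
    have q2 : ∏ j with i < j, |lamI ((u j t : ℤ) + s j (m j))| ≤ (Real.log N ^ 2) ^ (univ.filter (fun j : Fin r => i < j)).card := by
      rw [← prod_const]
      exact prod_le_prod (fun _ _ => abs_nonneg _) fun j _ => (hbd m hm j t ht).1
    refine (mul_le_mul q1 q2 (prod_nonneg fun _ _ => abs_nonneg _) (by positivity)).trans ?_
    rw [← pow_add, ← pow_mul]
    apply pow_le_pow_right₀ hL1
    apply Nat.mul_le_mul_left
    rw [← card_union_of_disjoint]
    · exact (card_le_univ _).trans (by rw [Fintype.card_fin])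
    · rw [disjoint_filter]
      intro j _ h1 h2
      exact lt_asymm h1 h2
  -- the telescoping sum
  have htel : ∀ m : Fin r → ℕ, ∑ t ∈ T, θ t * (∏ i, lamI ((u i t : ℤ) + s i (m i)) - ∏ i, lamzI z ((u i t : ℤ) + s i (m i))) =
      ∑ i, ∑ t ∈ T, w i m t * (lamI ((u i t : ℤ) + s i (m i)) - lamzI z ((u i t : ℤ) + s i (m i))) := by
    intro m
    rw [sum_comm]
    apply sum_congr rfl
    intro t _
    have q := prod_sub_ordered (univ : Finset (Fin r)) (fun i => lamI ((u i t : ℤ) + s i (m i)))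
      (fun i => lamI ((u i t : ℤ) + s i (m i)) - lamzI z ((u i t : ℤ) + s i (m i)))
    simp only [sub_sub_cancel] at q
    rw [q, sub_sub_cancel, mul_sum]
    apply sum_congr rfl
    intro i _
    rw [hw]
    show _ = θ t * ((∏ j with j < i, lamzI z ((u j t : ℤ) + s j (m j))) * ∏ j with i < j, lamI ((u j t : ℤ) + s j (m j))) * _
    ring
  calc ∑ m ∈ Fintype.piFinset (fun i => Icc 1 (y i)),
      |∑ t ∈ T, θ t * (∏ i, lamI ((u i t : ℤ) + s i (m i)) - ∏ i, lamzI z ((u i t : ℤ) + s i (m i)))|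
      ≤ ∑ m ∈ Fintype.piFinset (fun i => Icc 1 (y i)),
        ∑ i, |∑ t ∈ T, w i m t * (lamI ((u i t : ℤ) + s i (m i)) - lamzI z ((u i t : ℤ) + s i (m i)))| := by
        apply sum_le_sum
        intro m _
        rw [htel m]
        exact abs_sum_le_sum_abs _ _
    _ = ∑ i, ∑ m ∈ Fintype.piFinset (fun i => Icc 1 (y i)),
        |∑ t ∈ T, w i m t * (lamI ((u i t : ℤ) + s i (m i)) - lamzI z ((u i t : ℤ) + s i (m i)))| := sum_comm
    _ ≤ ∑ i : Fin r, (Real.log N ^ (κ + 2 * r) * (N / Real.log N ^ (U + (κ + 2 * r) + 1))) * ∏ j, (y j : ℝ) := by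
        apply sum_le_sum
        intro i _
        apply fiber_sum y i (fun m => |∑ t ∈ T, w i m t * (lamI ((u i t : ℤ) + s i (m i)) - lamzI z ((u i t : ℤ) + s i (m i)))|)
        intro m hm
        have q := h1' N (by omega) (y i) (s i) (hs i) z hz1 hz2 T (u i) (hu i) (huN i) (Real.log N ^ (κ + 2 * r)) (by positivity)
          (w i m) (hw1 i m hm)
        refine le_trans (le_of_eq ?_) (q.trans (le_of_eq ?_))
        · apply sum_congr rfl
          intro v _
          beta_reduce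
          congr 1
          apply sum_congr rfl
          intro t _
          rw [Function.update_self]
          congr 1
          rw [hw]
          show θ t * ((∏ j with j < i, lamzI z ((u j t : ℤ) + s j (Function.update m i v j))) *
            ∏ j with i < j, lamI ((u j t : ℤ) + s j (Function.update m i v j))) =
            θ t * ((∏ j with j < i, lamzI z ((u j t : ℤ) + s j (m j))) * ∏ j with i < j, lamI ((u j t : ℤ) + s j (m j)))
          congr 2
          · apply prod_congr rfl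
            intro j hj
            rw [Function.update_of_ne (ne_of_lt (mem_filter.1 hj).2)]
          · apply prod_congr rfl
            intro j hj
            rw [Function.update_of_ne (ne_of_gt (mem_filter.1 hj).2)]
        · ring
    _ ≤ _ := by
        rw [sum_const, card_univ, Fintype.card_fin, nsmul_eq_mul]
        rw [← hLd] at hL1 hL0 hLr ⊢
        have hP : 0 ≤ ∏ j, (y j : ℝ) := prod_nonneg fun _ _ => Nat.cast_nonneg _
        have e : (r : ℝ) * (L ^ (κ + 2 * r) * (N / L ^ (U + (κ + 2 * r) + 1)) * ∏ j, (y j : ℝ)) =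
            (r / L) * (N * (∏ i, (y i : ℝ)) / L ^ U) := by
          rw [pow_add L (U + (κ + 2 * r)) 1, pow_add L U (κ + 2 * r)]
          field_simp
        rw [e]
        calc r / L * (N * (∏ i, (y i : ℝ)) / L ^ U) ≤ 1 * (N * (∏ i, (y i : ℝ)) / L ^ U) := by
              apply mul_le_mul_of_nonneg_right _ (by positivity)
              rw [div_le_one hL0]
              linarith
          _ = _ := one_mul _

end Pool.Agent.Run7.h504.SQ
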