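import Pool.Agent.Run7.h504.SQ1
import Pool.Agent.Run7.h504.Ch1

set_option autoImplicit false

/-! Von Mangoldt's function along dense sequences of arguments, displaced by the members of thin families: most members,
most weights. -/

namespace Pool.Agent.Run7.h504.SQ

open Finset Pool.Agent.H373R2.T7
open Pool.Agent.Run7.h504.RM (ct ct_eq)

/-- a family of small additive energy of some order `p ≤ h`, with the logarithms of `x` -/
def LowX (h κ x y : ℕ) (s : ℕ → ℤ) : Prop :=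
  (∀ m ∈ Icc 1 y, |(s m : ℝ)| ≤ Real.log x ^ κ * x) ∧
    ∃ p ≤ h, (energy p y s : ℝ) * x ≤ Real.log x ^ κ * (y : ℝ) ^ (2 * p)

/-- the difference of the sums for the prime weights and for the sieve weights -/
noncomputable def dif {r : ℕ} (z : ℕ) (T : Finset ℕ) (u : Fin r → ℕ → ℕ) (θ : ℕ → ℝ) (c : Fin r → ℤ) : ℝ :=
  ∑ t ∈ T, θ t * (∏ i, lamI ((u i t : ℤ) + c i) - ∏ i, lamzI z ((u i t : ℤ) + c i))

/-- Markov's inequality -/
lemma markov {β : Type} (A : Finset β) (P : β → Prop) (G : β → ℝ) (c : ℝ) (hG : ∀ a ∈ A, 0 ≤ G a)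
    (h : ∀ a ∈ A, P a → c ≤ G a) : ct A P * c ≤ ∑ a ∈ A, G a := by
  classical
  rw [ct_eq]
  calc ((A.filter P).card : ℝ) * c = ∑ a ∈ A.filter P, c := by rw [sum_const, nsmul_eq_mul]
    _ ≤ ∑ a ∈ A.filter P, G a := sum_le_sum fun a ha => h a (mem_filter.1 ha).1 (mem_filter.1 ha).2
    _ ≤ _ := sum_le_sum_of_subset_of_nonneg (filter_subset _ _) fun a ha _ => hG a ha

open Classical in
theorem many (r h κ U : ℕ) : ∃ B0 : ℕ, ∀ E : ℕ, ∃ x0 : ℕ, ∀ x : ℕ, x0 ≤ x →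
    ∀ (y : Fin r → ℕ) (s : Fin r → ℕ → ℤ), (∀ i, LowX h κ x (y i) (s i)) →
    ∀ z : ℕ, Real.log x ^ B0 ≤ z → (z : ℝ) ≤ Real.log x ^ E →
    ∀ (T : Finset ℕ) (u : Fin r → ℕ → ℕ), (∀ i, Set.InjOn (u i) T) →
    (∀ i, ∀ t ∈ T, 1 ≤ u i t ∧ (u i t : ℝ) ≤ Real.log x ^ κ * x) →
    ∀ (S : Finset ℕ) (θ : ℕ → ℕ → ℝ), (∀ n ∈ S, ∀ t ∈ T, |θ n t| ≤ Real.log x ^ κ) →
    ct (Fintype.piFinset fun i => Icc 1 (y i)) (fun m => (S.card : ℝ) / Real.log x ^ U <
      ((S.filter (fun n => x / Real.log x ^ U < |dif z T u (θ n) (fun i => s i (m i))|)).card : ℝ)) ≤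
      (∏ i, (y i : ℝ)) / Real.log x ^ U := by
  obtain ⟨B0, h1⟩ := moment r h (3 * κ) (3 * U + 2 * κ)
  refine ⟨2 * B0, fun E => ?_⟩
  obtain ⟨n1, h1'⟩ := h1 E
  obtain ⟨n2, h2⟩ := ev_L' 2
  obtain ⟨n3, h3⟩ := ev_log' (2 * κ) 1
  refine ⟨n1 + n2 + n3 + 3, fun x hx y s hs z hz1 hz2 T u hu hux S θ hθ => ?_⟩
  have hL2 := h2 x (by omega)
  have hx3 : (3 : ℝ) ≤ x := by exact_mod_cast (by omega : 3 ≤ x)
  have hx0 : (0 : ℝ) < x := by linarith
  have hbig := h3 x (by omega)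
  obtain ⟨L, hL⟩ : ∃ L : ℝ, L = Real.log (x : ℝ) := ⟨_, rfl⟩
  rw [← hL] at hL2 hbig hz1 hz2 hux hθ ⊢
  have hL1 : 1 ≤ L := by linarith
  have hL0 : 0 < L := by linarith
  obtain ⟨K, hK⟩ : ∃ K : ℕ, K = ⌈L⌉₊ ^ κ := ⟨_, rfl⟩
  have hK1 : L ^ κ ≤ K := by
    rw [hK]
    push_cast
    exact pow_le_pow_left₀ hL0.le (Nat.le_ceil _) _
  have hK2 : (K : ℝ) ≤ L ^ (2 * κ) := by
    rw [hK, pow_mul]
    push_cast
    apply pow_le_pow_left₀ (Nat.cast_nonneg _)
    have : (⌈L⌉₊ : ℝ) < L + 1 := Nat.ceil_lt_add_one hL0.le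
    nlinarith
  have hK0 : (1 : ℝ) ≤ K := (one_le_pow₀ hL1).trans hK1
  obtain ⟨N, hN⟩ : ∃ N : ℕ, N = x * K := ⟨_, rfl⟩
  have hNr : (N : ℝ) = x * K := by rw [hN]; push_cast; ring
  have hxN : (x : ℝ) ≤ N := by rw [hNr]; nlinarith
  have hxN' : x ≤ N := by exact_mod_cast hxN
  have hNx : (N : ℝ) ≤ x ^ 2 := by
    rw [hNr, sq]
    apply mul_le_mul_of_nonneg_left _ hx0.le
    have q1 : √(x : ℝ) ≤ x := by
      rw [Real.sqrt_le_left hx0.le]
      nlinarith
    linarith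
  have hlog1 : L ≤ Real.log N := by rw [hL]; exact Real.log_le_log hx0 hxN
  have hlog2 : Real.log N ≤ L ^ 2 := by
    have q1 : Real.log N ≤ Real.log ((x : ℝ) ^ 2) := Real.log_le_log (by linarith) hNx
    rw [Real.log_pow, ← hL] at q1
    push_cast at q1
    nlinarith
  have hlog0 : 0 ≤ Real.log N := by linarith
  have hlow : ∀ i, Low h (3 * κ) N (y i) (s i) := by
    intro i
    obtain ⟨q1, p, hp, q2⟩ := hs i
    rw [← hL] at q1 q2
    refine ⟨fun m hm => ?_, p, hp, ?_⟩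
    · have q3 := q1 m hm
      have q4 : |(s i m : ℝ)| ≤ (N : ℝ) := by
        rw [hNr]
        refine q3.trans ?_
        rw [mul_comm (x : ℝ)]
        exact mul_le_mul_of_nonneg_right hK1 hx0.le
      exact_mod_cast q4
    · rw [hNr]
      have q5 : (0 : ℝ) ≤ (energy p (y i) (s i) : ℝ) * x := by positivity
      calc (energy p (y i) (s i) : ℝ) * (x * K) = (energy p (y i) (s i) : ℝ) * x * K := by ring
        _ ≤ (L ^ κ * (y i : ℝ) ^ (2 * p)) * L ^ (2 * κ) := mul_le_mul q2 hK2 (by positivity) (by positivity)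
        _ = L ^ (3 * κ) * (y i : ℝ) ^ (2 * p) := by
            rw [show 3 * κ = κ + 2 * κ by ring, pow_add]
            ring
        _ ≤ _ := mul_le_mul_of_nonneg_right (by
            rw [← hNr]
            exact pow_le_pow_left₀ hL0.le hlog1 _) (by positivity)
  have hz1' : Real.log N ^ B0 ≤ z := by
    refine le_trans ?_ hz1
    rw [pow_mul]
    exact pow_le_pow_left₀ hlog0 hlog2 _
  have hz2' : (z : ℝ) ≤ Real.log N ^ E := hz2.trans (pow_le_pow_left₀ hL0.le hlog1 _)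
  have huN : ∀ i, ∀ t ∈ T, 1 ≤ u i t ∧ u i t ≤ N := by
    intro i t ht
    obtain ⟨q1, q2⟩ := hux i t ht
    refine ⟨q1, ?_⟩
    have q4 : (u i t : ℝ) ≤ (N : ℝ) := by
      rw [hNr]
      refine q2.trans ?_
      rw [mul_comm (x : ℝ)]
      exact mul_le_mul_of_nonneg_right hK1 hx0.le
    exact_mod_cast q4
  have hP : 0 ≤ ∏ j, (y j : ℝ) := prod_nonneg fun _ _ => Nat.cast_nonneg _
  have hmom : ∀ n ∈ S, ∑ m ∈ Fintype.piFinset (fun i => Icc 1 (y i)), |dif z T u (θ n) (fun i => s i (m i))| ≤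
      x * (∏ i, (y i : ℝ)) / L ^ (3 * U) := by
    intro n hn
    have q := h1' N (by omega) y s hlow z hz1' hz2' T u hu huN (θ n) (fun t ht => by
      refine (hθ n hn t ht).trans ((pow_le_pow_left₀ hL0.le hlog1 _).trans ?_)
      exact pow_le_pow_right₀ (by linarith) (by omega))
    refine q.trans ?_
    rw [hNr]
    have q6 : L ^ (3 * U + 2 * κ) ≤ Real.log N ^ (3 * U + 2 * κ) := pow_le_pow_left₀ hL0.le hlog1 _
    calc x * K * (∏ i, (y i : ℝ)) / Real.log (x * K : ℝ) ^ (3 * U + 2 * κ)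
        ≤ x * L ^ (2 * κ) * (∏ i, (y i : ℝ)) / L ^ (3 * U + 2 * κ) := by
          rw [hNr] at q6
          apply div_le_div₀ (by positivity) _ (by positivity) q6
          apply mul_le_mul_of_nonneg_right _ hP
          exact mul_le_mul_of_nonneg_left hK2 hx0.le
      _ = _ := by
          rw [pow_add]
          field_simp
  rcases S.eq_empty_or_nonempty with h0 | h0
  · rw [h0]
    have e : ct (Fintype.piFinset fun i => Icc 1 (y i)) (fun m => ((∅ : Finset ℕ).card : ℝ) / L ^ U <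
      (((∅ : Finset ℕ).filter (fun n => x / L ^ U < |dif z T u (θ n) (fun i => s i (m i))|)).card : ℝ)) = 0 := by
      rw [ct_eq]
      simp
    rw [e]
    positivity
  have hS : (0 : ℝ) < S.card := by exact_mod_cast h0.card_pos
  have hmk := markov (Fintype.piFinset fun i => Icc 1 (y i)) (fun m => (S.card : ℝ) / L ^ U <
      ((S.filter (fun n => x / L ^ U < |dif z T u (θ n) (fun i => s i (m i))|)).card : ℝ))
    (fun m => ∑ n ∈ S, |dif z T u (θ n) (fun i => s i (m i))|) (S.card / L ^ U * (x / L ^ U))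
    (fun m _ => sum_nonneg fun _ _ => abs_nonneg _) (fun m _ hm => by
      calc (S.card : ℝ) / L ^ U * (x / L ^ U)
          ≤ ((S.filter (fun n => x / L ^ U < |dif z T u (θ n) (fun i => s i (m i))|)).card : ℝ) * (x / L ^ U) :=
            mul_le_mul_of_nonneg_right hm.le (by positivity)
        _ = ∑ n ∈ S.filter (fun n => x / L ^ U < |dif z T u (θ n) (fun i => s i (m i))|), (x / L ^ U) := by
            rw [sum_const, nsmul_eq_mul]
        _ ≤ ∑ n ∈ S.filter (fun n => x / L ^ U < |dif z T u (θ n) (fun i => s i (m i))|),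
              |dif z T u (θ n) (fun i => s i (m i))| := sum_le_sum fun n hn => (mem_filter.1 hn).2.le
        _ ≤ _ := sum_le_sum_of_subset_of_nonneg (filter_subset _ _) fun _ _ _ => abs_nonneg _)
  rw [sum_comm] at hmk
  have hsum := hmk.trans (sum_le_sum hmom)
  rw [sum_const, nsmul_eq_mul] at hsum
  have e1 : (S.card : ℝ) * (x * (∏ i, (y i : ℝ)) / L ^ (3 * U)) =
      ((∏ i, (y i : ℝ)) / L ^ U) * (S.card / L ^ U * (x / L ^ U)) := by
    rw [show 3 * U = U + U + U by ring, pow_add, pow_add]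
    field_simp
  rw [e1] at hsum
  exact le_of_mul_le_mul_right hsum (by positivity)

/-- the values of a polynomial -/
lemma low_poly (f : Polynomial ℤ) (hd : 1 ≤ f.natDegree) (hl : 0 < f.leadingCoeff) (κ : ℕ) :
    ∃ h : ℕ, ∃ x0 : ℕ, ∀ x : ℕ, x0 ≤ x → ∀ y : ℕ, 1 ≤ y → (x : ℝ) ≤ Real.log x ^ κ * (y : ℝ) ^ f.natDegree →
      (y : ℝ) ^ f.natDegree ≤ Real.log x ^ κ * x → ∀ (σ c : ℤ), (σ = 1 ∨ σ = -1) → |(c : ℝ)| ≤ Real.log x ^ κ * x →
      LowX h (κ + 1) x y (fun m => c + σ * f.eval (m : ℤ)) := by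
  obtain ⟨p, C, hC, hp⟩ := energy_poly f hd hl
  -- a bound of the values
  obtain ⟨D, hD⟩ : ∃ D : ℝ, D = ∑ i ∈ range (f.natDegree + 1), |(f.coeff i : ℝ)| := ⟨_, rfl⟩
  have hD0 : 0 ≤ D := by rw [hD]; exact sum_nonneg fun _ _ => abs_nonneg _
  have hval : ∀ y m : ℕ, 1 ≤ m → m ≤ y → |((f.eval (m : ℤ) : ℤ) : ℝ)| ≤ D * (y : ℝ) ^ f.natDegree := by
    intro y m hm hmy
    rw [Polynomial.eval_eq_sum_range]
    push_cast
    refine (abs_sum_le_sum_abs _ _).trans ?_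
    rw [hD, sum_mul]
    apply sum_le_sum
    intro i hi
    rw [abs_mul]
    apply mul_le_mul_of_nonneg_left _ (abs_nonneg _)
    rw [abs_of_nonneg (by positivity)]
    have hi' : i ≤ f.natDegree := by rw [mem_range] at hi; omega
    have hm1 : (1 : ℝ) ≤ m := by exact_mod_cast hm
    have hmy' : (m : ℝ) ≤ y := by exact_mod_cast hmy
    exact (pow_le_pow_right₀ hm1 hi').trans (pow_le_pow_left₀ (by positivity) hmy' _)
  obtain ⟨n1, h1⟩ := ev_L' (C + D + 1)
  refine ⟨p, n1 + 3, fun x hx y hy hxy hyx σ c hσ hc => ?_⟩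
  have hL := h1 x (by omega)
  have hL1 : 1 ≤ Real.log x := by linarith
  have hx0 : (0 : ℝ) < x := by exact_mod_cast (by omega : 0 < x)
  obtain ⟨L, hLd⟩ : ∃ L : ℝ, L = Real.log (x : ℝ) := ⟨_, rfl⟩
  unfold LowX
  rw [← hLd] at hL hL1 hxy hyx hc ⊢
  constructor
  · intro m hm
    rw [mem_Icc] at hm
    have q1 := hval y m hm.1 hm.2
    have q2 : |((c + σ * f.eval (m : ℤ) : ℤ) : ℝ)| ≤ |(c : ℝ)| + |((f.eval (m : ℤ) : ℤ) : ℝ)| := by
      push_cast
      refine (abs_add_le _ _).trans ?_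
      rw [abs_mul]
      have : |(σ : ℝ)| = 1 := by
        rcases hσ with h | h <;> rw [h] <;> simp
      rw [this, one_mul]
    refine q2.trans ?_
    calc |(c : ℝ)| + |((f.eval (m : ℤ) : ℤ) : ℝ)| ≤ L ^ κ * x + D * (L ^ κ * x) :=
          add_le_add hc (q1.trans (mul_le_mul_of_nonneg_left hyx hD0))
      _ = (1 + D) * (L ^ κ * x) := by ring
      _ ≤ L * (L ^ κ * x) := mul_le_mul_of_nonneg_right (by linarith) (by positivity)
      _ = _ := by ring
  · refine ⟨p, le_rfl, ?_⟩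
    have e0 : energy p y (fun m => c + σ * f.eval (m : ℤ)) = energy p y (fun m => f.eval (m : ℤ)) := by
      rcases hσ with h | h
      · have e1 := Pool.Agent.Run7.h504.CH.energy_affine p y (fun m => -(f.eval (m : ℤ))) c
        have e2 := Pool.Agent.Run7.h504.CH.energy_affine p y (fun m => (f.eval (m : ℤ))) 0
        rw [h]
        have e3 : (fun m : ℕ => c + 1 * f.eval (m : ℤ)) = fun m : ℕ => -(-(f.eval (m : ℤ))) + c := by
          funext m; ring
        have e4 : (fun m : ℕ => -(f.eval (m : ℤ))) = fun m : ℕ => -(f.eval (m : ℤ)) + 0 := by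
          funext m; ring
        rw [e3, e1, e4, e2]
      · rw [h]
        have e3 : (fun m : ℕ => c + (-1) * f.eval (m : ℤ)) = fun m : ℕ => -(f.eval (m : ℤ)) + c := by
          funext m; ring
        rw [e3, Pool.Agent.Run7.h504.CH.energy_affine]
    rw [e0]
    have q1 := hp y hy
    calc (energy p y (fun m => f.eval (m : ℤ)) : ℝ) * x
        ≤ (energy p y (fun m => f.eval (m : ℤ)) : ℝ) * (L ^ κ * (y : ℝ) ^ f.natDegree) :=
          mul_le_mul_of_nonneg_left hxy (Nat.cast_nonneg _)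
      _ = L ^ κ * ((energy p y (fun m => f.eval (m : ℤ)) : ℝ) * (y : ℝ) ^ f.natDegree) := by ring
      _ ≤ L ^ κ * (C * (y : ℝ) ^ (2 * p)) := mul_le_mul_of_nonneg_left q1 (by positivity)
      _ ≤ L ^ κ * (L * (y : ℝ) ^ (2 * p)) := by
          apply mul_le_mul_of_nonneg_left _ (by positivity)
          exact mul_le_mul_of_nonneg_right (by linarith) (by positivity)
      _ = _ := by ring

end Pool.Agent.Run7.h504.SQ
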