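import Pool.Agent.Run7.h504.SQ2

set_option autoImplicit false

/-! The integers `p_q - q`: size and monotonicity. The bound for the `t`-th prime is the one of `Run7/h17/Idx.lean`
(`pn_bound`), the monotonicity is from `Results/MP_61a569_nt/AlmostAllConstants.lean` (both by helper17). -/

namespace Pool.Agent.Run7.h504.SQ

open Finset
open Pool.Agent.H373R2.T7 (ev_L' ev_log')

lemma nth_bound : ∃ x0 : ℕ, ∀ x : ℕ, x0 ≤ x → ∀ t ∈ Icc 1 x,
    ((Nat.nth Nat.Prime (t - 1) : ℕ) : ℝ) ≤ Real.log x ^ 2 * x := by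
  obtain ⟨n1, h1⟩ := ev_L' 8
  obtain ⟨n2, h2⟩ := ev_log' 2 1
  refine ⟨n1 + n2 + 8, fun x hx t ht => ?_⟩
  have hL := h1 x (by omega)
  have h2' := h2 x (by omega)
  have hx8 : (8 : ℝ) ≤ x := by exact_mod_cast (by omega : 8 ≤ x)
  have hx0 : (0 : ℝ) < x := by linarith
  set L := Real.log x with hLd
  set y : ℕ := ⌊L ^ 2 * x⌋₊ with hy
  have hy1 : (y : ℝ) ≤ L ^ 2 * x := Nat.floor_le (by positivity)
  have hy2 : L ^ 2 * x - 1 < y := by
    have := Nat.lt_floor_add_one (L ^ 2 * x)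
    rw [← hy] at this
    linarith
  have hL64 : 64 ≤ L ^ 2 := by nlinarith
  have hy3 : (1 : ℝ) ≤ y := by nlinarith
  have hy4 : (y : ℝ) ≤ (x : ℝ) ^ 2 := by
    refine hy1.trans ?_
    have : L ^ 2 ≤ √x := by simpa using h2'
    have h3 : √(x : ℝ) ≤ x := by
      rw [Real.sqrt_le_left hx0.le]
      nlinarith
    nlinarith
  have hly : Real.log y ≤ 2 * L := by
    have := Real.log_le_log (by linarith) hy4
    rw [Real.log_pow] at this
    exact_mod_cast this
  have hly1 : Real.log (y + 1) ≤ 2 * L + 1 := by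
    have e1 : (y : ℝ) + 1 ≤ 2 * y := by linarith
    have e2 := Real.log_le_log (by linarith : (0 : ℝ) < y + 1) e1
    rw [Real.log_mul (by norm_num) (by linarith)] at e2
    have := Real.log_two_lt_d9
    linarith
  have e1 := Chebyshev.psi_ge y
  have e2 := Chebyshev.psi_le_primeCounting_mul_log y
  have hlog2 := Real.log_two_gt_d9
  have hlx : L ≤ x := (Real.log_le_sub_one_of_pos hx0).trans (by linarith)
  have hpi : (x : ℝ) ≤ Nat.primeCounting y := by
    by_contra hcon
    push Not at hcon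
    have e3 : (Nat.primeCounting y : ℝ) * Real.log y ≤ x * (2 * L) := by
      apply mul_le_mul hcon.le hly (Real.log_nonneg hy3) hx0.le
    have e4 : (L ^ 2 * x - 1) * 0.69 ≤ y * Real.log 2 := by
      have : (0.69 : ℝ) ≤ Real.log 2 := by linarith
      nlinarith
    have e5 : 8 * (L * x) ≤ L ^ 2 * x := by nlinarith [mul_pos (show (0:ℝ) < L by linarith) hx0]
    nlinarith [mul_pos (show (0:ℝ) < L by linarith) hx0]
  rw [mem_Icc] at ht
  have hpi2 : x ≤ Nat.primeCounting y := by exact_mod_cast hpi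
  have hlt : t - 1 < Nat.count Nat.Prime (y + 1) := by
    have : Nat.primeCounting y = Nat.count Nat.Prime (y + 1) := rfl
    omega
  have h5 := Nat.nth_lt_of_lt_count hlt
  have h6 : Nat.nth Nat.Prime (t - 1) ≤ y := by omega
  exact (by exact_mod_cast h6 : ((Nat.nth Nat.Prime (t - 1) : ℕ) : ℝ) ≤ y).trans hy1

/-- the arguments: `arg t = p_{t+1} - (t+1)` -/
noncomputable def arg (t : ℕ) : ℕ := Nat.nth Nat.Prime t - (t + 1)

lemma nth_mono : StrictMono (Nat.nth Nat.Prime) := Nat.nth_strictMono Nat.infinite_setOfPred_prime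

lemma nth_ge (t : ℕ) : t + 2 ≤ Nat.nth Nat.Prime t := by
  have h : Nat.nth Nat.Prime 0 + t ≤ Nat.nth Nat.Prime t := by
    induction t with
    | zero => simp
    | succ m ih =>
      have := nth_mono (Nat.lt_succ_self m)
      have e : m.succ = m + 1 := rfl
      rw [e] at this
      omega
  have h2 := (Nat.prime_nth_prime 0).two_le
  omega

lemma arg_step (t : ℕ) (ht : 1 ≤ t) : arg t < arg (t + 1) := by
  have h1 := nth_ge t
  have h2 := nth_ge (t + 1)
  have h3 : Nat.nth Nat.Prime t < Nat.nth Nat.Prime (t + 1) :=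
    nth_mono (Nat.lt_succ_self t)
  have h4 : Nat.nth Nat.Prime t ≠ Nat.nth Nat.Prime (t + 1) - 1 := by
    intro h
    have p1 := Nat.prime_nth_prime t
    have p2 := Nat.prime_nth_prime (t + 1)
    have h5 : Nat.nth Nat.Prime t + 1 = Nat.nth Nat.Prime (t + 1) := by omega
    have h6 : 2 < Nat.nth Nat.Prime t := by
      have e1 := nth_mono (show 0 < t by omega)
      have e2 := (Nat.prime_nth_prime 0).two_le
      exact lt_of_le_of_lt e2 e1
    rcases p1.eq_two_or_odd with h7 | h7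
    · omega
    · rcases p2.eq_two_or_odd with h8 | h8
      · omega
      · omega
  unfold arg
  omega

lemma arg_mono (s t : ℕ) (hs : 1 ≤ s) (hst : s < t) : arg s < arg t := by
  induction t with
  | zero => omega
  | succ m ih =>
    rcases Nat.lt_succ_iff_lt_or_eq.mp hst with h | h
    · exact (ih h).trans (arg_step m (by omega))
    · rw [h]
      exact arg_step m (by omega)

lemma arg_inj (x : ℕ) : Set.InjOn arg (Icc 1 x : Finset ℕ) := by
  intro s hs t ht h
  rw [mem_coe, mem_Icc] at hs ht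
  rcases lt_trichotomy s t with h1 | h1 | h1
  · have := arg_mono s t hs.1 h1
    omega
  · exact h1
  · have := arg_mono t s ht.1 h1
    omega

/-- the size of the arguments -/
lemma arg_bound : ∃ x0 : ℕ, ∀ x : ℕ, x0 ≤ x → ∀ t ∈ Icc 1 x, 1 ≤ arg t ∧ (arg t : ℝ) ≤ Real.log x ^ 4 * x := by
  obtain ⟨n2, h2⟩ := nth_bound
  obtain ⟨n3, h3⟩ := ev_L' 4
  refine ⟨n2 + n3 + 2, fun x hx t ht => ?_⟩
  have hL4 := h3 x (by omega)
  have hL1 : 1 ≤ Real.log x := by linarith
  have hx0 : (0 : ℝ) < x := by exact_mod_cast (by omega : 0 < x)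
  have hx1 : (1 : ℝ) ≤ x := by exact_mod_cast (by omega : 1 ≤ x)
  rw [mem_Icc] at ht
  have g1 := nth_ge t
  refine ⟨by unfold arg; omega, ?_⟩
  have g2 := h2 (x + 1) (by omega) (t + 1) (by rw [mem_Icc]; omega)
  rw [Nat.add_sub_cancel] at g2
  have g3 : (arg t : ℝ) ≤ (Nat.nth Nat.Prime t : ℝ) := by
    unfold arg
    exact Nat.cast_le.mpr (Nat.sub_le _ _)
  have g5 : Real.log ((x + 1 : ℕ) : ℝ) ≤ 2 * Real.log x := by
    have : ((x + 1 : ℕ) : ℝ) ≤ x * x := by
      push_cast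
      have h2x : (2 : ℝ) ≤ x := by exact_mod_cast (by omega : 2 ≤ x)
      nlinarith
    calc Real.log ((x + 1 : ℕ) : ℝ) ≤ Real.log (x * x) := Real.log_le_log (by positivity) this
      _ = 2 * Real.log x := by rw [Real.log_mul hx0.ne' hx0.ne']; ring
  have g6 : 0 ≤ Real.log ((x + 1 : ℕ) : ℝ) := Real.log_nonneg (by push_cast; linarith)
  have g7 : ((x + 1 : ℕ) : ℝ) ≤ 2 * x := by push_cast; linarith
  calc (arg t : ℝ) ≤ Real.log ((x + 1 : ℕ) : ℝ) ^ 2 * ((x + 1 : ℕ) : ℝ) := g3.trans g2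
    _ ≤ (2 * Real.log x) ^ 2 * (2 * x) :=
        mul_le_mul (pow_le_pow_left₀ g6 g5 2) g7 (Nat.cast_nonneg _) (by positivity)
    _ = (2 * (4 * Real.log x ^ 2)) * x := by ring
    _ ≤ (Real.log x * (Real.log x * Real.log x ^ 2)) * x := by
        apply mul_le_mul_of_nonneg_right _ hx0.le
        have : 0 ≤ Real.log x ^ 2 := by positivity
        apply mul_le_mul (by linarith) _ (by positivity) (by linarith)
        exact mul_le_mul_of_nonneg_right hL4 this
    _ = Real.log x ^ 4 * x := by ring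

lemma LowX_mono {h κ κ' x y : ℕ} {s : ℕ → ℤ} (hk : κ ≤ κ') (hL : 1 ≤ Real.log (x : ℝ)) (hs : LowX h κ x y s) :
    LowX h κ' x y s := by
  obtain ⟨h1, p, hp, h2⟩ := hs
  have hLk : Real.log (x : ℝ) ^ κ ≤ Real.log (x : ℝ) ^ κ' := pow_le_pow_right₀ hL hk
  exact ⟨fun m hm => (h1 m hm).trans (mul_le_mul_of_nonneg_right hLk (Nat.cast_nonneg _)), p, hp,
    h2.trans (mul_le_mul_of_nonneg_right hLk (by positivity))⟩

end Pool.Agent.Run7.h504.SQ
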