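import Pool.Agent.H165R3.BPE
import Pool.Agent.H469R2.NK.Vdc
import Pool.Agent.Run7.h504.RM3

set_option autoImplicit false

/-!
# Uniform Wiener–Wintner for the orbits of weakly mixing functions
-/

open Finset MeasureTheory Filter Topology
open scoped ComplexConjugate

namespace Pool.Agent.Run7.h504.WW

open Pool.Agent.H807R2.Dav (ee norm_ee)
open Pool.Agent.Run7.h504.RM (Sup)

lemma ee_add (a b : ℝ) : ee (a + b) = ee a * ee b := by
  unfold ee
  rw [← Complex.exp_add]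
  congr 1
  push_cast
  ring

lemma ee_mul_conj (a : ℝ) : ee a * conj (ee a) = 1 := by
  rw [Complex.mul_conj, Complex.normSq_eq_norm_sq, norm_ee]
  norm_num

/-- a bounded sequence with correlations small on average has small exponential sums -/
theorem sup_of_corr (z : ℕ → ℂ) (hz : ∀ n, ‖z n‖ ≤ 1) (c : ℕ → ℝ)
    (hc : ∀ l, Tendsto (fun n : ℕ => (n : ℝ)⁻¹ * ‖∑ k ∈ range n, z (k + l) * conj (z k)‖) atTop (𝓝 (c l)))
    (hc0 : ∀ j H0 : ℕ, ∃ H : ℕ, H0 ≤ H ∧ (H : ℝ)⁻¹ * ∑ l ∈ range H, c l ≤ 1 / ((j : ℝ) + 1)) : Sup z := by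
  intro ε hε
  set δ : ℝ := ε ^ 2 / 160 with hδ
  have hδ0 : 0 < δ := by positivity
  have hcn : ∀ l, 0 ≤ c l := fun l => ge_of_tendsto' (hc l) fun n => by positivity
  obtain ⟨H, hH1, hH2⟩ : ∃ H : ℕ, 1 / δ ≤ H ∧ (H : ℝ)⁻¹ * ∑ l ∈ range H, c l ≤ δ := by
    obtain ⟨H0, hH0⟩ := exists_nat_ge (1 / δ)
    obtain ⟨j, hj⟩ := exists_nat_one_div_lt hδ0
    obtain ⟨H, hH', hH⟩ := hc0 j H0
    exact ⟨H, hH0.trans (by exact_mod_cast hH'), hH.trans hj.le⟩
  have hH0 : (0 : ℝ) < H := lt_of_lt_of_le (by positivity) hH1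
  have hHN : 1 ≤ H := by
    have : 0 < H := by exact_mod_cast hH0
    omega
  have h3 : ∀ l, ∃ M : ℕ, ∀ n, M ≤ n → ‖∑ k ∈ range n, z (k + l) * conj (z k)‖ ≤ (c l + δ) * n := by
    intro l
    have h1 : ∀ᶠ n : ℕ in atTop, (n : ℝ)⁻¹ * ‖∑ k ∈ range n, z (k + l) * conj (z k)‖ ≤ c l + δ :=
      (hc l).eventually_le_const (by linarith)
    obtain ⟨M, hM⟩ := eventually_atTop.1 h1
    refine ⟨M, fun n hn => ?_⟩
    rcases Nat.eq_zero_or_pos n with h0 | h0
    · subst h0; simp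
    · have hn0 : (0 : ℝ) < n := by exact_mod_cast h0
      have := hM n hn
      rw [inv_mul_le_iff₀ hn0] at this
      linarith [mul_comm (n : ℝ) (c l + δ)]
  choose M hM using h3
  obtain ⟨N2, hN2⟩ := exists_nat_ge (2 / ε)
  refine ⟨∑ l ∈ range H, M l + H + N2 + 1, fun N hN α => ?_⟩
  set v : ℕ → ℂ := fun n => z n * ee ((n : ℝ) * α) with hv
  have hv1 : ∀ n, ‖v n‖ ≤ 1 := fun n => by rw [hv]; simp only [norm_mul, norm_ee, mul_one]; exact hz n
  have hvd := Pool.Agent.H469R2.NK.vdcH v hv1 (N + 1) H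
  have hN1 : (1 : ℝ) ≤ N := by exact_mod_cast (by omega : 1 ≤ N)
  have hcor : ∀ l ∈ Ico 1 H, ‖∑ n ∈ range (N + 1 - l), v (n + l) * (starRingEnd ℂ) (v n)‖ ≤ (c l + δ) * (N + 1) := by
    intro l hl
    rw [mem_Ico] at hl
    have h4 : ∀ n ∈ range (N + 1 - l), v (n + l) * (starRingEnd ℂ) (v n) = ee ((l : ℝ) * α) * (z (n + l) * conj (z n)) := by
      intro n _
      simp only [hv]
      rw [show (((n + l : ℕ) : ℝ)) * α = (n : ℝ) * α + (l : ℝ) * α by push_cast; ring, ee_add, map_mul]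
      have := ee_mul_conj ((n : ℝ) * α)
      calc z (n + l) * (ee ((n : ℝ) * α) * ee ((l : ℝ) * α)) * (conj (z n) * conj (ee ((n : ℝ) * α)))
          = (ee ((n : ℝ) * α) * conj (ee ((n : ℝ) * α))) * (ee ((l : ℝ) * α) * (z (n + l) * conj (z n))) := by ring
        _ = _ := by rw [this, one_mul]
    rw [sum_congr rfl h4, ← mul_sum, norm_mul, norm_ee, one_mul]
    have h5 : M l ≤ N + 1 - l := by
      have : M l ≤ ∑ l ∈ range H, M l := single_le_sum (f := M) (fun _ _ => Nat.zero_le _) (mem_range.2 hl.2)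
      omega
    refine (hM l _ h5).trans ?_
    apply mul_le_mul_of_nonneg_left _ (by linarith [hcn l])
    have : ((N + 1 - l : ℕ) : ℝ) ≤ ((N + 1 : ℕ) : ℝ) := by exact_mod_cast Nat.sub_le _ _
    push_cast at this
    exact this
  have hsumc : ∑ l ∈ Ico 1 H, (c l + δ) * ((N : ℝ) + 1) ≤ 2 * δ * H * (N + 1) := by
    rw [← sum_mul]
    apply mul_le_mul_of_nonneg_right _ (by positivity)
    have h6 : ∑ l ∈ Ico 1 H, (c l + δ) ≤ ∑ l ∈ range H, (c l + δ) := by
      apply sum_le_sum_of_subset_of_nonneg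
      · intro l hl
        rw [mem_Ico] at hl
        exact mem_range.2 hl.2
      · intro l _ _
        linarith [hcn l]
    refine h6.trans ?_
    rw [sum_add_distrib, sum_const, card_range, nsmul_eq_mul]
    have h7 : ∑ l ∈ range H, c l ≤ H * δ := by
      rw [inv_mul_le_iff₀ hH0] at hH2
      exact hH2
    linarith
  set S := ∑ n ∈ range (N + 1), v n with hS
  have hbig : (H : ℝ) * ‖S‖ ^ 2 ≤ (H : ℝ) * (ε * N / 2) ^ 2 := by
    have h8 : (((N + 1 : ℕ) : ℝ) + H) * (((N + 1 : ℕ) : ℝ) + 2 * ∑ l ∈ Ico 1 H,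
        ‖∑ n ∈ range (N + 1 - l), v (n + l) * (starRingEnd ℂ) (v n)‖) ≤
        (2 * (N + 1)) * ((N + 1) + 2 * (2 * δ * H * (N + 1))) := by
      have hHle : (H : ℝ) ≤ N + 1 := by exact_mod_cast (by omega : H ≤ N + 1)
      have h9 := (sum_le_sum hcor).trans hsumc
      push_cast
      apply mul_le_mul
      · linarith
      · linarith
      · have : 0 ≤ ∑ l ∈ Ico 1 H, ‖∑ n ∈ range (N + 1 - l), v (n + l) * (starRingEnd ℂ) (v n)‖ :=
          sum_nonneg fun _ _ => norm_nonneg _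
        linarith
      · linarith
    refine hvd.trans (h8.trans ?_)
    have h10 : (1 : ℝ) ≤ δ * H := by
      rw [div_le_iff₀ hδ0] at hH1
      linarith
    have h11 : (N : ℝ) + 1 ≤ 2 * N := by linarith
    calc (2 * ((N : ℝ) + 1)) * ((N + 1) + 2 * (2 * δ * H * (N + 1)))
        = 2 * ((N : ℝ) + 1) ^ 2 * (1 + 4 * (δ * H)) := by ring
      _ ≤ 2 * (2 * (N : ℝ)) ^ 2 * (5 * (δ * H)) := by
          apply mul_le_mul
          · gcongr
          · linarith
          · positivity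
          · positivity
      _ = (H : ℝ) * (ε * N / 2) ^ 2 := by rw [hδ]; ring
  have hSb : ‖S‖ ≤ ε * N / 2 := by
    have := le_of_mul_le_mul_left hbig hH0
    exact le_of_sq_le_sq this (by positivity) |> fun h => h
  have hsplit : ∑ n ∈ Icc 1 N, z n * ee ((n : ℝ) * α) = S - v 0 := by
    rw [hS, range_eq_Ico, sum_eq_sum_Ico_succ_bot (by omega : 0 < N + 1)]
    rw [add_sub_cancel_left]
    apply sum_congr _ fun _ _ => rfl
    ext n
    simp only [mem_Icc, mem_Ico]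
    omega
  rw [hsplit]
  refine (norm_sub_le _ _).trans ?_
  have h12 : (1 : ℝ) ≤ ε * N / 2 := by
    have : (N2 : ℝ) ≤ N := by exact_mod_cast (by omega : N2 ≤ N)
    have h13 : 2 / ε ≤ N := hN2.trans this
    rw [div_le_iff₀ hε] at h13
    linarith
  linarith [hv1 0]

/-- Birkhoff's theorem for complex valued functions -/
theorem birkhoffC {X : Type*} [MeasurableSpace X] {μ : Measure X} [IsProbabilityMeasure μ] {T : X → X}
    (hT : MeasurePreserving T μ μ) (f : X → ℂ) (hf : Measurable f) (C : ℝ) (hb : ∀ x, ‖f x‖ ≤ C) :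
    ∀ᵐ x ∂μ, Tendsto (fun n : ℕ => (n : ℂ)⁻¹ * ∑ k ∈ range n, f (T^[k] x)) atTop
      (𝓝 ((μ[f | MeasurableSpace.invariants T]) x)) := by
  have hfi : Integrable f μ := Integrable.of_bound hf.aestronglyMeasurable C (Eventually.of_forall hb)
  have h1 := Pool.Agent.H165R3.BPE.birkhoff hT (fun x => (f x).re) (Complex.measurable_re.comp hf) C
    (fun x => (Complex.abs_re_le_norm _).trans (hb x))
  have h2 := Pool.Agent.H165R3.BPE.birkhoff hT (fun x => (f x).im) (Complex.measurable_im.comp hf) C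
    (fun x => (Complex.abs_im_le_norm _).trans (hb x))
  have h3 := Complex.reCLM.comp_condExp_comm (m := MeasurableSpace.invariants T) hfi
  have h4 := Complex.imCLM.comp_condExp_comm (m := MeasurableSpace.invariants T) hfi
  filter_upwards [h1, h2, h3, h4] with x h1 h2 h3 h4
  have e1 : ((μ[f | MeasurableSpace.invariants T]) x).re = (μ[fun x => (f x).re | MeasurableSpace.invariants T]) x := h3
  have e2 : ((μ[f | MeasurableSpace.invariants T]) x).im = (μ[fun x => (f x).im | MeasurableSpace.invariants T]) x := h4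
  rw [← e1] at h1
  rw [← e2] at h2
  have h5 := ((Complex.continuous_ofReal.tendsto _).comp h1).add
    (((Complex.continuous_ofReal.tendsto _).comp h2).mul_const Complex.I)
  rw [Complex.re_add_im] at h5
  refine h5.congr fun n => ?_
  simp only [Function.comp_apply]
  push_cast
  rw [mul_assoc, ← mul_add, sum_mul, ← sum_add_distrib]
  congr 1
  apply sum_congr rfl
  intro k _
  exact Complex.re_add_im _

/-- functions with small mean have small values infinitely often, almost everywhere -/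
lemma inf_often {X : Type*} [MeasurableSpace X] {μ : Measure X} [IsProbabilityMeasure μ] (F : ℕ → X → ℝ)
    (hF0 : ∀ H x, 0 ≤ F H x) (hFi : ∀ H, Integrable (F H) μ)
    (h : Tendsto (fun H => ∫ x, F H x ∂μ) atTop (𝓝 0)) :
    ∀ᵐ x ∂μ, ∀ j H0 : ℕ, ∃ H : ℕ, H0 ≤ H ∧ F H x ≤ 1 / ((j : ℝ) + 1) := by
  rw [ae_all_iff]
  intro j
  rw [ae_all_iff]
  intro H0
  have hj : (0 : ℝ) < 1 / ((j : ℝ) + 1) := by positivity
  rw [ae_iff]
  have hle : ∀ H, H0 ≤ H → μ.real {x | ¬ ∃ H : ℕ, H0 ≤ H ∧ F H x ≤ 1 / ((j : ℝ) + 1)} ≤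
      (1 / ((j : ℝ) + 1))⁻¹ * ∫ x, F H x ∂μ := by
    intro H hH
    have h1 := mul_meas_ge_le_integral_of_nonneg (Eventually.of_forall (hF0 H)) (hFi H) (1 / ((j : ℝ) + 1))
    have h2 : μ.real {x | ¬ ∃ H : ℕ, H0 ≤ H ∧ F H x ≤ 1 / ((j : ℝ) + 1)} ≤ μ.real {x | 1 / ((j : ℝ) + 1) ≤ F H x} := by
      apply measureReal_mono _ (measure_ne_top _ _)
      intro x hx
      by_contra hcon
      exact hx ⟨H, hH, (not_le.1 hcon).le⟩
    rw [le_inv_mul_iff₀ hj]
    exact (mul_le_mul_of_nonneg_left h2 hj.le).trans h1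
  have h3 : μ.real {x | ¬ ∃ H : ℕ, H0 ≤ H ∧ F H x ≤ 1 / ((j : ℝ) + 1)} ≤ 0 := by
    have h4 : Tendsto (fun H => (1 / ((j : ℝ) + 1))⁻¹ * ∫ x, F H x ∂μ) atTop (𝓝 0) := by
      simpa using h.const_mul (1 / ((j : ℝ) + 1))⁻¹
    exact ge_of_tendsto h4 ((eventually_ge_atTop H0).mono fun H hH => hle H hH)
  have h5 : μ.real {x | ¬ ∃ H : ℕ, H0 ≤ H ∧ F H x ≤ 1 / ((j : ℝ) + 1)} = 0 := le_antisymm h3 measureReal_nonneg
  rwa [measureReal_eq_zero_iff (measure_ne_top _ _)] at h5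

/-- **Uniform Wiener–Wintner.** -/
theorem ww {X : Type*} [MeasurableSpace X] {μ : Measure X} [IsProbabilityMeasure μ] {T : X → X}
    (hT : MeasurePreserving T μ μ) (g : X → ℂ) (hf : Measurable g) (hb : ∀ x, ‖g x‖ ≤ 1)
    (hw : Tendsto (fun H : ℕ => (H : ℝ)⁻¹ * ∑ l ∈ range H,
      ∫ x, ‖(μ[fun x => g (T^[l] x) * conj (g x) | MeasurableSpace.invariants T]) x‖ ∂μ) atTop (𝓝 0)) :
    ∀ᵐ x ∂μ, Sup (fun n => g (T^[n] x)) := by
  set E : ℕ → X → ℝ := fun l x => ‖(μ[fun x => g (T^[l] x) * conj (g x) | MeasurableSpace.invariants T]) x‖ with hE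
  have hEi : ∀ l, Integrable (E l) μ := fun l => integrable_condExp.norm
  have h1 : ∀ l : ℕ, ∀ᵐ x ∂μ, Tendsto (fun n : ℕ => (n : ℂ)⁻¹ * ∑ k ∈ range n,
      g (T^[l] (T^[k] x)) * conj (g (T^[k] x))) atTop
        (𝓝 ((μ[fun x => g (T^[l] x) * conj (g x) | MeasurableSpace.invariants T]) x)) := by
    intro l
    apply birkhoffC hT (fun x => g (T^[l] x) * conj (g x)) _ 1
    · intro x
      rw [norm_mul, RCLike.norm_conj]
      exact mul_le_one₀ (hb _) (norm_nonneg _) (hb _)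
    · exact (hf.comp (hT.measurable.iterate l)).mul (Complex.continuous_conj.measurable.comp hf)
  have h2 : ∀ᵐ x ∂μ, ∀ j H0 : ℕ, ∃ H : ℕ, H0 ≤ H ∧ (H : ℝ)⁻¹ * ∑ l ∈ range H, E l x ≤ 1 / ((j : ℝ) + 1) := by
    apply inf_often (fun H x => (H : ℝ)⁻¹ * ∑ l ∈ range H, E l x)
    · intro H x
      apply mul_nonneg (by positivity)
      exact sum_nonneg fun _ _ => norm_nonneg _
    · intro H
      exact (integrable_finset_sum _ fun l _ => hEi l).const_mul _
    · refine hw.congr fun H => ?_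
      rw [integral_const_mul, integral_finset_sum _ fun l _ => hEi l]
  rw [← ae_all_iff] at h1
  filter_upwards [h1, h2] with x hx hx2
  apply sup_of_corr (fun n => g (T^[n] x)) (fun n => hb _) (fun l => E l x) _ hx2
  intro l
  have h2 := (hx l).norm
  refine h2.congr fun n => ?_
  rw [norm_mul, norm_inv, Complex.norm_natCast]
  congr 2
  apply sum_congr rfl
  intro k _
  rw [← Function.iterate_add_apply, add_comm l k]

end Pool.Agent.Run7.h504.WW
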