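import Pool.Agent.Run7.h504.WW1

set_option autoImplicit false

/-!
# Products of displaced sequences: replacing each factor by its structured part
-/

open Finset

namespace Pool.Agent.Run7.h504.WW

open Pool.Agent.H807R2.Dav (ee norm_ee)
open Pool.Agent.H373R2.T7 (exI energy)
open Pool.Agent.Run7.h504.RM

theorem tup2 (h B W k : ℕ) (K ε : ℝ) (hε : 0 < ε) (a b : Fin k → ℕ → ℂ) (ha : ∀ i n, ‖a i n‖ ≤ 1)
    (hb : ∀ i n, ‖b i n‖ ≤ 1) (hAp : ∀ i, Sup (fun n => a i n - b i n)) :
    ∃ N₀ : ℕ, ∀ N : ℕ, N₀ ≤ N → ∀ (x : Fin k → ℕ) (s : Fin k → ℕ → ℤ),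
      (∀ i, (∀ m ∈ Icc 1 (x i), |s i m| ≤ B * N) ∧
        ∃ p : ℕ, 1 ≤ p ∧ p ≤ h ∧ (energy p (x i) (s i) : ℝ) * N ≤ K * (x i : ℝ) ^ (2 * p)) →
      ∀ α : Fin k → ℕ, (∀ i, 1 ≤ α i) → ∀ w : Fin W → ℕ → ℂ, (∀ l n, ‖w l n‖ ≤ 1) →
      ct (Fintype.piFinset fun i => Icc 1 (x i)) (fun m => ¬ ∀ l, ∀ X : ℕ, (∀ i, α i * X ≤ B * N) →
          ‖∑ n ∈ Icc 1 X, w l n * (∏ j, exI (a j) (α j * n + s j (m j)) - ∏ j, exI (b j) (α j * n + s j (m j)))‖ ≤ ε * N) ≤
        ε * ∏ i, (x i : ℝ) := by
  classical
  set y : ℝ := |K| + k / ε + 1 with hy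
  have hk0 : (0 : ℝ) ≤ k := Nat.cast_nonneg _
  have hy0 : 0 < y := by positivity
  have hKy : K ≤ y := by
    have := le_abs_self K
    have : 0 ≤ (k : ℝ) / ε := by positivity
    linarith
  have hky : k * y⁻¹ ≤ ε := by
    rw [← div_eq_mul_inv, div_le_iff₀ hy0]
    have h1 : ε * (k / ε) = k := by field_simp
    have h2 : 0 ≤ ε * (|K| + 1) := by positivity
    have h3 : ε * y = ε * (k / ε) + ε * (|K| + 1) := by rw [hy]; ring
    linarith
  set ε' : ℝ := ε / (2 * (k + 1)) with hε'
  have hε'0 : 0 < ε' := by positivity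
  set g : Fin k → ℕ → ℂ := fun i n => (1 / 2 : ℂ) * (a i n - b i n) with hg
  have hg1 : ∀ i n, ‖g i n‖ ≤ 1 := by
    intro i n
    simp only [hg, norm_mul]
    have h1 : ‖(1 / 2 : ℂ)‖ = 1 / 2 := by norm_num
    rw [h1]
    have h2 := norm_sub_le (a i n) (b i n)
    have h3 := ha i n
    have h4 := hb i n
    linarith
  have hgs : ∀ i, Sup (g i) := by
    intro i δ hδ
    obtain ⟨N0, hN0⟩ := hAp i δ hδ
    refine ⟨N0, fun N hN α => ?_⟩
    have h1 : ∑ n ∈ Icc 1 N, g i n * ee ((n : ℝ) * α) = (1 / 2 : ℂ) * ∑ n ∈ Icc 1 N, (a i n - b i n) * ee ((n : ℝ) * α) := by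
      rw [mul_sum]
      apply sum_congr rfl
      intro n _
      simp only [hg]
      ring
    rw [h1, norm_mul]
    have h2 : ‖(1 / 2 : ℂ)‖ = 1 / 2 := by norm_num
    rw [h2]
    have h3 := hN0 N hN α
    have h4 : 0 ≤ ‖∑ n ∈ Icc 1 N, (a i n - b i n) * ee ((n : ℝ) * α)‖ := norm_nonneg _
    linarith
  set T := Fin W × Finset (Fin k) with hT
  set L := Fintype.card T with hL
  set eq := Fintype.equivFin T with heq
  choose! N1 hN1 using fun (i : Fin k) (p : ℕ) (hp : 1 ≤ p) => fam_q B L p hp hε'0 hy0 (hg1 i) (hgs i)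
  refine ⟨∑ i, ∑ p ∈ range (h + 1), N1 i p, fun N hN x s hs α hα w hw => ?_⟩
  set c : Fin k → Finset (Fin k) → ℤ → ℂ := fun j I z => if j ∈ I then exI (b j) z else exI (a j) z with hc
  have hc1 : ∀ j I z, ‖c j I z‖ ≤ 1 := by
    intro j I z
    simp only [hc]
    split_ifs
    · exact exI_le (hb j) z
    · exact exI_le (ha j) z
  -- one coordinate
  have hone : ∀ i, ct (Fintype.piFinset fun j => Icc 1 (x j)) (fun m => ¬ ∀ l, ∀ I : Finset (Fin k),
        ∀ X : ℕ, α i * X ≤ B * N →
          ‖∑ n ∈ Icc 1 X, w l n * (exI (g i) (α i * n + s i (m i)) *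
            ∏ j ∈ univ.erase i, c j I (α j * n + s j (m j)))‖ ≤ ε' * N) ≤
        y⁻¹ * ∏ i, (x i : ℝ) := by
    intro i
    apply fiber x i
    intro m hm
    obtain ⟨p, hp1, hp2, hE⟩ := (hs i).2
    have hNi : N1 i p ≤ N := le_trans ((single_le_sum (f := fun p => N1 i p) (fun _ _ => Nat.zero_le _)
      (mem_range.2 (by omega))).trans (single_le_sum (f := fun i => ∑ p ∈ range (h + 1), N1 i p)
        (fun _ _ => Nat.zero_le _) (mem_univ i))) hN
    have h1 := hN1 i p hp1 N hNi (x i) (s i) (hs i).1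
      (hE.trans (mul_le_mul_of_nonneg_right hKy (by positivity))) (fun _ : Fin L => α i)
      (fun l n => w (eq.symm l).1 n * ∏ j ∈ univ.erase i, c j (eq.symm l).2 (α j * n + s j (m j)))
      (fun _ => hα i) (by
        intro l
        have h2 : ∀ n ∈ Icc 1 (B * N / α i),
            ‖w (eq.symm l).1 n * ∏ j ∈ univ.erase i, c j (eq.symm l).2 (α j * n + s j (m j))‖ ^ 2 ≤ 1 := by
          intro n _
          apply pow_le_one₀ (norm_nonneg _)
          rw [norm_mul, norm_prod]
          exact mul_le_one₀ (hw _ _) (prod_nonneg fun _ _ => norm_nonneg _)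
            (prod_le_one (fun _ _ => norm_nonneg _) fun j _ => hc1 _ _ _)
        refine (sum_le_sum h2).trans ?_
        rw [sum_const, Nat.card_Icc, Nat.add_sub_cancel, nsmul_eq_mul, mul_one]
        have h3 : B * N / α i ≤ B * N := Nat.div_le_self _ _
        exact_mod_cast h3)
    refine le_trans ?_ h1
    rw [ct_eq]
    apply Nat.cast_le.2
    apply card_le_card
    intro v hv
    rw [mem_filter] at hv ⊢
    refine ⟨hv.1, fun hcon => hv.2 ?_⟩
    intro l I X hX
    have h4 := hcon (eq (l, I)) X hX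
    simp only [Equiv.symm_apply_apply] at h4
    refine le_trans (le_of_eq ?_) h4
    congr 1
    apply sum_congr rfl
    intro n _
    rw [Function.update_self]
    have h5 : ∏ j ∈ univ.erase i, c j I (α j * n + s j (Function.update m i v j)) =
        ∏ j ∈ univ.erase i, c j I (α j * n + s j (m j)) := by
      apply prod_congr rfl
      intro j hj
      rw [Function.update_of_ne (mem_erase.1 hj).1]
    rw [h5]
    ring
  have hX : 0 ≤ ∏ i, (x i : ℝ) := prod_nonneg fun _ _ => Nat.cast_nonneg _
  have hcov : ct (Fintype.piFinset fun i => Icc 1 (x i)) (fun m => ¬ ∀ l, ∀ X : ℕ, (∀ i, α i * X ≤ B * N) →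
          ‖∑ n ∈ Icc 1 X, w l n * (∏ j, exI (a j) (α j * n + s j (m j)) -
            ∏ j, exI (b j) (α j * n + s j (m j)))‖ ≤ ε * N) ≤
      ∑ i : Fin k, ct (Fintype.piFinset fun j => Icc 1 (x j)) (fun m => ¬ ∀ l, ∀ I : Finset (Fin k),
        ∀ X : ℕ, α i * X ≤ B * N →
          ‖∑ n ∈ Icc 1 X, w l n * (exI (g i) (α i * n + s i (m i)) *
            ∏ j ∈ univ.erase i, c j I (α j * n + s j (m j)))‖ ≤ ε' * N) := by
    apply ct_union
    intro m _ hm
    by_contra hcon
    push Not at hcon
    apply hm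
    intro l X hXb
    have htel : ∀ I : Finset (Fin k), ‖∑ n ∈ Icc 1 X, w l n * (∏ j, exI (a j) (α j * n + s j (m j)) -
            ∏ j, c j I (α j * n + s j (m j)))‖ ≤ (I.card : ℝ) * (2 * (ε' * N)) := by
      intro I
      induction I using Finset.induction_on with
      | empty =>
        have h6 : ∀ n ∈ Icc 1 X, w l n * (∏ j, exI (a j) (α j * n + s j (m j)) -
            ∏ j, c j ∅ (α j * n + s j (m j))) = 0 := by
          intro n _
          simp only [hc, notMem_empty, if_false, sub_self, mul_zero]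
        rw [sum_congr rfl h6]
        simp
      | insert i I hi ih =>
        have h7 : ∀ n ∈ Icc 1 X, w l n * (∏ j, exI (a j) (α j * n + s j (m j)) -
            ∏ j, c j (insert i I) (α j * n + s j (m j))) =
            w l n * (∏ j, exI (a j) (α j * n + s j (m j)) - ∏ j, c j I (α j * n + s j (m j))) +
            2 * (w l n * (exI (g i) (α i * n + s i (m i)) *
              ∏ j ∈ univ.erase i, c j I (α j * n + s j (m j)))) := by
          intro n _
          have h8 : ∏ j, c j I (α j * n + s j (m j)) = exI (a i) (α i * n + s i (m i)) *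
              ∏ j ∈ univ.erase i, c j I (α j * n + s j (m j)) := by
            rw [← mul_prod_erase univ _ (mem_univ i)]
            simp only [hc, hi, if_false]
          have h9 : ∏ j, c j (insert i I) (α j * n + s j (m j)) = exI (b i) (α i * n + s i (m i)) *
              ∏ j ∈ univ.erase i, c j I (α j * n + s j (m j)) := by
            rw [← mul_prod_erase univ _ (mem_univ i)]
            congr 1
            · simp only [hc, mem_insert_self, if_true]
            · apply prod_congr rfl
              intro j hj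
              simp only [hc, mem_insert, (mem_erase.1 hj).1, false_or]
          have h10 : exI (a i) (α i * n + s i (m i)) - exI (b i) (α i * n + s i (m i)) =
              2 * exI (g i) (α i * n + s i (m i)) := by
            unfold exI
            split_ifs
            · simp only [hg]; ring
            · ring
          rw [h8, h9]
          linear_combination (w l n * ∏ j ∈ univ.erase i, c j I (α j * n + s j (m j))) * h10
        rw [sum_congr rfl h7, sum_add_distrib, ← mul_sum]
        refine (norm_add_le _ _).trans ?_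
        rw [norm_mul, card_insert_of_notMem hi]
        have h12 := hcon i (mem_univ i) l I X (hXb i)
        have h13 : ‖(2 : ℂ)‖ = 2 := by norm_num
        rw [h13]
        push_cast
        nlinarith [ih, h12]
    have h14 := htel univ
    have h15 : ∀ n, ∏ j, c j univ (α j * n + s j (m j)) = ∏ j, exI (b j) (α j * n + s j (m j)) := by
      intro n
      apply prod_congr rfl
      intro j _
      simp only [hc, mem_univ, if_true]
    simp only [card_univ, Fintype.card_fin] at h14
    refine le_trans (le_of_eq ?_) (h14.trans ?_)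
    · congr 1
      apply sum_congr rfl
      intro n _
      simp only [hc, mem_univ, if_true]
    · rw [hε']
      have hN0 : (0 : ℝ) ≤ N := Nat.cast_nonneg _
      have h16 : (k : ℝ) * (2 * (ε / (2 * (k + 1)) * N)) = (k / (k + 1)) * (ε * N) := by
        field_simp
      rw [h16]
      have h17 : (k : ℝ) / (k + 1) ≤ 1 := by
        rw [div_le_one (by positivity)]
        linarith
      exact mul_le_of_le_one_left (by positivity) h17
  refine hcov.trans ?_
  refine (sum_le_sum fun i _ => hone i).trans ?_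
  rw [sum_const, card_univ, Fintype.card_fin, nsmul_eq_mul, ← mul_assoc]
  exact mul_le_mul_of_nonneg_right hky hX

end Pool.Agent.Run7.h504.WW
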