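import Pool.Agent.Run7.h504.WW2
import Pool.Agent.H373R2.T7.BilE

set_option autoImplicit false

/-!
# Displaced products along orbits
-/

open Finset MeasureTheory Filter Topology
open scoped ComplexConjugate

namespace Pool.Agent.Run7.h504.WW

open Pool.Agent.H807R2.Dav (ee norm_ee)
open Pool.Agent.H373R2.T7 (exI energy)
open Pool.Agent.Run7.h504.RM

/-- scaling -/
lemma sup_scale {z : ℕ → ℂ} (h : Sup (fun n => (1 / 2 : ℂ) * z n)) : Sup z := by
  intro ε hε
  obtain ⟨N0, hN0⟩ := h (ε / 2) (by positivity)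
  refine ⟨N0, fun N hN α => ?_⟩
  have h1 := hN0 N hN α
  have h2 : ∑ n ∈ Icc 1 N, (1 / 2 : ℂ) * z n * ee ((n : ℝ) * α) = (1 / 2 : ℂ) * ∑ n ∈ Icc 1 N, z n * ee ((n : ℝ) * α) := by
    rw [mul_sum]
    exact sum_congr rfl fun n _ => by ring
  rw [h2, norm_mul] at h1
  have h3 : ‖(1 / 2 : ℂ)‖ = 1 / 2 := by norm_num
  rw [h3] at h1
  linarith

/-- **Uniform Wiener–Wintner**, functions bounded by `2`. -/
theorem ww2 {X : Type*} [MeasurableSpace X] {μ : Measure X} [IsProbabilityMeasure μ] {T : X → X}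
    (hT : MeasurePreserving T μ μ) (g : X → ℂ) (hf : Measurable g) (hb : ∀ x, ‖g x‖ ≤ 2)
    (hw : Tendsto (fun H : ℕ => (H : ℝ)⁻¹ * ∑ l ∈ range H,
      ∫ x, ‖(μ[fun x => g (T^[l] x) * conj (g x) | MeasurableSpace.invariants T]) x‖ ∂μ) atTop (𝓝 0)) :
    ∀ᵐ x ∂μ, Sup (fun n => g (T^[n] x)) := by
  have h1 : ∀ l : ℕ, ∫ x, ‖(μ[fun x => ((1 / 2 : ℂ) * g (T^[l] x)) * conj ((1 / 2 : ℂ) * g x) |
      MeasurableSpace.invariants T]) x‖ ∂μ =
      (1 / 4 : ℝ) * ∫ x, ‖(μ[fun x => g (T^[l] x) * conj (g x) | MeasurableSpace.invariants T]) x‖ ∂μ := by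
    intro l
    have h2 : (fun x => ((1 / 2 : ℂ) * g (T^[l] x)) * conj ((1 / 2 : ℂ) * g x)) =
        (1 / 4 : ℂ) • (fun x => g (T^[l] x) * conj (g x)) := by
      funext x
      simp only [Pi.smul_apply, smul_eq_mul, map_mul]
      have : conj (1 / 2 : ℂ) = 1 / 2 := by
        rw [show (1 / 2 : ℂ) = ((1 / 2 : ℝ) : ℂ) by push_cast; rfl, Complex.conj_ofReal]
      rw [this]
      ring
    rw [h2, ← integral_const_mul]
    apply integral_congr_ae
    filter_upwards [condExp_smul (μ := μ) (1 / 4 : ℂ) (fun x => g (T^[l] x) * conj (g x))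
      (MeasurableSpace.invariants T)] with x hx
    rw [hx, Pi.smul_apply, norm_smul]
    congr 1
    norm_num
  have h3 := ww hT (fun x => (1 / 2 : ℂ) * g x) (measurable_const.mul hf) (fun x => by
    rw [norm_mul]
    have h3 : ‖(1 / 2 : ℂ)‖ = 1 / 2 := by norm_num
    rw [h3]
    linarith [hb x]) (by
      have h4 := hw.const_mul (1 / 4 : ℝ)
      rw [mul_zero] at h4
      refine h4.congr fun H => ?_
      rw [sum_congr rfl fun l _ => h1 l, ← mul_sum]
      ring)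
  filter_upwards [h3] with x hx
  exact sup_scale hx

/-- the additive energy of a family of natural numbers -/
def en (p y : ℕ) (s : ℕ → ℕ) : ℕ :=
  (((Fintype.piFinset fun _ : Fin p => Icc 1 y) ×ˢ (Fintype.piFinset fun _ : Fin p => Icc 1 y)).filter
    (fun q => ∑ i, s (q.1 i) = ∑ i, s (q.2 i))).card

lemma en_eq (p y : ℕ) (s : ℕ → ℕ) : energy p y (fun m => (s m : ℤ)) = en p y s := by
  unfold energy en
  congr 1
  apply filter_congr
  intro q _
  push_cast [← Nat.cast_sum]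
  exact_mod_cast Iff.rfl

theorem displaced {X : Type*} [MeasurableSpace X] (μ : Measure X) [IsProbabilityMeasure μ] (k : ℕ) (T : Fin k → X → X)
    (hT : ∀ j, MeasurePreserving (T j) μ μ) (f e : Fin k → X → ℂ) (hf : ∀ j, Measurable (f j))
    (he : ∀ j, Measurable (e j)) (hf1 : ∀ j x, ‖f j x‖ ≤ 1) (he1 : ∀ j x, ‖e j x‖ ≤ 1)
    (hm : ∀ j, Tendsto (fun H : ℕ => (H : ℝ)⁻¹ * ∑ l ∈ range H,
      ∫ x, ‖(μ[fun x => (f j ((T j)^[l] x) - e j ((T j)^[l] x)) * conj (f j x - e j x) |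
        MeasurableSpace.invariants (T j)]) x‖ ∂μ) atTop (𝓝 0)) :
    ∀ᵐ x ∂μ, ∀ (h B W : ℕ) (K ε : ℝ), 0 < ε → ∃ N₀ : ℕ, ∀ N : ℕ, N₀ ≤ N →
      ∀ (y : Fin k → ℕ) (s : Fin k → ℕ → ℕ),
      (∀ j, (∀ m ∈ Icc 1 (y j), s j m ≤ B * N) ∧
        ∃ p : ℕ, 1 ≤ p ∧ p ≤ h ∧ (en p (y j) (s j) : ℝ) * N ≤ K * (y j : ℝ) ^ (2 * p)) →
      ∀ α : Fin k → ℕ, (∀ j, 1 ≤ α j ∧ α j ≤ B) → ∀ w : Fin W → ℕ → ℂ, (∀ l n, ‖w l n‖ ≤ 1) →
      ct (Fintype.piFinset fun j => Icc 1 (y j)) (fun m => ¬ ∀ l, ∀ M ≤ N,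
        ‖∑ n ∈ Icc 1 M, w l n * (∏ j, f j ((T j)^[α j * n + s j (m j)] x) -
          ∏ j, e j ((T j)^[α j * n + s j (m j)] x))‖ ≤ ε * N) ≤ ε * ∏ j, (y j : ℝ) := by
  have h1 : ∀ j, ∀ᵐ x ∂μ, Sup (fun n => f j ((T j)^[n] x) - e j ((T j)^[n] x)) := by
    intro j
    apply ww2 (hT j) (fun x => f j x - e j x) ((hf j).sub (he j)) _ (hm j)
    intro x
    refine (norm_sub_le _ _).trans ?_
    linarith [hf1 j x, he1 j x]
  rw [← ae_all_iff] at h1
  filter_upwards [h1] with x hx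
  intro h B W K ε hε
  obtain ⟨N0, hN0⟩ := tup2 h B W k K ε hε (fun j n => f j ((T j)^[n] x)) (fun j n => e j ((T j)^[n] x))
    (fun j n => hf1 j _) (fun j n => he1 j _) hx
  refine ⟨N0, fun N hN y s hs α hα w hw => ?_⟩
  have h2 := hN0 N hN y (fun j m => (s j m : ℤ)) (fun j => ⟨fun m hm => ?_, ?_⟩) α (fun j => (hα j).1) w hw
  · refine le_trans (ct_mono ?_) h2
    intro m _ hbad hgood
    apply hbad
    intro l M hM
    have h3 := hgood l M (fun j => Nat.mul_le_mul (hα j).2 hM)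
    refine le_trans (le_of_eq ?_) h3
    congr 1
    apply sum_congr rfl
    intro n hn
    have hn1 := (mem_Icc.1 hn).1
    have h4 : ∀ (u : ℕ → ℂ) (j : Fin k), exI u ((α j : ℤ) * (n : ℤ) + ((s j (m j) : ℕ) : ℤ)) = u (α j * n + s j (m j)) := by
      intro u j
      unfold exI
      have h5 : 1 ≤ α j * n + s j (m j) := by
        have := Nat.mul_le_mul (hα j).1 hn1
        omega
      have h6 : ((α j : ℤ) * (n : ℤ) + ((s j (m j) : ℕ) : ℤ)) = ((α j * n + s j (m j) : ℕ) : ℤ) := by push_cast; ring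
      rw [h6, if_pos (by exact_mod_cast h5), Int.toNat_natCast]
    congr 2
    · exact prod_congr rfl fun j _ => (h4 (fun n => f j ((T j)^[n] x)) j).symm
    · exact prod_congr rfl fun j _ => (h4 (fun n => e j ((T j)^[n] x)) j).symm
  · have := (hs j).1 m hm
    rw [abs_of_nonneg (by positivity)]
    exact_mod_cast this
  · simp only [en_eq]
    exact (hs j).2

/-- for ergodic maps the conditional expectation onto the invariant sets is the mean -/
lemma condExp_const {X : Type*} [MeasurableSpace X] {μ : Measure X} [IsProbabilityMeasure μ] {T : X → X}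
    (hT : Ergodic T μ) (φ : X → ℂ) :
    μ[φ | MeasurableSpace.invariants T] =ᵐ[μ] fun _ => ∫ x, φ x ∂μ := by
  have h1 : StronglyMeasurable[MeasurableSpace.invariants T] (μ[φ | MeasurableSpace.invariants T]) :=
    stronglyMeasurable_condExp
  have h2 : (μ[φ | MeasurableSpace.invariants T]) ∘ T = μ[φ | MeasurableSpace.invariants T] :=
    MeasurableSpace.comp_eq_of_measurable_invariants h1.measurable
  have h3 : AEStronglyMeasurable (μ[φ | MeasurableSpace.invariants T]) μ :=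
    (h1.mono (MeasurableSpace.invariants_le T)).aestronglyMeasurable
  obtain ⟨c, hc⟩ := hT.ae_eq_const_of_ae_eq_comp_ae h3 (Eventually.of_forall fun x => congrFun h2 x)
  have h4 : ∫ x, φ x ∂μ = c := by
    rw [← integral_condExp (MeasurableSpace.invariants_le T), integral_congr_ae hc]
    simp
  rw [h4]
  exact hc

open Polynomial in
/-- the energy of polynomial values -/
theorem en_poly (P : ℕ[X]) (hd : 1 ≤ P.natDegree) :
    ∃ p : ℕ, ∃ C : ℝ, 1 ≤ p ∧ 0 < C ∧ ∀ y : ℕ, 1 ≤ y →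
      (en p y (fun m => P.eval m) : ℝ) * (y : ℝ) ^ P.natDegree ≤ C * (y : ℝ) ^ (2 * p) := by
  have hinj : Function.Injective (Nat.castRingHom ℤ) := Nat.cast_injective
  have hnd : (P.map (Nat.castRingHom ℤ)).natDegree = P.natDegree := natDegree_map_eq_of_injective hinj P
  have hlc : (P.map (Nat.castRingHom ℤ)).leadingCoeff = (P.leadingCoeff : ℤ) := by
    rw [leadingCoeff_map_of_injective hinj]
    rfl
  have hP : P.leadingCoeff ≠ 0 := by
    intro h0
    rw [leadingCoeff_eq_zero] at h0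
    rw [h0] at hd
    simp at hd
  obtain ⟨p, C, hC, h1⟩ := Pool.Agent.H373R2.T7.energy_poly (P.map (Nat.castRingHom ℤ)) (by rw [hnd]; exact hd)
    (by rw [hlc]; exact_mod_cast Nat.pos_of_ne_zero hP)
  have hev : (fun m : ℕ => (P.map (Nat.castRingHom ℤ)).eval (m : ℤ)) = fun m : ℕ => ((P.eval m : ℕ) : ℤ) := by
    funext m
    have := eval_natCast_map (Nat.castRingHom ℤ) P m
    simpa using this
  rw [hnd, hev] at h1
  have h2 : ∀ y : ℕ, 1 ≤ y → (en p y (fun m => P.eval m) : ℝ) * (y : ℝ) ^ P.natDegree ≤ C * (y : ℝ) ^ (2 * p) := by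
    intro y hy
    rw [← en_eq]
    exact h1 y hy
  refine ⟨p, C, ?_, hC, h2⟩
  by_contra hp
  have hp0 : p = 0 := by omega
  subst hp0
  obtain ⟨y, hy⟩ := exists_nat_gt (max C 1)
  have hy1 : (1 : ℝ) < y := (le_max_right _ _).trans_lt hy
  have h3 := h2 y (by exact_mod_cast hy1.le)
  have h4 : en 0 y (fun m => P.eval m) = 1 := by
    unfold en
    simp
  rw [h4, mul_zero, pow_zero, mul_one, Nat.cast_one, one_mul] at h3
  have h5 : (y : ℝ) ^ 1 ≤ (y : ℝ) ^ P.natDegree := pow_le_pow_right₀ hy1.le hd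
  rw [pow_one] at h5
  have : C < y := (le_max_left _ _).trans_lt hy
  linarith

end Pool.Agent.Run7.h504.WW
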