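import Pool.Agent.Run7.h504.WW3

set_option autoImplicit false

/-!
# Boxes of several variables
-/

open Finset MeasureTheory Filter Topology
open scoped ComplexConjugate

namespace Pool.Agent.Run7.h504.WW

open Pool.Agent.H807R2.Dav (ee norm_ee)
open Pool.Agent.H373R2.T7 (exI energy)
open Pool.Agent.Run7.h504.RM

/-- changing one coordinate -/
lemma swapC {k : ℕ} (x : Fin k → ℕ) (i : Fin k) (F : (Fin k → ℕ) → ℂ) :
    ∑ p ∈ (Fintype.piFinset fun j => Icc 1 (x j)) ×ˢ Icc 1 (x i), F (Function.update p.1 i p.2) =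
      ∑ p ∈ (Fintype.piFinset fun j => Icc 1 (x j)) ×ˢ Icc 1 (x i), F p.1 := by
  classical
  refine sum_nbij' (fun p => (Function.update p.1 i p.2, p.1 i)) (fun p => (Function.update p.1 i p.2, p.1 i))
    ?_ ?_ ?_ ?_ ?_
  · rintro ⟨m, v⟩ hp
    rw [mem_product, Fintype.mem_piFinset] at hp ⊢
    refine ⟨fun j => ?_, hp.1 i⟩
    change Function.update m i v j ∈ Icc 1 (x j)
    by_cases hj : j = i
    · subst hj
      rw [Function.update_self]
      exact hp.2
    · rw [Function.update_of_ne hj]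
      exact hp.1 j
  · rintro ⟨m, v⟩ hp
    rw [mem_product, Fintype.mem_piFinset] at hp ⊢
    refine ⟨fun j => ?_, hp.1 i⟩
    change Function.update m i v j ∈ Icc 1 (x j)
    by_cases hj : j = i
    · subst hj
      rw [Function.update_self]
      exact hp.2
    · rw [Function.update_of_ne hj]
      exact hp.1 j
  · rintro ⟨m, v⟩ _
    simp
  · rintro ⟨m, v⟩ _
    simp
  · rintro ⟨m, v⟩ _
    rfl

lemma box_split {k : ℕ} (x : Fin k → ℕ) (i : Fin k) (F : (Fin k → ℕ) → ℂ) :
    (x i : ℂ) * ∑ m ∈ (Fintype.piFinset fun j => Icc 1 (x j)), F m =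
      ∑ m ∈ (Fintype.piFinset fun j => Icc 1 (x j)), ∑ v ∈ Icc 1 (x i), F (Function.update m i v) := by
  classical
  have h := swapC x i F
  rw [sum_product, sum_product] at h
  simp only at h
  rw [h, mul_sum]
  apply sum_congr rfl
  intro m _
  rw [sum_const, Nat.card_Icc, Nat.add_sub_cancel, nsmul_eq_mul]

lemma en_shift (p y : ℕ) (s : ℕ → ℕ) (t : ℕ) : en p y (fun u => t + s u) = en p y s := by
  unfold en
  congr 1
  apply filter_congr
  intro q _
  simp only [sum_add_distrib, sum_const, card_univ, Fintype.card_fin]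
  constructor
  · intro h; omega
  · intro h; omega

/-- **Boxes.** -/
theorem boxes (h B W k r : ℕ) (K ε : ℝ) (hε : 0 < ε) (a b : Fin k → ℕ → ℂ) (ha : ∀ i n, ‖a i n‖ ≤ 1)
    (hb : ∀ i n, ‖b i n‖ ≤ 1) (hAp : ∀ i, Sup (fun n => a i n - b i n)) :
    ∃ N₀ : ℕ, ∀ (M : Fin r → ℕ) (i₀ : Fin r), (∀ i, M i ≤ B * M i₀) → N₀ ≤ M i₀ → ∀ (y : Fin k → ℕ) (s : Fin k → ℕ → ℕ),
      (∀ j, (∀ u ∈ Icc 1 (y j), s j u ≤ B * M i₀) ∧
        ∃ p : ℕ, 1 ≤ p ∧ p ≤ h ∧ (en p (y j) (s j) : ℝ) * M i₀ ≤ K * (y j : ℝ) ^ (2 * p)) →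
      ∀ c : Fin k → Fin r → ℕ, (∀ j, 1 ≤ c j i₀) → (∀ j i, c j i ≤ B) →
      ∀ w : Fin W → (Fin r → ℕ) → ℂ, (∀ l m, ‖w l m‖ ≤ 1) →
      ct (Fintype.piFinset fun j => Icc 1 (y j)) (fun u => ¬ ∀ l,
        ‖∑ m ∈ Fintype.piFinset fun i => Icc 1 (M i), w l m * (∏ j, a j (∑ i, c j i * m i + s j (u j)) -
          ∏ j, b j (∑ i, c j i * m i + s j (u j)))‖ ≤ ε * ∏ i, (M i : ℝ)) ≤ ε * ∏ j, (y j : ℝ) := by
  classical
  set ε0 : ℝ := min ε 1 with hε0
  have hε00 : 0 < ε0 := lt_min hε one_pos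
  have hε01 : ε0 ≤ 1 := min_le_right _ _
  have hε0e : ε0 ≤ ε := min_le_left _ _
  set ε' : ℝ := ε0 ^ 2 / 8 with hε'
  have hε'0 : 0 < ε' := by positivity
  obtain ⟨N0, hN0⟩ := tup2 h (B + r * (B * B)) W k K ε' hε'0 a b ha hb hAp
  refine ⟨max N0 1, fun M i₀ hMB hM y s hs c hc1 hcB w hw => ?_⟩
  set N := M i₀ with hN
  have hNN0 : N0 ≤ N := (le_max_left _ _).trans hM
  have hN1 : 1 ≤ N := (le_max_right _ _).trans hM
  have hN1r : (0 : ℝ) < N := by exact_mod_cast hN1
  set box := Fintype.piFinset fun i => Icc 1 (M i) with hbox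
  set Y := Fintype.piFinset fun j => Icc 1 (y j) with hY
  have hcard : (box.card : ℝ) = ∏ i, (M i : ℝ) := by
    rw [hbox, Fintype.card_piFinset]
    simp
  set R : Fin k → (Fin r → ℕ) → ℕ := fun j m => ∑ i ∈ univ.erase i₀, c j i * m i with hR
  set inner : Fin W → (Fin k → ℕ) → (Fin r → ℕ) → ℂ := fun l u m => ∑ v ∈ Icc 1 N, w l (Function.update m i₀ v) *
    (∏ j, a j (c j i₀ * v + (R j m + s j (u j))) - ∏ j, b j (c j i₀ * v + (R j m + s j (u j)))) with hinner
  -- the sum over one coordinate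
  have hone : ∀ m ∈ box, ct Y (fun u => ¬ ∀ l, ‖inner l u m‖ ≤ ε' * N) ≤ ε' * ∏ j, (y j : ℝ) := by
    intro m hm
    have hRb : ∀ j, R j m ≤ r * (B * B) * N := by
      intro j
      calc R j m ≤ ∑ i ∈ univ.erase i₀, B * (B * N) := by
            apply sum_le_sum
            intro i _
            have hmi := (mem_Icc.1 (Fintype.mem_piFinset.1 hm i)).2
            exact Nat.mul_le_mul (hcB j i) (hmi.trans (hMB i))
        _ ≤ ∑ _i : Fin r, B * (B * N) := sum_le_sum_of_subset (erase_subset _ _)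
        _ = r * (B * B) * N := by
            rw [sum_const, card_univ, Fintype.card_fin, smul_eq_mul]; ring
    have h1 := hN0 N hNN0 y (fun j u => ((R j m + s j u : ℕ) : ℤ)) (fun j => ⟨fun u hu => ?_, ?_⟩)
      (fun j => c j i₀) hc1 (fun l v => w l (Function.update m i₀ v)) (fun l v => hw _ _)
    · refine le_trans (ct_mono ?_) h1
      intro u _ hbad hgood
      apply hbad
      intro l
      have h3 := hgood l N (fun j => Nat.mul_le_mul ((hcB j i₀).trans (Nat.le_add_right _ _)) le_rfl)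
      refine le_trans (le_of_eq ?_) h3
      simp only [hinner]
      congr 1
      apply sum_congr rfl
      intro v hv
      have hv1 := (mem_Icc.1 hv).1
      have h4 : ∀ (z : ℕ → ℂ) (j : Fin k), exI z ((c j i₀ : ℤ) * (v : ℤ) + ((R j m + s j (u j) : ℕ) : ℤ)) =
          z (c j i₀ * v + (R j m + s j (u j))) := by
        intro z j
        unfold exI
        have h5 : 1 ≤ c j i₀ * v + (R j m + s j (u j)) := by
          have := Nat.mul_le_mul (hc1 j) hv1
          omega
        have h6 : ((c j i₀ : ℤ) * (v : ℤ) + ((R j m + s j (u j) : ℕ) : ℤ)) =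
            ((c j i₀ * v + (R j m + s j (u j)) : ℕ) : ℤ) := by push_cast; ring
        rw [h6, if_pos (by exact_mod_cast h5), Int.toNat_natCast]
      congr 2
      · exact prod_congr rfl fun j _ => (h4 (a j) j).symm
      · exact prod_congr rfl fun j _ => (h4 (b j) j).symm
    · have h2 := (hs j).1 u hu
      have h3 := hRb j
      rw [abs_of_nonneg (by positivity)]
      have : R j m + s j u ≤ (B + r * (B * B)) * N := by
        calc R j m + s j u ≤ r * (B * B) * N + B * N := Nat.add_le_add h3 h2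
          _ = _ := by ring
      exact_mod_cast this
    · obtain ⟨p, hp1, hp2, hE⟩ := (hs j).2
      refine ⟨p, hp1, hp2, ?_⟩
      rw [en_eq, en_shift]
      exact hE
  -- the number of the bad points of the box
  have hYn : 0 ≤ ∏ j, (y j : ℝ) := prod_nonneg fun _ _ => Nat.cast_nonneg _
  have hdouble : ∑ u ∈ Y, ct box (fun m => ¬ ∀ l, ‖inner l u m‖ ≤ ε' * N) ≤ box.card * (ε' * ∏ j, (y j : ℝ)) := by
    have h1 : ∑ u ∈ Y, ct box (fun m => ¬ ∀ l, ‖inner l u m‖ ≤ ε' * N) =
        ∑ m ∈ box, ct Y (fun u => ¬ ∀ l, ‖inner l u m‖ ≤ ε' * N) := by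
      simp only [ct_eq, card_filter, Nat.cast_sum]
      rw [sum_comm]
    rw [h1]
    refine (sum_le_sum hone).trans ?_
    rw [sum_const, nsmul_eq_mul]
  have hbad : ct Y (fun u => ¬ ct box (fun m => ¬ ∀ l, ‖inner l u m‖ ≤ ε' * N) ≤ ε0 / 4 * box.card) ≤
      ε * ∏ j, (y j : ℝ) := by
    rcases Nat.eq_zero_or_pos box.card with h0 | h0
    · have hemp : box = ∅ := card_eq_zero.1 h0
      have h1 : ct Y (fun u => ¬ ct box (fun m => ¬ ∀ l, ‖inner l u m‖ ≤ ε' * N) ≤ ε0 / 4 * box.card) = 0 := by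
        rw [ct_eq, Nat.cast_eq_zero, card_eq_zero, filter_eq_empty_iff]
        intro u _
        rw [not_not, hemp, ct_eq]
        simp
      rw [h1]
      positivity
    · have hb0 : (0 : ℝ) < box.card := by exact_mod_cast h0
      have h1 : ct Y (fun u => ¬ ct box (fun m => ¬ ∀ l, ‖inner l u m‖ ≤ ε' * N) ≤ ε0 / 4 * box.card) *
          (ε0 / 4 * box.card) ≤ ∑ u ∈ Y, ct box (fun m => ¬ ∀ l, ‖inner l u m‖ ≤ ε' * N) := by
        rw [ct_eq, ← nsmul_eq_mul, ← sum_const]
        refine le_trans (sum_le_sum fun u hu => ?_) (sum_le_sum_of_subset_of_nonneg (filter_subset _ _) fun u _ _ => by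
          rw [ct_eq]; exact Nat.cast_nonneg _)
        exact (not_le.1 (mem_filter.1 hu).2).le
      have h2 := h1.trans hdouble
      have h3 : ct Y (fun u => ¬ ct box (fun m => ¬ ∀ l, ‖inner l u m‖ ≤ ε' * N) ≤ ε0 / 4 * box.card) ≤
          (ε0 / 2) * ∏ j, (y j : ℝ) := by
        have h4 : (0 : ℝ) < ε0 / 4 * box.card := by positivity
        refine le_of_mul_le_mul_right (h2.trans (le_of_eq ?_)) h4
        rw [hε']
        ring
      refine h3.trans (mul_le_mul_of_nonneg_right ?_ hYn)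
      linarith
  refine le_trans (ct_mono ?_) hbad
  intro u _ hcon hgood
  apply hcon
  intro l
  set Fm : (Fin r → ℕ) → ℂ := fun m => w l m * (∏ j, a j (∑ i, c j i * m i + s j (u j)) -
          ∏ j, b j (∑ i, c j i * m i + s j (u j))) with hFm
  have hsp := box_split M i₀ Fm
  have hin : ∀ m, ∑ v ∈ Icc 1 (M i₀), Fm (Function.update m i₀ v) = inner l u m := by
    intro m
    simp only [hFm, hinner]
    apply sum_congr rfl
    intro v _
    have h1 : ∀ j, ∑ i, c j i * (Function.update m i₀ v) i + s j (u j) = c j i₀ * v + (R j m + s j (u j)) := by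
      intro j
      rw [← add_sum_erase univ _ (mem_univ i₀), Function.update_self]
      have h2 : ∑ i ∈ univ.erase i₀, c j i * (Function.update m i₀ v) i = R j m := by
        simp only [hR]
        apply sum_congr rfl
        intro i hi
        rw [Function.update_of_ne (mem_erase.1 hi).1]
      rw [h2]
      ring
    simp only [h1]
  simp only [hin] at hsp
  have htriv : ∀ m, ‖inner l u m‖ ≤ 2 * N := by
    intro m
    simp only [hinner]
    refine (norm_sum_le _ _).trans ?_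
    have h1 : ∀ v ∈ Icc 1 N, ‖w l (Function.update m i₀ v) * (∏ j, a j (c j i₀ * v + (R j m + s j (u j))) -
        ∏ j, b j (c j i₀ * v + (R j m + s j (u j))))‖ ≤ 2 := by
      intro v _
      rw [norm_mul]
      have h2 : ‖∏ j, a j (c j i₀ * v + (R j m + s j (u j))) - ∏ j, b j (c j i₀ * v + (R j m + s j (u j)))‖ ≤ 2 := by
        refine (norm_sub_le _ _).trans ?_
        rw [norm_prod, norm_prod]
        have h3 : ∏ j, ‖a j (c j i₀ * v + (R j m + s j (u j)))‖ ≤ 1 := prod_le_one (fun _ _ => norm_nonneg _) fun j _ => ha j _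
        have h4 : ∏ j, ‖b j (c j i₀ * v + (R j m + s j (u j)))‖ ≤ 1 := prod_le_one (fun _ _ => norm_nonneg _) fun j _ => hb j _
        linarith
      have h5 := hw l (Function.update m i₀ v)
      calc _ ≤ 1 * 2 := mul_le_mul h5 h2 (norm_nonneg _) zero_le_one
        _ = 2 := by norm_num
    refine (sum_le_sum h1).trans (le_of_eq ?_)
    rw [sum_const, Nat.card_Icc, Nat.add_sub_cancel, nsmul_eq_mul]
    ring
  have hsum : ∑ m ∈ box, ‖inner l u m‖ ≤ ε * N * box.card := by
    have h1 : ∀ m ∈ box, ‖inner l u m‖ ≤ ε' * N + (if ¬ ∀ l, ‖inner l u m‖ ≤ ε' * N then (1 : ℝ) else 0) * (2 * N) := by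
      intro m _
      by_cases hg : ∀ l, ‖inner l u m‖ ≤ ε' * N
      · rw [if_neg (not_not.2 hg), zero_mul, add_zero]
        exact hg l
      · rw [if_pos hg, one_mul]
        have : 0 ≤ ε' * N := by positivity
        linarith [htriv m]
    refine (sum_le_sum h1).trans ?_
    rw [sum_add_distrib, sum_const, nsmul_eq_mul, ← sum_mul]
    have h2 : ∑ m ∈ box, (if ¬ ∀ l, ‖inner l u m‖ ≤ ε' * N then (1 : ℝ) else 0) =
        ct box (fun m => ¬ ∀ l, ‖inner l u m‖ ≤ ε' * N) := by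
      rw [ct_eq, card_filter]
      push_cast
      rfl
    rw [h2]
    have h3 : ct box (fun m => ¬ ∀ l, ‖inner l u m‖ ≤ ε' * N) * (2 * N) ≤ ε0 / 4 * box.card * (2 * N) :=
      mul_le_mul_of_nonneg_right hgood (by positivity)
    have h4 : ε' ≤ ε0 / 2 := by rw [hε']; nlinarith
    have hb0 : (0 : ℝ) ≤ box.card * N := by positivity
    calc (box.card : ℝ) * (ε' * N) + ct box (fun m => ¬ ∀ l, ‖inner l u m‖ ≤ ε' * N) * (2 * N)
        ≤ box.card * (ε' * N) + ε0 / 4 * box.card * (2 * N) := by linarith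
      _ = (ε' + ε0 / 2) * (box.card * N) := by ring
      _ ≤ ε * (box.card * N) := mul_le_mul_of_nonneg_right (by linarith) hb0
      _ = ε * N * box.card := by ring
  have h1 : (N : ℝ) * ‖∑ m ∈ box, Fm m‖ ≤ N * (ε * box.card) := by
    have h2 : ‖(N : ℂ) * ∑ m ∈ box, Fm m‖ = (N : ℝ) * ‖∑ m ∈ box, Fm m‖ := by
      rw [norm_mul, Complex.norm_natCast]
    rw [← h2, hsp]
    refine (norm_sum_le _ _).trans (hsum.trans (le_of_eq ?_))
    ring
  have h3 := le_of_mul_le_mul_left h1 hN1r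
  rw [hcard] at h3
  exact h3

end Pool.Agent.Run7.h504.WW
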