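import Pool.Agent.Run7.h504.WW4

/-!
# Displaced box averages with several transformations
-/

set_option autoImplicit false

namespace Pool.Agent.Run7.h504.DisplacedBoxes

open Finset MeasureTheory Filter Topology
open scoped ComplexConjugate Polynomial

/-- The additive energy of order `p` of the family `s 1, ..., s y`: the number of the solutions of
`s (u 1) + ... + s (u p) = s (v 1) + ... + s (v p)`. -/
def energy (p y : ℕ) (s : ℕ → ℕ) : ℕ :=
  (((Fintype.piFinset fun _ : Fin p => Icc 1 y) ×ˢ (Fintype.piFinset fun _ : Fin p => Icc 1 y)).filter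
    (fun q => ∑ i, s (q.1 i) = ∑ i, s (q.2 i))).card

/-- The numbers `s 1, ..., s y` are at most `B N`, and their additive energy of some order `p ≤ h` is at most
`K y ^ (2 p) / N`. -/
def Spread (h B : ℕ) (K : ℝ) (N y : ℕ) (s : ℕ → ℕ) : Prop :=
  (∀ m ∈ Icc 1 y, s m ≤ B * N) ∧ ∃ p : ℕ, 1 ≤ p ∧ p ≤ h ∧ (energy p y s : ℝ) * N ≤ K * (y : ℝ) ^ (2 * p)

/-- The sum of `w m (∏ j, f j (T j ^ (L j m + t j) x) - ∏ j, e j (T j ^ (L j m + t j) x))` over the box of the `m` with
`1 ≤ m i ≤ M i`, where `L j m = ∑ i, c j i m i`. -/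
noncomputable def diff {X : Type*} {k r : ℕ} (T : Fin k → X → X) (f e : Fin k → X → ℂ) (x : X) (w : (Fin r → ℕ) → ℂ)
    (c : Fin k → Fin r → ℕ) (t : Fin k → ℕ) (M : Fin r → ℕ) : ℂ :=
  ∑ m ∈ Fintype.piFinset fun i => Icc 1 (M i), w m * (∏ j, f j ((T j)^[∑ i, c j i * m i + t j] x) -
    ∏ j, e j ((T j)^[∑ i, c j i * m i + t j] x))

open Classical in
/-- For all but at most `ε ∏ j, y j` of the `(u 1, ..., u k)` with `1 ≤ u j ≤ y j`, the weighted box averages with the
displacements `s j (u j)` of the products of the `f j` and of the products of the `e j` are `ε` close. -/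
def MostClose {X : Type*} {k r W : ℕ} (T : Fin k → X → X) (f e : Fin k → X → ℂ) (x : X) (w : Fin W → (Fin r → ℕ) → ℂ)
    (c : Fin k → Fin r → ℕ) (y : Fin k → ℕ) (s : Fin k → ℕ → ℕ) (M : Fin r → ℕ) (ε : ℝ) : Prop :=
  (((Fintype.piFinset fun j => Icc 1 (y j)).filter fun u =>
    ¬ ∀ l, ‖diff T f e x (w l) c (fun j => s j (u j)) M‖ ≤ ε * ∏ i, (M i : ℝ)).card : ℝ) ≤ ε * ∏ j, (y j : ℝ)

/-- Box averages with displacements from arbitrary spread families: `M i₀` is a side of the box comparable with the largest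
one, all the forms have positive coefficients there. -/
def Displaced {X : Type*} {k : ℕ} (T : Fin k → X → X) (f e : Fin k → X → ℂ) (x : X) : Prop :=
  ∀ (r h B W : ℕ) (K ε : ℝ), 0 < ε → ∃ N₀ : ℕ, ∀ (M : Fin r → ℕ) (i₀ : Fin r), (∀ i, M i ≤ B * M i₀) → N₀ ≤ M i₀ →
    ∀ (y : Fin k → ℕ) (s : Fin k → ℕ → ℕ), (∀ j, Spread h B K (M i₀) (y j) (s j)) →
    ∀ c : Fin k → Fin r → ℕ, (∀ j, 1 ≤ c j i₀) → (∀ j i, c j i ≤ B) →
    ∀ w : Fin W → (Fin r → ℕ) → ℂ, (∀ l m, ‖w l m‖ ≤ 1) → MostClose T f e x w c y s M ε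

/-- (1) Measure preserving maps `T j` of a probability space, functions `f j`, `e j` bounded by `1` such that the conditional
correlations of `f j - e j` given the invariant sets of `T j` tend to `0` on average: the box averages of the products of the
`f j` at displaced times are those of the `e j`, for almost every point, for almost all the displacements.
(2) If `T j` is ergodic and the correlations of `f j` minus its mean tend to `0` on average, then `e j` may be taken to be the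
mean of `f j`. -/
theorem result {X : Type*} [MeasurableSpace X] (μ : Measure X) [IsProbabilityMeasure μ] (k : ℕ) (T : Fin k → X → X)
    (f : Fin k → X → ℂ) (hf : ∀ j, Measurable (f j)) (hf1 : ∀ j x, ‖f j x‖ ≤ 1) :
    (∀ e : Fin k → X → ℂ, (∀ j, MeasurePreserving (T j) μ μ) → (∀ j, Measurable (e j)) → (∀ j x, ‖e j x‖ ≤ 1) →
      (∀ j, Tendsto (fun H : ℕ => (H : ℝ)⁻¹ * ∑ l ∈ range H,
        ∫ x, ‖(μ[fun x => (f j ((T j)^[l] x) - e j ((T j)^[l] x)) * conj (f j x - e j x) |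
          MeasurableSpace.invariants (T j)]) x‖ ∂μ) atTop (𝓝 0)) →
      ∀ᵐ x ∂μ, Displaced T f e x) ∧
    ((∀ j, Ergodic (T j) μ) →
      (∀ j, Tendsto (fun H : ℕ => (H : ℝ)⁻¹ * ∑ l ∈ range H,
        ‖∫ x, (f j ((T j)^[l] x) - ∫ z, f j z ∂μ) * conj (f j x - ∫ z, f j z ∂μ) ∂μ‖) atTop (𝓝 0)) →
      ∀ᵐ x ∂μ, Displaced T f (fun j _ => ∫ z, f j z ∂μ) x) := by
  have main : ∀ e : Fin k → X → ℂ, (∀ j, MeasurePreserving (T j) μ μ) → (∀ j, Measurable (e j)) → (∀ j x, ‖e j x‖ ≤ 1) →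
      (∀ j, Tendsto (fun H : ℕ => (H : ℝ)⁻¹ * ∑ l ∈ range H,
        ∫ x, ‖(μ[fun x => (f j ((T j)^[l] x) - e j ((T j)^[l] x)) * conj (f j x - e j x) |
          MeasurableSpace.invariants (T j)]) x‖ ∂μ) atTop (𝓝 0)) →
      ∀ᵐ x ∂μ, Displaced T f e x := by
    intro e hT he he1 hm
    have h1 : ∀ j, ∀ᵐ x ∂μ, Pool.Agent.Run7.h504.RM.Sup (fun n => f j ((T j)^[n] x) - e j ((T j)^[n] x)) := by
      intro j
      apply Pool.Agent.Run7.h504.WW.ww2 (hT j) (fun x => f j x - e j x) ((hf j).sub (he j)) _ (hm j)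
      intro x
      refine (norm_sub_le _ _).trans ?_
      linarith [hf1 j x, he1 j x]
    rw [← ae_all_iff] at h1
    filter_upwards [h1] with x hx
    intro r h B W K ε hε
    obtain ⟨N0, hN0⟩ := Pool.Agent.Run7.h504.WW.boxes h B W k r K ε hε (fun j n => f j ((T j)^[n] x))
      (fun j n => e j ((T j)^[n] x)) (fun j n => hf1 j _) (fun j n => he1 j _) hx
    refine ⟨N0, fun M i₀ hM1 hM2 y s hs c hc1 hc2 w hw => ?_⟩
    have h2 := hN0 M i₀ hM1 hM2 y s hs c hc1 hc2 w hw
    unfold MostClose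
    refine le_trans (le_of_eq ?_) h2
    rw [Pool.Agent.Run7.h504.RM.ct_eq]
    rfl
  refine ⟨main, fun hT hm => main _ (fun j => (hT j).toMeasurePreserving) (fun j => measurable_const) (fun j x => ?_)
    (fun j => ?_)⟩
  · refine (norm_integral_le_of_norm_le_const (C := 1) (Eventually.of_forall (hf1 j))).trans ?_
    simp
  · refine (hm j).congr fun H => ?_
    congr 1
    apply sum_congr rfl
    intro l _
    have h1 := Pool.Agent.Run7.h504.WW.condExp_const (hT j)
      (fun x => (f j ((T j)^[l] x) - ∫ z, f j z ∂μ) * conj (f j x - ∫ z, f j z ∂μ))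
    have h2 : (fun x => ‖(μ[fun x => (f j ((T j)^[l] x) - ∫ z, f j z ∂μ) * conj (f j x - ∫ z, f j z ∂μ) |
        MeasurableSpace.invariants (T j)]) x‖) =ᵐ[μ]
        fun _ => ‖∫ x, (f j ((T j)^[l] x) - ∫ z, f j z ∂μ) * conj (f j x - ∫ z, f j z ∂μ) ∂μ‖ := by
      filter_upwards [h1] with x hx
      rw [hx]
    rw [integral_congr_ae h2]
    simp

end Pool.Agent.Run7.h504.DisplacedBoxes
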